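import Pool.Agent.U316.Th.Roots

/-!
# From forms to lattices
-/

set_option autoImplicit false

open Matrix Pool.Agent.K1H99.FCC

namespace Pool.Agent.U316.Th

/-- the theta series of a lattice of covolume one in terms of the parameters of a basis -/
lemma theta_rep {B C : Matrix (Fin 3) (Fin 3) ℝ} (hCB : Cᵀ * B = 1) (hB : B.det ^ 2 = 1)
    {p : Fin 6 → ℝ} (h : Rep B p) : PD p ∧ dt p = 1 ∧ ∀ γ : ℝ, 0 < γ →
      ∑' n : Fin 3 → ℤ, Real.exp (-(Real.pi * γ) * nsq B (rv n)) = 1 + Th γ p := by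
  obtain ⟨U, hU, e⟩ := h
  have hd : (B * rm U).det ^ 2 = 1 := by
    rw [Matrix.det_mul, rm_det, mul_pow, hB]
    rcases Int.isUnit_iff.1 hU with h | h <;> rw [h] <;> norm_num
  have hd0 : (B * rm U).det ≠ 0 := by
    intro h0
    rw [h0] at hd
    norm_num at hd
  have hdt : dt p = 1 := by rw [← det_sq e, hd]
  have hPD : PD p := ⟨_, e, hd0⟩
  refine ⟨hPD, hdt, fun γ hγ => ?_⟩
  have hr : rad p = 1 := by
    unfold rad
    rw [hdt, Real.one_rpow]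
  rw [tsum_N0r _ (by simpa using summable_gauss hCB (c := Real.pi * γ) (by positivity)),
    nsq_zero, mul_zero, Real.exp_zero, ← (uact U hU).tsum_eq]
  congr 1
  unfold Th
  refine tsum_congr fun n => ?_
  show Real.exp (-(Real.pi * γ) * nsq B (rv (U.mulVec n.1))) = _
  rw [← nsq_mul_rm, nsq_eq e, hr, div_one]
  congr 1
  ring

/-- the cube root of two -/
lemma mm_inv_cube : (mm⁻¹ ^ 2) ^ 3 * 4 = 1 := by
  have h := mm_cube
  have h0 := mm_pos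
  have e : (mm⁻¹ ^ 2) ^ 3 = ((mm ^ 3)⁻¹) ^ 2 := by
    rw [← pow_mul, inv_pow, inv_pow, ← pow_mul]
  rw [e, h]
  norm_num

/-- the basis of the body-centred cubic lattice -/
noncomputable def M0 : Matrix (Fin 3) (Fin 3) ℝ :=
  (2:ℝ) ^ ((1:ℝ) / 3) • !![(1:ℝ), 0, 1 / 2; 0, 1, 1 / 2; 0, 0, 1 / 2]

/-- basis change -/
def U0 : Matrix (Fin 3) (Fin 3) ℤ := !![1, 1, -1; 1, -1, 0; 1, 0, 0]

lemma U0u : IsUnit U0.det := by decide

lemma U0tu : IsUnit U0ᵀ.det := by decide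

/-- the dual basis -/
noncomputable def B0 : Matrix (Fin 3) (Fin 3) ℝ :=
  mm⁻¹ • !![(1:ℝ), 0, 0; 0, 1, 0; -1, -1, 2]

lemma B0_M0 : B0ᵀ * M0 = 1 := by
  have h0 := mm_pos.ne'
  unfold B0 M0
  change (mm⁻¹ • !![(1:ℝ), 0, 0; 0, 1, 0; -1, -1, 2])ᵀ * (mm • _) = 1
  rw [Matrix.transpose_smul, Matrix.smul_mul, Matrix.mul_smul, smul_smul, inv_mul_cancel₀ h0,
    one_smul]
  ext i j
  fin_cases i <;> fin_cases j <;> simp [Matrix.mul_apply, Fin.sum_univ_three]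

lemma M0_det : M0.det = 1 := by
  unfold M0
  change (mm • _ : Matrix (Fin 3) (Fin 3) ℝ).det = 1
  rw [Matrix.det_smul, Fintype.card_fin, mm_cube, Matrix.det_fin_three]
  simp

lemma B0_U0 : B0 * rm U0 = mm⁻¹ • Cm := by
  unfold B0 U0 Cm rm
  rw [Matrix.smul_mul]
  congr 1
  ext i j
  fin_cases i <;> fin_cases j <;> simp [Matrix.mul_apply, Fin.sum_univ_three] <;> norm_num

lemma Qm_smul (c : ℝ) (p : Fin 6 → ℝ) : Qm (c • p) = c • Qm p := by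
  unfold Qm
  ext i j
  fin_cases i <;> fin_cases j <;> simp <;> ring

lemma C_gram : (mm⁻¹ • Cm)ᵀ * (mm⁻¹ • Cm) = Qm (mm⁻¹ ^ 2 • Fp) := by
  rw [Matrix.transpose_smul, Matrix.smul_mul, Matrix.mul_smul, smul_smul, Cm_gram, Qm_smul, sq]

lemma B0_rep : Rep B0 (mm⁻¹ ^ 2 • Fp) := ⟨U0, U0u, by rw [B0_U0, C_gram]⟩

lemma B0_det : B0.det ^ 2 = 1 := by
  have h := congrArg Matrix.det B0_M0
  rw [Matrix.det_mul, Matrix.det_transpose, M0_det, mul_one, Matrix.det_one] at h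
  rw [h, one_pow]

/-- the lattices are determined by the Gram matrices of the dual bases -/
lemma lattice_of {A B : Matrix (Fin 3) (Fin 3) ℝ} (hBA : Bᵀ * A = 1)
    {U : Matrix (Fin 3) (Fin 3) ℤ} (hU : IsUnit U.det)
    (e : (B * rm U)ᵀ * (B * rm U) = Qm (mm⁻¹ ^ 2 • Fp)) :
    ∃ R ∈ Matrix.orthogonalGroup (Fin 3) ℝ, ∃ W : Matrix (Fin 3) (Fin 3) ℤ, IsUnit W.det ∧
      A = R * M0 * rm W := by
  have h0 := mm_pos
  set C : Matrix (Fin 3) (Fin 3) ℝ := mm⁻¹ • Cm with hC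
  have hCd : C.det ≠ 0 := by
    rw [hC, Matrix.det_smul, Cm_det]
    have : mm⁻¹ ≠ 0 := inv_ne_zero h0.ne'
    exact mul_ne_zero (pow_ne_zero _ this) (by norm_num)
  have hCu : IsUnit C.det := isUnit_iff_ne_zero.2 hCd
  set B1 := B * rm U with hB1
  have hg : B1ᵀ * B1 = Cᵀ * C := by rw [e, hC, C_gram]
  set R := B1 * C⁻¹ with hR
  have hRR : Rᵀ * R = 1 := by
    rw [hR, Matrix.transpose_mul, Matrix.mul_assoc, ← Matrix.mul_assoc B1ᵀ, hg,
      Matrix.mul_assoc Cᵀ, Matrix.mul_nonsing_inv _ hCu, Matrix.mul_one, ← Matrix.transpose_mul,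
      Matrix.mul_nonsing_inv _ hCu, Matrix.transpose_one]
  have hR2 : R * Rᵀ = 1 := mul_eq_one_comm.1 hRR
  have hRC : R * C = B1 := by
    rw [hR, Matrix.mul_assoc, Matrix.nonsing_inv_mul _ hCu, Matrix.mul_one]
  have hUt : IsUnit (Uᵀ).det := by rw [Matrix.det_transpose]; exact hU
  refine ⟨R, ?_, (U0ᵀ)⁻¹ * Uᵀ, ?_, ?_⟩
  · rw [Matrix.mem_orthogonalGroup_iff]
    exact hR2
  · rw [Matrix.det_mul]
    exact ((Matrix.isUnit_nonsing_inv_det_iff).2 U0tu).mul hUt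
  · -- multiply by `Cᵀ * Rᵀ`
    have k1 : Cᵀ * Rᵀ * A = (rm U)ᵀ := by
      rw [← Matrix.transpose_mul, hRC, hB1, Matrix.transpose_mul, Matrix.mul_assoc, hBA,
        Matrix.mul_one]
    have k2 : Cᵀ * M0 = rm U0ᵀ := by
      have : Cᵀ = (rm U0)ᵀ * B0ᵀ := by rw [← Matrix.transpose_mul, B0_U0]
      rw [this, Matrix.mul_assoc, B0_M0, Matrix.mul_one]
      rfl
    have k3 : Cᵀ * Rᵀ * (R * M0 * rm ((U0ᵀ)⁻¹ * Uᵀ)) = (rm U)ᵀ := by
      calc Cᵀ * Rᵀ * (R * M0 * rm ((U0ᵀ)⁻¹ * Uᵀ))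
          = Cᵀ * (Rᵀ * R) * M0 * rm ((U0ᵀ)⁻¹ * Uᵀ) := by simp only [Matrix.mul_assoc]
        _ = rm U0ᵀ * rm ((U0ᵀ)⁻¹ * Uᵀ) := by rw [hRR, Matrix.mul_one, k2]
        _ = rm (U0ᵀ * (U0ᵀ)⁻¹ * Uᵀ) := by rw [← rm_mul, Matrix.mul_assoc]
        _ = (rm U)ᵀ := by
          rw [Matrix.mul_nonsing_inv _ U0tu, Matrix.one_mul]
          rfl
    have k4 : (R * (Cᵀ)⁻¹) * (Cᵀ * Rᵀ) = 1 := by
      have hCtu : IsUnit (Cᵀ).det := by rw [Matrix.det_transpose]; exact hCu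
      calc (R * (Cᵀ)⁻¹) * (Cᵀ * Rᵀ) = R * ((Cᵀ)⁻¹ * Cᵀ) * Rᵀ := by simp only [Matrix.mul_assoc]
        _ = 1 := by rw [Matrix.nonsing_inv_mul _ hCtu, Matrix.mul_one, hR2]
    calc A = (R * (Cᵀ)⁻¹) * (Cᵀ * Rᵀ) * A := by rw [k4, Matrix.one_mul]
      _ = (R * (Cᵀ)⁻¹) * (Cᵀ * Rᵀ * A) := by simp only [Matrix.mul_assoc]
      _ = (R * (Cᵀ)⁻¹) * (Cᵀ * Rᵀ * (R * M0 * rm ((U0ᵀ)⁻¹ * Uᵀ))) := by rw [k1, k3]
      _ = (R * (Cᵀ)⁻¹) * (Cᵀ * Rᵀ) * (R * M0 * rm ((U0ᵀ)⁻¹ * Uᵀ)) := by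
        simp only [Matrix.mul_assoc]
      _ = R * M0 * rm ((U0ᵀ)⁻¹ * Uᵀ) := by rw [k4, Matrix.one_mul]

lemma range_eq {A N : Matrix (Fin 3) (Fin 3) ℝ} {W : Matrix (Fin 3) (Fin 3) ℤ}
    (hW : IsUnit W.det) (h : A = N * rm W) :
    Set.range (fun z : Fin 3 → ℤ => A.mulVec (fun j => (z j : ℝ))) =
      Set.range (fun z : Fin 3 → ℤ => N.mulVec (fun j => (z j : ℝ))) := by
  have key : ∀ z : Fin 3 → ℤ, A.mulVec (fun j => (z j : ℝ)) =
      N.mulVec (fun j => ((W.mulVec z) j : ℝ)) := by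
    intro z
    have := rv_mulVec W z
    unfold rv at this
    rw [this, Matrix.mulVec_mulVec, ← h]
  ext v
  constructor
  · rintro ⟨z, rfl⟩
    exact ⟨W.mulVec z, (key z).symm⟩
  · rintro ⟨z, rfl⟩
    refine ⟨W⁻¹.mulVec z, ?_⟩
    show A.mulVec (fun j => ((W⁻¹.mulVec z) j : ℝ)) = _
    rw [key, Matrix.mulVec_mulVec, Matrix.mul_nonsing_inv _ hW, Matrix.one_mulVec]

/-- **The body-centred cubic lattice is the unique minimiser of the theta function for `β < 1`.** -/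
theorem bcc_theta (β : ℝ) (h0 : 0 < β) (h1 : β < 1) (A : Matrix (Fin 3) (Fin 3) ℝ)
    (hA : |A.det| = 1) :
    ((∑' n : Fin 3 → ℤ, Real.exp (-(Real.pi * β) * nsq M0 (rv n))) ≤
      ∑' n : Fin 3 → ℤ, Real.exp (-(Real.pi * β) * nsq A (rv n))) ∧
    ((∑' n : Fin 3 → ℤ, Real.exp (-(Real.pi * β) * nsq M0 (rv n))) =
      ∑' n : Fin 3 → ℤ, Real.exp (-(Real.pi * β) * nsq A (rv n)) →
      ∃ R ∈ Matrix.orthogonalGroup (Fin 3) ℝ,
        Set.range (fun z : Fin 3 → ℤ => A.mulVec (fun j => (z j : ℝ))) =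
          Set.range (fun z : Fin 3 → ℤ => (R * M0).mulVec (fun j => (z j : ℝ)))) := by
  have hA0 : A.det ≠ 0 := by
    intro h
    rw [h, abs_zero] at hA
    exact zero_ne_one hA
  have hAu : IsUnit A.det := isUnit_iff_ne_zero.2 hA0
  set B : Matrix (Fin 3) (Fin 3) ℝ := (A⁻¹)ᵀ with hB
  have hBA : Bᵀ * A = 1 := by
    rw [hB, Matrix.transpose_transpose, Matrix.nonsing_inv_mul _ hAu]
  have hAB : Aᵀ * B = 1 := by
    have := congrArg Matrix.transpose hBA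
    rwa [Matrix.transpose_mul, Matrix.transpose_transpose, Matrix.transpose_one] at this
  have hM0B : M0ᵀ * B0 = 1 := by
    have := congrArg Matrix.transpose B0_M0
    rwa [Matrix.transpose_mul, Matrix.transpose_transpose, Matrix.transpose_one] at this
  have hBd : B.det ^ 2 = 1 := by
    have h := congrArg Matrix.det hBA
    rw [Matrix.det_mul, Matrix.det_transpose, Matrix.det_one] at h
    have h2 : A.det ^ 2 = 1 := by rw [← sq_abs, hA, one_pow]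
    have h3 : (B.det * A.det) ^ 2 = 1 := by rw [h, one_pow]
    rw [mul_pow, h2, mul_one] at h3
    exact h3
  have hBd0 : B.det ≠ 0 := by
    intro h
    rw [h] at hBd
    norm_num at hBd
  obtain ⟨s1, d1, s2, d2, s3, d3, hrep, c1, c2, c3, c4, c5, c6, c7, c8⟩ := exists_reduced B hBd0
  obtain ⟨hPD, hdt, hth⟩ := theta_rep hAB hBd hrep
  obtain ⟨_, _, hth0⟩ := theta_rep hM0B B0_det B0_rep
  have hg : 0 < 1 / β := by positivity
  have hg1 : 1 < 1 / β := by rw [lt_div_iff₀ h0, one_mul]; exact h1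
  have hQ : Sg (1 / β) (sd s1 d1 s2 d2 s3 d3) :=
    cone_all c1 c2 c7 c8 c3 c4 c5 c6 hPD (1 / β) (by unfold lv; exact hg1.le) hg1
  have fA := theta_fe hBA h0
  have f0 := theta_fe B0_M0 h0
  rw [hA, inv_one, one_mul] at fA
  rw [M0_det, abs_one, inv_one, one_mul] at f0
  have e1 : Real.pi / β = Real.pi * (1 / β) := by ring
  rw [e1] at fA f0
  rw [hth _ hg] at fA
  rw [hth0 _ hg, th_smul _ (by have := mm_pos; positivity) PD_Fp] at f0
  have hb : 0 < β ^ (-(3 / 2) : ℝ) := Real.rpow_pos_of_pos h0 _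
  set p := sd s1 d1 s2 d2 s3 d3 with hp
  rcases hQ with hlt | ⟨t, ht, hpt⟩
  · have hlt2 : β ^ (-(3 / 2) : ℝ) * (1 + Th (1 / β) Fp) <
        β ^ (-(3 / 2) : ℝ) * (1 + Th (1 / β) p) := mul_lt_mul_of_pos_left (by linarith) hb
    rw [← fA, ← f0] at hlt2
    exact ⟨hlt2.le, fun h => absurd h hlt2.ne⟩
  · have hpe : Th (1 / β) p = Th (1 / β) Fp := by rw [hpt, th_smul _ ht PD_Fp]
    rw [hpe] at fA
    refine ⟨(f0.trans fA.symm).le, fun _ => ?_⟩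
    -- the scale
    have ht3 : t ^ 3 * 4 = 1 := by
      have h := hdt
      rw [hpt, dt_smul] at h
      have hFd : dt Fp = 4 := by
        rw [← det_sq Cm_gram, Cm_det]
        norm_num
      rwa [hFd] at h
    have hm := mm_inv_cube
    have htm : t = mm⁻¹ ^ 2 := by
      refine (pow_left_inj₀ ht.le (by have := mm_pos; positivity) (three_ne_zero)).1 ?_
      linarith
    obtain ⟨U, hU, e⟩ := hrep
    rw [hpt, htm] at e
    obtain ⟨R, hR, W, hW, hAW⟩ := lattice_of hBA hU e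
    exact ⟨R, hR, range_eq hW hAW⟩

end Pool.Agent.U316.Th
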