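import Pool.Agent.U316.Th.Loc3

/-!
# Duality
-/

set_option autoImplicit false

open Matrix Pool.Agent.K1H99.FCC

namespace Pool.Agent.U316.Th

lemma tsum_N0r (f : (Fin 3 → ℤ) → ℝ) (hf : Summable f) :
    ∑' n, f n = f 0 + ∑' n : N0, f n.1 := by
  classical
  rw [hf.tsum_eq_add_tsum_ite 0]
  congr 1
  have h := tsum_subtype {n : Fin 3 → ℤ | n ≠ 0} f
  refine Eq.trans ?_ h.symm
  refine tsum_congr fun n => ?_
  by_cases h0 : n = 0
  · simp [h0]
  · simp [h0]

/-- Poisson summation -/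
theorem th_fe {p : Fin 6 → ℝ} (hp : PD p) {β : ℝ} (hβ : 0 < β) :
    1 + Th β p = β ^ (-(3 / 2) : ℝ) *
      (1 + ∑' n : N0, Real.exp (-(Real.pi / β * (af p (rv n.1) / rad p ^ 2)))) := by
  obtain ⟨A, hA, hd⟩ := hp
  obtain ⟨A', B', h1, h2, h3, h4⟩ := normalise hA hd
  have h := theta_fe h1 hβ
  have h5 : A'ᵀ * B' = 1 := by
    have := congrArg Matrix.transpose h1
    rwa [Matrix.transpose_mul, Matrix.transpose_transpose, Matrix.transpose_one] at this
  rw [tsum_N0r _ (by simpa using summable_gauss h1 (c := Real.pi * β) (by positivity)),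
    tsum_N0r _ (by simpa using summable_gauss h5 (c := Real.pi / β) (by positivity)), h2,
    nsq_zero, nsq_zero, mul_zero, mul_zero, Real.exp_zero, inv_one, one_mul] at h
  have e1 : Th β p = ∑' n : N0, Real.exp (-(Real.pi * β) * nsq A' (rv n.1)) := by
    unfold Th
    refine tsum_congr fun n => ?_
    rw [h3]
    congr 1
    ring
  have e2 : ∑' n : N0, Real.exp (-(Real.pi / β * (af p (rv n.1) / rad p ^ 2))) =
      ∑' n : N0, Real.exp (-(Real.pi / β) * nsq B' (rv n.1)) := by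
    refine tsum_congr fun n => ?_
    rw [h4]
    congr 1
    ring
  rw [e1, e2]
  exact h

/-- the parameters of the dual form in a suitable basis -/
def qd (p : Fin 6 → ℝ) : Fin 6 → ℝ :=
  ![p 1 * p 2 + p 1 * p 5 + p 2 * p 5 + p 2 * p 3, p 0 * p 1 + p 0 * p 3 + p 1 * p 3 + p 2 * p 3,
    p 0 * p 5 - p 2 * p 3, p 1 * p 4 - p 2 * p 3,
    p 3 * p 4 + p 3 * p 5 + p 4 * p 5 + p 2 * p 3, p 0 * p 2 + p 0 * p 4 + p 2 * p 4 + p 2 * p 3]

/-- the basis change -/
def MU : Matrix (Fin 3) (Fin 3) ℤ := !![1, 0, 0; 0, 1, -1; 0, -1, 0]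

lemma MUu : IsUnit MU.det := by decide

lemma af_MU (p : Fin 6 → ℝ) (n : N0) : af p (rv (uact MU MUu n).1) = qf (qd p) (rv n.1) := by
  have h : (uact MU MUu n).1 = ![n.1 0, n.1 1 - n.1 2, -n.1 1] := by
    rw [uact_val]
    unfold MU
    funext i
    fin_cases i <;> simp [Matrix.mulVec, dotProduct, Fin.sum_univ_three] <;> ring
  rw [h]
  unfold af qf qd rv
  simp
  ring

lemma dt_qd (p : Fin 6 → ℝ) : dt (qd p) = dt p ^ 2 := by
  unfold dt qd
  simp
  ring

lemma rad_qd {p : Fin 6 → ℝ} (hp : PD p) : rad (qd p) = rad p ^ 2 := by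
  have h1 := dt_pos hp
  have h2 : 0 < dt (qd p) := by rw [dt_qd]; positivity
  refine (pow_left_inj₀ (rad_pos h2).le (by have := rad_pos h1; positivity) (three_ne_zero)).1 ?_
  rw [rad_cube h2.le, dt_qd, ← rad_cube h1.le]
  ring

lemma rm_MU : rm MU = !![1, 0, 0; 0, 1, -1; 0, -1, 0] := by
  unfold rm MU
  ext i j
  fin_cases i <;> fin_cases j <;> simp

lemma PD_qd {p : Fin 6 → ℝ} (hp : PD p) : PD (qd p) := by
  obtain ⟨A, hA, hd⟩ := hp
  refine ⟨A.adjugateᵀ * rm MU, ?_, ?_⟩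
  · have h1 : A.adjugate * A.adjugateᵀ = (Qm p).adjugate := by
      rw [← hA, Matrix.adjugate_mul_distrib, Matrix.adjugate_transpose]
    rw [Matrix.transpose_mul, Matrix.transpose_transpose, Matrix.mul_assoc,
      ← Matrix.mul_assoc A.adjugate, h1, rm_MU]
    unfold Qm qd
    rw [Matrix.adjugate_fin_three_of]
    ext i j
    fin_cases i <;> fin_cases j <;>
      simp only [Matrix.mul_apply, Matrix.transpose_apply, Fin.sum_univ_three, Matrix.of_apply,
        Fin.zero_eta, Fin.mk_one, Fin.reduceFinMk, Fin.isValue, Matrix.cons_val',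
        Matrix.cons_val_zero, Matrix.cons_val_one, Matrix.cons_val, Matrix.cons_val_fin_one] <;>
      ring
  · rw [Matrix.det_mul, Matrix.det_transpose, Matrix.det_adjugate, rm_det]
    refine mul_ne_zero (pow_ne_zero _ hd) ?_
    have : MU.det = -1 := by decide
    rw [this]
    norm_num

/-- duality -/
theorem th_dual {p : Fin 6 → ℝ} (hp : PD p) {β : ℝ} (hβ : 0 < β) :
    1 + Th β p = β ^ (-(3 / 2) : ℝ) * (1 + Th (1 / β) (qd p)) := by
  rw [th_fe hp hβ, ← (uact MU MUu).tsum_eq]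
  congr 2
  unfold Th
  refine tsum_congr fun n => ?_
  rw [af_MU, rad_qd hp]
  congr 1
  ring

end Pool.Agent.U316.Th
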