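import Pool.Agent.U316.Th.Tst

/-!
# Soundness of the recursion
-/

set_option autoImplicit false

open Matrix Pool.Agent.K1H99.FCC

namespace Pool.Agent.U316.Th

lemma go_succ (E : Env) (n k : ℕ) (V : List ℕ) (code : ℕ) :
    go E (n + 1) k V code =
      bif Nat.beq (Nat.mod code 8) 0 then
        bif Nat.ble (Nat.succ (Nat.mod (Nat.div code 8) 8)) (Nat.mod (Nat.div (Nat.div code 8) 8) 8) &&
            Nat.ble (Nat.mod (Nat.div (Nat.div code 8) 8) 8) 5 then
          mid2 (gt V (Nat.mod (Nat.div code 8) 8)) (gt V (Nat.mod (Nat.div (Nat.div code 8) 8) 8))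
            (Nat.mod (Nat.div (Nat.div code 8) 64) 4294967296) fun m =>
          frz (upd m V (Nat.mod (Nat.div code 8) 8)
            fun V1 => go E n k V1 (Nat.div (Nat.div code 8) 274877906944)) fun r' =>
            upd m V (Nat.mod (Nat.div (Nat.div code 8) 8) 8) fun V2 => go E n k V2 r'
        else 0
      else bif Nat.beq (Nat.mod code 8) 1 then
        bif tst (E.ta k) (E.tf k) (E.ca k) E.cf V (Nat.mod (Nat.div code 8) 27606985387162255149739023449108101809804435888681546220650096895197184) then
          Nat.div (Nat.div code 8) 27606985387162255149739023449108101809804435888681546220650096895197184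
        else 0
      else bif Nat.beq (Nat.mod code 8) 2 then
        bif Nat.ble (Nat.succ k) (Nat.mod (Nat.div code 8) 4) &&
            tst (E.ta k) (E.ts k (Nat.mod (Nat.div code 8) 4)) (E.ca k)
              (E.cs k (Nat.mod (Nat.div code 8) 4)) V
              (Nat.mod (Nat.div (Nat.div code 8) 4) 27606985387162255149739023449108101809804435888681546220650096895197184) then
          go E n (Nat.mod (Nat.div code 8) 4) V (Nat.div (Nat.div code 8) 110427941548649020598956093796432407239217743554726184882600387580788736)
        else 0
      else bif Nat.beq (Nat.mod code 8) 3 then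
        bif alls inF V then Nat.div code 8 else 0
      else bif Nat.beq (Nat.mod code 8) 4 && Nat.beq k 0 then
        bif alls inB V then go E n 1 V (Nat.div code 8) else 0
      else 0 := by
  change (frc (Nat.mod code 8) fun op => frc (Nat.div code 8) fun rest =>
      bif Nat.beq op 0 then
        frc (Nat.mod rest 8) fun i => frc (Nat.mod (Nat.div rest 8) 8) fun j =>
        bif Nat.ble (Nat.succ i) j && Nat.ble j 5 then
          mid2 (gt V i) (gt V j) (Nat.mod (Nat.div rest 64) 4294967296) fun m =>
          frc (Nat.div rest 274877906944) fun r =>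
          frz (upd m V i fun V1 => go E n k V1 r) fun r' => upd m V j fun V2 => go E n k V2 r'
        else 0
      else bif Nat.beq op 1 then
        frc (Nat.mod rest 27606985387162255149739023449108101809804435888681546220650096895197184) fun t =>
        bif tst (E.ta k) (E.tf k) (E.ca k) E.cf V t then
          Nat.div rest 27606985387162255149739023449108101809804435888681546220650096895197184
        else 0
      else bif Nat.beq op 2 then
        frc (Nat.mod rest 4) fun l =>
        frc (Nat.mod (Nat.div rest 4) 27606985387162255149739023449108101809804435888681546220650096895197184) fun t =>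
        bif Nat.ble (Nat.succ k) l && tst (E.ta k) (E.ts k l) (E.ca k) (E.cs k l) V t then
          frc (Nat.div rest 110427941548649020598956093796432407239217743554726184882600387580788736) fun r => go E n l V r
        else 0
      else bif Nat.beq op 3 then
        bif alls inF V then rest else 0
      else bif Nat.beq op 4 && Nat.beq k 0 then
        bif alls inB V then go E n 1 V rest else 0
      else 0) = _
  simp only [frc_eq]

lemma bif_ne {c : Bool} {a : ℕ} (h : (bif c then a else 0) ≠ 0) : c = true ∧ a ≠ 0 := by
  cases c with
  | true => exact ⟨rfl, h⟩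
  | false => exact absurd rfl h

lemma vl_set {V : List ℕ} (hV : VL V) {m : ℕ} (hm : Vd m) (i : ℕ) : VL (V.set i m) := by
  refine ⟨by rw [List.length_set, hV.1], fun W hW => ?_⟩
  rcases List.mem_or_eq_of_mem_set hW with h | h
  · exact hV.2 W h
  · rw [h]
    exact hm

/-- soundness of the recursion, given soundness of the leaves -/
theorem go_sound (E : Env) (Q : ℕ → (Fin 6 → ℝ) → Prop)
    (hfin : ∀ k V t, k ≤ 3 → VL V → tst (E.ta k) (E.tf k) (E.ca k) E.cf V t = true →
      Good (Q k) V)
    (hslab : ∀ k l V t, k < l → l ≤ 3 → VL V →
      tst (E.ta k) (E.ts k l) (E.ca k) (E.cs k l) V t = true → Good (Q l) V → Good (Q k) V)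
    (hF : ∀ k V, VL V → alls inF V = true → Good (Q k) V)
    (hB : ∀ V, VL V → alls inB V = true → Good (Q 1) V → Good (Q 0) V) :
    ∀ n k V code, k ≤ 3 → VL V → go E n k V code ≠ 0 → Good (Q k) V := by
  intro n
  induction n with
  | zero => intro k V code _ _ h; exact absurd rfl h
  | succ n ih =>
    intro k V code hk hV h
    rw [go_succ] at h
    cases c0 : Nat.beq (Nat.mod code 8) 0 with
    | true =>
      rw [c0] at h
      obtain ⟨hij, h⟩ := bif_ne h
      rw [Bool.and_eq_true] at hij
      obtain ⟨hi, hj⟩ := hij
      have hi := Nat.le_of_ble_eq_true hi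
      have hj := Nat.le_of_ble_eq_true hj
      generalize Nat.mod (Nat.div code 8) 8 = i at *
      generalize Nat.mod (Nat.div (Nat.div code 8) 8) 8 = j at *
      have hlen := hV.1
      have hi6 : i < V.length := by rw [hlen]; omega
      have hj6 : j < V.length := by rw [hlen]; omega
      have hvi := hV.2 _ (gt_eq V i hi6).1
      have hvj := hV.2 _ (gt_eq V j hj6).1
      have hg : Nat.mod (Nat.div (Nat.div code 8) 64) 4294967296 < 2 ^ 40 :=
        (Nat.mod_lt _ (by norm_num)).trans (by norm_num)
      obtain ⟨m, hm, e1, e2⟩ := mid2_spec hvi hvj hg h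
      rw [e2] at h
      obtain ⟨g1, h⟩ := frz_ne h
      rw [upd_eq m V i _ hi6] at g1
      rw [upd_eq m V j _ hj6] at h
      exact good_split' hlen (by omega) (by omega) e1 (ih k _ _ hk (vl_set hV hm i) g1)
        (ih k _ _ hk (vl_set hV hm j) h)
    | false =>
      rw [c0] at h
      change (bif Nat.beq (Nat.mod code 8) 1 then _ else _) ≠ 0 at h
      cases c1 : Nat.beq (Nat.mod code 8) 1 with
      | true =>
        rw [c1] at h
        obtain ⟨h1, h⟩ := bif_ne h
        exact hfin k V _ hk hV h1
      | false =>
        rw [c1] at h
        change (bif Nat.beq (Nat.mod code 8) 2 then _ else _) ≠ 0 at h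
        cases c2 : Nat.beq (Nat.mod code 8) 2 with
        | true =>
          rw [c2] at h
          obtain ⟨h1, h⟩ := bif_ne h
          rw [Bool.and_eq_true] at h1
          obtain ⟨h1, h2⟩ := h1
          have h1 := Nat.le_of_ble_eq_true h1
          have hl : Nat.mod (Nat.div code 8) 4 ≤ 3 := Nat.le_of_lt_succ (Nat.mod_lt _ (by norm_num))
          exact hslab k _ V _ h1 hl hV h2 (ih _ V _ hl hV h)
        | false =>
          rw [c2] at h
          change (bif Nat.beq (Nat.mod code 8) 3 then _ else _) ≠ 0 at h
          cases c3 : Nat.beq (Nat.mod code 8) 3 with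
          | true =>
            rw [c3] at h
            obtain ⟨h1, h⟩ := bif_ne h
            exact hF k V hV h1
          | false =>
            rw [c3] at h
            change (bif Nat.beq (Nat.mod code 8) 4 && Nat.beq k 0 then _ else _) ≠ 0 at h
            obtain ⟨h1, h5⟩ := bif_ne h
            rw [Bool.and_eq_true] at h1
            have hk0 := Nat.eq_of_beq_eq_true h1.2
            obtain ⟨h2, h6⟩ := bif_ne h5
            have h7 := hB V hV h2 (ih 1 V _ (by norm_num) hV h6)
            rw [← hk0] at h7
            exact h7

end Pool.Agent.U316.Th
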