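import Pool.Agent.U316.Th.EnvOK
import Pool.Agent.U316.Th.Go

/-!
# The levels
-/

set_option autoImplicit false

open Matrix Pool.Agent.K1H99.FCC

namespace Pool.Agent.U316.Th

/-- the statement at level `k` -/
def Q (k : ℕ) (p : Fin 6 → ℝ) : Prop := ∀ β : ℝ, lv k ≤ β → 1 < β → Sg β p

lemma lv_pos (k : ℕ) : 0 < lv k := by
  unfold lv
  split <;> norm_num

lemma fin_step {k : ℕ} {T0 T1 c0 : ℕ} {V : List ℕ} {t : ℕ}
    (h0 : OK0 T0 (Real.pi * lv k)) (h1 : OK1 T1 (Real.pi * lv k) (((0:ℕ):ℝ) / 2 ^ 40))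
    (hc : 2 ^ 23 * RF (lv k) ≤ c0) (hV : VL V)
    (h : tst T0 T1 c0 27262976 V t = true) : Good (Q k) V := by
  intro l hl hp β hβ _
  left
  have hb := lv_pos k
  have m := tst_main hb h0 h1 hV h hl hp (r := β - lv k) (by linarith) (by
    push_cast
    rw [zero_div, mul_zero, sub_zero]
    norm_num)
  push_cast at m
  rw [zero_div, mul_zero, sub_zero, one_mul] at m
  have e : lv k + (β - lv k) = β := by ring
  rw [e] at m
  have z : Real.pi * (β - lv k) * (27262976 - 13 * 2 ^ 21) = 0 := by norm_num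
  rw [z, add_zero] at m
  have h2 := rf_anti hb hβ
  have h3 : RF β < Real.exp (Real.pi * β * mm) * Th β (∑ i : Fin 6, l i • wv (gt V i)) := by
    linarith
  unfold RF at h3
  exact lt_of_mul_lt_mul_left h3 (Real.exp_pos _).le

lemma slab_step {k j : ℕ} {T0 T1 c0 c1 S : ℕ} {V : List ℕ} {t : ℕ} (hkj : lv k < lv j)
    (h0 : OK0 T0 (Real.pi * lv k)) (h1 : OK1 T1 (Real.pi * lv k) ((S:ℝ) / 2 ^ 40))
    (hS : Real.pi * (lv j - lv k) * ((S:ℝ) / 2 ^ 40) ≤ 1)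
    (hc : 2 ^ 23 * RF (lv k) ≤ c0)
    (hc1 : 2 ^ 23 * RF (lv j) ≤ Real.pi * (lv j - lv k) * (c1 - 13 * 2 ^ 21)) (hV : VL V)
    (h : tst T0 T1 c0 c1 V t = true) (hg : Good (Q j) V) : Good (Q k) V := by
  intro l hl hp β hβ hβ1
  rcases le_total (lv j) β with hj | hj
  · exact hg l hl hp β hj hβ1
  left
  have hb := lv_pos k
  have hpi := Real.pi_pos
  have hδ : 0 < lv j - lv k := by linarith
  set δ := lv j - lv k with hδe
  set r := β - lv k with hr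
  have hr0 : 0 ≤ r := by linarith
  have hrδ : r ≤ δ := by linarith
  set x := r / δ with hx
  have hx0 : 0 ≤ x := by positivity
  have hx1 : x ≤ 1 := by rw [hx, div_le_one hδ]; exact hrδ
  have hrx : r = x * δ := by rw [hx]; field_simp
  have hsx : Real.pi * r * ((S:ℝ) / 2 ^ 40) ≤ x := by
    have : Real.pi * r * ((S:ℝ) / 2 ^ 40) = x * (Real.pi * δ * ((S:ℝ) / 2 ^ 40)) := by
      rw [hrx]; ring
    rw [this]
    calc x * (Real.pi * δ * ((S:ℝ) / 2 ^ 40)) ≤ x * 1 := mul_le_mul_of_nonneg_left hS hx0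
      _ = x := mul_one x
  have m := tst_main hb h0 h1 hV h hl hp (r := r) hr0 (by linarith)
  have e : lv k + r = β := by rw [hr]; ring
  rw [e] at m
  have hconv := rf_conv hb (lv_pos j) hx0 hx1
  have e2 : (1 - x) * lv k + x * lv j = β := by
    have : lv j = lv k + δ := by rw [hδe]; ring
    rw [this]
    have : β = lv k + x * δ := by rw [← hrx, hr]; ring
    rw [this]
    ring
  rw [e2] at hconv
  have hRk : 0 ≤ RF (lv k) := by
    unfold RF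
    exact mul_nonneg (Real.exp_pos _).le (th_pos PD_Fp hb).le
  have a1 : (1 - x) * (2 ^ 23 * RF (lv k)) ≤ (1 - Real.pi * r * ((S:ℝ) / 2 ^ 40)) * c0 := by
    have hc0 : 0 ≤ (c0 : ℝ) := Nat.cast_nonneg _
    calc (1 - x) * (2 ^ 23 * RF (lv k)) ≤ (1 - x) * c0 :=
          mul_le_mul_of_nonneg_left hc (by linarith)
      _ ≤ _ := mul_le_mul_of_nonneg_right (by linarith) hc0
  have a2 : x * (2 ^ 23 * RF (lv j)) ≤ Real.pi * r * (c1 - 13 * 2 ^ 21) := by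
    have : Real.pi * r * ((c1:ℝ) - 13 * 2 ^ 21) = x * (Real.pi * δ * (c1 - 13 * 2 ^ 21)) := by
      rw [hrx]; ring
    rw [this]
    exact mul_le_mul_of_nonneg_left hc1 hx0
  have h3 : RF β < Real.exp (Real.pi * β * mm) * Th β (∑ i : Fin 6, l i • wv (gt V i)) := by
    linarith
  unfold RF at h3
  exact lt_of_mul_lt_mul_left h3 (Real.exp_pos _).le

lemma rc0 : 2 ^ 23 * RF (lv 0) ≤ ((101703484 : ℕ) : ℝ) := by
  have h : RF (lv 0) ≤ 12124 / 1000 := rf0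
  push_cast
  linarith

lemma rc1 : 2 ^ 23 * RF (lv 1) ≤ ((101506352 : ℕ) : ℝ) := by
  have h : RF (lv 1) ≤ 121005 / 10000 := rf1
  push_cast
  linarith

lemma rc2 : 2 ^ 23 * RF (lv 2) ≤ ((101118798 : ℕ) : ℝ) := by
  have h : RF (lv 2) ≤ 120543 / 10000 := rf2
  push_cast
  linarith

lemma rc3 : 2 ^ 23 * RF (lv 3) ≤ ((100868817 : ℕ) : ℝ) := by
  have h : RF (lv 3) ≤ 120245 / 10000 := rf3
  push_cast
  linarith

lemma rs01 : Real.pi * (lv 1 - lv 0) * (((6999708318497 : ℕ) : ℝ) / 2 ^ 40) ≤ 1 ∧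
    2 ^ 23 * RF (lv 1) ≤ Real.pi * (lv 1 - lv 0) * (((673472489 : ℕ) : ℝ) - 13 * 2 ^ 21) := by
  have p1 := Real.pi_gt_d20
  have p2 := Real.pi_lt_d20
  have h := rc1
  have h' : RF (lv 1) ≤ 121005 / 10000 := rf1
  have e : lv 1 - lv 0 = 1 / 20 := by
    unfold lv
    norm_num
  rw [e]
  push_cast
  constructor <;> linarith

lemma rs02 : Real.pi * (lv 2 - lv 0) * (((1749927079624 : ℕ) : ℝ) / 2 ^ 40) ≤ 1 ∧
    2 ^ 23 * RF (lv 2) ≤ Real.pi * (lv 2 - lv 0) * (((188198544 : ℕ) : ℝ) - 13 * 2 ^ 21) := by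
  have p1 := Real.pi_gt_d20
  have p2 := Real.pi_lt_d20
  have h := rc2
  have h' : RF (lv 2) ≤ 120543 / 10000 := rf2
  have e : lv 2 - lv 0 = 1 / 5 := by
    unfold lv
    norm_num
  rw [e]
  push_cast
  constructor <;> linarith

lemma rs03 : Real.pi * (lv 3 - lv 0) * (((874963539812 : ℕ) : ℝ) / 2 ^ 40) ≤ 1 ∧
    2 ^ 23 * RF (lv 3) ≤ Real.pi * (lv 3 - lv 0) * (((107531832 : ℕ) : ℝ) - 13 * 2 ^ 21) := by
  have p1 := Real.pi_gt_d20
  have p2 := Real.pi_lt_d20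
  have h := rc3
  have h' : RF (lv 3) ≤ 120245 / 10000 := rf3
  have e : lv 3 - lv 0 = 2 / 5 := by
    unfold lv
    norm_num
  rw [e]
  push_cast
  constructor <;> linarith

lemma rs12 : Real.pi * (lv 2 - lv 1) * (((2333236106165 : ℕ) : ℝ) / 2 ^ 40) ≤ 1 ∧
    2 ^ 23 * RF (lv 2) ≤ Real.pi * (lv 2 - lv 1) * (((241843733 : ℕ) : ℝ) - 13 * 2 ^ 21) := by
  have p1 := Real.pi_gt_d20
  have p2 := Real.pi_lt_d20
  have h := rc2
  have h' : RF (lv 2) ≤ 120543 / 10000 := rf2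
  have e : lv 2 - lv 1 = 3 / 20 := by
    unfold lv
    norm_num
  rw [e]
  push_cast
  constructor <;> linarith

lemma rs13 : Real.pi * (lv 3 - lv 1) * (((999958331213 : ℕ) : ℝ) / 2 ^ 40) ≤ 1 ∧
    2 ^ 23 * RF (lv 3) ≤ Real.pi * (lv 3 - lv 1) * (((118998811 : ℕ) : ℝ) - 13 * 2 ^ 21) := by
  have p1 := Real.pi_gt_d20
  have p2 := Real.pi_lt_d20
  have h := rc3
  have h' : RF (lv 3) ≤ 120245 / 10000 := rf3
  have e : lv 3 - lv 1 = 7 / 20 := by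
    unfold lv
    norm_num
  rw [e]
  push_cast
  constructor <;> linarith

lemma rs23 : Real.pi * (lv 3 - lv 2) * (((1749927079624 : ℕ) : ℝ) / 2 ^ 40) ≤ 1 ∧
    2 ^ 23 * RF (lv 3) ≤ Real.pi * (lv 3 - lv 2) * (((187800687 : ℕ) : ℝ) - 13 * 2 ^ 21) := by
  have p1 := Real.pi_gt_d20
  have p2 := Real.pi_lt_d20
  have h := rc3
  have h' : RF (lv 3) ≤ 120245 / 10000 := rf3
  have e : lv 3 - lv 2 = 1 / 5 := by
    unfold lv
    norm_num
  rw [e]
  push_cast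
  constructor <;> linarith

/-- the tests are sound -/
theorem env_fin (k : ℕ) (V : List ℕ) (t : ℕ) (hk : k ≤ 3) (hV : VL V)
    (h : tst (env.ta k) (env.tf k) (env.ca k) env.cf V t = true) : Good (Q k) V := by
  interval_cases k
  · exact fin_step ok_a0 ok_f0 rc0 hV h
  · exact fin_step ok_a1 ok_f1 rc1 hV h
  · exact fin_step ok_a2 ok_f2 rc2 hV h
  · exact fin_step ok_a3 ok_f3 rc3 hV h

theorem env_slab (k l : ℕ) (V : List ℕ) (t : ℕ) (hkl : k < l) (hl : l ≤ 3) (hV : VL V)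
    (h : tst (env.ta k) (env.ts k l) (env.ca k) (env.cs k l) V t = true) (hg : Good (Q l) V) :
    Good (Q k) V := by
  have hc : (k = 0 ∧ l = 1) ∨ (k = 0 ∧ l = 2) ∨ (k = 1 ∧ l = 2) ∨ (k = 0 ∧ l = 3) ∨
      (k = 1 ∧ l = 3) ∨ (k = 2 ∧ l = 3) := by omega
  rcases hc with ⟨rfl, rfl⟩ | ⟨rfl, rfl⟩ | ⟨rfl, rfl⟩ | ⟨rfl, rfl⟩ | ⟨rfl, rfl⟩ | ⟨rfl, rfl⟩
  · exact slab_step (by unfold lv; norm_num) ok_a0 ok_s01 rs01.1 rc0 rs01.2 hV h hg
  · exact slab_step (by unfold lv; norm_num) ok_a0 ok_s02 rs02.1 rc0 rs02.2 hV h hg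
  · exact slab_step (by unfold lv; norm_num) ok_a1 ok_s12 rs12.1 rc1 rs12.2 hV h hg
  · exact slab_step (by unfold lv; norm_num) ok_a0 ok_s03 rs03.1 rc0 rs03.2 hV h hg
  · exact slab_step (by unfold lv; norm_num) ok_a1 ok_s13 rs13.1 rc1 rs13.2 hV h hg
  · exact slab_step (by unfold lv; norm_num) ok_a2 ok_s23 rs23.1 rc2 rs23.2 hV h hg

end Pool.Agent.U316.Th
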