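import Pool.Agent.U316.Th.Loc5
import Pool.Agent.U316.Th.Lev

/-!
# The body-centred cubic form near inverse temperature one
-/

set_option autoImplicit false

open Matrix Pool.Agent.K1H99.FCC

namespace Pool.Agent.U316.Th

/-- the body-centred cubic form -/
def Bp : Fin 6 → ℝ := fun _ => 1

lemma PD_Bp : PD Bp := pd_of_dt (fun _ => by unfold Bp; norm_num) (by
  unfold dt Bp
  norm_num)

lemma qd_Bp : qd Bp = (4:ℝ) • Fp := by
  unfold qd Bp Fp
  funext i
  fin_cases i <;> simp <;> norm_num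

/-- duality between the two cubic forms -/
lemma th_Bp {β : ℝ} (hβ : 0 < β) :
    1 + Th β Bp = β ^ (-(3 / 2) : ℝ) * (1 + Th (1 / β) Fp) := by
  rw [th_dual PD_Bp hβ, qd_Bp, th_smul _ (by norm_num) PD_Fp]

/-- normalised theta function of the body-centred cubic lattice -/
noncomputable def RB (β : ℝ) : ℝ := Real.exp (Real.pi * β * mm) * Th β Bp

lemma rb_eq (β : ℝ) : RB β =
    ∑' n : N0, Real.exp (β * (Real.pi * mm - Real.pi * (qf Bp (rv n.1) / rad Bp))) := by
  unfold RB Th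
  rw [← tsum_mul_left]
  refine tsum_congr fun n => ?_
  rw [← Real.exp_add]
  congr 1
  ring

lemma rb_summable {β : ℝ} (hβ : 0 < β) : Summable fun n : N0 =>
    Real.exp (β * (Real.pi * mm - Real.pi * (qf Bp (rv n.1) / rad Bp))) := by
  refine ((th_summable PD_Bp hβ).mul_left (Real.exp (Real.pi * β * mm))).congr fun n => ?_
  rw [← Real.exp_add]
  congr 1
  ring

lemma rb_conv {a b t : ℝ} (ha : 0 < a) (hb : 0 < b) (h0 : 0 ≤ t) (h1 : t ≤ 1) :
    RB ((1 - t) * a + t * b) ≤ (1 - t) * RB a + t * RB b := by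
  have hc : 0 < (1 - t) * a + t * b := by
    rcases h0.eq_or_lt with h | h
    · rw [← h]; simpa using ha
    · have := mul_pos h hb
      have := mul_nonneg (sub_nonneg.2 h1) ha.le
      linarith
  rw [rb_eq, rb_eq, rb_eq, ← tsum_mul_left, ← tsum_mul_left,
    ← ((rb_summable ha).mul_left _).tsum_add ((rb_summable hb).mul_left _)]
  refine (rb_summable hc).tsum_le_tsum (fun n => ?_)
    (((rb_summable ha).mul_left _).add ((rb_summable hb).mul_left _))
  have h := convexOn_exp.2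
    (Set.mem_univ (a * (Real.pi * mm - Real.pi * (qf Bp (rv n.1) / rad Bp))))
    (Set.mem_univ (b * (Real.pi * mm - Real.pi * (qf Bp (rv n.1) / rad Bp))))
    (sub_nonneg.2 h1) h0 (by ring)
  simp only [smul_eq_mul] at h
  refine le_trans (le_of_eq ?_) h
  congr 1
  ring

lemma rb_one : RB 1 = RF 1 := by
  have h := th_Bp (β := 1) one_pos
  rw [Real.one_rpow, one_mul, div_one] at h
  unfold RB RF
  have : Th 1 Bp = Th 1 Fp := by linarith
  rw [this]

/-- the vectors of the first three shells -/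
def X21 : Fin 21 → Fin 3 → ℤ :=
  ![![1, 0, 1], ![0, -1, -1], ![1, 1, 1], ![0, 0, -1], ![1, 0, 0], ![0, 1, 0], ![1, 1, 0],
    ![1, -1, 0], ![1, 1, 2], ![2, 1, 2], ![2, 1, 1], ![2, 0, 1], ![1, 2, 2], ![1, 2, 1],
    ![1, 0, 2], ![1, 0, -1], ![1, -1, 1], ![1, -1, -1], ![0, 2, 1], ![0, 1, 2], ![0, 1, -1]]

set_option maxRecDepth 10000 in
lemma X21_0 : ∀ s, sgv X21 s ≠ 0 := by decide

set_option maxRecDepth 100000 in
set_option maxHeartbeats 1000000 in
lemma X21_i : Function.Injective (sgv X21) := by decide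

/-- lower bound for the normalised theta function of the face-centred cubic lattice -/
lemma rf_ge {β : ℝ} (hβ : 0 < β) : 12 + 6 * Real.exp (-(2 * al * β)) +
    24 * Real.exp (-(2 * al * β)) ^ 2 ≤ RF β := by
  have hs : Summable fun n : N0 => Real.exp (-(al * β * (qf Fp (rv n.1) - 2))) := by
    refine (rf_summable hβ).congr fun n => ?_
    rw [nz_JG, qf_Fp]
  have h1 := two_sum_le X21 X21_0 X21_i (fun n => Real.exp (-(al * β * (qf Fp (rv n) - 2))))
    (fun n => by simp only [qf_neg]) (fun n => (Real.exp_pos _).le) hs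
  have e : RF β = ∑' n : N0, Real.exp (-(al * β * (qf Fp (rv n.1) - 2))) := by
    rw [rf_eq]
    refine tsum_congr fun n => ?_
    rw [nz_JG, qf_Fp]
  rw [e]
  refine le_trans (le_of_eq ?_) h1
  have z : ∀ i : Fin 21, qf Fp (rv (X21 i)) = rv (X21 i) 0 ^ 2 + rv (X21 i) 1 ^ 2 +
      (rv (X21 i) 0 - rv (X21 i) 2) ^ 2 + (rv (X21 i) 1 - rv (X21 i) 2) ^ 2 := by
    intro i
    unfold qf Fp
    simp
  have v : ∀ i : Fin 21, qf Fp (rv (X21 i)) = ((![2, 2, 2, 2, 2, 2, 4, 4, 4, 6, 6, 6, 6, 6, 6, 6,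
      6, 6, 6, 6, 6] : Fin 21 → ℕ) i : ℝ) := by
    intro i
    rw [z]
    have h : ∀ i : Fin 21, (X21 i 0) ^ 2 + (X21 i 1) ^ 2 + (X21 i 0 - X21 i 2) ^ 2 +
        (X21 i 1 - X21 i 2) ^ 2 = ((![2, 2, 2, 2, 2, 2, 4, 4, 4, 6, 6, 6, 6, 6, 6, 6,
          6, 6, 6, 6, 6] : Fin 21 → ℕ) i : ℤ) := by decide
    have h2 := h i
    unfold rv
    exact_mod_cast h2
  simp only [v]
  simp only [Fin.sum_univ_castSucc, Fin.sum_univ_zero, zero_add]
  have e2 : Real.exp (-(al * β * (((2:ℕ):ℝ) - 2))) = 1 := by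
    push_cast
    rw [sub_self, mul_zero, neg_zero, Real.exp_zero]
  have e4 : Real.exp (-(al * β * (((4:ℕ):ℝ) - 2))) = Real.exp (-(2 * al * β)) := by
    congr 1
    push_cast
    ring
  have e6 : Real.exp (-(al * β * (((6:ℕ):ℝ) - 2))) = Real.exp (-(2 * al * β)) ^ 2 := by
    rw [← Real.exp_nat_mul]
    congr 1
    push_cast
    ring
  change _ = 2 * (Real.exp (-(al * β * (((2:ℕ):ℝ) - 2))) + Real.exp (-(al * β * (((2:ℕ):ℝ) - 2))) +
    Real.exp (-(al * β * (((2:ℕ):ℝ) - 2))) + Real.exp (-(al * β * (((2:ℕ):ℝ) - 2))) +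
    Real.exp (-(al * β * (((2:ℕ):ℝ) - 2))) + Real.exp (-(al * β * (((2:ℕ):ℝ) - 2))) +
    Real.exp (-(al * β * (((4:ℕ):ℝ) - 2))) + Real.exp (-(al * β * (((4:ℕ):ℝ) - 2))) +
    Real.exp (-(al * β * (((4:ℕ):ℝ) - 2))) + Real.exp (-(al * β * (((6:ℕ):ℝ) - 2))) +
    Real.exp (-(al * β * (((6:ℕ):ℝ) - 2))) + Real.exp (-(al * β * (((6:ℕ):ℝ) - 2))) +
    Real.exp (-(al * β * (((6:ℕ):ℝ) - 2))) + Real.exp (-(al * β * (((6:ℕ):ℝ) - 2))) +
    Real.exp (-(al * β * (((6:ℕ):ℝ) - 2))) + Real.exp (-(al * β * (((6:ℕ):ℝ) - 2))) +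
    Real.exp (-(al * β * (((6:ℕ):ℝ) - 2))) + Real.exp (-(al * β * (((6:ℕ):ℝ) - 2))) +
    Real.exp (-(al * β * (((6:ℕ):ℝ) - 2))) + Real.exp (-(al * β * (((6:ℕ):ℝ) - 2))) +
    Real.exp (-(al * β * (((6:ℕ):ℝ) - 2))))
  rw [e2, e4, e6]
  ring

lemma rf_one_ge : 121233 / 10000 ≤ RF 1 := by
  have h := rf_ge (β := 1) one_pos
  have hal := al_bounds.2
  have hy : 19098 / 1000000 ≤ Real.exp (-(2 * al * 1)) :=
    E2l.trans (Real.exp_le_exp.2 (by linarith))
  have h2 := pow_le_pow_left₀ (by norm_num) hy 2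
  have h3 : (364 / 1000000 : ℝ) ≤ Real.exp (-(2 * al * 1)) ^ 2 := le_trans (by norm_num) h2
  linarith

lemma th1_le : Th (21 / 20) Fp ≤ 189640 / 1000000 := by
  have h := rf1
  unfold RF at h
  have hal := al_bounds.1
  have e : Real.exp (-(2 * al * (21 / 20))) * Real.exp (Real.pi * (21 / 20) * mm) = 1 := by
    rw [← Real.exp_add]
    have : -(2 * al * (21 / 20)) + Real.pi * (21 / 20) * mm = 0 := by
      rw [← pi_mm]
      ring
    rw [this, Real.exp_zero]
  have hy : Real.exp (-(2 * al * (21 / 20))) ≤ 15672 / 1000000 := by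
    refine (Real.exp_le_exp.2 (show -(2 * al * (21 / 20)) ≤ -(41560 / 10000) by linarith)).trans ?_
    exact expneg_le (s := 12966 / 10000) (by norm_num) (by norm_num) (by norm_num) (by norm_num)
  have h2 : Th (21 / 20) Fp = Real.exp (-(2 * al * (21 / 20))) *
      (Real.exp (Real.pi * (21 / 20) * mm) * Th (21 / 20) Fp) := by
    rw [← mul_assoc, e, one_mul]
  have h3 : 0 ≤ Real.exp (Real.pi * (21 / 20) * mm) * Th (21 / 20) Fp :=
    mul_nonneg (Real.exp_pos _).le (th_pos PD_Fp (by norm_num)).le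
  rw [h2]
  refine (mul_le_mul hy h h3 (by norm_num)).trans ?_
  norm_num

lemma rpow_bd : (20 / 21 : ℝ) ^ (-(3 / 2) : ℝ) ≤ 107593 / 100000 := by
  have h0 : 0 ≤ (20 / 21 : ℝ) ^ (-(3 / 2) : ℝ) := by positivity
  have h : ((20 / 21 : ℝ) ^ (-(3 / 2) : ℝ)) ^ 2 = 9261 / 8000 := by
    rw [← Real.rpow_natCast, ← Real.rpow_mul (by norm_num)]
    have : (-(3 / 2) : ℝ) * ((2:ℕ):ℝ) = -((3:ℕ):ℝ) := by push_cast; norm_num
    rw [this, Real.rpow_neg (by norm_num), Real.rpow_natCast]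
    norm_num
  by_contra hc
  push Not at hc
  have := pow_lt_pow_left₀ hc (by norm_num) two_ne_zero
  rw [h] at this
  norm_num at this

lemma rb_le : RB (20 / 21) ≤ 1214300 / 100000 := by
  have h := th_Bp (β := 20 / 21) (by norm_num)
  rw [show (1:ℝ) / (20 / 21) = 21 / 20 by norm_num] at h
  have h1 := th1_le
  have h2 := rpow_bd
  have h3 : Th (20 / 21) Bp ≤ 27998 / 100000 := by
    have h4 : (20 / 21 : ℝ) ^ (-(3 / 2) : ℝ) * (1 + Th (21 / 20) Fp) ≤
        107593 / 100000 * (1 + 189640 / 1000000) := by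
      refine mul_le_mul h2 (by linarith) ?_ (by norm_num)
      have := th_pos PD_Fp (β := 21 / 20) (by norm_num)
      linarith
    have h5 : (107593 / 100000 * (1 + 189640 / 1000000) : ℝ) ≤ 1 + 27998 / 100000 := by norm_num
    linarith
  have h6 : Real.exp (Real.pi * (20 / 21) * mm) ≤ 4336612 / 100000 := by
    have hal := al_bounds.2
    have e : Real.pi * (20 / 21) * mm = 2 * al * (20 / 21) := by rw [← pi_mm]; ring
    rw [e]
    refine (Real.exp_le_exp.2 (show 2 * al * (20 / 21) ≤ 37696752 / 10000000 by linarith)).trans ?_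
    refine exp_ub' (s := 160193043 / 100000000) (by norm_num) (by norm_num) ?_ ?_
    · norm_num [Finset.sum_range_succ, Nat.factorial]
    · norm_num
  unfold RB
  refine (mul_le_mul h6 h3 (th_pos PD_Bp (by norm_num)).le (by norm_num)).trans ?_
  norm_num

/-- the theta function of the body-centred cubic lattice is larger just above inverse
temperature one -/
theorem B_gt {β : ℝ} (h1 : 1 < β) (h2 : β ≤ 21 / 20) : Th β Fp < Th β Bp := by
  obtain ⟨δ, hδ⟩ : ∃ δ, δ = β - 1 := ⟨_, rfl⟩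
  have d0 : 0 < δ := by linarith
  have d1 : δ ≤ 1 / 20 := by linarith
  have hq : 0 < 1 + 21 * δ := by linarith
  -- upper bound for RF β
  have f1 := rf_conv (a := 1) (b := 21 / 20) (t := 20 * δ) one_pos (by norm_num) (by linarith)
    (by linarith)
  rw [show (1 - 20 * δ) * 1 + 20 * δ * (21 / 20) = β by rw [hδ]; ring] at f1
  -- lower bound for RB β
  have g1 := rb_conv (a := 20 / 21) (b := β) (t := 1 / (1 + 21 * δ)) (by norm_num) (by linarith)
    (by positivity) (by rw [div_le_one hq]; linarith)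
  have e1 : (1 - 1 / (1 + 21 * δ)) * (20 / 21) + 1 / (1 + 21 * δ) * β = 1 := by
    have : β = 1 + δ := by linarith
    rw [this]
    field_simp
    ring
  rw [e1, rb_one] at g1
  have g2 := mul_le_mul_of_nonneg_left g1 hq.le
  have e2 : (1 + 21 * δ) * ((1 - 1 / (1 + 21 * δ)) * RB (20 / 21) + 1 / (1 + 21 * δ) * RB β) =
      21 * δ * RB (20 / 21) + RB β := by
    field_simp
    ring
  rw [e2] at g2
  have n1 := rf_one_ge
  have n2 := rf1
  have n3 := rb_le
  have n4 : 0 < 41 * RF 1 - 21 * RB (20 / 21) - 20 * RF (21 / 20) := by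
    linarith
  have n5 := mul_pos d0 n4
  have n6 : RF β < RB β := by
    linarith
  unfold RF RB at n6
  exact lt_of_mul_lt_mul_left n6 (Real.exp_pos _).le

end Pool.Agent.U316.Th
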