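import Pool.Agent.K1H99.FCC.Sym
import Pool.Agent.K1H99.FCC.LocL

/-!
# The theta function of a ternary form in Selling parameters
-/

set_option autoImplicit false

open Matrix Pool.Agent.K1H99.FCC

namespace Pool.Agent.U316.Th

/-- the theta function without the constant term, of the form normalised to determinant one -/
noncomputable def Th (β : ℝ) (p : Fin 6 → ℝ) : ℝ :=
  ∑' n : N0, Real.exp (-(Real.pi * β * (qf p (rv n.1) / rad p)))

lemma th_summable {p : Fin 6 → ℝ} (h : PD p) {β : ℝ} (hβ : 0 < β) :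
    Summable fun n : N0 => Real.exp (-(Real.pi * β * (qf p (rv n.1) / rad p))) := by
  obtain ⟨A, hA, hd⟩ := h
  obtain ⟨A', B', h1, h2, h3, h4⟩ := normalise hA hd
  have hc : 0 < Real.pi * β := mul_pos Real.pi_pos hβ
  refine ((summable_gauss h1 (c := Real.pi * β) hc).subtype {n : Fin 3 → ℤ | n ≠ 0}).congr
      fun k => ?_
  show Real.exp (-(Real.pi * β) * nsq A' (rv k.1)) = _
  rw [h3]
  congr 1
  ring

lemma th_pos {p : Fin 6 → ℝ} (h : PD p) {β : ℝ} (hβ : 0 < β) : 0 < Th β p := by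
  have hs := th_summable h hβ
  have h0 : (![1, 0, 0] : Fin 3 → ℤ) ≠ 0 := by decide
  exact hs.tsum_pos (fun _ => (Real.exp_pos _).le) ⟨![1, 0, 0], h0⟩ (Real.exp_pos _)

lemma qf_smul (c : ℝ) (p : Fin 6 → ℝ) (x : Fin 3 → ℝ) : qf (c • p) x = c * qf p x := by
  unfold qf
  simp only [Pi.smul_apply, smul_eq_mul]
  ring

lemma rad_smul' {c : ℝ} (hc : 0 < c) {p : Fin 6 → ℝ} (hp : PD p) : rad (c • p) = c * rad p := by
  have h1 := dt_pos hp
  have h2 : 0 < dt (c • p) := by
    rw [dt_smul]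
    positivity
  have a1 := rad_cube h1.le
  have a3 := rad_cube h2.le
  have r1 := rad_pos h1
  have r3 := rad_pos h2
  refine (pow_left_inj₀ r3.le (by positivity) (three_ne_zero)).1 ?_
  rw [a3, dt_smul, mul_pow, a1]

/-- the theta function only depends on the ray of the form -/
lemma th_smul (β : ℝ) {c : ℝ} (hc : 0 < c) {p : Fin 6 → ℝ} (hp : PD p) :
    Th β (c • p) = Th β p := by
  unfold Th
  refine tsum_congr fun n => ?_
  rw [qf_smul, rad_smul' hc hp, mul_div_mul_left _ _ hc.ne']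

/-- the thirteen vectors -/
def X13 : Fin 13 → Fin 3 → ℤ :=
  ![![1, 0, 0], ![0, 1, 0], ![0, 0, 1], ![1, 1, 0], ![1, 0, 1], ![0, 1, 1], ![1, 1, 1],
    ![1, -1, 0], ![1, 0, -1], ![0, 1, -1], ![2, 1, 1], ![1, 2, 1], ![1, 1, 2]]

/-- the thirteen vectors and one more -/
def X14 : Fin 14 → Fin 3 → ℤ :=
  ![![1, 0, 0], ![0, 1, 0], ![0, 0, 1], ![1, 1, 0], ![1, 0, 1], ![0, 1, 1], ![1, 1, 1],
    ![1, -1, 0], ![1, 0, -1], ![0, 1, -1], ![2, 1, 1], ![1, 2, 1], ![1, 1, 2], ![3, 0, 0]]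

lemma X14_0 : ∀ s, sgv X14 s ≠ 0 := by decide
lemma X14_i : Function.Injective (sgv X14) := by decide

/-- the theta function is larger than the partial sum over the thirteen vectors -/
lemma th_gt {p : Fin 6 → ℝ} (h : PD p) {β : ℝ} (hβ : 0 < β) :
    2 * ∑ i, Real.exp (-(Real.pi * β * (qf p (rv (X13 i)) / rad p))) < Th β p := by
  have h1 := two_sum_le X14 X14_0 X14_i
    (fun n => Real.exp (-(Real.pi * β * (qf p (rv n) / rad p))))
    (fun n => by simp only [qf_neg]) (fun n => (Real.exp_pos _).le) (th_summable h hβ)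
  refine lt_of_lt_of_le ?_ h1
  rw [Fin.sum_univ_castSucc (n := 13)]
  have e : ∀ i : Fin 13, X14 (Fin.castSucc i) = X13 i := by decide
  simp only [e]
  have := Real.exp_pos (-(Real.pi * β * (qf p (rv (X14 (Fin.last 13))) / rad p)))
  linarith

/-- either the theta function is larger than that of the face-centred cubic form, or the form is
proportional to it -/
def Sg (β : ℝ) (p : Fin 6 → ℝ) : Prop := Th β Fp < Th β p ∨ ∃ t : ℝ, 0 < t ∧ p = t • Fp

end Pool.Agent.U316.Th
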