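import Pool.Agent.U316.Th.Exps
import Pool.Agent.U316.Th.Tabs

/-!
# Validity of the tables
-/

set_option autoImplicit false

open Matrix Pool.Agent.K1H99.FCC

namespace Pool.Agent.U316.Th

/-- the conditions on an entry of a table for `exp (c x)` -/
def cond0 (T i P Q L U : ℕ) : Bool :=
  Nat.ble (lA T i * 2 ^ 103) (L * (2 ^ 47 + P * (i + 64))) && Nat.ble (U * Q) (lB T i * 2 ^ 96)

/-- the conditions on an entry of a table for `exp (c x) (s + x)` -/
def cond1 (S T i P Q L U : ℕ) : Bool :=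
  decide (lA T i = 0) ||
  (decide ((0:ℤ) ≤ 1208925819614629174706176 + Q * ((S:ℤ) + 1385297844439 - 8589934592 * (i + 64))) &&
  decide ((U:ℤ) * (1208925819614629174706176 + max (Q * ((S:ℤ) + 1385297844440 - 8589934592 * (i + 64)))
    (P * ((S:ℤ) + 1385297844440 - 8589934592 * (i + 64)))) ≤ (lB T i : ℤ) * 87112285931760246646623899502532662132736) &&
  decide (((lA T i : ℤ) - 2097152) * 95780971304118053647396689196894323976171195136475136 ≤ L * (1208925819614629174706176 * ((S:ℤ) + 1385297844439 - 8589934592 * (i + 64)) +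
    (1208925819614629174706176 + min (P * ((S:ℤ) + 1385297844439 - 8589934592 * (i + 64)))
      (Q * ((S:ℤ) + 1385297844439 - 8589934592 * (i + 64)))) * (8589934592 * (i + 64)))) &&
  decide (((lA T i : ℤ) - 2097152) * 95780971304118053647396689196894323976171195136475136 ≤ U * (1208925819614629174706176 * ((S:ℤ) + 1385297844439 - 8589934592 * (i + 64)) +
    (1208925819614629174706176 + min (P * ((S:ℤ) + 1385297844439 - 8589934592 * (i + 64)))
      (Q * ((S:ℤ) + 1385297844439 - 8589934592 * (i + 64)))) * (8589934592 * (i + 64)))))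

/-- checks the entries in turn -/
def chk (f : ℕ → ℕ → ℕ → Bool) (R1 R2 : ℕ) : ℕ → ℕ → ℕ → ℕ → Bool
  | 0, _, _, _ => true
  | n + 1, i, L, U => f i L U && frc (i + 1) fun i' => frc (L * R1 / 2 ^ 80) fun L' =>
      frc (U * R2 / 2 ^ 80 + 1) fun U' => chk f R1 R2 n i' L' U'

/-- the exponential at the grid point -/
noncomputable def Ei (c : ℝ) (i : ℕ) : ℝ := Real.exp (c * (mm - ((i:ℝ) + 64) / 128))

lemma chk_sound {f : ℕ → ℕ → ℕ → Bool} {R1 R2 : ℕ} {c : ℝ}
    (hR : (R1 : ℝ) / 2 ^ 80 ≤ Real.exp (-(c / 128)) ∧ Real.exp (-(c / 128)) ≤ R2 / 2 ^ 80) :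
    ∀ (n i L U : ℕ), (L : ℝ) / 2 ^ 80 ≤ Ei c i → Ei c i ≤ U / 2 ^ 80 →
      chk f R1 R2 n i L U = true → ∀ j, i ≤ j → j < i + n → ∃ L' U' : ℕ,
      (L' : ℝ) / 2 ^ 80 ≤ Ei c j ∧ Ei c j ≤ U' / 2 ^ 80 ∧ f j L' U' = true := by
  intro n
  induction n with
  | zero => intro i L U _ _ _ j h1 h2; omega
  | succ n ih =>
    intro i L U hL hU h j h1 h2
    unfold chk at h
    simp only [frc_eq, Bool.and_eq_true] at h
    obtain ⟨hc, h⟩ := h
    rcases Nat.eq_or_lt_of_le h1 with h4 | h4
    · subst h4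
      exact ⟨L, U, hL, hU, hc⟩
    · obtain ⟨b1, b2⟩ := hR
      have e : Ei c (i + 1) = Ei c i * Real.exp (-(c / 128)) := by
        unfold Ei
        rw [← Real.exp_add]
        congr 1
        push_cast
        ring
      have hE : 0 < Ei c i := Real.exp_pos _
      refine ih (i + 1) _ _ ?_ ?_ h j h4 (by omega)
      · rw [e]
        have h5 : ((L * R1 / 2 ^ 80 : ℕ) : ℝ) ≤ L * R1 / 2 ^ 80 := by
          refine Nat.cast_div_le.trans (le_of_eq ?_)
          push_cast
          ring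
        calc ((L * R1 / 2 ^ 80 : ℕ) : ℝ) / 2 ^ 80 ≤ ((L:ℝ) * R1 / 2 ^ 80) / 2 ^ 80 := by gcongr
          _ = ((L:ℝ) / 2 ^ 80) * (R1 / 2 ^ 80) := by ring
          _ ≤ Ei c i * Real.exp (-(c / 128)) := mul_le_mul hL b1 (by positivity) hE.le
      · rw [e]
        have h5 : (U : ℝ) * R2 / 2 ^ 80 ≤ ((U * R2 / 2 ^ 80 + 1 : ℕ) : ℝ) := by
          have h6 : U * R2 < (U * R2 / 2 ^ 80 + 1) * 2 ^ 80 :=
            Nat.lt_mul_of_div_lt (Nat.lt_succ_self _) (by norm_num)
          rw [div_le_iff₀ (by norm_num)]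
          exact_mod_cast h6.le
        calc Ei c i * Real.exp (-(c / 128)) ≤ ((U:ℝ) / 2 ^ 80) * (R2 / 2 ^ 80) :=
              mul_le_mul hU b2 (Real.exp_pos _).le (by positivity)
          _ = ((U:ℝ) * R2 / 2 ^ 80) / 2 ^ 80 := by ring
          _ ≤ _ := by gcongr

lemma lk_big {T n : ℕ} (hT : T < 2 ^ (64 * n)) (j : ℕ) (hj : n ≤ j) : lA T j = 0 ∧ lB T j = 0 := by
  have h2 : T < 2 ^ (64 * j) := hT.trans_le (Nat.pow_le_pow_right (by norm_num) (by omega))
  have h : lk T j = 0 := by
    unfold lk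
    have h1 : Nat.shiftRight T (Nat.mul 64 j) = T >>> (64 * j) := rfl
    rw [h1, Nat.shiftRight_eq_div_pow, Nat.div_eq_of_lt h2]
  unfold lA lB
  rw [h]
  exact ⟨rfl, rfl⟩

/-- validity of a table of the first kind -/
lemma ok0_of {T P Q R1 R2 L U : ℕ} {c : ℝ} (hT : ∀ j, 512 ≤ j → lA T j = 0 ∧ lB T j = 0) (hc : 0 < c)
    (hP : (P : ℝ) / 2 ^ 40 ≤ c) (hQ : c ≤ Q / 2 ^ 40)
    (hE : (L : ℝ) / 2 ^ 80 ≤ Real.exp (c * (mm - 1 / 2)) ∧
      Real.exp (c * (mm - 1 / 2)) ≤ U / 2 ^ 80)
    (hR : (R1 : ℝ) / 2 ^ 80 ≤ Real.exp (-(c / 128)) ∧ Real.exp (-(c / 128)) ≤ R2 / 2 ^ 80)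
    (hlast : lA T 511 = 0 ∧ lB T 511 = 0)
    (h : chk (fun i L U => cond0 T i P Q L U) R1 R2 511 0 L U = true) : OK0 T c := by
  refine ⟨?_, hlast⟩
  intro j v hv
  have hpos : ∀ x : ℝ, 0 < Real.exp x := Real.exp_pos
  rcases Nat.lt_or_ge j 511 with hj | hj
  · have hE0 : Ei c 0 = Real.exp (c * (mm - 1 / 2)) := by
      unfold Ei
      congr 2
      push_cast
      ring
    rw [← hE0] at hE
    obtain ⟨L', U', hL, hU, hf⟩ := chk_sound hR 511 0 L U hE.1 hE.2 h j (by omega) (by omega)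
    unfold cond0 at hf
    rw [Bool.and_eq_true] at hf
    have f1 := Nat.le_of_ble_eq_true hf.1
    have f2 := Nat.le_of_ble_eq_true hf.2
    have g1 : (lA T j : ℝ) * 2 ^ 103 ≤ L' * (2 ^ 47 + P * (j + 64)) := by exact_mod_cast f1
    have g2 : (U' : ℝ) * Q ≤ lB T j * 2 ^ 96 := by exact_mod_cast f2
    have hEp : 0 < Ei c j := Real.exp_pos _
    set V : ℝ := ((j:ℝ) + 64) / 128 with hV
    have hV0 : 0 < V := by positivity
    have a1 : (lA T j : ℝ) ≤ 2 ^ 24 * (Ei c j * (1 + c * V)) := by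
      have h1 : (L' : ℝ) / 2 ^ 80 * (1 + P / 2 ^ 40 * V) ≤ Ei c j * (1 + c * V) := by
        refine mul_le_mul hL ?_ (by positivity) hEp.le
        gcongr
      have h2 : (lA T j : ℝ) ≤ 2 ^ 24 * ((L' : ℝ) / 2 ^ 80 * (1 + P / 2 ^ 40 * V)) := by
        have e : 2 ^ 24 * ((L' : ℝ) / 2 ^ 80 * (1 + P / 2 ^ 40 * V)) =
            L' * (2 ^ 47 + P * (j + 64)) / 2 ^ 103 := by
          rw [hV]
          ring
        rw [e, le_div_iff₀ (by norm_num)]
        exact g1
      linarith
    have a2 : 2 ^ 24 * (Ei c j * c) ≤ lB T j := by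
      have h1 : Ei c j * c ≤ U' / 2 ^ 80 * (Q / 2 ^ 40) :=
        mul_le_mul hU hQ hc.le (by positivity)
      have h2 : 2 ^ 24 * ((U' : ℝ) / 2 ^ 80 * (Q / 2 ^ 40)) ≤ lB T j := by
        have e : 2 ^ 24 * ((U' : ℝ) / 2 ^ 80 * (Q / 2 ^ 40)) = U' * Q / 2 ^ 96 := by ring
        rw [e, div_le_iff₀ (by norm_num)]
        exact g2
      linarith
    have a3 : Ei c j * (1 + c * (V - v)) ≤ Real.exp (c * (mm - v)) := by
      have h1 := Real.add_one_le_exp (c * (V - v))
      have h2 := mul_le_mul_of_nonneg_left h1 hEp.le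
      have e : Ei c j * Real.exp (c * (V - v)) = Real.exp (c * (mm - v)) := by
        unfold Ei
        rw [← Real.exp_add]
        congr 1
        rw [hV]
        ring
      rw [e] at h2
      linarith
    have a4 := mul_le_mul_of_nonneg_right a2 hv
    nlinarith
  · have hz : lA T j = 0 ∧ lB T j = 0 := by
      rcases Nat.eq_or_lt_of_le hj with h5 | h5
      · rw [← h5]; exact hlast
      · exact hT j (by omega)
    rw [hz.1, hz.2]
    push_cast
    have := hpos (c * (mm - v))
    linarith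

/-- the tangent inequality for `exp (c x) x` -/
lemma tan1 {c s t : ℝ} (hc : 0 < c) (hs : 0 ≤ 1 + c * s) :
    Real.exp (c * s) * (s + (1 + c * s) * (t - s)) ≤ Real.exp (c * t) * t := by
  have e : Real.exp (c * t) = Real.exp (c * s) * Real.exp (c * (t - s)) := by
    rw [← Real.exp_add]
    congr 1
    ring
  rw [e, mul_assoc]
  refine mul_le_mul_of_nonneg_left ?_ (Real.exp_pos _).le
  have key : ∀ T y : ℝ, 0 ≤ 1 + T → T + (1 + T) * y ≤ Real.exp y * (T + y) := by
    intro T y hT
    have h1 := Real.add_one_le_exp y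
    have h2 : 0 ≤ (1 + T) * (Real.exp y - 1 - y) := mul_nonneg hT (by linarith)
    have h3 : 0 ≤ (y - 1) * Real.exp y + 1 := by
      have h4 := Real.add_one_le_exp (-y)
      have h5 : Real.exp (-y) * Real.exp y = 1 := by rw [← Real.exp_add]; simp
      have h6 := mul_le_mul_of_nonneg_right h4 (Real.exp_pos y).le
      rw [h5] at h6
      linarith
    nlinarith
  have k := key (c * s) (c * (t - s)) hs
  have e1 : c * s + (1 + c * s) * (c * (t - s)) = c * (s + (1 + c * s) * (t - s)) := by ring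
  have e2 : Real.exp (c * (t - s)) * (c * s + c * (t - s)) =
      c * (Real.exp (c * (t - s)) * t) := by ring
  rw [e1, e2] at k
  exact le_of_mul_le_mul_left k hc

/-- the lower bound for `exp (c x) (s + x)` -/
lemma low1 {c s x : ℝ} (hc : 3 ≤ c) (hs : 0 ≤ s) :
    -(1 / 8) ≤ Real.exp (c * x) * (s + x) := by
  have e : Real.exp (c * x) = Real.exp (-(c * s)) * Real.exp (c * (s + x)) := by
    rw [← Real.exp_add]
    congr 1
    ring
  rw [e, mul_assoc]
  have h1 : Real.exp (-(c * s)) ≤ 1 := by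
    rw [Real.exp_le_one_iff]
    have : 0 ≤ c * s := by positivity
    linarith
  have h0 := Real.exp_pos (-(c * s))
  have h2 : -(1 / 8) ≤ Real.exp (c * (s + x)) * (s + x) := by
    set y := s + x with hy
    have h3 := Real.add_one_le_exp (-(c * y) - 1)
    have h4 : Real.exp (-(c * y) - 1) * Real.exp (c * y) = Real.exp (-1) := by
      rw [← Real.exp_add]
      congr 1
      ring
    have h5 := mul_le_mul_of_nonneg_right h3 (Real.exp_pos (c * y)).le
    rw [h4] at h5
    have h6 : Real.exp (-1) ≤ 3 / 8 := by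
      rw [Real.exp_neg, inv_le_comm₀ (Real.exp_pos 1) (by norm_num)]
      have := Real.exp_one_gt_d9
      linarith
    have h7 : -(3 / 8) ≤ c * (Real.exp (c * y) * y) := by nlinarith
    by_contra hn
    push Not at hn
    nlinarith
  rcases le_total 0 (Real.exp (c * (s + x)) * (s + x)) with h | h
  · have := mul_nonneg h0.le h
    linarith
  · nlinarith

/-- validity of a table of the second kind -/
lemma ok1_of {S T P Q R1 R2 L U : ℕ} {c : ℝ} (hT : ∀ j, 512 ≤ j → lA T j = 0 ∧ lB T j = 0) (hc : 3 ≤ c)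
    (hP : (P : ℝ) / 2 ^ 40 ≤ c) (hQ : c ≤ Q / 2 ^ 40)
    (hE : (L : ℝ) / 2 ^ 80 ≤ Real.exp (c * (mm - 1 / 2)) ∧
      Real.exp (c * (mm - 1 / 2)) ≤ U / 2 ^ 80)
    (hR : (R1 : ℝ) / 2 ^ 80 ≤ Real.exp (-(c / 128)) ∧ Real.exp (-(c / 128)) ≤ R2 / 2 ^ 80)
    (hlast : lA T 511 = 2 ^ 21 ∧ lB T 511 = 0)
    (h : chk (fun i L U => cond1 S T i P Q L U) R1 R2 511 0 L U = true) :
    OK1 T c (S / 2 ^ 40) := by
  have hc0 : 0 < c := by linarith
  refine ⟨?_, hlast⟩
  intro j v hj511 hv
  have zero : lA T j = 0 → (lA T j : ℝ) - lB T j * v ≤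
      2 ^ 24 * (Real.exp (c * (mm - v)) * ((S:ℝ) / 2 ^ 40 + (mm - v)) + 1 / 8) := by
    intro hz
    rw [hz]
    have h1 := low1 (c := c) (s := (S:ℝ) / 2 ^ 40) (x := mm - v) hc (by positivity)
    have h2 : 0 ≤ (lB T j : ℝ) * v := by positivity
    push_cast
    linarith
  rcases Nat.lt_or_ge j 511 with hj | hj
  · have hE0 : Ei c 0 = Real.exp (c * (mm - 1 / 2)) := by
      unfold Ei
      congr 2
      push_cast
      ring
    rw [← hE0] at hE
    obtain ⟨L', U', hL, hU, hf⟩ := chk_sound hR 511 0 L U hE.1 hE.2 h j (by omega) (by omega)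
    unfold cond1 at hf
    simp only [Bool.or_eq_true, Bool.and_eq_true, decide_eq_true_eq] at hf
    rcases hf with hf | hf
    · exact zero hf
    obtain ⟨⟨⟨f1, f2⟩, f3⟩, f4⟩ := hf
    have hEp : 0 < Ei c j := Real.exp_pos _
    set V : ℝ := ((j:ℝ) + 64) / 128 with hV
    have hV0 : 0 < V := by positivity
    obtain ⟨m1, m2⟩ := mm_bounds
    set a : ℝ := (S:ℝ) / 2 ^ 40 + (mm - V) with ha
    set lo : ℝ := (S:ℝ) + 1385297844439 - 8589934592 * (j + 64) with hlo
    set hi : ℝ := (S:ℝ) + 1385297844440 - 8589934592 * (j + 64) with hhi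
    have r1 : (0:ℝ) ≤ 1208925819614629174706176 + Q * lo := by
      have h := (Int.cast_le (R := ℝ)).2 f1
      push_cast at h
      exact h
    have r2 : (U':ℝ) * (1208925819614629174706176 + max (Q * hi) (P * hi)) ≤ lB T j * 87112285931760246646623899502532662132736 := by
      have h := (Int.cast_le (R := ℝ)).2 f2
      push_cast at h
      exact h
    have r3 : ((lA T j : ℝ) - 2097152) * 95780971304118053647396689196894323976171195136475136 ≤ L' * (1208925819614629174706176 * lo +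
        (1208925819614629174706176 + min (P * lo) (Q * lo)) * (8589934592 * (j + 64))) := by
      have h := (Int.cast_le (R := ℝ)).2 f3
      push_cast at h
      exact h
    have r4 : ((lA T j : ℝ) - 2097152) * 95780971304118053647396689196894323976171195136475136 ≤ U' * (1208925819614629174706176 * lo +
        (1208925819614629174706176 + min (P * lo) (Q * lo)) * (8589934592 * (j + 64))) := by
      have h := (Int.cast_le (R := ℝ)).2 f4
      push_cast at h
      exact h
    have b1 : lo / 2 ^ 40 ≤ a := by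
      have e : lo / 2 ^ 40 = (S:ℝ) / 2 ^ 40 + (1385297844439 / 2 ^ 40 - V) := by
        rw [hlo, hV]; ring
      rw [e, ha]
      linarith
    have b2 : a ≤ hi / 2 ^ 40 := by
      have e : hi / 2 ^ 40 = (S:ℝ) / 2 ^ 40 + (1385297844440 / 2 ^ 40 - V) := by
        rw [hhi, hV]; ring
      rw [e, ha]
      linarith
    have hP0 : (0:ℝ) ≤ P := Nat.cast_nonneg P
    -- lower bound for c * a
    have c1 : min (P * lo) (Q * lo) / 2 ^ 80 ≤ c * a := by
      have h1 : min (P * lo) (Q * lo) / 2 ^ 80 ≤ c * (lo / 2 ^ 40) := by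
        rcases le_total 0 lo with h | h
        · have h2 : min (P * lo) (Q * lo) ≤ P * lo := min_le_left _ _
          have h3 : (P:ℝ) / 2 ^ 40 * (lo / 2 ^ 40) ≤ c * (lo / 2 ^ 40) :=
            mul_le_mul_of_nonneg_right hP (by positivity)
          have e : (P:ℝ) / 2 ^ 40 * (lo / 2 ^ 40) = P * lo / 2 ^ 80 := by ring
          rw [e] at h3
          refine le_trans ?_ h3
          gcongr
        · have h2 : min (P * lo) (Q * lo) ≤ Q * lo := min_le_right _ _
          have h3 : (Q:ℝ) / 2 ^ 40 * (lo / 2 ^ 40) ≤ c * (lo / 2 ^ 40) :=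
            mul_le_mul_of_nonpos_right hQ (div_nonpos_of_nonpos_of_nonneg h (by positivity))
          have e : (Q:ℝ) / 2 ^ 40 * (lo / 2 ^ 40) = Q * lo / 2 ^ 80 := by ring
          rw [e] at h3
          refine le_trans ?_ h3
          gcongr
      exact h1.trans (mul_le_mul_of_nonneg_left b1 hc0.le)
    have c2 : c * a ≤ max (Q * hi) (P * hi) / 2 ^ 80 := by
      refine (mul_le_mul_of_nonneg_left b2 hc0.le).trans ?_
      rcases le_total 0 hi with h | h
      · have h2 : Q * hi ≤ max (Q * hi) (P * hi) := le_max_left _ _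
        have h3 : c * (hi / 2 ^ 40) ≤ (Q:ℝ) / 2 ^ 40 * (hi / 2 ^ 40) :=
          mul_le_mul_of_nonneg_right hQ (by positivity)
        have e : (Q:ℝ) / 2 ^ 40 * (hi / 2 ^ 40) = Q * hi / 2 ^ 80 := by ring
        rw [e] at h3
        refine le_trans h3 ?_
        gcongr
      · have h2 : P * hi ≤ max (Q * hi) (P * hi) := le_max_right _ _
        have h3 : c * (hi / 2 ^ 40) ≤ (P:ℝ) / 2 ^ 40 * (hi / 2 ^ 40) :=
          mul_le_mul_of_nonpos_right hP (div_nonpos_of_nonpos_of_nonneg h (by positivity))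
        have e : (P:ℝ) / 2 ^ 40 * (hi / 2 ^ 40) = P * hi / 2 ^ 80 := by ring
        rw [e] at h3
        refine le_trans h3 ?_
        gcongr
    have c0 : 0 ≤ 1 + c * a := by
      rcases le_total 0 lo with h | h
      · have h2 : 0 ≤ a := le_trans (by positivity) b1
        have := mul_nonneg hc0.le h2
        linarith
      · have h3 : (Q:ℝ) / 2 ^ 40 * (lo / 2 ^ 40) ≤ c * (lo / 2 ^ 40) :=
          mul_le_mul_of_nonpos_right hQ (div_nonpos_of_nonpos_of_nonneg h (by positivity))
        have h4 := mul_le_mul_of_nonneg_left b1 hc0.le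
        have e : (Q:ℝ) / 2 ^ 40 * (lo / 2 ^ 40) = (1208925819614629174706176 + Q * lo) / 1208925819614629174706176 - 1 := by
          ring
        rw [e] at h3
        have h5 : 0 ≤ (1208925819614629174706176 + Q * lo) / 1208925819614629174706176 := div_nonneg r1 (by norm_num)
        linarith
    -- slope
    have a2 : 2 ^ 24 * (Ei c j * (1 + c * a)) ≤ lB T j := by
      have h0 : 0 ≤ 1 + max (Q * hi) (P * hi) / 2 ^ 80 := by linarith
      have h1 : Ei c j * (1 + c * a) ≤ U' / 2 ^ 80 * (1 + max (Q * hi) (P * hi) / 2 ^ 80) :=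
        mul_le_mul hU (by linarith) c0 (by positivity)
      have h2 : 2 ^ 24 * ((U' : ℝ) / 2 ^ 80 * (1 + max (Q * hi) (P * hi) / 2 ^ 80)) ≤ lB T j := by
        have e : 2 ^ 24 * ((U' : ℝ) / 2 ^ 80 * (1 + max (Q * hi) (P * hi) / 2 ^ 80)) =
            U' * (1208925819614629174706176 + max (Q * hi) (P * hi)) / 87112285931760246646623899502532662132736 := by
          ring
        rw [e, div_le_iff₀ (by norm_num)]
        exact r2
      linarith
    -- intercept
    have a1 : (lA T j : ℝ) - 2097152 ≤ 2 ^ 24 * (Ei c j * (a + (1 + c * a) * V)) := by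
      set K : ℝ := (1208925819614629174706176 * lo + (1208925819614629174706176 + min (P * lo) (Q * lo)) * (8589934592 * (j + 64))) with hK
      have h1 : K / 2 ^ 120 ≤ a + (1 + c * a) * V := by
        have e : K / 2 ^ 120 = lo / 2 ^ 40 + (1 + min (P * lo) (Q * lo) / 2 ^ 80) * V := by
          rw [hK, hV]
          ring
        rw [e]
        gcongr
      have h2 : Ei c j * (K / 2 ^ 120) ≤ Ei c j * (a + (1 + c * a) * V) :=
        mul_le_mul_of_nonneg_left h1 hEp.le
      have h3 : ((lA T j : ℝ) - 2097152) ≤ 2 ^ 24 * (Ei c j * (K / 2 ^ 120)) := by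
        rcases le_total 0 K with h | h
        · have h4 : (L' : ℝ) / 2 ^ 80 * (K / 2 ^ 120) ≤ Ei c j * (K / 2 ^ 120) :=
            mul_le_mul_of_nonneg_right hL (by positivity)
          have e : 2 ^ 24 * ((L' : ℝ) / 2 ^ 80 * (K / 2 ^ 120)) = L' * K / 95780971304118053647396689196894323976171195136475136 := by
            ring
          have h5 : ((lA T j : ℝ) - 2097152) ≤ L' * K / 95780971304118053647396689196894323976171195136475136 := by
            rw [le_div_iff₀ (by norm_num)]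
            exact r3
          linarith
        · have h4 : (U' : ℝ) / 2 ^ 80 * (K / 2 ^ 120) ≤ Ei c j * (K / 2 ^ 120) :=
            mul_le_mul_of_nonpos_right hU (div_nonpos_of_nonpos_of_nonneg h (by positivity))
          have e : 2 ^ 24 * ((U' : ℝ) / 2 ^ 80 * (K / 2 ^ 120)) = U' * K / 95780971304118053647396689196894323976171195136475136 := by
            ring
          have h5 : ((lA T j : ℝ) - 2097152) ≤ U' * K / 95780971304118053647396689196894323976171195136475136 := by
            rw [le_div_iff₀ (by norm_num)]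
            exact r4
          linarith
      linarith
    -- tangent inequality
    have a3 : Ei c j * (a + (1 + c * a) * (V - v)) ≤
        Real.exp (c * (mm - v)) * ((S:ℝ) / 2 ^ 40 + (mm - v)) := by
      have h1 := tan1 (t := (S:ℝ) / 2 ^ 40 + (mm - v)) hc0 c0
      have e1 : (S:ℝ) / 2 ^ 40 + (mm - v) - a = V - v := by rw [ha]; ring
      rw [e1] at h1
      have e2 : Real.exp (c * a) = Real.exp (c * ((S:ℝ) / 2 ^ 40)) * Ei c j := by
        unfold Ei
        rw [← Real.exp_add]
        congr 1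
        rw [ha, hV]
        ring
      have e3 : Real.exp (c * ((S:ℝ) / 2 ^ 40 + (mm - v))) =
          Real.exp (c * ((S:ℝ) / 2 ^ 40)) * Real.exp (c * (mm - v)) := by
        rw [← Real.exp_add]
        congr 1
        ring
      rw [e2, e3, mul_assoc, mul_assoc] at h1
      exact le_of_mul_le_mul_left h1 (Real.exp_pos _)
    have a4 := mul_le_mul_of_nonneg_right a2 hv
    have e5 : Ei c j * (a + (1 + c * a) * (V - v)) = Ei c j * (a + (1 + c * a) * V) -
        Ei c j * (1 + c * a) * v := by ring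
    rw [e5] at a3
    linarith
  · exact zero (hT j (by omega)).1

end Pool.Agent.U316.Th
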