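import Pool.Agent.K1H99.FCC.Chk

/-!
# The certificate checker for the theta functions
-/

set_option autoImplicit false

open Pool.Agent.K1H99.FCC

namespace Pool.Agent.U316.Th

/-- table lookup -/
def lk (T i : Nat) : Nat := Nat.mod (Nat.shiftRight T (Nat.mul 64 i)) 18446744073709551616

/-- the coefficient vectors of the thirteen quadratic values, in base `2 ^ 96`, reversed -/
def KL : List Nat := [3121748550315992231381597229793166305748598142664971150859156959625371738819765620120312380165227357840590766910829909790026592299070342884753408,
    39402006196394479212279040100143613805079739270465446667954570505981108452261046400837473921301017996251092024819713,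
    497323236409786642155382248146820840100456150797347717440543205055673761350126919483393,
    3121748550315992231381597229832568311944992621877250190959300573430451478090231066788254396467737692931324141732820968378495405584432506840547329,
    3121748550315992231381597229793166305748598142664971150859654282861781525461921002368459201005327813991388114628270294538757237531745282716336129,
    39402006196394479212279040100640937041489525912620828916101391346081564603058394118278017126356691757601218944303104,
    3121748550315992231381597229832568311944992621877250190959797896666861264732386449036401217307838149082121489450261353127226050817107446672130048,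
    3121748550315992231381597229832568311944992621877250190959300573430451478090231066788279504874679239654379484890513799044159815006210362978598913,
    3121748550315992231381597229793166305748598142664971150859654282861781525461921002368459201005327813991388114628270611451407294589095656892137473,
    39402006196394479212279040100640937041489525912620828916101391346081564603058394118278017126356691757601218944303108,
    12486994201263968925526388919212067229190787049872163643537268775542976481191683309397325803600049449242366118603904508708148594474754360169463808,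
    3121748550315992231381597229950774330534176059514087311260228738082100482543782789040252374622310701077376957073927359558296900094971794677563393,
    3121748550315992231381597229832568311944992621877250190961289866376090624658852595780841679828139517534513532602582824286068043572482640342679553]

/-- accumulates lines from two tables, `t` holds the indices -/
noncomputable def acc (T0 T1 : Nat) (k : Nat → Nat → Nat → Nat → Bool) (L : List Nat) :
    Nat → Nat → Nat → Nat → Nat → Bool :=
  List.rec (motive := fun _ => Nat → Nat → Nat → Nat → Nat → Bool)
    (fun _ A0 P0 A1 P1 => k A0 P0 A1 P1)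
    (fun K _ ih t A0 P0 A1 P1 =>
      bif Nat.beq (Nat.mod (Nat.div t 512) 512) 511 && !(Nat.beq (Nat.mod t 512) 511) then false
      else frc (Nat.div t 262144) fun t' => ih t'
        (Nat.add A0 (Nat.div (lk T0 (Nat.mod t 512)) 4294967296))
        (Nat.add P0 (Nat.mul K (Nat.mod (lk T0 (Nat.mod t 512)) 4294967296)))
        (Nat.add A1 (Nat.div (lk T1 (Nat.mod (Nat.div t 512) 512)) 4294967296))
        (Nat.add P1 (Nat.mul K (Nat.mod (lk T1 (Nat.mod (Nat.div t 512) 512)) 4294967296)))) L

/-- the linear test at one vertex -/
def vt (A P W : Nat) : Bool :=
  Nat.ble (Nat.mod (Nat.div (Nat.mul P W)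
    247330401473104534060502521019647190035131349101211839914063056092897225106531867170316401061243044989597671426016139339351365034306751209967546155101893167916606772148699136)
    79228162514264337593543950336) (Nat.mul A (Nat.mod W 79228162514264337593543950336))

/-- the linear test at all vertices -/
noncomputable def vts (A P : Nat) (V : List Nat) : Bool :=
  List.rec (motive := fun _ => Bool) true (fun W _ ih => bif vt A P W then ih else false) V

/-- the double test -/
noncomputable def tst (T0 T1 c0 c1 : Nat) (V : List Nat) (t : Nat) : Bool :=
  acc T0 T1 (fun A0 P0 A1 P1 => frc A0 fun A0 => frc P0 fun P0 => frc A1 fun A1 => frc P1 fun P1 =>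
    bif Nat.ble c0 A0 then bif Nat.ble c1 A1 then
      frc (Nat.sub A0 c0) fun a0 => frc (Nat.sub A1 c1) fun a1 =>
        bif vts a0 P0 V then vts a1 P1 V else false
      else false else false) KL t 0 0 0 0

/-- the vertex with given index -/
noncomputable def gt (V : List Nat) : Nat → Nat :=
  List.rec (motive := fun _ => Nat → Nat) (fun _ => 0)
    (fun w _ ih i => Nat.rec (motive := fun _ => Nat) w (fun i' _ => ih i') i) V

/-- replaces a vertex -/
noncomputable def upd (m : Nat) (V : List Nat) : Nat → (List Nat → Nat) → Nat :=
  List.rec (motive := fun _ => Nat → (List Nat → Nat) → Nat) (fun _ _ => 0)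
    (fun w L ih i k => Nat.rec (motive := fun _ => Nat) (k (m :: L))
      (fun i' _ => ih i' (fun L' => k (w :: L'))) i) V

/-- packed parameters -/
def pk (a b c d e f : Nat) : Nat :=
  Nat.add a (Nat.mul 79228162514264337593543950336 (Nat.add b (Nat.mul 79228162514264337593543950336 (Nat.add c (Nat.mul 79228162514264337593543950336 (Nat.add d (Nat.mul 79228162514264337593543950336 (Nat.add e (Nat.mul 79228162514264337593543950336 f)))))))))

/-- unpacks the parameters of a packed vector -/
def upk {α : Type} (S : Nat) (k : Nat → Nat → Nat → Nat → Nat → Nat → α) : α :=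
  frc (Nat.mod S 79228162514264337593543950336) fun a => frc (Nat.div S 79228162514264337593543950336) fun S =>
  frc (Nat.mod S 79228162514264337593543950336) fun b => frc (Nat.div S 79228162514264337593543950336) fun S =>
  frc (Nat.mod S 79228162514264337593543950336) fun c => frc (Nat.div S 79228162514264337593543950336) fun S =>
  frc (Nat.mod S 79228162514264337593543950336) fun d => frc (Nat.div S 79228162514264337593543950336) fun S =>
  frc (Nat.mod S 79228162514264337593543950336) fun e => frc (Nat.div S 79228162514264337593543950336) fun f => k a b c d e f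

/-- the midpoint of two vertices, with the given bound for the root of the determinant -/
def mid2 (v w g : Nat) (k : Nat → Nat) : Nat :=
  frc (Nat.add (Nat.div v 79228162514264337593543950336) (Nat.div w 79228162514264337593543950336)) fun S =>
  upk S fun a b c d e f =>
  frc (Nat.div a 2) fun a => frc (Nat.div b 2) fun b => frc (Nat.div c 2) fun c =>
  frc (Nat.div d 2) fun d => frc (Nat.div e 2) fun e => frc (Nat.div f 2) fun f =>
  frc (pk a b c d e f) fun M =>
  bif Nat.beq (Nat.mul 2 M) S then
    bif Nat.ble (Nat.mul (Nat.mul g g) g) (detN a b c d e f) then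
      frc (Nat.add g (Nat.mul 79228162514264337593543950336 M)) k
    else 0 else 0

/-- the region near the face-centred cubic form -/
def inF (W : Nat) : Bool :=
  frc (Nat.div W 79228162514264337593543950336) fun S => upk S fun a b c d e f =>
  frc (Nat.add (Nat.mul 3 (Nat.add a (Nat.add b (Nat.add e f)))) (Nat.mul 4 (Nat.add c d))) fun t =>
    (Nat.ble (Nat.mul 4000 (Nat.add c d)) (Nat.mul 140 t)) &&
    (Nat.ble (Nat.mul 4000 (Nat.mul 2 d)) (Nat.add (Nat.mul 140 t) (Nat.mul 4000 c))) &&
    (Nat.ble (Nat.mul 4000 c) (Nat.add (Nat.mul 140 t) (Nat.mul 4000 (Nat.mul 2 d)))) &&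
    (Nat.ble (Nat.mul 4000 (Nat.mul 2 c)) (Nat.add (Nat.mul 140 t) (Nat.mul 4000 d))) &&
    (Nat.ble (Nat.mul 4000 d) (Nat.add (Nat.mul 140 t) (Nat.mul 4000 (Nat.mul 2 c)))) &&
    (Nat.ble (Nat.mul 3000 (Nat.add a e)) (Nat.add (Nat.mul 90 t) (Nat.mul 3000 (Nat.add b f)))) &&
    (Nat.ble (Nat.mul 3000 (Nat.add b f)) (Nat.add (Nat.mul 90 t) (Nat.mul 3000 (Nat.add a e)))) &&
    (Nat.ble (Nat.mul 3000 (Nat.add a b)) (Nat.add (Nat.mul 90 t) (Nat.mul 3000 (Nat.add e f)))) &&
    (Nat.ble (Nat.mul 3000 (Nat.add e f)) (Nat.add (Nat.mul 90 t) (Nat.mul 3000 (Nat.add a b)))) &&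
    (Nat.ble (Nat.mul 3000 (Nat.add a f)) (Nat.add (Nat.mul 90 t) (Nat.mul 3000 (Nat.add b e)))) &&
    (Nat.ble (Nat.mul 3000 (Nat.add b e)) (Nat.add (Nat.mul 90 t) (Nat.mul 3000 (Nat.add a f))))

/-- the region near the body-centred cubic form -/
def inB (W : Nat) : Bool :=
  frc (Nat.div W 79228162514264337593543950336) fun S => upk S fun a b c d e f =>
  frc (Nat.add a (Nat.add b (Nat.add c (Nat.add d (Nat.add e f))))) fun t =>
    (Nat.ble (Nat.mul 600 a) (Nat.mul 116 t)) && (Nat.ble (Nat.mul 84 t) (Nat.mul 600 a)) &&
    (Nat.ble (Nat.mul 600 b) (Nat.mul 116 t)) && (Nat.ble (Nat.mul 84 t) (Nat.mul 600 b)) &&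
    (Nat.ble (Nat.mul 600 c) (Nat.mul 116 t)) && (Nat.ble (Nat.mul 84 t) (Nat.mul 600 c)) &&
    (Nat.ble (Nat.mul 600 d) (Nat.mul 116 t)) && (Nat.ble (Nat.mul 84 t) (Nat.mul 600 d)) &&
    (Nat.ble (Nat.mul 600 e) (Nat.mul 116 t)) && (Nat.ble (Nat.mul 84 t) (Nat.mul 600 e)) &&
    (Nat.ble (Nat.mul 600 f) (Nat.mul 116 t)) && (Nat.ble (Nat.mul 84 t) (Nat.mul 600 f))

/-- all vertices lie in a region -/
noncomputable def alls (r : Nat → Bool) (V : List Nat) : Bool :=
  List.rec (motive := fun _ => Bool) true (fun W _ ih => bif r W then ih else false) V

/-- the tables and constants used by the checker -/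
structure Env where
  ta : Nat → Nat
  tf : Nat → Nat
  ts : Nat → Nat → Nat
  ca : Nat → Nat
  cf : Nat
  cs : Nat → Nat → Nat

/-- the checker: reads the code, returns the remaining code or `0` -/
noncomputable def go (E : Env) (n : Nat) : Nat → List Nat → Nat → Nat :=
  Nat.rec (motive := fun _ => Nat → List Nat → Nat → Nat) (fun _ _ _ => 0)
    (fun _ ih k V code => frc (Nat.mod code 8) fun op => frc (Nat.div code 8) fun rest =>
      bif Nat.beq op 0 then
        frc (Nat.mod rest 8) fun i => frc (Nat.mod (Nat.div rest 8) 8) fun j =>
        bif Nat.ble (Nat.succ i) j && Nat.ble j 5 then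
          mid2 (gt V i) (gt V j) (Nat.mod (Nat.div rest 64) 4294967296) fun m =>
          frc (Nat.div rest 274877906944) fun r =>
          frz (upd m V i fun V1 => ih k V1 r) fun r' => upd m V j fun V2 => ih k V2 r'
        else 0
      else bif Nat.beq op 1 then
        frc (Nat.mod rest 27606985387162255149739023449108101809804435888681546220650096895197184) fun t =>
        bif tst (E.ta k) (E.tf k) (E.ca k) E.cf V t then
          Nat.div rest 27606985387162255149739023449108101809804435888681546220650096895197184
        else 0
      else bif Nat.beq op 2 then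
        frc (Nat.mod rest 4) fun l =>
        frc (Nat.mod (Nat.div rest 4) 27606985387162255149739023449108101809804435888681546220650096895197184) fun t =>
        bif Nat.ble (Nat.succ k) l && tst (E.ta k) (E.ts k l) (E.ca k) (E.cs k l) V t then
          frc (Nat.div rest 110427941548649020598956093796432407239217743554726184882600387580788736) fun r => ih l V r
        else 0
      else bif Nat.beq op 3 then
        bif alls inF V then rest else 0
      else bif Nat.beq op 4 && Nat.beq k 0 then
        bif alls inB V then ih 1 V rest else 0
      else 0) n

end Pool.Agent.U316.Th
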