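import Pool.Agent.U316.Th.TabOK

/-!
# Validity of the tables of the environment
-/

set_option autoImplicit false

open Matrix Pool.Agent.K1H99.FCC

namespace Pool.Agent.U316.Th

/-- the levels -/
noncomputable def lv : ℕ → ℝ
  | 0 => 1
  | 1 => 21 / 20
  | 2 => 6 / 5
  | _ => 7 / 5

lemma cb0 : ((3454217652357:ℕ) : ℝ) / 2 ^ 40 ≤ Real.pi * lv 0 ∧ Real.pi * lv 0 ≤ ((3454217652358:ℕ):ℝ) / 2 ^ 40 := by
  have p1 := Real.pi_gt_d20
  have p2 := Real.pi_lt_d20
  have e : lv 0 = 1 := rfl
  rw [e]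
  push_cast
  constructor <;> linarith

lemma ce0 : ((13158850849087338658950269:ℕ) : ℝ) / 2 ^ 80 ≤ Real.exp (Real.pi * lv 0 * (mm - 1 / 2)) ∧
    Real.exp (Real.pi * lv 0 * (mm - 1 / 2)) ≤ ((13158850849350515675934649:ℕ):ℝ) / 2 ^ 80 := by
  have h := ex0
  have e : lv 0 = 1 := rfl
  rw [e]
  push_cast
  exact h

lemma cr0 : ((1179615479253193842559524:ℕ) : ℝ) / 2 ^ 80 ≤ Real.exp (-(Real.pi * lv 0 / 128)) ∧
    Real.exp (-(Real.pi * lv 0 / 128)) ≤ ((1179615479253194078482621:ℕ):ℝ) / 2 ^ 80 := by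
  have h := er0
  have e : lv 0 = 1 := rfl
  rw [e]
  push_cast
  exact h

lemma ok_a0 : OK0 t_a0 (Real.pi * lv 0) :=
  ok0_of (P := 3454217652357) (Q := 3454217652358) (R1 := 1179615479253193842559524) (R2 := 1179615479253194078482621)
    (L := 13158850849087338658950269) (U := 13158850849350515675934649) (lk_big (n := 512) (by decide +kernel))
    (mul_pos Real.pi_pos (by unfold lv; norm_num)) cb0.1 cb0.2 ce0 cr0 (by decide +kernel) (by decide +kernel)

lemma three_le0 : 3 ≤ Real.pi * lv 0 := by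
  have p1 := Real.pi_gt_d20
  have e : lv 0 = 1 := rfl
  rw [e]
  linarith

lemma cb1 : ((3626928534975:ℕ) : ℝ) / 2 ^ 40 ≤ Real.pi * lv 1 ∧ Real.pi * lv 1 ≤ ((3626928534976:ℕ):ℝ) / 2 ^ 40 := by
  have p1 := Real.pi_gt_d20
  have p2 := Real.pi_lt_d20
  have e : lv 1 = (21 / 20) := rfl
  rw [e]
  push_cast
  constructor <;> linarith

lemma ce1 : ((14827190927522495390063058:ℕ) : ℝ) / 2 ^ 80 ≤ Real.exp (Real.pi * lv 1 * (mm - 1 / 2)) ∧
    Real.exp (Real.pi * lv 1 * (mm - 1 / 2)) ≤ ((14827190927819039208616475:ℕ):ℝ) / 2 ^ 80 := by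
  have h := ex1
  have e : lv 1 = (21 / 20) := rfl
  rw [e]
  push_cast
  exact h

lemma cr1 : ((1178168761144055236603742:ℕ) : ℝ) / 2 ^ 80 ≤ Real.exp (-(Real.pi * lv 1 / 128)) ∧
    Real.exp (-(Real.pi * lv 1 / 128)) ≤ ((1178168761144055472237496:ℕ):ℝ) / 2 ^ 80 := by
  have h := er1
  have e : lv 1 = (21 / 20) := rfl
  rw [e]
  push_cast
  exact h

lemma ok_a1 : OK0 t_a1 (Real.pi * lv 1) :=
  ok0_of (P := 3626928534975) (Q := 3626928534976) (R1 := 1178168761144055236603742) (R2 := 1178168761144055472237496)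
    (L := 14827190927522495390063058) (U := 14827190927819039208616475) (lk_big (n := 512) (by decide +kernel))
    (mul_pos Real.pi_pos (by unfold lv; norm_num)) cb1.1 cb1.2 ce1 cr1 (by decide +kernel) (by decide +kernel)

lemma three_le1 : 3 ≤ Real.pi * lv 1 := by
  have p1 := Real.pi_gt_d20
  have e : lv 1 = (21 / 20) := rfl
  rw [e]
  linarith

lemma cb2 : ((4145061182829:ℕ) : ℝ) / 2 ^ 40 ≤ Real.pi * lv 2 ∧ Real.pi * lv 2 ≤ ((4145061182830:ℕ):ℝ) / 2 ^ 40 := by
  have p1 := Real.pi_gt_d20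
  have p2 := Real.pi_lt_d20
  have e : lv 2 = (6 / 5) := rfl
  rw [e]
  push_cast
  constructor <;> linarith

lemma ce2 : ((21212000399702307546775827:ℕ) : ℝ) / 2 ^ 80 ≤ Real.exp (Real.pi * lv 2 * (mm - 1 / 2)) ∧
    Real.exp (Real.pi * lv 2 * (mm - 1 / 2)) ≤ ((21212000400126547554774117:ℕ):ℝ) / 2 ^ 80 := by
  have h := ex2
  have e : lv 2 = (6 / 5) := rfl
  rw [e]
  push_cast
  exact h

lemma cr2 : ((1173839243922914605433056:ℕ) : ℝ) / 2 ^ 80 ≤ Real.exp (-(Real.pi * lv 2 / 128)) ∧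
    Real.exp (-(Real.pi * lv 2 / 128)) ≤ ((1173839243922914840200906:ℕ):ℝ) / 2 ^ 80 := by
  have h := er2
  have e : lv 2 = (6 / 5) := rfl
  rw [e]
  push_cast
  exact h

lemma ok_a2 : OK0 t_a2 (Real.pi * lv 2) :=
  ok0_of (P := 4145061182829) (Q := 4145061182830) (R1 := 1173839243922914605433056) (R2 := 1173839243922914840200906)
    (L := 21212000399702307546775827) (U := 21212000400126547554774117) (lk_big (n := 512) (by decide +kernel))
    (mul_pos Real.pi_pos (by unfold lv; norm_num)) cb2.1 cb2.2 ce2 cr2 (by decide +kernel) (by decide +kernel)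

lemma three_le2 : 3 ≤ Real.pi * lv 2 := by
  have p1 := Real.pi_gt_d20
  have e : lv 2 = (6 / 5) := rfl
  rw [e]
  linarith

lemma cb3 : ((4835904713300:ℕ) : ℝ) / 2 ^ 40 ≤ Real.pi * lv 3 ∧ Real.pi * lv 3 ≤ ((4835904713301:ℕ):ℝ) / 2 ^ 40 := by
  have p1 := Real.pi_gt_d20
  have p2 := Real.pi_lt_d20
  have e : lv 3 = (7 / 5) := rfl
  rw [e]
  push_cast
  constructor <;> linarith

lemma ce3 : ((34193636368192292805683224:ℕ) : ℝ) / 2 ^ 80 ≤ Real.exp (Real.pi * lv 3 * (mm - 1 / 2)) ∧
    Real.exp (Real.pi * lv 3 * (mm - 1 / 2)) ≤ ((34193636368876165533053909:ℕ):ℝ) / 2 ^ 80 := by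
  have h := ex3
  have e : lv 3 = (7 / 5) := rfl
  rw [e]
  push_cast
  exact h

lemma cr3 : ((1168091293143980768728696:ℕ) : ℝ) / 2 ^ 80 ≤ Real.exp (-(Real.pi * lv 3 / 128)) ∧
    Real.exp (-(Real.pi * lv 3 / 128)) ≤ ((1168091293143981002346955:ℕ):ℝ) / 2 ^ 80 := by
  have h := er3
  have e : lv 3 = (7 / 5) := rfl
  rw [e]
  push_cast
  exact h

lemma ok_a3 : OK0 t_a3 (Real.pi * lv 3) :=
  ok0_of (P := 4835904713300) (Q := 4835904713301) (R1 := 1168091293143980768728696) (R2 := 1168091293143981002346955)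
    (L := 34193636368192292805683224) (U := 34193636368876165533053909) (lk_big (n := 512) (by decide +kernel))
    (mul_pos Real.pi_pos (by unfold lv; norm_num)) cb3.1 cb3.2 ce3 cr3 (by decide +kernel) (by decide +kernel)

lemma three_le3 : 3 ≤ Real.pi * lv 3 := by
  have p1 := Real.pi_gt_d20
  have e : lv 3 = (7 / 5) := rfl
  rw [e]
  linarith

lemma ok_f0 : OK1 t_f0 (Real.pi * lv 0) (((0:ℕ):ℝ) / 2 ^ 40) :=
  ok1_of (P := 3454217652357) (Q := 3454217652358) (R1 := 1179615479253193842559524) (R2 := 1179615479253194078482621)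
    (L := 13158850849087338658950269) (U := 13158850849350515675934649) (lk_big (n := 512) (by decide +kernel))
    three_le0 cb0.1 cb0.2 ce0 cr0 (by decide +kernel) (by decide +kernel)

lemma ok_f1 : OK1 t_f1 (Real.pi * lv 1) (((0:ℕ):ℝ) / 2 ^ 40) :=
  ok1_of (P := 3626928534975) (Q := 3626928534976) (R1 := 1178168761144055236603742) (R2 := 1178168761144055472237496)
    (L := 14827190927522495390063058) (U := 14827190927819039208616475) (lk_big (n := 512) (by decide +kernel))
    three_le1 cb1.1 cb1.2 ce1 cr1 (by decide +kernel) (by decide +kernel)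

lemma ok_f2 : OK1 t_f2 (Real.pi * lv 2) (((0:ℕ):ℝ) / 2 ^ 40) :=
  ok1_of (P := 4145061182829) (Q := 4145061182830) (R1 := 1173839243922914605433056) (R2 := 1173839243922914840200906)
    (L := 21212000399702307546775827) (U := 21212000400126547554774117) (lk_big (n := 512) (by decide +kernel))
    three_le2 cb2.1 cb2.2 ce2 cr2 (by decide +kernel) (by decide +kernel)

lemma ok_f3 : OK1 t_f3 (Real.pi * lv 3) (((0:ℕ):ℝ) / 2 ^ 40) :=
  ok1_of (P := 4835904713300) (Q := 4835904713301) (R1 := 1168091293143980768728696) (R2 := 1168091293143981002346955)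
    (L := 34193636368192292805683224) (U := 34193636368876165533053909) (lk_big (n := 512) (by decide +kernel))
    three_le3 cb3.1 cb3.2 ce3 cr3 (by decide +kernel) (by decide +kernel)

lemma ok_s01 : OK1 t_s01 (Real.pi * lv 0) (((6999708318497:ℕ):ℝ) / 2 ^ 40) :=
  ok1_of (P := 3454217652357) (Q := 3454217652358) (R1 := 1179615479253193842559524) (R2 := 1179615479253194078482621)
    (L := 13158850849087338658950269) (U := 13158850849350515675934649) (lk_big (n := 512) (by decide +kernel))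
    three_le0 cb0.1 cb0.2 ce0 cr0 (by decide +kernel) (by decide +kernel)

lemma ok_s02 : OK1 t_s02 (Real.pi * lv 0) (((1749927079624:ℕ):ℝ) / 2 ^ 40) :=
  ok1_of (P := 3454217652357) (Q := 3454217652358) (R1 := 1179615479253193842559524) (R2 := 1179615479253194078482621)
    (L := 13158850849087338658950269) (U := 13158850849350515675934649) (lk_big (n := 512) (by decide +kernel))
    three_le0 cb0.1 cb0.2 ce0 cr0 (by decide +kernel) (by decide +kernel)

lemma ok_s03 : OK1 t_s03 (Real.pi * lv 0) (((874963539812:ℕ):ℝ) / 2 ^ 40) :=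
  ok1_of (P := 3454217652357) (Q := 3454217652358) (R1 := 1179615479253193842559524) (R2 := 1179615479253194078482621)
    (L := 13158850849087338658950269) (U := 13158850849350515675934649) (lk_big (n := 512) (by decide +kernel))
    three_le0 cb0.1 cb0.2 ce0 cr0 (by decide +kernel) (by decide +kernel)

lemma ok_s12 : OK1 t_s12 (Real.pi * lv 1) (((2333236106165:ℕ):ℝ) / 2 ^ 40) :=
  ok1_of (P := 3626928534975) (Q := 3626928534976) (R1 := 1178168761144055236603742) (R2 := 1178168761144055472237496)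
    (L := 14827190927522495390063058) (U := 14827190927819039208616475) (lk_big (n := 512) (by decide +kernel))
    three_le1 cb1.1 cb1.2 ce1 cr1 (by decide +kernel) (by decide +kernel)

lemma ok_s13 : OK1 t_s13 (Real.pi * lv 1) (((999958331213:ℕ):ℝ) / 2 ^ 40) :=
  ok1_of (P := 3626928534975) (Q := 3626928534976) (R1 := 1178168761144055236603742) (R2 := 1178168761144055472237496)
    (L := 14827190927522495390063058) (U := 14827190927819039208616475) (lk_big (n := 512) (by decide +kernel))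
    three_le1 cb1.1 cb1.2 ce1 cr1 (by decide +kernel) (by decide +kernel)

lemma ok_s23 : OK1 t_s23 (Real.pi * lv 2) (((1749927079624:ℕ):ℝ) / 2 ^ 40) :=
  ok1_of (P := 4145061182829) (Q := 4145061182830) (R1 := 1173839243922914605433056) (R2 := 1173839243922914840200906)
    (L := 21212000399702307546775827) (U := 21212000400126547554774117) (lk_big (n := 512) (by decide +kernel))
    three_le2 cb2.1 cb2.2 ce2 cr2 (by decide +kernel) (by decide +kernel)

end Pool.Agent.U316.Th
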