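import Pool.Agent.U316.Th.RF

/-!
# Bounds for the exponentials at the four levels
-/

set_option autoImplicit false

open Matrix Pool.Agent.K1H99.FCC

namespace Pool.Agent.U316.Th

/-- lower bound for the exponential -/
lemma exp_lb {x s E : ℝ} (hx : 0 ≤ x) (hs0 : 0 ≤ s) (hs : s ≤ ∑ i ∈ Finset.range 18, (x / 4) ^ i / (Nat.factorial i : ℝ))
    (hE : E ≤ s ^ 4) : E ≤ Real.exp x := by
  have h1 := Real.sum_le_exp_of_nonneg (x := x / 4) (by positivity) 18
  have h2 : Real.exp x = Real.exp (x / 4) ^ 4 := by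
    rw [← Real.exp_nat_mul]
    congr 1
    push_cast
    ring
  rw [h2]
  exact hE.trans (pow_le_pow_left₀ hs0 (hs.trans h1) 4)

/-- upper bound for the exponential -/
lemma exp_ub {x s E : ℝ} (hx : 0 ≤ x) (hx4 : x ≤ 4)
    (hs : (∑ i ∈ Finset.range 18, (x / 4) ^ i / (Nat.factorial i : ℝ)) +
      (x / 4) ^ 18 * ((18:ℕ) + 1) / ((Nat.factorial 18 : ℝ) * (18:ℕ)) ≤ s)
    (hE : s ^ 4 ≤ E) : Real.exp x ≤ E := by
  have h1 := Real.exp_bound' (x := x / 4) (by positivity) (by linarith) (n := 18) (by norm_num)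
  have h2 : Real.exp x = Real.exp (x / 4) ^ 4 := by
    rw [← Real.exp_nat_mul]
    congr 1
    push_cast
    ring
  rw [h2]
  exact (pow_le_pow_left₀ (Real.exp_pos _).le (h1.trans hs) 4).trans hE

lemma ex0 : (13158850849087338658950269 : ℝ) / 2 ^ 80 ≤ Real.exp (Real.pi * 1 * (mm - 1 / 2)) ∧
    Real.exp (Real.pi * 1 * (mm - 1 / 2)) ≤ 13158850849350515675934649 / 2 ^ 80 := by
  have p1 := Real.pi_gt_d20
  have p2 := Real.pi_lt_d20
  obtain ⟨m1, m2⟩ := mm_bounds
  have h1 : (1385297844439 / 2 ^ 40 - 1 / 2 : ℝ) ≤ mm - 1 / 2 := by linarith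
  have h2 : mm - 1 / 2 ≤ (1385297844440 / 2 ^ 40 - 1 / 2 : ℝ) := by linarith
  have h3 : 0 ≤ mm - 1 / 2 := le_trans (by norm_num) h1
  constructor
  · refine le_trans ?_ (Real.exp_le_exp.2 (show (238736238765497 : ℝ) / 10 ^ 14 ≤ Real.pi * 1 * (mm - 1 / 2) by
      calc (238736238765497 : ℝ) / 10 ^ 14 ≤ 3.14159265358979323846 * 1 * (1385297844439 / 2 ^ 40 - 1 / 2) := by
            norm_num
        _ ≤ Real.pi * 1 * (mm - 1 / 2) := by
            refine mul_le_mul (by linarith) h1 (by norm_num) (by positivity)))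
    refine exp_lb (s := 18163710770974473 / 10 ^ 16) (by norm_num) (by norm_num) ?_ ?_
    · norm_num [Finset.sum_range_succ, Nat.factorial]
    · norm_num
  · refine le_trans (Real.exp_le_exp.2 (show Real.pi * 1 * (mm - 1 / 2) ≤ (238736238766098 : ℝ) / 10 ^ 14 by
      calc Real.pi * 1 * (mm - 1 / 2) ≤ 3.14159265358979323847 * 1 *
            (1385297844440 / 2 ^ 40 - 1 / 2) := by
            refine mul_le_mul (by linarith) h2 h3 (by norm_num)
        _ ≤ (238736238766098 : ℝ) / 10 ^ 14 := by norm_num)) ?_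
    refine exp_ub (s := 18163710771001767 / 10 ^ 16) (by norm_num) (by norm_num) ?_ ?_
    · norm_num [Finset.sum_range_succ, Nat.factorial]
    · norm_num

lemma er0 : (1179615479253193842559524 : ℝ) / 2 ^ 80 ≤ Real.exp (-(Real.pi * 1 / 128)) ∧
    Real.exp (-(Real.pi * 1 / 128)) ≤ 1179615479253194078482621 / 2 ^ 80 := by
  have p1 := Real.pi_gt_d20
  have p2 := Real.pi_lt_d20
  constructor
  · rw [Real.exp_neg, ← one_div, le_div_iff₀ (Real.exp_pos _)]
    have h1 : Real.exp (Real.pi * 1 / 128) ≤ 2 ^ 80 / 1179615479253193842559524 := by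
      refine le_trans (Real.exp_le_exp.2 (show Real.pi * 1 / 128 ≤ (245436926061702596756 : ℝ) / 10 ^ 22 by
        linarith)) ?_
      refine (Real.exp_bound' (by norm_num) (by norm_num) (n := 12) (by norm_num)).trans ?_
      norm_num [Finset.sum_range_succ, Nat.factorial]
    calc (1179615479253193842559524 : ℝ) / 2 ^ 80 * Real.exp (Real.pi * 1 / 128)
        ≤ 1179615479253193842559524 / 2 ^ 80 * (2 ^ 80 / 1179615479253193842559524) := mul_le_mul_of_nonneg_left h1 (by norm_num)
      _ = 1 := by norm_num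
  · rw [Real.exp_neg, ← one_div, div_le_iff₀ (Real.exp_pos _)]
    have h1 : (2:ℝ) ^ 80 / 1179615479253194078482621 ≤ Real.exp (Real.pi * 1 / 128) := by
      refine le_trans ?_ (Real.exp_le_exp.2 (show (245436926061702596754 : ℝ) / 10 ^ 22 ≤ Real.pi * 1 / 128 by
        linarith))
      refine le_trans ?_ (Real.sum_le_exp_of_nonneg (by norm_num) 12)
      norm_num [Finset.sum_range_succ, Nat.factorial]
    calc (1:ℝ) = 1179615479253194078482621 / 2 ^ 80 * (2 ^ 80 / 1179615479253194078482621) := by norm_num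
      _ ≤ 1179615479253194078482621 / 2 ^ 80 * Real.exp (Real.pi * 1 / 128) :=
        mul_le_mul_of_nonneg_left h1 (by norm_num)

lemma ex1 : (14827190927522495390063058 : ℝ) / 2 ^ 80 ≤ Real.exp (Real.pi * (21 / 20) * (mm - 1 / 2)) ∧
    Real.exp (Real.pi * (21 / 20) * (mm - 1 / 2)) ≤ 14827190927819039208616475 / 2 ^ 80 := by
  have p1 := Real.pi_gt_d20
  have p2 := Real.pi_lt_d20
  obtain ⟨m1, m2⟩ := mm_bounds
  have h1 : (1385297844439 / 2 ^ 40 - 1 / 2 : ℝ) ≤ mm - 1 / 2 := by linarith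
  have h2 : mm - 1 / 2 ≤ (1385297844440 / 2 ^ 40 - 1 / 2 : ℝ) := by linarith
  have h3 : 0 ≤ mm - 1 / 2 := le_trans (by norm_num) h1
  constructor
  · refine le_trans ?_ (Real.exp_le_exp.2 (show (250673050703772 : ℝ) / 10 ^ 14 ≤ Real.pi * (21 / 20) * (mm - 1 / 2) by
      calc (250673050703772 : ℝ) / 10 ^ 14 ≤ 3.14159265358979323846 * (21 / 20) * (1385297844439 / 2 ^ 40 - 1 / 2) := by
            norm_num
        _ ≤ Real.pi * (21 / 20) * (mm - 1 / 2) := by
            refine mul_le_mul (by linarith) h1 (by norm_num) (by positivity)))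
    refine exp_lb (s := 18713921642770049 / 10 ^ 16) (by norm_num) (by norm_num) ?_ ?_
    · norm_num [Finset.sum_range_succ, Nat.factorial]
    · norm_num
  · refine le_trans (Real.exp_le_exp.2 (show Real.pi * (21 / 20) * (mm - 1 / 2) ≤ (250673050704403 : ℝ) / 10 ^ 14 by
      calc Real.pi * (21 / 20) * (mm - 1 / 2) ≤ 3.14159265358979323847 * (21 / 20) *
            (1385297844440 / 2 ^ 40 - 1 / 2) := by
            refine mul_le_mul (by linarith) h2 h3 (by norm_num)
        _ ≤ (250673050704403 : ℝ) / 10 ^ 14 := by norm_num)) ?_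
    refine exp_ub (s := 18713921642799573 / 10 ^ 16) (by norm_num) (by norm_num) ?_ ?_
    · norm_num [Finset.sum_range_succ, Nat.factorial]
    · norm_num

lemma er1 : (1178168761144055236603742 : ℝ) / 2 ^ 80 ≤ Real.exp (-(Real.pi * (21 / 20) / 128)) ∧
    Real.exp (-(Real.pi * (21 / 20) / 128)) ≤ 1178168761144055472237496 / 2 ^ 80 := by
  have p1 := Real.pi_gt_d20
  have p2 := Real.pi_lt_d20
  constructor
  · rw [Real.exp_neg, ← one_div, le_div_iff₀ (Real.exp_pos _)]
    have h1 : Real.exp (Real.pi * (21 / 20) / 128) ≤ 2 ^ 80 / 1178168761144055236603742 := by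
      refine le_trans (Real.exp_le_exp.2 (show Real.pi * (21 / 20) / 128 ≤ (257708772364787726594 : ℝ) / 10 ^ 22 by
        linarith)) ?_
      refine (Real.exp_bound' (by norm_num) (by norm_num) (n := 12) (by norm_num)).trans ?_
      norm_num [Finset.sum_range_succ, Nat.factorial]
    calc (1178168761144055236603742 : ℝ) / 2 ^ 80 * Real.exp (Real.pi * (21 / 20) / 128)
        ≤ 1178168761144055236603742 / 2 ^ 80 * (2 ^ 80 / 1178168761144055236603742) := mul_le_mul_of_nonneg_left h1 (by norm_num)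
      _ = 1 := by norm_num
  · rw [Real.exp_neg, ← one_div, div_le_iff₀ (Real.exp_pos _)]
    have h1 : (2:ℝ) ^ 80 / 1178168761144055472237496 ≤ Real.exp (Real.pi * (21 / 20) / 128) := by
      refine le_trans ?_ (Real.exp_le_exp.2 (show (257708772364787726592 : ℝ) / 10 ^ 22 ≤ Real.pi * (21 / 20) / 128 by
        linarith))
      refine le_trans ?_ (Real.sum_le_exp_of_nonneg (by norm_num) 12)
      norm_num [Finset.sum_range_succ, Nat.factorial]
    calc (1:ℝ) = 1178168761144055472237496 / 2 ^ 80 * (2 ^ 80 / 1178168761144055472237496) := by norm_num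
      _ ≤ 1178168761144055472237496 / 2 ^ 80 * Real.exp (Real.pi * (21 / 20) / 128) :=
        mul_le_mul_of_nonneg_left h1 (by norm_num)

lemma ex2 : (21212000399702307546775827 : ℝ) / 2 ^ 80 ≤ Real.exp (Real.pi * (6 / 5) * (mm - 1 / 2)) ∧
    Real.exp (Real.pi * (6 / 5) * (mm - 1 / 2)) ≤ 21212000400126547554774117 / 2 ^ 80 := by
  have p1 := Real.pi_gt_d20
  have p2 := Real.pi_lt_d20
  obtain ⟨m1, m2⟩ := mm_bounds
  have h1 : (1385297844439 / 2 ^ 40 - 1 / 2 : ℝ) ≤ mm - 1 / 2 := by linarith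
  have h2 : mm - 1 / 2 ≤ (1385297844440 / 2 ^ 40 - 1 / 2 : ℝ) := by linarith
  have h3 : 0 ≤ mm - 1 / 2 := le_trans (by norm_num) h1
  constructor
  · refine le_trans ?_ (Real.exp_le_exp.2 (show (286483486518597 : ℝ) / 10 ^ 14 ≤ Real.pi * (6 / 5) * (mm - 1 / 2) by
      calc (286483486518597 : ℝ) / 10 ^ 14 ≤ 3.14159265358979323846 * (6 / 5) * (1385297844439 / 2 ^ 40 - 1 / 2) := by
            norm_num
        _ ≤ Real.pi * (6 / 5) * (mm - 1 / 2) := by
            refine mul_le_mul (by linarith) h1 (by norm_num) (by positivity)))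
    refine exp_lb (s := 20466590178896536 / 10 ^ 16) (by norm_num) (by norm_num) ?_ ?_
    · norm_num [Finset.sum_range_succ, Nat.factorial]
    · norm_num
  · refine le_trans (Real.exp_le_exp.2 (show Real.pi * (6 / 5) * (mm - 1 / 2) ≤ (286483486519318 : ℝ) / 10 ^ 14 by
      calc Real.pi * (6 / 5) * (mm - 1 / 2) ≤ 3.14159265358979323847 * (6 / 5) *
            (1385297844440 / 2 ^ 40 - 1 / 2) := by
            refine mul_le_mul (by linarith) h2 h3 (by norm_num)
        _ ≤ (286483486519318 : ℝ) / 10 ^ 14 := by norm_num)) ?_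
    refine exp_ub (s := 20466590178933430 / 10 ^ 16) (by norm_num) (by norm_num) ?_ ?_
    · norm_num [Finset.sum_range_succ, Nat.factorial]
    · norm_num

lemma er2 : (1173839243922914605433056 : ℝ) / 2 ^ 80 ≤ Real.exp (-(Real.pi * (6 / 5) / 128)) ∧
    Real.exp (-(Real.pi * (6 / 5) / 128)) ≤ 1173839243922914840200906 / 2 ^ 80 := by
  have p1 := Real.pi_gt_d20
  have p2 := Real.pi_lt_d20
  constructor
  · rw [Real.exp_neg, ← one_div, le_div_iff₀ (Real.exp_pos _)]
    have h1 : Real.exp (Real.pi * (6 / 5) / 128) ≤ 2 ^ 80 / 1173839243922914605433056 := by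
      refine le_trans (Real.exp_le_exp.2 (show Real.pi * (6 / 5) / 128 ≤ (294524311274043116107 : ℝ) / 10 ^ 22 by
        linarith)) ?_
      refine (Real.exp_bound' (by norm_num) (by norm_num) (n := 12) (by norm_num)).trans ?_
      norm_num [Finset.sum_range_succ, Nat.factorial]
    calc (1173839243922914605433056 : ℝ) / 2 ^ 80 * Real.exp (Real.pi * (6 / 5) / 128)
        ≤ 1173839243922914605433056 / 2 ^ 80 * (2 ^ 80 / 1173839243922914605433056) := mul_le_mul_of_nonneg_left h1 (by norm_num)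
      _ = 1 := by norm_num
  · rw [Real.exp_neg, ← one_div, div_le_iff₀ (Real.exp_pos _)]
    have h1 : (2:ℝ) ^ 80 / 1173839243922914840200906 ≤ Real.exp (Real.pi * (6 / 5) / 128) := by
      refine le_trans ?_ (Real.exp_le_exp.2 (show (294524311274043116105 : ℝ) / 10 ^ 22 ≤ Real.pi * (6 / 5) / 128 by
        linarith))
      refine le_trans ?_ (Real.sum_le_exp_of_nonneg (by norm_num) 12)
      norm_num [Finset.sum_range_succ, Nat.factorial]
    calc (1:ℝ) = 1173839243922914840200906 / 2 ^ 80 * (2 ^ 80 / 1173839243922914840200906) := by norm_num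
      _ ≤ 1173839243922914840200906 / 2 ^ 80 * Real.exp (Real.pi * (6 / 5) / 128) :=
        mul_le_mul_of_nonneg_left h1 (by norm_num)

lemma ex3 : (34193636368192292805683224 : ℝ) / 2 ^ 80 ≤ Real.exp (Real.pi * (7 / 5) * (mm - 1 / 2)) ∧
    Real.exp (Real.pi * (7 / 5) * (mm - 1 / 2)) ≤ 34193636368876165533053909 / 2 ^ 80 := by
  have p1 := Real.pi_gt_d20
  have p2 := Real.pi_lt_d20
  obtain ⟨m1, m2⟩ := mm_bounds
  have h1 : (1385297844439 / 2 ^ 40 - 1 / 2 : ℝ) ≤ mm - 1 / 2 := by linarith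
  have h2 : mm - 1 / 2 ≤ (1385297844440 / 2 ^ 40 - 1 / 2 : ℝ) := by linarith
  have h3 : 0 ≤ mm - 1 / 2 := le_trans (by norm_num) h1
  constructor
  · refine le_trans ?_ (Real.exp_le_exp.2 (show (334230734271696 : ℝ) / 10 ^ 14 ≤ Real.pi * (7 / 5) * (mm - 1 / 2) by
      calc (334230734271696 : ℝ) / 10 ^ 14 ≤ 3.14159265358979323846 * (7 / 5) * (1385297844439 / 2 ^ 40 - 1 / 2) := by
            norm_num
        _ ≤ Real.pi * (7 / 5) * (mm - 1 / 2) := by
            refine mul_le_mul (by linarith) h1 (by norm_num) (by positivity)))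
    refine exp_lb (s := 23061439307890407 / 10 ^ 16) (by norm_num) (by norm_num) ?_ ?_
    · norm_num [Finset.sum_range_succ, Nat.factorial]
    · norm_num
  · refine le_trans (Real.exp_le_exp.2 (show Real.pi * (7 / 5) * (mm - 1 / 2) ≤ (334230734272537 : ℝ) / 10 ^ 14 by
      calc Real.pi * (7 / 5) * (mm - 1 / 2) ≤ 3.14159265358979323847 * (7 / 5) *
            (1385297844440 / 2 ^ 40 - 1 / 2) := by
            refine mul_le_mul (by linarith) h2 h3 (by norm_num)
        _ ≤ (334230734272537 : ℝ) / 10 ^ 14 := by norm_num)) ?_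
    refine exp_ub (s := 23061439307938896 / 10 ^ 16) (by norm_num) (by norm_num) ?_ ?_
    · norm_num [Finset.sum_range_succ, Nat.factorial]
    · norm_num

lemma er3 : (1168091293143980768728696 : ℝ) / 2 ^ 80 ≤ Real.exp (-(Real.pi * (7 / 5) / 128)) ∧
    Real.exp (-(Real.pi * (7 / 5) / 128)) ≤ 1168091293143981002346955 / 2 ^ 80 := by
  have p1 := Real.pi_gt_d20
  have p2 := Real.pi_lt_d20
  constructor
  · rw [Real.exp_neg, ← one_div, le_div_iff₀ (Real.exp_pos _)]
    have h1 : Real.exp (Real.pi * (7 / 5) / 128) ≤ 2 ^ 80 / 1168091293143980768728696 := by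
      refine le_trans (Real.exp_le_exp.2 (show Real.pi * (7 / 5) / 128 ≤ (343611696486383635458 : ℝ) / 10 ^ 22 by
        linarith)) ?_
      refine (Real.exp_bound' (by norm_num) (by norm_num) (n := 12) (by norm_num)).trans ?_
      norm_num [Finset.sum_range_succ, Nat.factorial]
    calc (1168091293143980768728696 : ℝ) / 2 ^ 80 * Real.exp (Real.pi * (7 / 5) / 128)
        ≤ 1168091293143980768728696 / 2 ^ 80 * (2 ^ 80 / 1168091293143980768728696) := mul_le_mul_of_nonneg_left h1 (by norm_num)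
      _ = 1 := by norm_num
  · rw [Real.exp_neg, ← one_div, div_le_iff₀ (Real.exp_pos _)]
    have h1 : (2:ℝ) ^ 80 / 1168091293143981002346955 ≤ Real.exp (Real.pi * (7 / 5) / 128) := by
      refine le_trans ?_ (Real.exp_le_exp.2 (show (343611696486383635456 : ℝ) / 10 ^ 22 ≤ Real.pi * (7 / 5) / 128 by
        linarith))
      refine le_trans ?_ (Real.sum_le_exp_of_nonneg (by norm_num) 12)
      norm_num [Finset.sum_range_succ, Nat.factorial]
    calc (1:ℝ) = 1168091293143981002346955 / 2 ^ 80 * (2 ^ 80 / 1168091293143981002346955) := by norm_num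
      _ ≤ 1168091293143981002346955 / 2 ^ 80 * Real.exp (Real.pi * (7 / 5) / 128) :=
        mul_le_mul_of_nonneg_left h1 (by norm_num)

end Pool.Agent.U316.Th
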