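import Pool.Agent.U316.Th.Gd

/-!
# Certificates in pieces
-/

set_option autoImplicit false

open Pool.Agent.K1H99.FCC

namespace Pool.Agent.U316.Th

/-- joins the pieces (of `4096` bits each) of a code -/
noncomputable def jn (cs : List Nat) : Nat :=
  List.rec (motive := fun _ => Nat) 0 (fun c _ ih => Nat.add c (Nat.shiftLeft ih 4096)) cs

/-- the check of a chunk whose code is given in pieces -/
noncomputable def cckj (k : Nat) (V : List Nat) (cs : List Nat) : Bool :=
  frc (jn cs) fun code => Nat.ble k 3 && (Nat.beq V.length 6 &&
    (alls vdb V && Nat.beq (go env 60 k V code) 1))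

/-- a checked chunk given in pieces -/
theorem good_ofj {k : ℕ} {V : List ℕ} (cs : List ℕ) (h : cckj k V cs = true) : Good (Q k) V := by
  unfold cckj at h
  rw [frc_eq] at h
  exact good_of _ h

end Pool.Agent.U316.Th
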