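import Pool.Agent.U316.Th.Snd
import Pool.Agent.U316.Th.Base

/-!
# Soundness of the linear tests
-/

set_option autoImplicit false

open Matrix Pool.Agent.K1H99.FCC

namespace Pool.Agent.U316.Th

/-- the packed vector of coefficients, reversed -/
def pkr (B : Fin 6 → ℕ) : ℕ := pk (B 5) (B 4) (B 3) (B 2) (B 1) (B 0)

/-- the coefficients of the thirteen quadratic values -/
def CL : List (Fin 6 → ℕ) := [![1, 0, 0, 1, 1, 0],
    ![0, 1, 0, 1, 0, 1],
    ![0, 0, 1, 0, 1, 1],
    ![1, 1, 0, 0, 1, 1],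
    ![1, 0, 1, 1, 0, 1],
    ![0, 1, 1, 1, 1, 0],
    ![1, 1, 1, 0, 0, 0],
    ![1, 1, 0, 4, 1, 1],
    ![1, 0, 1, 1, 4, 1],
    ![0, 1, 1, 1, 1, 4],
    ![4, 1, 1, 1, 1, 0],
    ![1, 4, 1, 1, 0, 1],
    ![1, 1, 4, 0, 1, 1]]

lemma KL_eq : KL = CL.map pkr := by decide +kernel

/-- the linear functional -/
def dot (B : Fin 6 → ℕ) (y : Fin 6 → ℝ) : ℝ := ∑ i, (B i : ℝ) * y i

lemma dot_nonneg (B : Fin 6 → ℕ) {y : Fin 6 → ℝ} (hy : ∀ i, 0 ≤ y i) : 0 ≤ dot B y :=
  Finset.sum_nonneg fun i _ => mul_nonneg (Nat.cast_nonneg _) (hy i)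

/-- the convolution -/
lemma conv (B : Fin 6 → ℕ) (hB : ∀ i, B i < 2 ^ 40) (W : ℕ) (h1 : ∀ i, cw W i < 2 ^ 40)
    (h2 : gw W < 2 ^ 40) :
    pkr B * W / XX ^ 6 % XX = ∑ i, B i * cw W i := by
  have hW : W = gw W + XX * pk (cw W 0) (cw W 1) (cw W 2) (cw W 3) (cw W 4) (cw W 5) := by
    unfold cw gw
    rw [pk_dg, Nat.mod_add_div]
  rw [Fin.sum_univ_six]
  conv_lhs => rw [hW]
  unfold pkr
  rw [pk_eq, pk_eq]
  have u0 := h1 0; have u1 := h1 1; have u2 := h1 2; have u3 := h1 3; have u4 := h1 4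
  have u5 := h1 5
  have v0 := hB 0; have v1 := hB 1; have v2 := hB 2; have v3 := hB 3; have v4 := hB 4
  have v5 := hB 5
  clear h1 hB hW
  generalize gw W = g at *
  generalize cw W 0 = w0 at *
  generalize cw W 1 = w1 at *
  generalize cw W 2 = w2 at *
  generalize cw W 3 = w3 at *
  generalize cw W 4 = w4 at *
  generalize cw W 5 = w5 at *
  generalize B 0 = b0 at *
  generalize B 1 = b1 at *
  generalize B 2 = b2 at *
  generalize B 3 = b3 at *
  generalize B 4 = b4 at *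
  generalize B 5 = b5 at *
  have e : (b5 + XX * (b4 + XX * (b3 + XX * (b2 + XX * (b1 + XX * b0))))) *
      (g + XX * (w0 + XX * (w1 + XX * (w2 + XX * (w3 + XX * (w4 + XX * w5)))))) =
      ((b5 * g) + XX * ((b5 * w0 + b4 * g) + XX * ((b5 * w1 + b4 * w0 + b3 * g) +
        XX * ((b5 * w2 + b4 * w1 + b3 * w0 + b2 * g) + XX * ((b5 * w3 + b4 * w2 + b3 * w1 +
        b2 * w0 + b1 * g) + XX * (b5 * w4 + b4 * w3 + b3 * w2 + b2 * w1 + b1 * w0 + b0 * g)))))) +
      XX ^ 6 * ((b0 * w0 + b1 * w1 + b2 * w2 + b3 * w3 + b4 * w4 + b5 * w5) +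
        XX * ((b4 * w5 + b3 * w4 + b2 * w3 + b1 * w2 + b0 * w1) + XX * ((b3 * w5 + b2 * w4 +
        b1 * w3 + b0 * w2) + XX * ((b2 * w5 + b1 * w4 + b0 * w3) + XX * ((b1 * w5 + b0 * w4) +
        XX * (b0 * w5)))))) := by ring
  rw [e]
  have m : ∀ a b : ℕ, a < 2 ^ 40 → b < 2 ^ 40 → a * b < 2 ^ 80 := by
    intro a b ha hb
    calc a * b ≤ 2 ^ 40 * b := Nat.mul_le_mul_right _ ha.le
      _ < 2 ^ 40 * 2 ^ 40 := Nat.mul_lt_mul_of_pos_left hb (by norm_num)
      _ = 2 ^ 80 := by norm_num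
  have m1 := m _ _ v5 h2
  have m2 := m _ _ v5 u0
  have m3 := m _ _ v4 h2
  have m4 := m _ _ v5 u1
  have m5 := m _ _ v4 u0
  have m6 := m _ _ v3 h2
  have m7 := m _ _ v5 u2
  have m8 := m _ _ v4 u1
  have m9 := m _ _ v3 u0
  have m10 := m _ _ v2 h2
  have m11 := m _ _ v5 u3
  have m12 := m _ _ v4 u2
  have m13 := m _ _ v3 u1
  have m14 := m _ _ v2 u0
  have m15 := m _ _ v1 h2
  have m16 := m _ _ v5 u4
  have m17 := m _ _ v4 u3
  have m18 := m _ _ v3 u2
  have m19 := m _ _ v2 u1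
  have m20 := m _ _ v1 u0
  have m21 := m _ _ v0 h2
  have m22 := m _ _ v0 u0
  have m23 := m _ _ v1 u1
  have m24 := m _ _ v2 u2
  have m25 := m _ _ v3 u3
  have m26 := m _ _ v4 u4
  have m27 := m _ _ v5 u5
  generalize (b4 * w5 + b3 * w4 + b2 * w3 + b1 * w2 + b0 * w1) + XX * ((b3 * w5 + b2 * w4 +
        b1 * w3 + b0 * w2) + XX * ((b2 * w5 + b1 * w4 + b0 * w3) + XX * ((b1 * w5 + b0 * w4) +
        XX * (b0 * w5)))) = H
  have c6 : b0 * w0 + b1 * w1 + b2 * w2 + b3 * w3 + b4 * w4 + b5 * w5 < XX := by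
    unfold XX; omega
  have c0 : b5 * g + 1 ≤ XX := by unfold XX; omega
  have c1 : b5 * w0 + b4 * g + 1 ≤ XX := by unfold XX; omega
  have c2 : b5 * w1 + b4 * w0 + b3 * g + 1 ≤ XX := by unfold XX; omega
  have c3 : b5 * w2 + b4 * w1 + b3 * w0 + b2 * g + 1 ≤ XX := by unfold XX; omega
  have c4 : b5 * w3 + b4 * w2 + b3 * w1 + b2 * w0 + b1 * g + 1 ≤ XX := by unfold XX; omega
  have c5 : b5 * w4 + b4 * w3 + b3 * w2 + b2 * w1 + b1 * w0 + b0 * g + 1 ≤ XX := by
    unfold XX; omega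
  clear m m1 m2 m3 m4 m5 m6 m7 m8 m9 m10 m11 m12 m13 m14 m15 m16 m17 m18 m19 m20 m21 m22 m23 m24
    m25 m26 m27
  generalize b5 * g = d0 at *
  generalize b5 * w0 + b4 * g = d1 at *
  generalize b5 * w1 + b4 * w0 + b3 * g = d2 at *
  generalize b5 * w2 + b4 * w1 + b3 * w0 + b2 * g = d3 at *
  generalize b5 * w3 + b4 * w2 + b3 * w1 + b2 * w0 + b1 * g = d4 at *
  generalize b5 * w4 + b4 * w3 + b3 * w2 + b2 * w1 + b1 * w0 + b0 * g = d5 at *
  generalize b0 * w0 + b1 * w1 + b2 * w2 + b3 * w3 + b4 * w4 + b5 * w5 = d6 at *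
  have hX : 0 < XX := by unfold XX; norm_num
  have st : ∀ d r n : ℕ, d + 1 ≤ XX → r < XX ^ n → d + XX * r < XX ^ (n + 1) := by
    intro d r n hd hr
    calc d + XX * r < XX + XX * r := by omega
      _ = XX * (r + 1) := by ring
      _ ≤ XX * XX ^ n := Nat.mul_le_mul_left _ hr
      _ = XX ^ (n + 1) := by ring
  have L : d0 + XX * (d1 + XX * (d2 + XX * (d3 + XX * (d4 + XX * d5)))) < XX ^ 6 :=
    st _ _ 5 c0 (st _ _ 4 c1 (st _ _ 3 c2 (st _ _ 2 c3 (st _ _ 1 c4 (by rw [pow_one]; omega)))))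
  rw [Nat.add_mul_div_left _ _ (pow_pos hX 6), Nat.div_eq_of_lt L, zero_add,
    Nat.add_mul_mod_self_left, Nat.mod_eq_of_lt c6]

lemma XX6 : XX ^ 6 =
    247330401473104534060502521019647190035131349101211839914063056092897225106531867170316401061243044989597671426016139339351365034306751209967546155101893167916606772148699136 := by
  unfold XX
  norm_num

lemma vt_spec {A W : ℕ} {B : Fin 6 → ℕ} (hB : ∀ i, B i < 2 ^ 40) (hW : Vd W)
    (h : vt A (pkr B) W = true) : dot B (wv W) ≤ A * gw W := by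
  have h1 := conv B hB W hW.1 hW.2.1
  have h2 : pkr B * W / XX ^ 6 % XX ≤ A * (W % XX) := by
    rw [XX6]
    exact Nat.le_of_ble_eq_true h
  rw [h1] at h2
  unfold dot wv gw
  exact_mod_cast h2

lemma vts_spec {A P : ℕ} {V : List ℕ} (h : vts A P V = true) : ∀ W ∈ V, vt A P W = true := by
  induction V with
  | nil => intro W hW; exact absurd hW List.not_mem_nil
  | cons w L ih =>
    change (bif vt A P w then vts A P L else false) = true at h
    cases h1 : vt A P w with
    | false => rw [h1] at h; exact absurd h (by simp)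
    | true =>
      rw [h1] at h
      intro W hW
      rcases List.mem_cons.1 hW with e | e
      · rw [e]; exact h1
      · exact ih h W e

lemma alls_spec {r : ℕ → Bool} {V : List ℕ} (h : alls r V = true) : ∀ W ∈ V, r W = true := by
  induction V with
  | nil => intro W hW; exact absurd hW List.not_mem_nil
  | cons w L ih =>
    change (bif r w then alls r L else false) = true at h
    cases h1 : r w with
    | false => rw [h1] at h; exact absurd h (by simp)
    | true =>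
      rw [h1] at h
      intro W hW
      rcases List.mem_cons.1 hW with e | e
      · rw [e]; exact h1
      · exact ih h W e

/-- intercept of a line -/
def lA (T i : ℕ) : ℕ := lk T i / 4294967296

/-- slope of a line -/
def lB (T i : ℕ) : ℕ := lk T i % 4294967296

lemma acc_spec (T0 T1 : ℕ) (k : ℕ → ℕ → ℕ → ℕ → Bool) (Cs : List (Fin 6 → ℕ))
    (hC : ∀ c ∈ Cs, ∀ i, c i ≤ 4) :
    ∀ (t A0 A1 : ℕ) (B0 B1 : Fin 6 → ℕ), acc T0 T1 k (Cs.map pkr) t A0 (pkr B0) A1 (pkr B1) = true →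
    ∃ (A0' A1' : ℕ) (B0' B1' : Fin 6 → ℕ), k A0' (pkr B0') A1' (pkr B1') = true ∧
      (∀ i, B0' i ≤ B0 i + Cs.length * 2 ^ 34) ∧ (∀ i, B1' i ≤ B1 i + Cs.length * 2 ^ 34) ∧
      ∀ (u w : ℝ) (Φ : ℝ → ℝ), (∀ (i0 i1 : ℕ) (v : ℝ), (i1 = 511 → i0 = 511) → 0 ≤ v →
        u * (lA T0 i0 - lB T0 i0 * v) + w * (lA T1 i1 - lB T1 i1 * v - 2 ^ 21) ≤ Φ v) →
      ∀ y : Fin 6 → ℝ, (∀ i, 0 ≤ y i) →
        u * (A0' - dot B0' y) + w * (A1' - dot B1' y) ≤ u * (A0 - dot B0 y) +
          w * (A1 - dot B1 y) + (Cs.map fun c => Φ (dot c y)).sum + w * Cs.length * 2 ^ 21 := by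
  induction Cs with
  | nil =>
    intro t A0 A1 B0 B1 h
    refine ⟨A0, A1, B0, B1, h, fun i => by simp, fun i => by simp, ?_⟩
    intro u w Φ _ y _
    simp
  | cons c L ih =>
    intro t A0 A1 B0 B1 h
    change (bif Nat.beq (Nat.mod (Nat.div t 512) 512) 511 && !(Nat.beq (Nat.mod t 512) 511)
      then false else frc (Nat.div t 262144) fun t' => acc T0 T1 k (L.map pkr) t'
        (Nat.add A0 (Nat.div (lk T0 (Nat.mod t 512)) 4294967296))
        (Nat.add (pkr B0) (Nat.mul (pkr c) (Nat.mod (lk T0 (Nat.mod t 512)) 4294967296)))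
        (Nat.add A1 (Nat.div (lk T1 (Nat.mod (Nat.div t 512) 512)) 4294967296))
        (Nat.add (pkr B1) (Nat.mul (pkr c) (Nat.mod (lk T1 (Nat.mod (Nat.div t 512) 512))
          4294967296)))) = true at h
    rw [frc_eq] at h
    generalize hi0 : Nat.mod t 512 = i0 at h
    generalize hi1 : Nat.mod (Nat.div t 512) 512 = i1 at h
    cases hb : (Nat.beq i1 511 && !(Nat.beq i0 511)) with
    | true => rw [hb] at h; exact absurd h (by simp)
    | false =>
      rw [hb] at h
      have hd : i1 = 511 → i0 = 511 := by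
        intro e
        by_contra h0
        have e1 : Nat.beq i1 511 = true := by rw [e]; rfl
        have e2 : Nat.beq i0 511 = false := by
          cases h3 : Nat.beq i0 511 with
          | false => rfl
          | true => exact absurd (Nat.eq_of_beq_eq_true h3) h0
        rw [e1, e2] at hb
        exact absurd hb (by simp)
      have p0 : Nat.add (pkr B0) (Nat.mul (pkr c) (Nat.mod (lk T0 i0) 4294967296)) =
          pkr (fun i => B0 i + c i * lB T0 i0) := by
        show pkr B0 + pkr c * lB T0 i0 = _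
        unfold pkr
        rw [pk_eq, pk_eq, pk_eq]
        ring
      have p1 : Nat.add (pkr B1) (Nat.mul (pkr c) (Nat.mod (lk T1 i1) 4294967296)) =
          pkr (fun i => B1 i + c i * lB T1 i1) := by
        show pkr B1 + pkr c * lB T1 i1 = _
        unfold pkr
        rw [pk_eq, pk_eq, pk_eq]
        ring
      rw [p0, p1] at h
      obtain ⟨A0', A1', B0', B1', hk, hb0, hb1, hin⟩ :=
        ih (fun c' hc' => hC c' (List.mem_cons_of_mem _ hc')) _ _ _ _ _ h
      have hc4 := hC c List.mem_cons_self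
      have l0 : lB T0 i0 ≤ 4294967296 := (Nat.mod_lt _ (by norm_num)).le
      have l1 : lB T1 i1 ≤ 4294967296 := (Nat.mod_lt _ (by norm_num)).le
      refine ⟨A0', A1', B0', B1', hk, fun i => ?_, fun i => ?_, ?_⟩
      · have h1 := hb0 i
        have h2 : c i * lB T0 i0 ≤ 4 * 4294967296 := Nat.mul_le_mul (hc4 i) l0
        simp only [List.length_cons]
        omega
      · have h1 := hb1 i
        have h2 : c i * lB T1 i1 ≤ 4 * 4294967296 := Nat.mul_le_mul (hc4 i) l1
        simp only [List.length_cons]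
        omega
      · intro u w Φ hΦ y hy
        have h1 := hin u w Φ hΦ y hy
        have h2 := hΦ i0 i1 (dot c y) hd (dot_nonneg c hy)
        have e0 : dot (fun i => B0 i + c i * lB T0 i0) y = dot B0 y + lB T0 i0 * dot c y := by
          unfold dot
          rw [Finset.mul_sum, ← Finset.sum_add_distrib]
          refine Finset.sum_congr rfl fun i _ => ?_
          push_cast
          ring
        have e1 : dot (fun i => B1 i + c i * lB T1 i1) y = dot B1 y + lB T1 i1 * dot c y := by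
          unfold dot
          rw [Finset.mul_sum, ← Finset.sum_add_distrib]
          refine Finset.sum_congr rfl fun i _ => ?_
          push_cast
          ring
        rw [e0, e1] at h1
        have a0 : ((Nat.add A0 (Nat.div (lk T0 i0) 4294967296) : ℕ) : ℝ) = A0 + lA T0 i0 := by
          show ((A0 + lA T0 i0 : ℕ) : ℝ) = _
          push_cast
          rfl
        have a1 : ((Nat.add A1 (Nat.div (lk T1 i1) 4294967296) : ℕ) : ℝ) = A1 + lA T1 i1 := by
          show ((A1 + lA T1 i1 : ℕ) : ℝ) = _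
          push_cast
          rfl
        rw [a0, a1] at h1
        simp only [List.map_cons, List.sum_cons, List.length_cons]
        push_cast
        linarith

end Pool.Agent.U316.Th
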