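import Pool.Agent.K1H99.FCC.Core

/-!
# The real inequality behind the strict local minimality of the face-centred cubic form for the
theta function
-/

set_option autoImplicit false

open Pool.Agent.K1H99.FCC

namespace Pool.Agent.U316.Th

lemma rho_bounds' {ρ x : ℝ} (hρ : 0 < ρ) (x0 : 0 ≤ x) (x2 : x ≤ 5 / 100)
    (h : ρ ^ 3 * (1 - x) = 1) : x / 3 ≤ ρ - 1 ∧ ρ - 1 ≤ x / 3 + 232 / 1000 * x ^ 2 := by
  constructor
  · by_contra hc
    push Not at hc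
    have h1 : ρ < 1 + x / 3 := by linarith
    have h2 : ρ ^ 3 < (1 + x / 3) ^ 3 := pow_lt_pow_left₀ h1 hρ.le three_ne_zero
    have h3 : (1 + x / 3) ^ 3 * (1 - x) ≤ 1 := by
      have : (1 + x / 3) ^ 3 * (1 - x) = 1 - x ^ 2 * (2 / 3 + x * (8 / 27) + x ^ 2 / 27) := by ring
      rw [this]
      have : 0 ≤ x ^ 2 * (2 / 3 + x * (8 / 27) + x ^ 2 / 27) := by positivity
      linarith
    have h4 : ρ ^ 3 * (1 - x) < (1 + x / 3) ^ 3 * (1 - x) := mul_lt_mul_of_pos_right h2 (by linarith)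
    linarith
  · by_contra hc
    push Not at hc
    have h1 : 1 + (x / 3 + 232 / 1000 * x ^ 2) < ρ := by linarith
    have h2 : (1 + (x / 3 + 232 / 1000 * x ^ 2)) ^ 3 < ρ ^ 3 :=
      pow_lt_pow_left₀ h1 (by positivity) three_ne_zero
    have h3 : 1 ≤ (1 + (x / 3 + 232 / 1000 * x ^ 2)) ^ 3 * (1 - x) := by
      nlinarith [sq_nonneg x, mul_nonneg x0 x0, pow_nonneg x0 3, pow_nonneg x0 4,
        mul_nonneg (pow_nonneg x0 2) (sub_nonneg.2 x2), mul_nonneg (pow_nonneg x0 3) (sub_nonneg.2 x2),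
        mul_nonneg (pow_nonneg x0 4) (sub_nonneg.2 x2), mul_nonneg (pow_nonneg x0 5) (sub_nonneg.2 x2),
        mul_nonneg (pow_nonneg x0 6) (sub_nonneg.2 x2)]
    have h4 : (1 + (x / 3 + 232 / 1000 * x ^ 2)) ^ 3 * (1 - x) < ρ ^ 3 * (1 - x) :=
      mul_lt_mul_of_pos_right h2 (by linarith)
    linarith

/-- The main inequality. -/
theorem core_ineq {D W e3 P V ε ρ b η κ δ ω x X D1 W1 kk E eD eW z : ℝ}
    (D0 : 0 ≤ D) (W0 : 0 ≤ W) (hD : D ≤ D1) (hW : W ≤ W1)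
    (k1 : |e3| ≤ δ * D / 6) (k2 : |P| ≤ ω * W / 3) (k3 : |V| ≤ δ * W)
    (hx : x = D / 2 + W - (e3 + 2 * P - V)) (hρ : ρ = 1 + ε)
    (hXr : ρ ^ 3 * (1 - x) = 1) (ρ0 : 0 < ρ)
    (hδ : 0 ≤ δ) (hω : 0 ≤ ω) (n1 : δ ≤ 1 / 2) (n2 : ω ≤ 1 / 2)
    (hX : (1 / 2 + δ / 6) * D1 + (1 + 2 * ω / 3 + δ) * W1 ≤ X) (hX1 : X ≤ 5 / 100)
    (hk : kk = 1 / 3 + 232 / 1000 * X) (hE : E = kk * X)
    (heD : eD = kk * (1 / 2 + δ / 6)) (heW : eW = kk * (1 + 2 * ω / 3 + δ))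
    (hb : 2 ≤ b) (hη : 0 ≤ η) (hη1 : 0 ≤ 1 / 4 - 8 * η) (hκ : 0 ≤ κ) (hbE : 2 * b * E ≤ 1)
    (hz : 108 * (1 + κ) * (232 / 1000) - 2 * b * (3 - b * E) ≤ z) (hz0 : 0 ≤ z) :
    (b / 2 + 4 * b * η - 2 * (1 + κ) - b * (b - 2 + 2 * b * E) * (1 / 2 * eD * D1) -
      4 * b * η * (2 * b - 2 + 4 * b * E) * (eD * D1) -
      ((1 + E) ^ 3 * (b ^ 2 * (1 / 4 - 8 * η)) + 4 * (1 + κ)) * δ / 6 - z * E * eD) * D +
    (2 * b - 4 * (1 + κ) - b * (b - 2 + 2 * b * E) * ((1 / 2 * eW + 2 * eD) * D1 + 2 * eW * W1) -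
      4 * b * η * (2 * b - 2 + 4 * b * E) * (eW * D1) -
      ((1 + E) ^ 3 * b ^ 2 + 4 * (1 + κ)) * δ - 8 * (1 + κ) * ω / 3 - z * E * eW) * W +
    12 * ε * (1 + κ) ≤
    b / 2 * (12 * ε ^ 2 + ρ ^ 2 * (D + 4 * W)) - b ^ 2 / 6 * (12 * ε ^ 3 +
      3 * ε * (ρ ^ 2 * (D + 4 * W))) + b ^ 2 / 6 * (ρ ^ 3 * (3 / 2 * e3 + 6 * V)) +
    (4 * b * η * (3 * ε ^ 2 + ρ ^ 2 * D) - 8 / 3 * b ^ 2 * η * (3 * ε ^ 3 + 3 * ε * (ρ ^ 2 * D) +
      3 * (ρ ^ 3 * e3))) := by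
  have b0 : 0 < b := by linarith
  rw [abs_le] at k1 k2 k3
  have δD := mul_nonneg hδ D0
  have δW := mul_nonneg hδ W0
  have ωW := mul_nonneg hω W0
  have x0 : 0 ≤ x := by
    rw [hx]
    have h1 : δ * D ≤ 1 / 2 * D := mul_le_mul_of_nonneg_right n1 D0
    have h2 : δ * W ≤ 1 / 2 * W := mul_le_mul_of_nonneg_right n1 W0
    have h3 : ω * W ≤ 1 / 2 * W := mul_le_mul_of_nonneg_right n2 W0
    linarith [k1.1, k1.2, k2.1, k2.2, k3.1, k3.2]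
  have xL : x ≤ (1 / 2 + δ / 6) * D + (1 + 2 * ω / 3 + δ) * W := by
    rw [hx]
    linarith [k1.1, k1.2, k2.1, k2.2, k3.1, k3.2]
  have xX : x ≤ X := by
    have h1 : (1 / 2 + δ / 6) * D ≤ (1 / 2 + δ / 6) * D1 :=
      mul_le_mul_of_nonneg_left hD (by linarith)
    have h2 : (1 + 2 * ω / 3 + δ) * W ≤ (1 + 2 * ω / 3 + δ) * W1 :=
      mul_le_mul_of_nonneg_left hW (by linarith)
    linarith
  have X0 : 0 ≤ X := x0.trans xX
  obtain ⟨ε1, ε2⟩ := rho_bounds' ρ0 x0 (xX.trans hX1) hXr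
  have hρε : ρ - 1 = ε := by linarith
  rw [hρε] at ε1 ε2
  have ε0 : 0 ≤ ε := by linarith
  have kk0 : 0 ≤ kk := by rw [hk]; positivity
  have εk : ε ≤ kk * x := by
    have h1 : x ^ 2 ≤ X * x := by
      rw [sq]
      exact mul_le_mul_of_nonneg_right xX x0
    have h2 : kk * x = x / 3 + 232 / 1000 * (X * x) := by rw [hk]; ring
    rw [h2]
    linarith only [h1, ε2]
  have εE : ε ≤ E := by
    rw [hE]
    exact εk.trans (mul_le_mul_of_nonneg_left xX kk0)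
  have εL : ε ≤ eD * D + eW * W := by
    have h := mul_le_mul_of_nonneg_left xL kk0
    rw [heD, heW]
    linarith
  have E0 : 0 ≤ E := ε0.trans εE
  have eD0 : 0 ≤ eD := by rw [heD]; exact mul_nonneg kk0 (by linarith)
  have eW0 : 0 ≤ eW := by rw [heW]; exact mul_nonneg kk0 (by linarith)
  have bε : b * ε ≤ b * E := mul_le_mul_of_nonneg_left εE b0.le
  have bε0 : 0 ≤ b * ε := mul_nonneg b0.le ε0
  -- products
  have DD : D * D ≤ D1 * D := mul_le_mul_of_nonneg_right hD D0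
  have DW : D * W ≤ D1 * W := mul_le_mul_of_nonneg_right hD W0
  have WW : W * W ≤ W1 * W := mul_le_mul_of_nonneg_right hW W0
  have Aε : (D + 4 * W) / 2 * ε ≤ 1 / 2 * eD * D1 * D +
      ((1 / 2 * eW + 2 * eD) * D1 + 2 * eW * W1) * W := by
    have h1 : (D + 4 * W) / 2 * ε ≤ (D + 4 * W) / 2 * (eD * D + eW * W) :=
      mul_le_mul_of_nonneg_left εL (by linarith)
    have h2 := mul_le_mul_of_nonneg_left DD (show 0 ≤ 1 / 2 * eD by linarith)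
    have h3 := mul_le_mul_of_nonneg_left DW (show 0 ≤ 1 / 2 * eW + 2 * eD by linarith)
    have h4 := mul_le_mul_of_nonneg_left WW (show 0 ≤ 2 * eW by linarith)
    linarith only [h1, h2, h3, h4]
  have Dε : D * ε ≤ eD * D1 * D + eW * D1 * W := by
    have h1 : D * ε ≤ D * (eD * D + eW * W) := mul_le_mul_of_nonneg_left εL D0
    have h2 := mul_le_mul_of_nonneg_left DD eD0
    have h3 := mul_le_mul_of_nonneg_left DW eW0
    linarith only [h1, h2, h3]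
  -- the factors
  have f1 : 1 - (b - 2 + 2 * b * E) * ε ≤ ρ ^ 2 * (1 - b * ε) := by
    have e : ρ ^ 2 * (1 - b * ε) = 1 - (b - 2) * ε - 2 * (b * ε) * ε + ε ^ 2 * (1 - b * ε) := by
      rw [hρ]; ring
    have h1 : 0 ≤ ε ^ 2 * (1 - b * ε) := mul_nonneg (sq_nonneg _) (by linarith)
    have h2 : 2 * (b * ε) * ε ≤ 2 * (b * E) * ε := mul_le_mul_of_nonneg_right (by linarith) ε0
    rw [e]
    linarith only [h1, h2]
  have f2 : 1 - (2 * b - 2 + 4 * b * E) * ε ≤ ρ ^ 2 * (1 - 2 * b * ε) := by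
    have e : ρ ^ 2 * (1 - 2 * b * ε) = 1 - (2 * b - 2) * ε - 4 * (b * ε) * ε +
        ε ^ 2 * (1 - 2 * (b * ε)) := by
      rw [hρ]; ring
    have h1 : 0 ≤ ε ^ 2 * (1 - 2 * (b * ε)) := mul_nonneg (sq_nonneg _) (by linarith)
    have h2 : 4 * (b * ε) * ε ≤ 4 * (b * E) * ε := mul_le_mul_of_nonneg_right (by linarith) ε0
    rw [e]
    linarith only [h1, h2]
  have q1 : 0 ≤ b - 2 + 2 * b * E := by
    have := mul_nonneg b0.le E0
    linarith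
  have q2 : 0 ≤ 2 * b - 2 + 4 * b * E := by
    have := mul_nonneg b0.le E0
    linarith
  have g1 : b * ((D + 4 * W) / 2) - b * (b - 2 + 2 * b * E) * (1 / 2 * eD * D1 * D +
      ((1 / 2 * eW + 2 * eD) * D1 + 2 * eW * W1) * W) ≤
      b * ((D + 4 * W) / 2) * (ρ ^ 2 * (1 - b * ε)) := by
    have h1 := mul_le_mul_of_nonneg_left f1 (show 0 ≤ b * ((D + 4 * W) / 2) by positivity)
    have h2 := mul_le_mul_of_nonneg_left Aε (mul_nonneg b0.le q1)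
    linarith only [h1, h2]
  have g2 : 4 * b * η * D - 4 * b * η * (2 * b - 2 + 4 * b * E) *
      (eD * D1 * D + eW * D1 * W) ≤ 4 * b * η * D * (ρ ^ 2 * (1 - 2 * b * ε)) := by
    have h1 := mul_le_mul_of_nonneg_left f2 (show 0 ≤ 4 * b * η * D by positivity)
    have h2 := mul_le_mul_of_nonneg_left Dε (show 0 ≤ 4 * b * η * (2 * b - 2 + 4 * b * E) from
      mul_nonneg (by positivity) q2)
    linarith only [h1, h2]
  -- cubic terms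
  have r0 : 0 < ρ ^ 3 := pow_pos ρ0 3
  have r1 : ρ ^ 3 ≤ (1 + E) ^ 3 := by
    rw [hρ]
    exact pow_le_pow_left₀ (by linarith) (by linarith) 3
  have c1 : -((1 + E) ^ 3 * (b ^ 2 * (1 / 4 - 8 * η)) * (δ * D / 6)) ≤
      ρ ^ 3 * (b ^ 2 * (1 / 4 - 8 * η)) * e3 := by
    have hc : 0 ≤ b ^ 2 * (1 / 4 - 8 * η) := mul_nonneg (sq_nonneg _) hη1
    have h1 : ρ ^ 3 * (b ^ 2 * (1 / 4 - 8 * η)) * (-(δ * D / 6)) ≤
        ρ ^ 3 * (b ^ 2 * (1 / 4 - 8 * η)) * e3 :=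
      mul_le_mul_of_nonneg_left k1.1 (mul_nonneg r0.le hc)
    have h2 : ρ ^ 3 * (b ^ 2 * (1 / 4 - 8 * η)) * (δ * D / 6) ≤
        (1 + E) ^ 3 * (b ^ 2 * (1 / 4 - 8 * η)) * (δ * D / 6) :=
      mul_le_mul_of_nonneg_right (mul_le_mul_of_nonneg_right r1 hc) (by linarith)
    linarith only [h1, h2]
  have c2 : -((1 + E) ^ 3 * b ^ 2 * (δ * W)) ≤ ρ ^ 3 * b ^ 2 * V := by
    have h1 : ρ ^ 3 * b ^ 2 * (-(δ * W)) ≤ ρ ^ 3 * b ^ 2 * V :=
      mul_le_mul_of_nonneg_left k3.1 (by positivity)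
    have h2 : ρ ^ 3 * b ^ 2 * (δ * W) ≤ (1 + E) ^ 3 * b ^ 2 * (δ * W) :=
      mul_le_mul_of_nonneg_right (mul_le_mul_of_nonneg_right r1 (sq_nonneg _)) δW
    linarith only [h1, h2]
  -- squares of ε
  have s1 : 2 * b * (3 - b * E) * ε ^ 2 ≤ 2 * b * (3 - b * ε) * ε ^ 2 := by
    have h1 : 3 - b * E ≤ 3 - b * ε := by linarith
    have h2 := mul_le_mul_of_nonneg_left h1 (show 0 ≤ 2 * b by linarith)
    exact mul_le_mul_of_nonneg_right h2 (sq_nonneg ε)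
  have s2 : 0 ≤ 4 * b * η * (3 - 2 * b * ε) * ε ^ 2 := by
    refine mul_nonneg (mul_nonneg (by positivity) (by linarith)) (sq_nonneg _)
  have s3 : 12 * (1 + κ) * (232 / 1000 * x ^ 2) ≤ 108 * (1 + κ) * (232 / 1000) * ε ^ 2 := by
    have h1 : x ^ 2 ≤ 9 * ε ^ 2 := by
      have h0 : x ≤ 3 * ε := by linarith only [ε1]
      have h3 := pow_le_pow_left₀ x0 h0 2
      have h4 : (3 * ε) ^ 2 = 9 * ε ^ 2 := by ring
      rw [h4] at h3
      exact h3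
    have h2 := mul_le_mul_of_nonneg_left h1 (show 0 ≤ 12 * (1 + κ) * (232 / 1000) by positivity)
    linarith only [h2]
  have s4 : (108 * (1 + κ) * (232 / 1000) - 2 * b * (3 - b * E)) * ε ^ 2 ≤
      z * E * (eD * D + eW * W) := by
    have h1 := mul_le_mul_of_nonneg_right hz (sq_nonneg ε)
    have h2 : ε ^ 2 ≤ E * ε := by
      rw [sq]
      exact mul_le_mul_of_nonneg_right εE ε0
    have h3 := mul_le_mul_of_nonneg_left h2 hz0
    have h4 := mul_le_mul_of_nonneg_left εL (mul_nonneg hz0 E0)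
    linarith only [h1, h3, h4]
  have s5 : 12 * ε * (1 + κ) ≤ 4 * (1 + κ) * (D / 2 + W + δ * D / 6 + 2 * (ω * W / 3) + δ * W) +
      12 * (1 + κ) * (232 / 1000 * x ^ 2) := by
    have h1 := mul_le_mul_of_nonneg_left ε2 (show 0 ≤ 12 * (1 + κ) by positivity)
    have h2 : x ≤ D / 2 + W + δ * D / 6 + 2 * (ω * W / 3) + δ * W := by linarith
    have h3 := mul_le_mul_of_nonneg_left h2 (show 0 ≤ 4 * (1 + κ) by positivity)
    linarith only [h1, h3]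
  have eG : b / 2 * (12 * ε ^ 2 + ρ ^ 2 * (D + 4 * W)) - b ^ 2 / 6 * (12 * ε ^ 3 +
      3 * ε * (ρ ^ 2 * (D + 4 * W))) + b ^ 2 / 6 * (ρ ^ 3 * (3 / 2 * e3 + 6 * V)) +
    (4 * b * η * (3 * ε ^ 2 + ρ ^ 2 * D) - 8 / 3 * b ^ 2 * η * (3 * ε ^ 3 + 3 * ε * (ρ ^ 2 * D) +
      3 * (ρ ^ 3 * e3))) = 2 * b * (3 - b * ε) * ε ^ 2 + 4 * b * η * (3 - 2 * b * ε) * ε ^ 2 +
      b * ((D + 4 * W) / 2) * (ρ ^ 2 * (1 - b * ε)) +
      4 * b * η * D * (ρ ^ 2 * (1 - 2 * b * ε)) + ρ ^ 3 * (b ^ 2 * (1 / 4 - 8 * η)) * e3 +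
      ρ ^ 3 * b ^ 2 * V := by ring
  rw [eG]
  linarith only [g1, g2, c1, c2, s1, s2, s3, s4, s5]

end Pool.Agent.U316.Th
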