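import Pool.Agent.U316.Th.RF
import Pool.Agent.U316.Th.LocC

/-!
# Strict local minimality of the face-centred cubic form for the theta function: analytic part
-/

set_option autoImplicit false

open Matrix Pool.Agent.K1H99.FCC

namespace Pool.Agent.U316.Th

/-- the second moment of the theta function of the face-centred cubic lattice -/
noncomputable def TT (β : ℝ) : ℝ :=
  ∑' n : N0, (nz (JG n) : ℝ) * Real.exp (-(al * β * ((nz (JG n) : ℝ) - 2)))

lemma tt_summable {β : ℝ} (hβ : 0 < β) :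
    Summable fun n : N0 => (nz (JG n) : ℝ) * Real.exp (-(al * β * ((nz (JG n) : ℝ) - 2))) := by
  have hal := al_pos
  have hab : 0 < al * β := mul_pos hal hβ
  have hs := (rf_summable (half_pos hβ)).mul_left (2 / (al * β) * Real.exp (al * β))
  refine Summable.of_nonneg_of_le (fun n => by positivity) (fun n => ?_) hs
  set m : ℝ := (nz (JG n) : ℝ) with hm
  have hm0 : 0 ≤ m := by rw [hm]; positivity
  have h1 : al * β / 2 * m ≤ Real.exp (al * β / 2 * m) := by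
    have := Real.add_one_le_exp (al * β / 2 * m)
    linarith
  have h2 : m ≤ 2 / (al * β) * Real.exp (al * β / 2 * m) := by
    rw [div_mul_eq_mul_div, le_div_iff₀ hab]
    linarith
  calc m * Real.exp (-(al * β * (m - 2)))
      ≤ 2 / (al * β) * Real.exp (al * β / 2 * m) * Real.exp (-(al * β * (m - 2))) :=
        mul_le_mul_of_nonneg_right h2 (Real.exp_pos _).le
    _ = 2 / (al * β) * Real.exp (al * β) * Real.exp (-(al * (β / 2) * (m - 2))) := by
        have e : Real.exp (al * β / 2 * m) * Real.exp (-(al * β * (m - 2))) =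
            Real.exp (al * β) * Real.exp (-(al * (β / 2) * (m - 2))) := by
          rw [← Real.exp_add, ← Real.exp_add]
          congr 1
          ring
        rw [mul_assoc (2 / (al * β)), e, mul_assoc (2 / (al * β))]

lemma tt_anti {a b : ℝ} (ha : 0 < a) (hab : a ≤ b) : TT b ≤ TT a := by
  unfold TT
  refine (tt_summable (ha.trans_le hab)).tsum_le_tsum (fun n => ?_) (tt_summable ha)
  refine mul_le_mul_of_nonneg_left ?_ (by positivity)
  rw [Real.exp_le_exp]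
  have h : (2:ℝ) ≤ nz (JG n) := by exact_mod_cast nz_ge n
  have := al_pos
  have h2 : al * a * ((nz (JG n) : ℝ) - 2) ≤ al * b * ((nz (JG n) : ℝ) - 2) := by
    apply mul_le_mul_of_nonneg_right _ (by linarith)
    exact mul_le_mul_of_nonneg_left hab this.le
  linarith

/-- upper bounds for the second moment -/
lemma tt_le {β y K : ℝ} (hβ : 9 / 10 ≤ β) (hy : Real.exp (-(2 * al * β)) ≤ y)
    (hK : Real.exp (-(8 * al * β - 5 / 2)) ≤ K) :
    TT β ≤ 24 + 24 * y + 144 * y ^ 2 + 96 * y ^ 3 + 10 * K * 122 := by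
  have hal := al_bounds.1
  have hal0 := al_pos
  have hab : 178 / 100 ≤ al * β := by nlinarith
  unfold TT
  have hK0 : 0 ≤ K := (Real.exp_pos _).le.trans hK
  have h := shell JG JG_inj SG 10 JG_mem
    (fun m : ℕ => (m : ℝ) * Real.exp (-(al * β * ((m : ℝ) - 2))))
    (fun m => by positivity) (tt_summable (by linarith)) (K := 10 * K) (μ := 1 / 4)
    (by norm_num) (by linarith) (by
      intro m hm
      have hm' : (10:ℝ) ≤ m := by exact_mod_cast hm
      have e : Real.exp (-(al * β * ((m:ℝ) - 2))) =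
          Real.exp (-(8 * al * β - 5 / 2) - (al * β - 1 / 4) * (m - 10)) *
            Real.exp (-(1 / 4) * (m:ℝ)) := by
        rw [← Real.exp_add]
        congr 1
        ring
      have h1 : (m:ℝ) ≤ 10 * Real.exp ((m - 10) / 10) := by
        have := Real.add_one_le_exp (((m:ℝ) - 10) / 10)
        linarith
      rw [e, ← mul_assoc]
      refine mul_le_mul_of_nonneg_right ?_ (Real.exp_pos _).le
      calc (m:ℝ) * Real.exp (-(8 * al * β - 5 / 2) - (al * β - 1 / 4) * (m - 10))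
          ≤ 10 * Real.exp ((m - 10) / 10) *
            Real.exp (-(8 * al * β - 5 / 2) - (al * β - 1 / 4) * (m - 10)) :=
          mul_le_mul_of_nonneg_right h1 (Real.exp_pos _).le
        _ = 10 * Real.exp (-(8 * al * β - 5 / 2) - (al * β - 1 / 4 - 1 / 10) * (m - 10)) := by
          rw [mul_assoc, ← Real.exp_add]
          congr 2
          ring
        _ ≤ 10 * K := by
          refine mul_le_mul_of_nonneg_left ?_ (by norm_num)
          refine le_trans (Real.exp_le_exp.2 ?_) hK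
          nlinarith)
  refine h.trans ?_
  rw [sum_SG (fun m : ℕ => (m : ℝ) * Real.exp (-(al * β * ((m : ℝ) - 2))))]
  have t := th2
  have hy0 := (Real.exp_pos (-(2 * al * β))).le
  have e2 : Real.exp (-(al * β * (((2:ℕ):ℝ) - 2))) = 1 := by
    push_cast
    rw [sub_self, mul_zero, neg_zero, Real.exp_zero]
  have e4 : Real.exp (-(al * β * (((4:ℕ):ℝ) - 2))) = Real.exp (-(2 * al * β)) := by
    congr 1
    push_cast
    ring
  have e6 : Real.exp (-(al * β * (((6:ℕ):ℝ) - 2))) = Real.exp (-(2 * al * β)) ^ 2 := by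
    rw [← Real.exp_nat_mul]
    congr 1
    push_cast
    ring
  have e8 : Real.exp (-(al * β * (((8:ℕ):ℝ) - 2))) = Real.exp (-(2 * al * β)) ^ 3 := by
    rw [← Real.exp_nat_mul]
    congr 1
    push_cast
    ring
  rw [e2, e4, e6, e8]
  push_cast
  have p2 := pow_le_pow_left₀ hy0 hy 2
  have p3 := pow_le_pow_left₀ hy0 hy 3
  have p4 := mul_le_mul_of_nonneg_left t hK0
  linarith

/-- the vectors of the first two shells -/
def X9 : Fin 9 → Fin 3 → ℤ :=
  ![![1, 0, 1], ![0, -1, -1], ![1, 1, 1], ![0, 0, -1], ![1, 0, 0], ![0, 1, 0], ![1, 1, 0],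
    ![1, -1, 0], ![1, 1, 2]]

lemma X9_0 : ∀ s, sgv X9 s ≠ 0 := by decide
lemma X9_i : Function.Injective (sgv X9) := by decide

/-- the convexity defect of the exponential -/
noncomputable def FF (x : ℝ) : ℝ := Real.exp (-x) - 1 + x

lemma FF_nonneg (x : ℝ) : 0 ≤ FF x := by
  unfold FF
  have := Real.add_one_le_exp (-x)
  linarith

lemma FF_scale {r : ℝ} (hr : 1 ≤ r) (x : ℝ) : r * FF x ≤ FF (r * x) := by
  unfold FF
  have h0 : 0 < r := by linarith
  have h := convexOn_exp.2 (Set.mem_univ (-(r * x))) (Set.mem_univ 0)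
    (show 0 ≤ 1 / r by positivity) (show 0 ≤ 1 - 1 / r by
      rw [sub_nonneg, div_le_one h0]; exact hr) (by ring)
  simp only [smul_eq_mul, mul_zero, add_zero, Real.exp_zero, mul_one] at h
  have e : 1 / r * -(r * x) = -x := by field_simp
  rw [e] at h
  have h2 := mul_le_mul_of_nonneg_left h h0.le
  have e2 : r * (1 / r * Real.exp (-(r * x)) + (1 - 1 / r)) = Real.exp (-(r * x)) + (r - 1) := by
    field_simp
  rw [e2] at h2
  linarith

lemma FF_ge (x : ℝ) : x ^ 2 / 2 - x ^ 3 / 6 ≤ FF x := by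
  unfold FF
  have := exp_t3 x
  linarith

/-- gain of a vector of the first shell -/
lemma FF_one {b b0 v : ℝ} (h0 : 0 < b0) (hb : b0 ≤ b) :
    b * (b0 / 2 * v ^ 2 - b0 ^ 2 / 6 * v ^ 3) ≤ FF (b * v) := by
  have h := FF_scale (r := b / b0) (by rw [le_div_iff₀ h0]; linarith) (b0 * v)
  have e : b / b0 * (b0 * v) = b * v := by field_simp
  rw [e] at h
  refine le_trans ?_ h
  have h2 := mul_le_mul_of_nonneg_left (FF_ge (b0 * v)) (show 0 ≤ b / b0 from
    div_nonneg (h0.le.trans hb) h0.le)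
  refine le_trans (le_of_eq ?_) h2
  field_simp

/-- gain of a vector of the second shell -/
lemma FF_two {b b0 t η y : ℝ} (h0 : 0 < b0) (hb : b0 ≤ b) (hη : 0 ≤ η) (hy : η ≤ y) :
    b * η * (2 * b0 * t ^ 2 - 4 / 3 * b0 ^ 2 * t ^ 3) ≤ y * FF (2 * b * t) := by
  have h := FF_one (v := 2 * t) h0 hb
  have e : b * (2 * t) = 2 * b * t := by ring
  rw [e] at h
  have h1 := mul_le_mul_of_nonneg_right hy (FF_nonneg (2 * b * t))
  have h2 := mul_le_mul_of_nonneg_left h hη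
  refine le_trans (le_of_eq ?_) (h2.trans h1)
  ring

lemma dir2_eq {d1 d2 d3 ρ g2 g3 : ℝ} (hd : d1 + d2 + d3 = 0) :
    (g2 * (ρ * (1 + d1) - 1) ^ 2 - g3 * (ρ * (1 + d1) - 1) ^ 3) +
      (g2 * (ρ * (1 + d2) - 1) ^ 2 - g3 * (ρ * (1 + d2) - 1) ^ 3) +
      (g2 * (ρ * (1 + d3) - 1) ^ 2 - g3 * (ρ * (1 + d3) - 1) ^ 3) =
      g2 * (3 * (ρ - 1) ^ 2 + ρ ^ 2 * (d1 ^ 2 + d2 ^ 2 + d3 ^ 2)) -
      g3 * (3 * (ρ - 1) ^ 3 + 3 * (ρ - 1) * (ρ ^ 2 * (d1 ^ 2 + d2 ^ 2 + d3 ^ 2)) +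
        3 * (ρ ^ 3 * (d1 * d2 * d3))) := by
  have hd3 : d3 = -(d1 + d2) := by linarith
  rw [hd3]
  ring

lemma exp_FF {a0 a : ℝ} : Real.exp (-a) - Real.exp (-a0) + (a - a0) * Real.exp (-a0) =
    Real.exp (-a0) * FF (a - a0) := by
  unfold FF
  have : Real.exp (-a) = Real.exp (-a0) * Real.exp (-(a - a0)) := by
    rw [← Real.exp_add]
    congr 1
    ring
  rw [this]
  ring

set_option maxHeartbeats 1000000 in
/-- **The gain of the theta function near the face-centred cubic form** -/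
theorem th_gain {d1 d2 d3 w1 w2 w3 : ℝ} (hd : d1 + d2 + d3 = 0)
    (hp : PD (pp d1 d2 d3 w1 w2 w3)) {ρ : ℝ} (hρ : ρ = rad Fp / rad (pp d1 d2 d3 w1 w2 w3))
    {β b0 η κ : ℝ} (hβ : 0 < β) (h0 : 0 < b0) (hb : b0 ≤ 2 * al * β) (hη : 0 ≤ η)
    (hη1 : η ≤ Real.exp (-(2 * al * β))) (hκ : TT β ≤ 24 * (1 + κ)) (hρ1 : 1 ≤ ρ) :
    Real.exp (-(2 * al * β)) * (2 * al * β) *
      (b0 / 2 * (12 * (ρ - 1) ^ 2 + ρ ^ 2 * ((d1 ^ 2 + d2 ^ 2 + d3 ^ 2) +
        4 * (w1 ^ 2 + w2 ^ 2 + w3 ^ 2))) -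
      b0 ^ 2 / 6 * (12 * (ρ - 1) ^ 3 + 3 * (ρ - 1) * (ρ ^ 2 * ((d1 ^ 2 + d2 ^ 2 + d3 ^ 2) +
        4 * (w1 ^ 2 + w2 ^ 2 + w3 ^ 2)))) +
      b0 ^ 2 / 6 * (ρ ^ 3 * (3 / 2 * (d1 * d2 * d3) +
        6 * (d1 * w1 ^ 2 + d2 * w2 ^ 2 + d3 * w3 ^ 2))) +
      (4 * b0 * η * (3 * (ρ - 1) ^ 2 + ρ ^ 2 * (d1 ^ 2 + d2 ^ 2 + d3 ^ 2)) -
        8 / 3 * b0 ^ 2 * η * (3 * (ρ - 1) ^ 3 + 3 * (ρ - 1) * (ρ ^ 2 * (d1 ^ 2 + d2 ^ 2 + d3 ^ 2)) +
        3 * (ρ ^ 3 * (d1 * d2 * d3)))) - 12 * (ρ - 1) * (1 + κ)) ≤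
    Th β (pp d1 d2 d3 w1 w2 w3) - Th β Fp := by
  set p := pp d1 d2 d3 w1 w2 w3 with hpdef
  have hr : 0 < rad p := rad_pos (dt_pos hp)
  have hF := rad_Fp_pos
  have hal := al_pos
  have hρ0 : 0 < ρ := by linarith
  set b : ℝ := 2 * al * β with hbdef
  have hb0 : 0 < b := by positivity
  have ha : ∀ m : Fin 3 → ℤ, Real.pi * β * (qf p (rv m) / rad p) = al * β * ρ * qf p (rv m) := by
    intro m
    rw [hρ]
    unfold al
    field_simp
  have haF : ∀ m : Fin 3 → ℤ, Real.pi * β * (qf Fp (rv m) / rad Fp) = al * β * qf Fp (rv m) := by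
    intro m
    unfold al
    field_simp
  -- the linear term
  have hTs : Summable fun n : N0 => (al * β * Real.exp (-(al * β * (cc n 0 ^ 2 + cc n 1 ^ 2 +
      cc n 2 ^ 2)))) * (cc n 0 ^ 2 + cc n 1 ^ 2 + cc n 2 ^ 2) := by
    refine ((tt_summable hβ).mul_left (al * β * Real.exp (-b))).congr fun n => ?_
    rw [nz_JG, mul_comm (cc n 0 ^ 2 + cc n 1 ^ 2 + cc n 2 ^ 2) (Real.exp _), ← mul_assoc,
      mul_assoc (al * β), ← Real.exp_add]
    congr 3
    rw [hbdef]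
    ring
  have hTv : ∑' n : N0, (al * β * Real.exp (-(al * β * (cc n 0 ^ 2 + cc n 1 ^ 2 +
      cc n 2 ^ 2)))) * (cc n 0 ^ 2 + cc n 1 ^ 2 + cc n 2 ^ 2) = b / 2 * Real.exp (-b) * TT β := by
    unfold TT
    rw [← tsum_mul_left]
    refine tsum_congr fun n => ?_
    rw [nz_JG, mul_comm (cc n 0 ^ 2 + cc n 1 ^ 2 + cc n 2 ^ 2) (Real.exp (-(al * β *
      (cc n 0 ^ 2 + cc n 1 ^ 2 + cc n 2 ^ 2 - 2)))), ← mul_assoc, mul_assoc (b / 2) (Real.exp _),
      ← Real.exp_add]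
    have e1 : al * β = b / 2 := by rw [hbdef]; ring
    rw [e1]
    congr 3
    ring
  have hsym := sym_sum (c := cc) (φ := fun x => al * β * Real.exp (-(al * β * x)))
    (uact M1 M1u) (uact M2 M2u)
    (uact M3 M3u) cc1 cc2 cc3 (fun n => by positivity) hTs
    (ρ * (1 + d1) - 1) (ρ * (1 + d2) - 1) (ρ * (1 + d3) - 1) (ρ * w3) (ρ * w2) (ρ * w1)
  have hterm : ∀ n : N0, (al * β * Real.exp (-(al * β * (cc n 0 ^ 2 + cc n 1 ^ 2 + cc n 2 ^ 2)))) *
      ((ρ * (1 + d1) - 1) * cc n 0 ^ 2 + (ρ * (1 + d2) - 1) * cc n 1 ^ 2 +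
      (ρ * (1 + d3) - 1) * cc n 2 ^ 2 + 2 * (ρ * w3) * cc n 0 * cc n 1 +
      2 * (ρ * w2) * cc n 0 * cc n 2 + 2 * (ρ * w1) * cc n 1 * cc n 2) =
      (Real.pi * β * (qf p (rv n.1) / rad p) - Real.pi * β * (qf Fp (rv n.1) / rad Fp)) *
        Real.exp (-(Real.pi * β * (qf Fp (rv n.1) / rad Fp))) := by
    intro n
    rw [ha, haF, qf_Fp, hpdef, qf_pp]
    ring
  simp only [hterm] at hsym
  obtain ⟨hs3, he3⟩ := hsym
  have he3' : ∑' n : N0, (Real.pi * β * (qf p (rv n.1) / rad p) -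
      Real.pi * β * (qf Fp (rv n.1) / rad Fp)) *
        Real.exp (-(Real.pi * β * (qf Fp (rv n.1) / rad Fp))) =
      (ρ - 1) * (b / 2 * Real.exp (-b) * TT β) := by
    rw [he3, hTv]
    have : (ρ * (1 + d1) - 1 + (ρ * (1 + d2) - 1) + (ρ * (1 + d3) - 1)) / 3 = ρ - 1 := by
      have : d3 = -(d1 + d2) := by linarith
      rw [this]
      ring
    rw [this]
  have hs1 := th_summable hp hβ
  have hs2 := th_summable PD_Fp hβ
  set f : (Fin 3 → ℤ) → ℝ := fun m => Real.exp (-(Real.pi * β * (qf p (rv m) / rad p))) -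
    Real.exp (-(Real.pi * β * (qf Fp (rv m) / rad Fp))) + (Real.pi * β * (qf p (rv m) / rad p) -
      Real.pi * β * (qf Fp (rv m) / rad Fp)) *
        Real.exp (-(Real.pi * β * (qf Fp (rv m) / rad Fp))) with hf
  have hfF : ∀ m, f m = Real.exp (-(al * β * qf Fp (rv m))) *
      FF (al * β * ρ * qf p (rv m) - al * β * qf Fp (rv m)) := by
    intro m
    simp only [hf]
    rw [exp_FF, ha, haF]
  have hfs : HasSum (fun n : N0 => f n.1) (Th β p - Th β Fp + (ρ - 1) *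
      (b / 2 * Real.exp (-b) * TT β)) := by
    rw [← he3']
    exact (hs1.hasSum.sub hs2.hasSum).add hs3.hasSum
  have hf0 : ∀ n : N0, 0 ≤ f n.1 := by
    intro n
    rw [hfF]
    exact mul_nonneg (Real.exp_pos _).le (FF_nonneg _)
  have hfe : ∀ m, f (-m) = f m := by
    intro m
    simp only [hf, qf_neg]
  have h2 := two_sum_le X9 X9_0 X9_i f hfe hf0 hfs.summable
  rw [hfs.tsum_eq] at h2
  -- the terms
  have key1 : ∀ (i : Fin 9) (q : ℝ), qf p (rv (X9 i)) = 2 * q → qf Fp (rv (X9 i)) = 2 →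
      Real.exp (-b) * b * (b0 / 2 * (ρ * q - 1) ^ 2 - b0 ^ 2 / 6 * (ρ * q - 1) ^ 3) ≤
        f (X9 i) := by
    intro i q hq hq0
    rw [hfF, hq, hq0]
    have e1 : al * β * 2 = b := by rw [hbdef]; ring
    have e2 : al * β * ρ * (2 * q) - al * β * 2 = b * (ρ * q - 1) := by rw [hbdef]; ring
    rw [e2, e1, mul_assoc]
    exact mul_le_mul_of_nonneg_left (FF_one h0 hb) (Real.exp_pos _).le
  have key2 : ∀ (i : Fin 9) (q : ℝ), qf p (rv (X9 i)) = 4 * q → qf Fp (rv (X9 i)) = 4 →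
      Real.exp (-b) * b * (2 * b0 * η * (ρ * q - 1) ^ 2 - 4 / 3 * b0 ^ 2 * η * (ρ * q - 1) ^ 3) ≤
        f (X9 i) := by
    intro i q hq hq0
    rw [hfF, hq, hq0]
    have e1 : Real.exp (-(al * β * 4)) = Real.exp (-b) * Real.exp (-b) := by
      rw [← Real.exp_add, hbdef]
      congr 1
      ring
    have e2 : al * β * ρ * (4 * q) - al * β * 4 = 2 * b * (ρ * q - 1) := by rw [hbdef]; ring
    rw [e2, e1, mul_assoc, mul_assoc (Real.exp (-b)) (Real.exp (-b))]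
    refine mul_le_mul_of_nonneg_left ?_ (Real.exp_pos _).le
    refine le_trans (le_of_eq ?_) (FF_two (t := ρ * q - 1) h0 hb hη hη1)
    ring
  have hd3 : d3 = -(d1 + d2) := by linarith
  have z : ∀ i : Fin 9, ∀ q : Fin 6 → ℝ, qf q (rv (X9 i)) =
      q 0 * rv (X9 i) 0 ^ 2 + q 1 * rv (X9 i) 1 ^ 2 + q 2 * rv (X9 i) 2 ^ 2 +
      q 3 * (rv (X9 i) 0 - rv (X9 i) 1) ^ 2 + q 4 * (rv (X9 i) 0 - rv (X9 i) 2) ^ 2 +
      q 5 * (rv (X9 i) 1 - rv (X9 i) 2) ^ 2 := fun _ _ => rfl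
  have k0 := key1 0 (1 - d1 / 2 + w1) (by rw [z 0, hpdef]; unfold pp rv X9; rw [hd3]; simp; ring)
    (by rw [z 0]; unfold Fp rv X9; simp; try norm_num)
  have k1 := key1 1 (1 - d1 / 2 - w1) (by rw [z 1, hpdef]; unfold pp rv X9; rw [hd3]; simp; ring)
    (by rw [z 1]; unfold Fp rv X9; simp; try norm_num)
  have k2 := key1 2 (1 - d2 / 2 + w2) (by rw [z 2, hpdef]; unfold pp rv X9; rw [hd3]; simp; ring)
    (by rw [z 2]; unfold Fp rv X9; simp; try norm_num)
  have k3 := key1 3 (1 - d2 / 2 - w2) (by rw [z 3, hpdef]; unfold pp rv X9; rw [hd3]; simp; ring)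
    (by rw [z 3]; unfold Fp rv X9; simp; try norm_num)
  have k4 := key1 4 (1 - d3 / 2 + w3) (by rw [z 4, hpdef]; unfold pp rv X9; rw [hd3]; simp; ring)
    (by rw [z 4]; unfold Fp rv X9; simp; try norm_num)
  have k5 := key1 5 (1 - d3 / 2 - w3) (by rw [z 5, hpdef]; unfold pp rv X9; rw [hd3]; simp; ring)
    (by rw [z 5]; unfold Fp rv X9; simp; try norm_num)
  have k6 := key2 6 (1 + d1) (by rw [z 6, hpdef]; unfold pp rv X9; rw [hd3]; simp; ring)
    (by rw [z 6]; unfold Fp rv X9; simp; try norm_num)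
  have k7 := key2 7 (1 + d2) (by rw [z 7, hpdef]; unfold pp rv X9; rw [hd3]; simp; ring)
    (by rw [z 7]; unfold Fp rv X9; simp; try norm_num)
  have k8 := key2 8 (1 + d3) (by rw [z 8, hpdef]; unfold pp rv X9; rw [hd3]; simp; ring)
    (by rw [z 8]; unfold Fp rv X9; simp; try norm_num)
  have hsum : ∑ i, f (X9 i) = f (X9 0) + f (X9 1) + f (X9 2) + f (X9 3) + f (X9 4) + f (X9 5) +
      f (X9 6) + f (X9 7) + f (X9 8) := by
    simp only [Fin.sum_univ_castSucc, Fin.sum_univ_zero, zero_add]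
    rfl
  rw [hsum] at h2
  clear hsum
  have a1 := dir_eq (w1 := w1) (w2 := w2) (w3 := w3) (ρ := ρ) (g2 := b0 / 2) (g3 := b0 ^ 2 / 6) hd
  have a2 := dir2_eq (ρ := ρ) (g2 := 4 * b0 * η) (g3 := 8 / 3 * b0 ^ 2 * η) hd
  have hT : (ρ - 1) * (b / 2 * Real.exp (-b) * TT β) ≤
      Real.exp (-b) * b * (12 * (ρ - 1) * (1 + κ)) := by
    have h3 := mul_le_mul_of_nonneg_left hκ (show 0 ≤ (ρ - 1) * (b / 2 * Real.exp (-b)) from
      mul_nonneg (by linarith) (by positivity))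
    linarith
  rw [← a1, ← a2]
  generalize f (X9 0) = f0 at *
  generalize f (X9 1) = f1 at *
  generalize f (X9 2) = f2 at *
  generalize f (X9 3) = f3 at *
  generalize f (X9 4) = f4 at *
  generalize f (X9 5) = f5 at *
  generalize f (X9 6) = f6 at *
  generalize f (X9 7) = f7 at *
  generalize f (X9 8) = f8 at *
  clear a1 a2
  linarith only [h2, hT, k0, k1, k2, k3, k4, k5, k6, k7, k8]

end Pool.Agent.U316.Th
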