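import Pool.Agent.U316.Th.Loc1
import Pool.Agent.U316.Th.Exps

/-!
# Strict local minimality of the face-centred cubic form for the theta function
-/

set_option autoImplicit false

open Matrix Pool.Agent.K1H99.FCC

namespace Pool.Agent.U316.Th

lemma sq_sum_le {a b c δ : ℝ} (h : a + b + c = 0) (ha : |a| ≤ δ) (hb : |b| ≤ δ)
    (hc : |c| ≤ δ) : a ^ 2 + b ^ 2 + c ^ 2 ≤ 2 * δ ^ 2 := by
  have key : ∀ x y z : ℝ, x + y + z = 0 → |z| ≤ δ → 0 ≤ x * y →
      x ^ 2 + y ^ 2 + z ^ 2 ≤ 2 * δ ^ 2 := by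
    intro x y z h hz hxy
    have h1 := sq_le_of_abs hz
    have h2 : z = -(x + y) := by linarith
    have h3 : z ^ 2 = x ^ 2 + y ^ 2 + 2 * (x * y) := by rw [h2]; ring
    linarith
  rcases le_total 0 a with x | x <;> rcases le_total 0 b with y | y <;>
    rcases le_total 0 c with z | z
  · exact key a b c h hc (mul_nonneg x y)
  · exact key a b c h hc (mul_nonneg x y)
  · have := key a c b (by linarith) hb (mul_nonneg x z)
    linarith
  · have := key b c a (by linarith) ha (mul_nonneg_of_nonpos_of_nonpos y z)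
    linarith
  · have := key b c a (by linarith) ha (mul_nonneg y z)
    linarith
  · have := key a c b (by linarith) hb (mul_nonneg_of_nonpos_of_nonpos x z)
    linarith
  · exact key a b c h hc (mul_nonneg_of_nonpos_of_nonpos x y)
  · exact key a b c h hc (mul_nonneg_of_nonpos_of_nonpos x y)

/-- local minimality at one inverse temperature, with numerical hypotheses -/
theorem loc_step {d1 d2 d3 w1 w2 w3 δ ω : ℝ} (hd : d1 + d2 + d3 = 0)
    (b1 : |d1| ≤ δ) (b2 : |d2| ≤ δ) (b3 : |d3| ≤ δ)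
    (c1 : |w1| ≤ ω) (c2 : |w2| ≤ ω) (c3 : |w3| ≤ ω)
    (hp : PD (pp d1 d2 d3 w1 w2 w3)) {β b η κ X kk E eD eW z : ℝ} (hβ : 0 < β)
    (hbβ : b ≤ 2 * al * β) (hη1 : η ≤ Real.exp (-(2 * al * β))) (hT : TT β ≤ 24 * (1 + κ))
    (n1 : δ ≤ 1 / 2) (n2 : ω ≤ 1 / 2)
    (hX : (1 / 2 + δ / 6) * (2 * δ ^ 2) + (1 + 2 * ω / 3 + δ) * (3 * ω ^ 2) ≤ X)
    (hX1 : X ≤ 5 / 100)
    (hk : kk = 1 / 3 + 232 / 1000 * X) (hE : E = kk * X)
    (heD : eD = kk * (1 / 2 + δ / 6)) (heW : eW = kk * (1 + 2 * ω / 3 + δ))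
    (hb : 2 ≤ b) (hη : 0 ≤ η) (hη1' : 0 ≤ 1 / 4 - 8 * η) (hκ : 0 ≤ κ) (hbE : 2 * b * E ≤ 1)
    (hz : 108 * (1 + κ) * (232 / 1000) - 2 * b * (3 - b * E) ≤ z) (hz0 : 0 ≤ z)
    (hcD : 0 < b / 2 + 4 * b * η - 2 * (1 + κ) -
      b * (b - 2 + 2 * b * E) * (1 / 2 * eD * (2 * δ ^ 2)) -
      4 * b * η * (2 * b - 2 + 4 * b * E) * (eD * (2 * δ ^ 2)) -
      ((1 + E) ^ 3 * (b ^ 2 * (1 / 4 - 8 * η)) + 4 * (1 + κ)) * δ / 6 - z * E * eD)
    (hcW : 0 < 2 * b - 4 * (1 + κ) - b * (b - 2 + 2 * b * E) *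
      ((1 / 2 * eW + 2 * eD) * (2 * δ ^ 2) + 2 * eW * (3 * ω ^ 2)) -
      4 * b * η * (2 * b - 2 + 4 * b * E) * (eW * (2 * δ ^ 2)) -
      ((1 + E) ^ 3 * b ^ 2 + 4 * (1 + κ)) * δ - 8 * (1 + κ) * ω / 3 - z * E * eW) :
    Th β Fp < Th β (pp d1 d2 d3 w1 w2 w3) ∨
      (d1 = 0 ∧ d2 = 0 ∧ d3 = 0 ∧ w1 = 0 ∧ w2 = 0 ∧ w3 = 0) := by
  have hδ : 0 ≤ δ := (abs_nonneg _).trans b1
  have hω : 0 ≤ ω := (abs_nonneg _).trans c1
  have hr : 0 < rad (pp d1 d2 d3 w1 w2 w3) := rad_pos (dt_pos hp)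
  have hr3 := rad_cube (dt_pos hp).le
  rw [dt_pp] at hr3
  obtain ⟨ρ, hρ⟩ : ∃ ρ, ρ = rad Fp / rad (pp d1 d2 d3 w1 w2 w3) := ⟨_, rfl⟩
  have hρ0 : 0 < ρ := by rw [hρ]; exact div_pos rad_Fp_pos hr
  have hΔ : ρ ^ 3 * ((1 + d1) * (1 + d2) * (1 + d3) + 2 * (w1 * w2 * w3) - (1 + d1) * w1 ^ 2 -
      (1 + d2) * w2 ^ 2 - (1 + d3) * w3 ^ 2) = 1 := by
    rw [hρ, div_pow, rad_Fp, hr3]
    have : (4:ℝ) * ((1 + d1) * (1 + d2) * (1 + d3) + 2 * (w1 * w2 * w3) - (1 + d1) * w1 ^ 2 -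
      (1 + d2) * w2 ^ 2 - (1 + d3) * w3 ^ 2) ≠ 0 := by
      rw [← hr3]
      positivity
    rw [div_mul_eq_mul_div, div_eq_one_iff_eq this]
  rw [det_eq hd] at hΔ
  have k1 := prod3_bound hd b1 b2 b3
  have k2 := prod3_bound' c1 c2 c3
  have k3 : |d1 * w1 ^ 2 + d2 * w2 ^ 2 + d3 * w3 ^ 2| ≤ δ * (w1 ^ 2 + w2 ^ 2 + w3 ^ 2) := by
    have v1 := mul_sq_bound (b := w1) b1
    have v2 := mul_sq_bound (b := w2) b2
    have v3 := mul_sq_bound (b := w3) b3
    have := abs_add_three (d1 * w1 ^ 2) (d2 * w2 ^ 2) (d3 * w3 ^ 2)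
    linarith
  have D0 : 0 ≤ d1 ^ 2 + d2 ^ 2 + d3 ^ 2 := by positivity
  have W0 : 0 ≤ w1 ^ 2 + w2 ^ 2 + w3 ^ 2 := by positivity
  have D1 := sq_sum_le hd b1 b2 b3
  have W1 : w1 ^ 2 + w2 ^ 2 + w3 ^ 2 ≤ 3 * ω ^ 2 := by
    linarith [sq_le_of_abs c1, sq_le_of_abs c2, sq_le_of_abs c3]
  obtain ⟨x, hx⟩ : ∃ x, x = (d1 ^ 2 + d2 ^ 2 + d3 ^ 2) / 2 + (w1 ^ 2 + w2 ^ 2 + w3 ^ 2) -
      (d1 * d2 * d3 + 2 * (w1 * w2 * w3) - (d1 * w1 ^ 2 + d2 * w2 ^ 2 + d3 * w3 ^ 2)) := ⟨_, rfl⟩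
  rw [← hx] at hΔ
  have x0 : 0 ≤ x := by
    rw [hx]
    rw [abs_le] at k1 k2 k3
    have h1 : δ * (d1 ^ 2 + d2 ^ 2 + d3 ^ 2) ≤ 1 / 2 * (d1 ^ 2 + d2 ^ 2 + d3 ^ 2) :=
      mul_le_mul_of_nonneg_right n1 D0
    have h2 : δ * (w1 ^ 2 + w2 ^ 2 + w3 ^ 2) ≤ 1 / 2 * (w1 ^ 2 + w2 ^ 2 + w3 ^ 2) :=
      mul_le_mul_of_nonneg_right n1 W0
    have h3 : ω * (w1 ^ 2 + w2 ^ 2 + w3 ^ 2) ≤ 1 / 2 * (w1 ^ 2 + w2 ^ 2 + w3 ^ 2) :=
      mul_le_mul_of_nonneg_right n2 W0
    linarith [k1.1, k1.2, k2.1, k2.2, k3.1, k3.2]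
  have hρ1 : 1 ≤ ρ := by
    by_contra hc
    push Not at hc
    have h1 : ρ ^ 3 < 1 := pow_lt_one₀ hρ0.le hc three_ne_zero
    have h2 : 0 < ρ ^ 3 := by positivity
    have h3 := mul_nonneg h2.le x0
    linarith only [h1, h3, hΔ]
  have hc := core_ineq (ε := ρ - 1) D0 W0 D1 W1 k1 k2 k3 hx (by ring) hΔ hρ0 hδ hω n1 n2 hX hX1 hk
    hE heD heW hb hη hη1' hκ hbE hz hz0
  have hg := th_gain hd hp hρ hβ (by linarith : 0 < b) hbβ hη hη1 hT hρ1
  by_cases h0 : d1 ^ 2 + d2 ^ 2 + d3 ^ 2 + (w1 ^ 2 + w2 ^ 2 + w3 ^ 2) = 0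
  · right
    have e : ∀ t : ℝ, t ^ 2 ≤ 0 → t = 0 := fun t ht => by
      exact pow_eq_zero_iff (two_ne_zero) |>.1 (le_antisymm ht (sq_nonneg t))
    have s1 := sq_nonneg d1
    have s2 := sq_nonneg d2
    have s3 := sq_nonneg d3
    have s4 := sq_nonneg w1
    have s5 := sq_nonneg w2
    have s6 := sq_nonneg w3
    exact ⟨e _ (by linarith), e _ (by linarith), e _ (by linarith), e _ (by linarith),
      e _ (by linarith), e _ (by linarith)⟩
  left
  clear k1 k2 k3 hΔ hx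
  set D := d1 ^ 2 + d2 ^ 2 + d3 ^ 2
  set W := w1 ^ 2 + w2 ^ 2 + w3 ^ 2
  have hpos : 0 < D + W := lt_of_le_of_ne (by linarith) (Ne.symm h0)
  set cD := b / 2 + 4 * b * η - 2 * (1 + κ) -
      b * (b - 2 + 2 * b * E) * (1 / 2 * eD * (2 * δ ^ 2)) -
      4 * b * η * (2 * b - 2 + 4 * b * E) * (eD * (2 * δ ^ 2)) -
      ((1 + E) ^ 3 * (b ^ 2 * (1 / 4 - 8 * η)) + 4 * (1 + κ)) * δ / 6 - z * E * eD
  set cW := 2 * b - 4 * (1 + κ) - b * (b - 2 + 2 * b * E) *
      ((1 / 2 * eW + 2 * eD) * (2 * δ ^ 2) + 2 * eW * (3 * ω ^ 2)) -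
      4 * b * η * (2 * b - 2 + 4 * b * E) * (eW * (2 * δ ^ 2)) -
      ((1 + E) ^ 3 * b ^ 2 + 4 * (1 + κ)) * δ - 8 * (1 + κ) * ω / 3 - z * E * eW
  have hm : 0 < cD * D + cW * W := by
    rcases D0.eq_or_lt with h | h
    · have hW : 0 < W := by linarith
      have := mul_pos hcW hW
      rw [← h]
      linarith
    · have h1 := mul_pos hcD h
      have h2 := mul_nonneg hcW.le W0
      linarith
  have hal := al_pos
  have hy : 0 < Real.exp (-(2 * al * β)) * (2 * al * β) := by positivity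
  refine lt_of_sub_pos (lt_of_lt_of_le (mul_pos hy ?_) hg)
  linarith only [hc, hm]

/-- upper bound for the exponential -/
lemma exp_ub' {x s E : ℝ} (hx : 0 ≤ x) (hx4 : x ≤ 8)
    (hs : (∑ i ∈ Finset.range 18, (x / 8) ^ i / (Nat.factorial i : ℝ)) +
      (x / 8) ^ 18 * ((18:ℕ) + 1) / ((Nat.factorial 18 : ℝ) * (18:ℕ)) ≤ s)
    (hE : s ^ 8 ≤ E) : Real.exp x ≤ E := by
  have h1 := Real.exp_bound' (x := x / 8) (by positivity) (by linarith) (n := 18) (by norm_num)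
  have h2 : Real.exp x = Real.exp (x / 8) ^ 8 := by
    rw [← Real.exp_nat_mul]
    congr 1
    push_cast
    ring
  rw [h2]
  exact (pow_le_pow_left₀ (Real.exp_pos _).le (h1.trans hs) 8).trans hE

lemma locF0 {d1 d2 d3 w1 w2 w3 : ℝ} (hd : d1 + d2 + d3 = 0)
    (b1 : |d1| ≤ 7 / 50) (b2 : |d2| ≤ 7 / 50) (b3 : |d3| ≤ 7 / 50)
    (c1 : |w1| ≤ 9 / 100) (c2 : |w2| ≤ 9 / 100) (c3 : |w3| ≤ 9 / 100)
    (hp : PD (pp d1 d2 d3 w1 w2 w3)) {β : ℝ} (h1 : 1 ≤ β) (h2 : β ≤ 51 / 50) :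
    Th β Fp < Th β (pp d1 d2 d3 w1 w2 w3) ∨
      (d1 = 0 ∧ d2 = 0 ∧ d3 = 0 ∧ w1 = 0 ∧ w2 = 0 ∧ w3 = 0) := by
  obtain ⟨a1, a2⟩ := al_bounds
  have hβ : 0 < β := lt_of_lt_of_le (by norm_num) h1
  have hab : al * (1) ≤ al * β := mul_le_mul_of_nonneg_left h1 al_pos.le
  have hT : TT β ≤ 24 * (1 + 21399 / 1000000) := by
    refine (tt_anti (by norm_num) h1).trans ?_
    have hy : Real.exp (-(2 * al * (1))) ≤ 19099 / 1000000 := by
      refine (Real.exp_le_exp.2 (show -(2 * al * (1)) ≤ -(19790793 / 5000000) by linarith)).trans ?_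
      exact expneg_le (s := 640335981643 / 500000000000) (by norm_num) (by norm_num) (by norm_num) (by norm_num)
    have hK : Real.exp (-(8 * al * (1) - 5 / 2)) ≤ 163 / 100000000 := by
      refine (Real.exp_le_exp.2 (show -(8 * al * (1) - 5 / 2) ≤ -(16665793 / 1250000) by
        linarith)).trans ?_
      exact expneg_le (s := 23008730779 / 10000000000) (by norm_num) (by norm_num) (by norm_num) (by norm_num)
    refine (tt_le (by norm_num) hy hK).trans ?_
    norm_num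
  have hη : (4411 / 250000 : ℝ) ≤ Real.exp (-(2 * al * β)) := by
    have h3 : al * β ≤ al * (51 / 50) := mul_le_mul_of_nonneg_left h2 al_pos.le
    refine le_trans ?_ (Real.exp_le_exp.2 (show -(2018661 / 500000) ≤ -(2 * al * β) by linarith))
    rw [Real.exp_neg, ← one_div, le_div_iff₀ (Real.exp_pos _)]
    have h4 : Real.exp (2018661 / 500000) ≤ 250000 / 4411 := by
      refine exp_ub' (s := 41410773439 / 25000000000) (by norm_num) (by norm_num) ?_ ?_
      · norm_num [Finset.sum_range_succ, Nat.factorial]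
      · norm_num
    calc (4411 / 250000 : ℝ) * Real.exp (2018661 / 500000) ≤ 4411 / 250000 * (250000 / 4411) :=
          mul_le_mul_of_nonneg_left h4 (by norm_num)
      _ = 1 := by norm_num
  exact loc_step hd b1 b2 b3 c1 c2 c3 hp hβ (b := 79163 / 20000) (η := 4411 / 250000)
    (κ := 21399 / 1000000) (X := 497 / 10000) (kk := 1293239 / 3750000) (E := 642739783 / 37500000000) (eD := 203038523 / 1125000000)
    (eW := 1293239 / 3125000) (z := 2381 / 1000) (by linarith) hη hT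
    (by norm_num) (by norm_num) (by norm_num) (by norm_num) (by norm_num) (by norm_num)
    (by norm_num) (by norm_num) (by norm_num) (by norm_num) (by norm_num) (by norm_num)
    (by norm_num) (by norm_num) (by norm_num) (by norm_num) (by norm_num)

lemma locF1 {d1 d2 d3 w1 w2 w3 : ℝ} (hd : d1 + d2 + d3 = 0)
    (b1 : |d1| ≤ 7 / 50) (b2 : |d2| ≤ 7 / 50) (b3 : |d3| ≤ 7 / 50)
    (c1 : |w1| ≤ 9 / 100) (c2 : |w2| ≤ 9 / 100) (c3 : |w3| ≤ 9 / 100)
    (hp : PD (pp d1 d2 d3 w1 w2 w3)) {β : ℝ} (h1 : 51 / 50 ≤ β) (h2 : β ≤ 21 / 20) :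
    Th β Fp < Th β (pp d1 d2 d3 w1 w2 w3) ∨
      (d1 = 0 ∧ d2 = 0 ∧ d3 = 0 ∧ w1 = 0 ∧ w2 = 0 ∧ w3 = 0) := by
  obtain ⟨a1, a2⟩ := al_bounds
  have hβ : 0 < β := lt_of_lt_of_le (by norm_num) h1
  have hab : al * (51 / 50) ≤ al * β := mul_le_mul_of_nonneg_left h1 al_pos.le
  have hT : TT β ≤ 24 * (1 + 4899 / 250000) := by
    refine (tt_anti (by norm_num) h1).trans ?_
    have hy : Real.exp (-(2 * al * (51 / 50))) ≤ 3529 / 200000 := by
      refine (Real.exp_le_exp.2 (show -(2 * al * (51 / 50)) ≤ -(40373217 / 10000000) by linarith)).trans ?_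
      exact expneg_le (s := 257404807411 / 200000000000) (by norm_num) (by norm_num) (by norm_num) (by norm_num)
    have hK : Real.exp (-(8 * al * (51 / 50) - 5 / 2)) ≤ 119 / 100000000 := by
      refine (Real.exp_le_exp.2 (show -(8 * al * (51 / 50) - 5 / 2) ≤ -(13649287 / 1000000) by
        linarith)).trans ?_
      exact expneg_le (s := 23468627529 / 10000000000) (by norm_num) (by norm_num) (by norm_num) (by norm_num)
    refine (tt_le (by norm_num) hy hK).trans ?_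
    norm_num
  have hη : (15669 / 1000000 : ℝ) ≤ Real.exp (-(2 * al * β)) := by
    have h3 : al * β ≤ al * (21 / 20) := mul_le_mul_of_nonneg_left h2 al_pos.le
    refine le_trans ?_ (Real.exp_le_exp.2 (show -(10390167 / 2500000) ≤ -(2 * al * β) by linarith))
    rw [Real.exp_neg, ← one_div, le_div_iff₀ (Real.exp_pos _)]
    have h4 : Real.exp (10390167 / 2500000) ≤ 1000000 / 15669 := by
      refine exp_ub' (s := 168120088423 / 100000000000) (by norm_num) (by norm_num) ?_ ?_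
      · norm_num [Finset.sum_range_succ, Nat.factorial]
      · norm_num
    calc (15669 / 1000000 : ℝ) * Real.exp (10390167 / 2500000) ≤ 15669 / 1000000 * (1000000 / 15669) :=
          mul_le_mul_of_nonneg_left h4 (by norm_num)
      _ = 1 := by norm_num
  exact loc_step hd b1 b2 b3 c1 c2 c3 hp hβ (b := 100933 / 25000) (η := 15669 / 1000000)
    (κ := 4899 / 250000) (X := 497 / 10000) (kk := 1293239 / 3750000) (E := 642739783 / 37500000000) (eD := 203038523 / 1125000000)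
    (eW := 1293239 / 3125000) (z := 941 / 500) (by linarith) hη hT
    (by norm_num) (by norm_num) (by norm_num) (by norm_num) (by norm_num) (by norm_num)
    (by norm_num) (by norm_num) (by norm_num) (by norm_num) (by norm_num) (by norm_num)
    (by norm_num) (by norm_num) (by norm_num) (by norm_num) (by norm_num)

lemma locF2 {d1 d2 d3 w1 w2 w3 : ℝ} (hd : d1 + d2 + d3 = 0)
    (b1 : |d1| ≤ 7 / 50) (b2 : |d2| ≤ 7 / 50) (b3 : |d3| ≤ 7 / 50)
    (c1 : |w1| ≤ 9 / 100) (c2 : |w2| ≤ 9 / 100) (c3 : |w3| ≤ 9 / 100)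
    (hp : PD (pp d1 d2 d3 w1 w2 w3)) {β : ℝ} (h1 : 21 / 20 ≤ β) (h2 : β ≤ 11 / 10) :
    Th β Fp < Th β (pp d1 d2 d3 w1 w2 w3) ∨
      (d1 = 0 ∧ d2 = 0 ∧ d3 = 0 ∧ w1 = 0 ∧ w2 = 0 ∧ w3 = 0) := by
  obtain ⟨a1, a2⟩ := al_bounds
  have hβ : 0 < β := lt_of_lt_of_le (by norm_num) h1
  have hab : al * (21 / 20) ≤ al * β := mul_le_mul_of_nonneg_left h1 al_pos.le
  have hT : TT β ≤ 24 * (1 + 17197 / 1000000) := by
    refine (tt_anti (by norm_num) h1).trans ?_
    have hy : Real.exp (-(2 * al * (21 / 20))) ≤ 1567 / 100000 := by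
      refine (Real.exp_le_exp.2 (show -(2 * al * (21 / 20)) ≤ -(8312133 / 2000000) by linarith)).trans ?_
      exact expneg_le (s := 648305641201 / 500000000000) (by norm_num) (by norm_num) (by norm_num) (by norm_num)
    have hK : Real.exp (-(8 * al * (21 / 20) - 5 / 2)) ≤ 37 / 50000000 := by
      refine (Real.exp_le_exp.2 (show -(8 * al * (21 / 20) - 5 / 2) ≤ -(141242661 / 10000000) by
        linarith)).trans ?_
      exact expneg_le (s := 12087882973 / 5000000000) (by norm_num) (by norm_num) (by norm_num) (by norm_num)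
    refine (tt_le (by norm_num) hy hK).trans ?_
    norm_num
  have hη : (2571 / 200000 : ℝ) ≤ Real.exp (-(2 * al * β)) := by
    have h3 : al * β ≤ al * (11 / 10) := mul_le_mul_of_nonneg_left h2 al_pos.le
    refine le_trans ?_ (Real.exp_le_exp.2 (show -(43539747 / 10000000) ≤ -(2 * al * β) by linarith))
    rw [Real.exp_neg, ← one_div, le_div_iff₀ (Real.exp_pos _)]
    have h4 : Real.exp (43539747 / 10000000) ≤ 200000 / 2571 := by
      refine exp_ub' (s := 86165498061 / 50000000000) (by norm_num) (by norm_num) ?_ ?_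
      · norm_num [Finset.sum_range_succ, Nat.factorial]
      · norm_num
    calc (2571 / 200000 : ℝ) * Real.exp (43539747 / 10000000) ≤ 2571 / 200000 * (200000 / 2571) :=
          mul_le_mul_of_nonneg_left h4 (by norm_num)
      _ = 1 := by norm_num
  exact loc_step hd b1 b2 b3 c1 c2 c3 hp hβ (b := 207803 / 50000) (η := 2571 / 200000)
    (κ := 17197 / 1000000) (X := 497 / 10000) (kk := 1293239 / 3750000) (E := 642739783 / 37500000000) (eD := 203038523 / 1125000000)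
    (eW := 1293239 / 3125000) (z := 1143 / 1000) (by linarith) hη hT
    (by norm_num) (by norm_num) (by norm_num) (by norm_num) (by norm_num) (by norm_num)
    (by norm_num) (by norm_num) (by norm_num) (by norm_num) (by norm_num) (by norm_num)
    (by norm_num) (by norm_num) (by norm_num) (by norm_num) (by norm_num)

lemma locF3 {d1 d2 d3 w1 w2 w3 : ℝ} (hd : d1 + d2 + d3 = 0)
    (b1 : |d1| ≤ 7 / 50) (b2 : |d2| ≤ 7 / 50) (b3 : |d3| ≤ 7 / 50)
    (c1 : |w1| ≤ 9 / 100) (c2 : |w2| ≤ 9 / 100) (c3 : |w3| ≤ 9 / 100)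
    (hp : PD (pp d1 d2 d3 w1 w2 w3)) {β : ℝ} (h1 : 11 / 10 ≤ β) (h2 : β ≤ 6 / 5) :
    Th β Fp < Th β (pp d1 d2 d3 w1 w2 w3) ∨
      (d1 = 0 ∧ d2 = 0 ∧ d3 = 0 ∧ w1 = 0 ∧ w2 = 0 ∧ w3 = 0) := by
  obtain ⟨a1, a2⟩ := al_bounds
  have hβ : 0 < β := lt_of_lt_of_le (by norm_num) h1
  have hab : al * (11 / 10) ≤ al * β := mul_le_mul_of_nonneg_left h1 al_pos.le
  have hT : TT β ≤ 24 * (1 + 6937 / 500000) := by
    refine (tt_anti (by norm_num) h1).trans ?_
    have hy : Real.exp (-(2 * al * (11 / 10))) ≤ 1607 / 125000 := by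
      refine (Real.exp_le_exp.2 (show -(2 * al * (11 / 10)) ≤ -(1360617 / 312500) by linarith)).trans ?_
      exact expneg_le (s := 328187245807 / 250000000000) (by norm_num) (by norm_num) (by norm_num) (by norm_num)
    have hK : Real.exp (-(8 * al * (11 / 10) - 5 / 2)) ≤ 17 / 50000000 := by
      refine (Real.exp_le_exp.2 (show -(8 * al * (11 / 10) - 5 / 2) ≤ -(74579489 / 5000000) by
        linarith)).trans ?_
      exact expneg_le (s := 25401994777 / 10000000000) (by norm_num) (by norm_num) (by norm_num) (by norm_num)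
    refine (tt_le (by norm_num) hy hK).trans ?_
    norm_num
  have hη : (8653 / 1000000 : ℝ) ≤ Real.exp (-(2 * al * β)) := by
    have h3 : al * β ≤ al * (6 / 5) := mul_le_mul_of_nonneg_left h2 al_pos.le
    refine le_trans ?_ (Real.exp_le_exp.2 (show -(23748953 / 5000000) ≤ -(2 * al * β) by linarith))
    rw [Real.exp_neg, ← one_div, le_div_iff₀ (Real.exp_pos _)]
    have h4 : Real.exp (23748953 / 5000000) ≤ 1000000 / 8653 := by
      refine exp_ub' (s := 45267966903 / 25000000000) (by norm_num) (by norm_num) ?_ ?_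
      · norm_num [Finset.sum_range_succ, Nat.factorial]
      · norm_num
    calc (8653 / 1000000 : ℝ) * Real.exp (23748953 / 5000000) ≤ 8653 / 1000000 * (1000000 / 8653) :=
          mul_le_mul_of_nonneg_left h4 (by norm_num)
      _ = 1 := by norm_num
  exact loc_step hd b1 b2 b3 c1 c2 c3 hp hβ (b := 435397 / 100000) (η := 8653 / 1000000)
    (κ := 6937 / 500000) (X := 497 / 10000) (kk := 1293239 / 3750000) (E := 642739783 / 37500000000) (eD := 203038523 / 1125000000)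
    (eW := 1293239 / 3125000) (z := 0) (by linarith) hη hT
    (by norm_num) (by norm_num) (by norm_num) (by norm_num) (by norm_num) (by norm_num)
    (by norm_num) (by norm_num) (by norm_num) (by norm_num) (by norm_num) (by norm_num)
    (by norm_num) (by norm_num) (by norm_num) (by norm_num) (by norm_num)

lemma locF4 {d1 d2 d3 w1 w2 w3 : ℝ} (hd : d1 + d2 + d3 = 0)
    (b1 : |d1| ≤ 7 / 50) (b2 : |d2| ≤ 7 / 50) (b3 : |d3| ≤ 7 / 50)
    (c1 : |w1| ≤ 9 / 100) (c2 : |w2| ≤ 9 / 100) (c3 : |w3| ≤ 9 / 100)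
    (hp : PD (pp d1 d2 d3 w1 w2 w3)) {β : ℝ} (h1 : 6 / 5 ≤ β) :
    Th β Fp < Th β (pp d1 d2 d3 w1 w2 w3) ∨
      (d1 = 0 ∧ d2 = 0 ∧ d3 = 0 ∧ w1 = 0 ∧ w2 = 0 ∧ w3 = 0) := by
  obtain ⟨a1, a2⟩ := al_bounds
  have hβ : 0 < β := lt_of_lt_of_le (by norm_num) h1
  have hab : al * (6 / 5) ≤ al * β := mul_le_mul_of_nonneg_left h1 al_pos.le
  have hT : TT β ≤ 24 * (1 + 911 / 100000) := by
    refine (tt_anti (by norm_num) h1).trans ?_
    have hy : Real.exp (-(2 * al * (6 / 5))) ≤ 4327 / 500000 := by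
      refine (Real.exp_le_exp.2 (show -(2 * al * (6 / 5)) ≤ -(47497903 / 10000000) by linarith)).trans ?_
      exact expneg_le (s := 168203680679 / 125000000000) (by norm_num) (by norm_num) (by norm_num) (by norm_num)
    have hK : Real.exp (-(8 * al * (6 / 5) - 5 / 2)) ≤ 7 / 100000000 := by
      refine (Real.exp_le_exp.2 (show -(8 * al * (6 / 5) - 5 / 2) ≤ -(41247903 / 2500000) by
        linarith)).trans ?_
      exact expneg_le (s := 28044195261 / 10000000000) (by norm_num) (by norm_num) (by norm_num) (by norm_num)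
    refine (tt_le (by norm_num) hy hK).trans ?_
    norm_num
  have hη : (0 : ℝ) ≤ Real.exp (-(2 * al * β)) := (Real.exp_pos _).le
  exact loc_step hd b1 b2 b3 c1 c2 c3 hp hβ (b := 474979 / 100000) (η := 0)
    (κ := 911 / 100000) (X := 497 / 10000) (kk := 1293239 / 3750000) (E := 642739783 / 37500000000) (eD := 203038523 / 1125000000)
    (eW := 1293239 / 3125000) (z := 0) (by linarith) hη hT
    (by norm_num) (by norm_num) (by norm_num) (by norm_num) (by norm_num) (by norm_num)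
    (by norm_num) (by norm_num) (by norm_num) (by norm_num) (by norm_num) (by norm_num)
    (by norm_num) (by norm_num) (by norm_num) (by norm_num) (by norm_num)

lemma locB0 {d1 d2 d3 w1 w2 w3 : ℝ} (hd : d1 + d2 + d3 = 0)
    (b1 : |d1| ≤ 9 / 100) (b2 : |d2| ≤ 9 / 100) (b3 : |d3| ≤ 9 / 100)
    (c1 : |w1| ≤ 1 / 10) (c2 : |w2| ≤ 1 / 10) (c3 : |w3| ≤ 1 / 10)
    (hp : PD (pp d1 d2 d3 w1 w2 w3)) {β : ℝ} (h1 : 20 / 21 ≤ β) (h2 : β ≤ 39 / 40) :
    Th β Fp < Th β (pp d1 d2 d3 w1 w2 w3) ∨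
      (d1 = 0 ∧ d2 = 0 ∧ d3 = 0 ∧ w1 = 0 ∧ w2 = 0 ∧ w3 = 0) := by
  obtain ⟨a1, a2⟩ := al_bounds
  have hβ : 0 < β := lt_of_lt_of_le (by norm_num) h1
  have hab : al * (20 / 21) ≤ al * β := mul_le_mul_of_nonneg_left h1 al_pos.le
  have hT : TT β ≤ 24 * (1 + 6619 / 250000) := by
    refine (tt_anti (by norm_num) h1).trans ?_
    have hy : Real.exp (-(2 * al * (20 / 21))) ≤ 1153 / 50000 := by
      refine (Real.exp_le_exp.2 (show -(2 * al * (20 / 21)) ≤ -(9424187 / 2500000) by linarith)).trans ?_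
      exact expneg_le (s := 1265673857469 / 1000000000000) (by norm_num) (by norm_num) (by norm_num) (by norm_num)
    have hK : Real.exp (-(8 * al * (20 / 21) - 5 / 2)) ≤ 69 / 20000000 := by
      refine (Real.exp_le_exp.2 (show -(8 * al * (20 / 21) - 5 / 2) ≤ -(62893497 / 5000000) by
        linarith)).trans ?_
      exact expneg_le (s := 2194968537 / 1000000000) (by norm_num) (by norm_num) (by norm_num) (by norm_num)
    refine (tt_le (by norm_num) hy hK).trans ?_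
    norm_num
  have hη : (5271 / 250000 : ℝ) ≤ Real.exp (-(2 * al * β)) := by
    have h3 : al * β ≤ al * (39 / 40) := mul_le_mul_of_nonneg_left h2 al_pos.le
    refine le_trans ?_ (Real.exp_le_exp.2 (show -(38592049 / 10000000) ≤ -(2 * al * β) by linarith))
    rw [Real.exp_neg, ← one_div, le_div_iff₀ (Real.exp_pos _)]
    have h4 : Real.exp (38592049 / 10000000) ≤ 250000 / 5271 := by
      refine exp_ub' (s := 161995863117 / 100000000000) (by norm_num) (by norm_num) ?_ ?_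
      · norm_num [Finset.sum_range_succ, Nat.factorial]
      · norm_num
    calc (5271 / 250000 : ℝ) * Real.exp (38592049 / 10000000) ≤ 5271 / 250000 * (250000 / 5271) :=
          mul_le_mul_of_nonneg_left h4 (by norm_num)
      _ = 1 := by norm_num
  exact loc_step hd b1 b2 b3 c1 c2 c3 hp hβ (b := 376967 / 100000) (η := 5271 / 250000)
    (κ := 6619 / 250000) (X := 431 / 10000) (kk := 1287497 / 3750000) (E := 554911207 / 37500000000) (eD := 132612191 / 750000000)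
    (eW := 446761459 / 1125000000) (z := 1761 / 500) (by linarith) hη hT
    (by norm_num) (by norm_num) (by norm_num) (by norm_num) (by norm_num) (by norm_num)
    (by norm_num) (by norm_num) (by norm_num) (by norm_num) (by norm_num) (by norm_num)
    (by norm_num) (by norm_num) (by norm_num) (by norm_num) (by norm_num)

lemma locB1 {d1 d2 d3 w1 w2 w3 : ℝ} (hd : d1 + d2 + d3 = 0)
    (b1 : |d1| ≤ 9 / 100) (b2 : |d2| ≤ 9 / 100) (b3 : |d3| ≤ 9 / 100)
    (c1 : |w1| ≤ 1 / 10) (c2 : |w2| ≤ 1 / 10) (c3 : |w3| ≤ 1 / 10)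
    (hp : PD (pp d1 d2 d3 w1 w2 w3)) {β : ℝ} (h1 : 39 / 40 ≤ β) (h2 : β ≤ 1) :
    Th β Fp < Th β (pp d1 d2 d3 w1 w2 w3) ∨
      (d1 = 0 ∧ d2 = 0 ∧ d3 = 0 ∧ w1 = 0 ∧ w2 = 0 ∧ w3 = 0) := by
  obtain ⟨a1, a2⟩ := al_bounds
  have hβ : 0 < β := lt_of_lt_of_le (by norm_num) h1
  have hab : al * (39 / 40) ≤ al * β := mul_le_mul_of_nonneg_left h1 al_pos.le
  have hT : TT β ≤ 24 * (1 + 23913 / 1000000) := by
    refine (tt_anti (by norm_num) h1).trans ?_
    have hy : Real.exp (-(2 * al * (39 / 40))) ≤ 4217 / 200000 := by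
      refine (Real.exp_le_exp.2 (show -(2 * al * (39 / 40)) ≤ -(19296023 / 5000000) by linarith)).trans ?_
      exact expneg_le (s := 1272775929617 / 1000000000000) (by norm_num) (by norm_num) (by norm_num) (by norm_num)
    have hK : Real.exp (-(8 * al * (39 / 40) - 5 / 2)) ≤ 241 / 100000000 := by
      refine (Real.exp_le_exp.2 (show -(8 * al * (39 / 40) - 5 / 2) ≤ -(25873637 / 2000000) by
        linarith)).trans ?_
      exact expneg_le (s := 22446512327 / 10000000000) (by norm_num) (by norm_num) (by norm_num) (by norm_num)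
    refine (tt_le (by norm_num) hy hK).trans ?_
    norm_num
  have hη : (9549 / 500000 : ℝ) ≤ Real.exp (-(2 * al * β)) := by
    have h3 : al * β ≤ al * (1) := mul_le_mul_of_nonneg_left h2 al_pos.le
    refine le_trans ?_ (Real.exp_le_exp.2 (show -(9895397 / 2500000) ≤ -(2 * al * β) by linarith))
    rw [Real.exp_neg, ← one_div, le_div_iff₀ (Real.exp_pos _)]
    have h4 : Real.exp (9895397 / 2500000) ≤ 500000 / 9549 := by
      refine exp_ub' (s := 820060361 / 500000000) (by norm_num) (by norm_num) ?_ ?_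
      · norm_num [Finset.sum_range_succ, Nat.factorial]
      · norm_num
    calc (9549 / 500000 : ℝ) * Real.exp (9895397 / 2500000) ≤ 9549 / 500000 * (500000 / 9549) :=
          mul_le_mul_of_nonneg_left h4 (by norm_num)
      _ = 1 := by norm_num
  exact loc_step hd b1 b2 b3 c1 c2 c3 hp hβ (b := 2412 / 625) (η := 9549 / 500000)
    (κ := 23913 / 1000000) (X := 431 / 10000) (kk := 1287497 / 3750000) (E := 554911207 / 37500000000) (eD := 132612191 / 750000000)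
    (eW := 446761459 / 1125000000) (z := 2941 / 1000) (by linarith) hη hT
    (by norm_num) (by norm_num) (by norm_num) (by norm_num) (by norm_num) (by norm_num)
    (by norm_num) (by norm_num) (by norm_num) (by norm_num) (by norm_num) (by norm_num)
    (by norm_num) (by norm_num) (by norm_num) (by norm_num) (by norm_num)

end Pool.Agent.U316.Th
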