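import Pool.Agent.U316.Th.Loc2
import Pool.Agent.U316.Th.Lin

/-!
# Strict local minimality of the face-centred cubic form for the theta function: the region
-/

set_option autoImplicit false

open Matrix Pool.Agent.K1H99.FCC

namespace Pool.Agent.U316.Th

/-- linear inequalities -/
def LG {n : ℕ} (L : Fin n → Fin 6 → ℝ) (p : Fin 6 → ℝ) : Prop := ∀ r, 0 ≤ ∑ k, L r k * p k

lemma lg_sum {n : ℕ} {L : Fin n → Fin 6 → ℝ} (l : Fin 6 → ℝ) (v : Fin 6 → Fin 6 → ℝ)
    (hl : ∀ i, 0 ≤ l i) (hv : ∀ i, LG L (v i)) : LG L (∑ i, l i • v i) := by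
  intro r
  have e : ∑ k, L r k * (∑ i, l i • v i) k = ∑ i, l i * ∑ k, L r k * v i k := by
    simp only [Finset.sum_apply, Pi.smul_apply, smul_eq_mul, Finset.mul_sum]
    rw [Finset.sum_comm]
    refine Finset.sum_congr rfl fun i _ => Finset.sum_congr rfl fun k _ => ?_
    ring
  rw [e]
  exact Finset.sum_nonneg fun i _ => mul_nonneg (hl i) (hv i r)

/-- the region near the face-centred cubic form -/
def LcF : Fin 11 → Fin 6 → ℝ :=
  ![![420, 420, -3440, -3440, 420, 420],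
    ![420, 420, 4560, -7440, 420, 420],
    ![420, 420, -3440, 8560, 420, 420],
    ![420, 420, -7440, 4560, 420, 420],
    ![420, 420, 8560, -3440, 420, 420],
    ![-2730, 3270, 360, 360, -2730, 3270],
    ![3270, -2730, 360, 360, 3270, -2730],
    ![-2730, -2730, 360, 360, 3270, 3270],
    ![3270, 3270, 360, 360, -2730, -2730],
    ![-2730, 3270, 360, 360, 3270, -2730],
    ![3270, -2730, 360, 360, -2730, 3270]]

lemma inF_spec {v : ℕ} (h : inF v = true) : LG LcF (wv v) := by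
  unfold inF at h
  rw [frc_eq, upk_eq] at h
  change _ at h
  have e : ∀ i, dg (Nat.div v 79228162514264337593543950336) i = cw v i := fun _ => rfl
  simp only [frc_eq, Bool.and_eq_true, Nat.add_eq, Nat.mul_eq, e] at h
  obtain ⟨⟨⟨⟨⟨⟨⟨⟨⟨⟨h0, h1⟩, h2⟩, h3⟩, h4⟩, h5⟩, h6⟩, h7⟩, h8⟩, h9⟩, h10⟩ := h
  have h0 := Nat.le_of_ble_eq_true h0
  have h1 := Nat.le_of_ble_eq_true h1
  have h2 := Nat.le_of_ble_eq_true h2
  have h3 := Nat.le_of_ble_eq_true h3
  have h4 := Nat.le_of_ble_eq_true h4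
  have h5 := Nat.le_of_ble_eq_true h5
  have h6 := Nat.le_of_ble_eq_true h6
  have h7 := Nat.le_of_ble_eq_true h7
  have h8 := Nat.le_of_ble_eq_true h8
  have h9 := Nat.le_of_ble_eq_true h9
  have h10 := Nat.le_of_ble_eq_true h10
  rify at h0 h1 h2 h3 h4 h5 h6 h7 h8 h9 h10
  intro r
  fin_cases r <;> simp only [LcF, wv, Fin.sum_univ_six, Fin.isValue, Fin.zero_eta, Fin.mk_one,
    Fin.reduceFinMk, Matrix.cons_val_zero, Matrix.cons_val_one, Matrix.cons_val] <;> linarith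

/-- the region near the body-centred cubic form -/
def LcB : Fin 12 → Fin 6 → ℝ :=
  ![![-484, 116, 116, 116, 116, 116],
    ![516, -84, -84, -84, -84, -84],
    ![116, -484, 116, 116, 116, 116],
    ![-84, 516, -84, -84, -84, -84],
    ![116, 116, -484, 116, 116, 116],
    ![-84, -84, 516, -84, -84, -84],
    ![116, 116, 116, -484, 116, 116],
    ![-84, -84, -84, 516, -84, -84],
    ![116, 116, 116, 116, -484, 116],
    ![-84, -84, -84, -84, 516, -84],
    ![116, 116, 116, 116, 116, -484],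
    ![-84, -84, -84, -84, -84, 516]]

lemma inB_spec {v : ℕ} (h : inB v = true) : LG LcB (wv v) := by
  unfold inB at h
  rw [frc_eq, upk_eq] at h
  have e : ∀ i, dg (Nat.div v 79228162514264337593543950336) i = cw v i := fun _ => rfl
  simp only [frc_eq, Bool.and_eq_true, Nat.add_eq, Nat.mul_eq, e] at h
  obtain ⟨⟨⟨⟨⟨⟨⟨⟨⟨⟨⟨h0, h1⟩, h2⟩, h3⟩, h4⟩, h5⟩, h6⟩, h7⟩, h8⟩, h9⟩, h10⟩, h11⟩ := h
  have h0 := Nat.le_of_ble_eq_true h0
  have h1 := Nat.le_of_ble_eq_true h1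
  have h2 := Nat.le_of_ble_eq_true h2
  have h3 := Nat.le_of_ble_eq_true h3
  have h4 := Nat.le_of_ble_eq_true h4
  have h5 := Nat.le_of_ble_eq_true h5
  have h6 := Nat.le_of_ble_eq_true h6
  have h7 := Nat.le_of_ble_eq_true h7
  have h8 := Nat.le_of_ble_eq_true h8
  have h9 := Nat.le_of_ble_eq_true h9
  have h10 := Nat.le_of_ble_eq_true h10
  have h11 := Nat.le_of_ble_eq_true h11
  rify at h0 h1 h2 h3 h4 h5 h6 h7 h8 h9 h10 h11
  intro r
  fin_cases r <;> simp only [LcB, wv, Fin.sum_univ_six, Fin.isValue, Fin.zero_eta, Fin.mk_one,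
    Fin.reduceFinMk, Matrix.cons_val_zero, Matrix.cons_val_one, Matrix.cons_val] <;> linarith

/-- cubic coordinates of a parameter vector -/
noncomputable def sS (p : Fin 6 → ℝ) : ℝ := 3 * (p 0 + p 1 + p 4 + p 5) + 4 * (p 2 + p 3)

lemma pp_param (p : Fin 6 → ℝ) {s : ℝ} (hs : s = sS p) (hs0 : s ≠ 0) :
    p = (s / 12) • pp (-4 * (p 2 + p 3) / s) ((8 * p 3 - 4 * p 2) / s) ((8 * p 2 - 4 * p 3) / s)
      (3 * (p 0 - p 1 - p 4 + p 5) / s) (3 * (p 0 + p 1 - p 4 - p 5) / s)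
      (3 * (p 0 - p 1 + p 4 - p 5) / s) := by
  unfold sS at hs
  funext i
  unfold pp
  fin_cases i <;> simp <;> field_simp <;> (try rw [hs]) <;> ring

lemma dsum (p : Fin 6 → ℝ) {s : ℝ} (hs0 : s ≠ 0) : (-4 * (p 2 + p 3) / s) +
    ((8 * p 3 - 4 * p 2) / s) + ((8 * p 2 - 4 * p 3) / s) = 0 := by
  field_simp
  ring

lemma pp_scale {p : Fin 6 → ℝ} {d1 d2 d3 w1 w2 w3 s : ℝ} (hs : 0 < s) (hp : PD p)
    (e : p = s • pp d1 d2 d3 w1 w2 w3) : PD (pp d1 d2 d3 w1 w2 w3) := by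
  obtain ⟨A, hA, hd⟩ := hp
  have h : 0 < (Real.sqrt s)⁻¹ := inv_pos.2 (Real.sqrt_pos.2 hs)
  refine ⟨(Real.sqrt s)⁻¹ • A, ?_, ?_⟩
  · rw [Matrix.transpose_smul, Matrix.smul_mul, Matrix.mul_smul, smul_smul, hA, e]
    have h2 : (Real.sqrt s)⁻¹ * (Real.sqrt s)⁻¹ = s⁻¹ := by
      rw [← mul_inv, Real.mul_self_sqrt hs.le]
    rw [h2]
    unfold Qm
    ext i j
    fin_cases i <;> fin_cases j <;> simp <;> field_simp
  · rw [Matrix.det_smul]
    exact mul_ne_zero (pow_ne_zero _ h.ne') hd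

/-- strict local minimality in the region, for all inverse temperatures at least one -/
theorem loc_F {p : Fin 6 → ℝ} (hp : ∀ i, 0 ≤ p i) (hPD : PD p) (hL : LG LcF p) {β : ℝ}
    (hβ : 1 ≤ β) : Sg β p := by
  have hdt := dt_pos hPD
  obtain ⟨s, hs⟩ : ∃ s, s = sS p := ⟨_, rfl⟩
  have hs0 : 0 < s := by
    by_contra hc
    push Not at hc
    rw [hs] at hc
    unfold sS at hc
    have := hp 0; have := hp 1; have := hp 2; have := hp 3; have := hp 4; have := hp 5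
    have z0 : p 0 = 0 := by linarith
    have z1 : p 1 = 0 := by linarith
    have z2 : p 2 = 0 := by linarith
    have z3 : p 3 = 0 := by linarith
    have z4 : p 4 = 0 := by linarith
    have z5 : p 5 = 0 := by linarith
    unfold dt at hdt
    rw [z0, z1, z2, z3, z4, z5] at hdt
    norm_num at hdt
  have e := pp_param p hs hs0.ne'
  have hd := dsum p hs0.ne'
  have l0 := hL 0
  have l1 := hL 1
  have l2 := hL 2
  have l3 := hL 3
  have l4 := hL 4
  have l5 := hL 5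
  have l6 := hL 6
  have l7 := hL 7
  have l8 := hL 8
  have l9 := hL 9
  have l10 := hL 10
  simp only [LcF, Fin.sum_univ_six, Matrix.cons_val] at l0 l1 l2 l3 l4 l5 l6 l7 l8 l9 l10
  have hs' := hs
  unfold sS at hs'
  have b1 : |(-4 * (p 2 + p 3) / s)| ≤ 7 / 50 := by
    rw [abs_div, abs_of_pos hs0, div_le_iff₀ hs0, abs_le]
    have := hp 2; have := hp 3
    constructor <;> linarith
  have b2 : |((8 * p 3 - 4 * p 2) / s)| ≤ 7 / 50 := by
    rw [abs_div, abs_of_pos hs0, div_le_iff₀ hs0, abs_le]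
    constructor <;> linarith
  have b3 : |((8 * p 2 - 4 * p 3) / s)| ≤ 7 / 50 := by
    rw [abs_div, abs_of_pos hs0, div_le_iff₀ hs0, abs_le]
    constructor <;> linarith
  have c1 : |(3 * (p 0 - p 1 - p 4 + p 5) / s)| ≤ 9 / 100 := by
    rw [abs_div, abs_of_pos hs0, div_le_iff₀ hs0, abs_le]
    constructor <;> linarith
  have c2 : |(3 * (p 0 + p 1 - p 4 - p 5) / s)| ≤ 9 / 100 := by
    rw [abs_div, abs_of_pos hs0, div_le_iff₀ hs0, abs_le]
    constructor <;> linarith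
  have c3 : |(3 * (p 0 - p 1 + p 4 - p 5) / s)| ≤ 9 / 100 := by
    rw [abs_div, abs_of_pos hs0, div_le_iff₀ hs0, abs_le]
    constructor <;> linarith
  generalize (-4 * (p 2 + p 3) / s) = d1 at *
  generalize ((8 * p 3 - 4 * p 2) / s) = d2 at *
  generalize ((8 * p 2 - 4 * p 3) / s) = d3 at *
  generalize (3 * (p 0 - p 1 - p 4 + p 5) / s) = w1 at *
  generalize (3 * (p 0 + p 1 - p 4 - p 5) / s) = w2 at *
  generalize (3 * (p 0 - p 1 + p 4 - p 5) / s) = w3 at *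
  have hs12 : 0 < s / 12 := by positivity
  have hq : PD (pp d1 d2 d3 w1 w2 w3) := pp_scale hs12 hPD e
  have h : Th β Fp < Th β (pp d1 d2 d3 w1 w2 w3) ∨
      (d1 = 0 ∧ d2 = 0 ∧ d3 = 0 ∧ w1 = 0 ∧ w2 = 0 ∧ w3 = 0) := by
    rcases le_total β (51 / 50) with h | h
    · exact locF0 hd b1 b2 b3 c1 c2 c3 hq hβ h
    rcases le_total β (21 / 20) with h' | h'
    · exact locF1 hd b1 b2 b3 c1 c2 c3 hq h h'
    rcases le_total β (11 / 10) with h'' | h''
    · exact locF2 hd b1 b2 b3 c1 c2 c3 hq h' h''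
    rcases le_total β (6 / 5) with h3 | h3
    · exact locF3 hd b1 b2 b3 c1 c2 c3 hq h'' h3
    · exact locF4 hd b1 b2 b3 c1 c2 c3 hq h3
  rcases h with h | ⟨z1, z2, z3, z4, z5, z6⟩
  · left
    rw [e, th_smul β hs12 hq]
    exact h
  · right
    refine ⟨s / 12, hs12, ?_⟩
    rw [e, z1, z2, z3, z4, z5, z6, ← Fp_eq]

end Pool.Agent.U316.Th
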