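import Pool.Agent.U316.Th.Loc4

/-!
# The region near the body-centred cubic form
-/

set_option autoImplicit false

open Matrix Pool.Agent.K1H99.FCC

namespace Pool.Agent.U316.Th

lemma mul_abs_le {a b h : ℝ} (ha : |a| ≤ h) (hb : |b| ≤ h) : |a * b| ≤ h ^ 2 := by
  rw [abs_mul, sq]
  exact mul_le_mul ha hb (abs_nonneg _) ((abs_nonneg _).trans ha)

/-- cubic coordinates of the dual form -/
lemma box_dual {u : Fin 6 → ℝ} (h0 : u 0 + u 1 + u 2 + u 3 + u 4 + u 5 = 0)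
    (hu : ∀ i, |u i| ≤ 4 / 25) {q : Fin 6 → ℝ} (hq : q = qd fun i => 1 + u i) {s : ℝ}
    (hs : s = sS q) : 0 < s ∧ |(-4 * (q 2 + q 3) / s)| ≤ 9 / 100 ∧
      |((8 * q 3 - 4 * q 2) / s)| ≤ 9 / 100 ∧ |((8 * q 2 - 4 * q 3) / s)| ≤ 9 / 100 ∧
      |(3 * (q 0 - q 1 - q 4 + q 5) / s)| ≤ 1 / 10 ∧
      |(3 * (q 0 + q 1 - q 4 - q 5) / s)| ≤ 1 / 10 ∧
      |(3 * (q 0 - q 1 + q 4 - q 5) / s)| ≤ 1 / 10 := by
  have m : ∀ i j, |u i * u j| ≤ (4 / 25) ^ 2 := fun i j => mul_abs_le (hu i) (hu j)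
  have m' : ∀ i j, -(16 / 625) ≤ u i * u j ∧ u i * u j ≤ 16 / 625 := fun i j => by
    have := abs_le.1 (m i j)
    constructor <;> linarith [this.1, this.2]
  have a : ∀ i, -(4 / 25) ≤ u i ∧ u i ≤ 4 / 25 := fun i => abs_le.1 (hu i)
  have q0 : q 0 = 4 + 2 * (u 1 + u 2 + u 5) + (u 2 + u 3) + (u 1 * u 2 + u 1 * u 5 + u 2 * u 5 +
      u 2 * u 3) := by
    rw [hq]; unfold qd; simp; ring
  have q1 : q 1 = 4 + 2 * (u 0 + u 1 + u 3) + (u 2 + u 3) + (u 0 * u 1 + u 0 * u 3 + u 1 * u 3 +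
      u 2 * u 3) := by
    rw [hq]; unfold qd; simp; ring
  have q2 : q 2 = u 0 + u 5 - u 2 - u 3 + (u 0 * u 5 - u 2 * u 3) := by
    rw [hq]; unfold qd; simp; ring
  have q3 : q 3 = u 1 + u 4 - u 2 - u 3 + (u 1 * u 4 - u 2 * u 3) := by
    rw [hq]; unfold qd; simp; ring
  have q4 : q 4 = 4 + 2 * (u 3 + u 4 + u 5) + (u 2 + u 3) + (u 3 * u 4 + u 3 * u 5 + u 4 * u 5 +
      u 2 * u 3) := by
    rw [hq]; unfold qd; simp; ring
  have q5 : q 5 = 4 + 2 * (u 0 + u 2 + u 4) + (u 2 + u 3) + (u 0 * u 2 + u 0 * u 4 + u 2 * u 4 +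
      u 2 * u 3) := by
    rw [hq]; unfold qd; simp; ring
  have e5 : u 5 = -(u 0 + u 1 + u 2 + u 3 + u 4) := by linarith
  have hs2 : s = 48 - 3 / 2 * (u 0 * u 0 + u 1 * u 1 + u 2 * u 2 + u 3 * u 3 + u 4 * u 4 +
      u 5 * u 5) + (u 0 * u 5 + u 1 * u 4 + u 2 * u 3) := by
    rw [hs]
    unfold sS
    rw [q0, q1, q2, q3, q4, q5, e5]
    ring
  have hs1 : 4769 / 100 ≤ s := by
    rw [hs2]
    linarith [(m' 0 0).2, (m' 1 1).2, (m' 2 2).2, (m' 3 3).2, (m' 4 4).2, (m' 5 5).2, (m' 0 5).1,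
      (m' 1 4).1, (m' 2 3).1]
  have hs0 : 0 < s := by linarith
  clear hq hs hs2 hu m
  have l05 := m' 0 5
  have l14 := m' 1 4
  have l23 := m' 2 3
  have l12 := m' 1 2
  have l15 := m' 1 5
  have l25 := m' 2 5
  have l01 := m' 0 1
  have l03 := m' 0 3
  have l13 := m' 1 3
  have l34 := m' 3 4
  have l35 := m' 3 5
  have l45 := m' 4 5
  have l02 := m' 0 2
  have l04 := m' 0 4
  have l24 := m' 2 4
  have a0 := a 0
  have a1 := a 1
  have a2 := a 2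
  have a3 := a 3
  have a4 := a 4
  have a5 := a 5
  clear m' a
  refine ⟨hs0, ?_, ?_, ?_, ?_, ?_, ?_⟩
  all_goals
    rw [abs_div, abs_of_pos hs0, div_le_iff₀ hs0]
    refine le_trans ?_ (mul_le_mul_of_nonneg_left hs1 (by norm_num))
    rw [abs_le]
  · rw [q2, q3]
    constructor <;> linarith [l05.1, l05.2, l14.1, l14.2, l23.1, l23.2, a2.1, a2.2, a3.1, a3.2]
  · rw [q2, q3]
    constructor <;> linarith [l05.1, l05.2, l14.1, l14.2, l23.1, l23.2, a1.1, a1.2, a4.1, a4.2]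
  · rw [q2, q3]
    constructor <;> linarith [l05.1, l05.2, l14.1, l14.2, l23.1, l23.2, a0.1, a0.2, a5.1, a5.2]
  · rw [q0, q1, q4, q5]
    constructor <;> linarith [l12.1, l15.1, l25.1, l01.1, l03.1, l13.1, l34.1, l35.1, l45.1, l02.1,
      l04.1, l24.1, l12.2, l15.2, l25.2, l01.2, l03.2, l13.2, l34.2, l35.2, l45.2, l02.2,
      l04.2, l24.2, a2.1, a2.2, a3.1, a3.2]
  · rw [q0, q1, q4, q5]
    constructor <;> linarith [l12.1, l15.1, l25.1, l01.1, l03.1, l13.1, l34.1, l35.1, l45.1, l02.1,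
      l04.1, l24.1, l12.2, l15.2, l25.2, l01.2, l03.2, l13.2, l34.2, l35.2, l45.2, l02.2,
      l04.2, l24.2, a1.1, a1.2, a4.1, a4.2]
  · rw [q0, q1, q4, q5]
    constructor <;> linarith [l12.1, l15.1, l25.1, l01.1, l03.1, l13.1, l34.1, l35.1, l45.1, l02.1,
      l04.1, l24.1, l12.2, l15.2, l25.2, l01.2, l03.2, l13.2, l34.2, l35.2, l45.2, l02.2,
      l04.2, l24.2, a0.1, a0.2, a5.1, a5.2]

end Pool.Agent.U316.Th
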