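import Pool.Agent.U316.Th.Loc6

/-!
# Soundness of the leaves
-/

set_option autoImplicit false

open Matrix Pool.Agent.K1H99.FCC

namespace Pool.Agent.U316.Th

/-- the dual of a form near the body-centred cubic form -/
lemma dual_ge' {u : Fin 6 → ℝ} (h0 : u 0 + u 1 + u 2 + u 3 + u 4 + u 5 = 0)
    (hu : ∀ i, |u i| ≤ 4 / 25) (hp : PD fun i => 1 + u i) {β : ℝ} (h1 : 20 / 21 ≤ β)
    (h2 : β ≤ 1) : Th β Fp ≤ Th β (qd fun i => 1 + u i) := by
  obtain ⟨q, hq⟩ : ∃ q, q = qd fun i => 1 + u i := ⟨_, rfl⟩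
  obtain ⟨s, hs⟩ : ∃ s, s = sS q := ⟨_, rfl⟩
  obtain ⟨hs0, b1, b2, b3, c1, c2, c3⟩ := box_dual h0 hu hq hs
  have hqPD : PD q := by rw [hq]; exact PD_qd hp
  have e := pp_param q hs hs0.ne'
  have hd := dsum q hs0.ne'
  rw [← hq]
  generalize (-4 * (q 2 + q 3) / s) = d1 at *
  generalize ((8 * q 3 - 4 * q 2) / s) = d2 at *
  generalize ((8 * q 2 - 4 * q 3) / s) = d3 at *
  generalize (3 * (q 0 - q 1 - q 4 + q 5) / s) = w1 at *
  generalize (3 * (q 0 + q 1 - q 4 - q 5) / s) = w2 at *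
  generalize (3 * (q 0 - q 1 + q 4 - q 5) / s) = w3 at *
  have hs12 : 0 < s / 12 := by positivity
  have hP : PD (pp d1 d2 d3 w1 w2 w3) := pp_scale hs12 hqPD e
  have h : Th β Fp < Th β (pp d1 d2 d3 w1 w2 w3) ∨
      (d1 = 0 ∧ d2 = 0 ∧ d3 = 0 ∧ w1 = 0 ∧ w2 = 0 ∧ w3 = 0) := by
    rcases le_total β (39 / 40) with h | h
    · exact locB0 hd b1 b2 b3 c1 c2 c3 hP h1 h
    · exact locB1 hd b1 b2 b3 c1 c2 c3 hP h h2
  rw [e, th_smul β hs12 hP]
  rcases h with h | ⟨z1, z2, z3, z4, z5, z6⟩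
  · exact h.le
  · rw [z1, z2, z3, z4, z5, z6, ← Fp_eq]

/-- the region near the body-centred cubic form -/
theorem loc_B {p : Fin 6 → ℝ} (hp : ∀ i, 0 ≤ p i) (hPD : PD p) (hL : LG LcB p) {β : ℝ}
    (h1 : 1 < β) (h2 : β ≤ 21 / 20) : Sg β p := by
  left
  have hβ : 0 < β := by linarith
  have hdt := dt_pos hPD
  obtain ⟨t, ht⟩ : ∃ t, t = p 0 + p 1 + p 2 + p 3 + p 4 + p 5 := ⟨_, rfl⟩
  have ht0 : 0 < t := by
    by_contra hc
    push Not at hc
    rw [ht] at hc
    have := hp 0; have := hp 1; have := hp 2; have := hp 3; have := hp 4; have := hp 5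
    have z0 : p 0 = 0 := by linarith
    have z1 : p 1 = 0 := by linarith
    have z2 : p 2 = 0 := by linarith
    have z3 : p 3 = 0 := by linarith
    have z4 : p 4 = 0 := by linarith
    have z5 : p 5 = 0 := by linarith
    unfold dt at hdt
    rw [z0, z1, z2, z3, z4, z5] at hdt
    norm_num at hdt
  obtain ⟨u, hu⟩ : ∃ u : Fin 6 → ℝ, u = fun i => 6 * p i / t - 1 := ⟨_, rfl⟩
  have e : p = (t / 6) • (fun i => 1 + u i) := by
    funext i
    rw [hu]
    simp only [Pi.smul_apply, smul_eq_mul]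
    field_simp
    ring
  have ht6 : 0 < t / 6 := by positivity
  have hq0 : ∀ i, 0 ≤ (fun i => 1 + u i) i := by
    intro i
    rw [hu]
    simp only
    have := hp i
    have : 0 ≤ 6 * p i / t := by positivity
    linarith
  have hqd : 0 < dt (fun i => 1 + u i) := by
    rw [e, dt_smul] at hdt
    exact (mul_pos_iff_of_pos_left (by positivity)).1 hdt
  have hq : PD (fun i => 1 + u i) := pd_of_dt hq0 hqd
  have h0 : u 0 + u 1 + u 2 + u 3 + u 4 + u 5 = 0 := by
    rw [hu]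
    have : 6 * p 0 / t - 1 + (6 * p 1 / t - 1) + (6 * p 2 / t - 1) + (6 * p 3 / t - 1) +
        (6 * p 4 / t - 1) + (6 * p 5 / t - 1) =
        6 * (p 0 + p 1 + p 2 + p 3 + p 4 + p 5) / t - 6 := by ring
    simp only
    rw [this, ← ht]
    field_simp
    ring
  have l0 := hL 0
  have l1 := hL 1
  have l2 := hL 2
  have l3 := hL 3
  have l4 := hL 4
  have l5 := hL 5
  have l6 := hL 6
  have l7 := hL 7
  have l8 := hL 8
  have l9 := hL 9
  have l10 := hL 10
  have l11 := hL 11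
  simp only [LcB, Fin.sum_univ_six, Matrix.cons_val] at l0 l1 l2 l3 l4 l5 l6 l7 l8 l9 l10 l11
  have key : ∀ i, 600 * p i ≤ 116 * t → 84 * t ≤ 600 * p i → |u i| ≤ 4 / 25 := by
    intro i k1 k2
    rw [hu, abs_le]
    simp only
    constructor
    · rw [le_sub_iff_add_le, le_div_iff₀ ht0]
      linarith
    · rw [sub_le_iff_le_add, div_le_iff₀ ht0]
      linarith
  have hu' : ∀ i, |u i| ≤ 4 / 25 := by
    intro i
    fin_cases i
    · exact key 0 (by linarith) (by linarith)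
    · exact key 1 (by linarith) (by linarith)
    · exact key 2 (by linarith) (by linarith)
    · exact key 3 (by linarith) (by linarith)
    · exact key 4 (by linarith) (by linarith)
    · exact key 5 (by linarith) (by linarith)
  have b1 : 20 / 21 ≤ 1 / β := by
    rw [div_le_div_iff₀ (by norm_num) hβ]
    linarith
  have b2 : 1 / β ≤ 1 := by
    rw [div_le_one hβ]
    exact h1.le
  have hd := dual_ge' h0 hu' hq b1 b2
  rw [e, th_smul β ht6 hq]
  have f1 := th_dual hq hβ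
  have f2 := th_Bp hβ
  have f3 := B_gt h1 h2
  have f4 : β ^ (-(3 / 2) : ℝ) * (1 + Th (1 / β) Fp) ≤
      β ^ (-(3 / 2) : ℝ) * (1 + Th (1 / β) (qd fun i => 1 + u i)) :=
    mul_le_mul_of_nonneg_left (by linarith) (by positivity)
  linarith

lemma wv_nn (W : ℕ) (i : Fin 6) : 0 ≤ wv W i := by
  unfold wv
  exact Nat.cast_nonneg _

lemma comb_nn {l : Fin 6 → ℝ} (hl : ∀ i, 0 ≤ l i) (V : List ℕ) (k : Fin 6) :
    0 ≤ (∑ i : Fin 6, l i • wv (gt V i)) k := by
  simp only [Finset.sum_apply, Pi.smul_apply, smul_eq_mul]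
  exact Finset.sum_nonneg fun i _ => mul_nonneg (hl i) (wv_nn _ _)

lemma env_F (k : ℕ) (V : List ℕ) (hV : VL V) (h : alls inF V = true) : Good (Q k) V := by
  intro l hl hp β _ hβ
  refine loc_F (comb_nn hl V) hp ?_ hβ.le
  refine lg_sum l _ hl fun i => inF_spec (alls_spec h _ (gt_eq V i ?_).1)
  rw [hV.1]
  exact i.2

lemma env_B (V : List ℕ) (hV : VL V) (h : alls inB V = true) (hg : Good (Q 1) V) :
    Good (Q 0) V := by
  intro l hl hp β _ hβ
  rcases le_total β (21 / 20) with h1 | h1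
  · refine loc_B (comb_nn hl V) hp ?_ hβ h1
    refine lg_sum l _ hl fun i => inB_spec (alls_spec h _ (gt_eq V i ?_).1)
    rw [hV.1]
    exact i.2
  · exact hg l hl hp β (by unfold lv; exact h1) hβ

/-- **soundness of the checker** -/
theorem good_go {n k : ℕ} {V : List ℕ} {code : ℕ} (hk : k ≤ 3) (hV : VL V)
    (h : go env n k V code = 1) : Good (Q k) V :=
  go_sound env Q env_fin env_slab env_F env_B n k V code hk hV (by rw [h]; exact one_ne_zero)

end Pool.Agent.U316.Th
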