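import Pool.Agent.U316.Th.Lin

/-!
# Soundness of the double test
-/

set_option autoImplicit false

open Matrix Pool.Agent.K1H99.FCC

namespace Pool.Agent.U316.Th

/-- the minimal norm of the face-centred cubic lattice of covolume one -/
noncomputable def mm : ℝ := (2:ℝ) ^ (1 / 3 : ℝ)

lemma wv_nonneg (W : ℕ) (k : Fin 6) : 0 ≤ wv W k := Nat.cast_nonneg _

lemma dt_wv (W : ℕ) : dt (wv W) =
    detN (cw W 0) (cw W 1) (cw W 2) (cw W 3) (cw W 4) (cw W 5) := by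
  unfold dt wv detN
  simp [Nat.add_eq, Nat.mul_eq]
  ring

lemma rad_wv {W : ℕ} (h : Vd W) : (gw W : ℝ) ≤ rad (wv W) := by
  refine le_of_pow_le_pow_left₀ (three_ne_zero) (rad_nonneg (wv_nonneg W)) ?_
  rw [rad_cube (dt_nonneg (wv_nonneg W)), dt_wv]
  have h1 : ((gw W * gw W * gw W : ℕ) : ℝ) ≤
      (detN (cw W 0) (cw W 1) (cw W 2) (cw W 3) (cw W 4) (cw W 5) : ℕ) := by
    exact_mod_cast h.2.2
  push_cast at h1
  calc (gw W : ℝ) ^ 3 = gw W * gw W * gw W := by ring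
    _ ≤ _ := h1

lemma dot_sum (B : Fin 6 → ℕ) (l : Fin 6 → ℝ) (x : Fin 6 → Fin 6 → ℝ) :
    dot B (∑ i, l i • x i) = ∑ i, l i * dot B (x i) := by
  unfold dot
  simp only [Finset.sum_apply, Pi.smul_apply, smul_eq_mul, Finset.mul_sum]
  rw [Finset.sum_comm]
  refine Finset.sum_congr rfl fun i _ => Finset.sum_congr rfl fun j _ => by ring

lemma dot_div (B : Fin 6 → ℕ) (p : Fin 6 → ℝ) (r : ℝ) :
    dot B (fun i => p i / r) = dot B p / r := by
  unfold dot
  rw [Finset.sum_div]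
  refine Finset.sum_congr rfl fun i _ => by ring

lemma vts_dot {A : ℕ} {B : Fin 6 → ℕ} (hB : ∀ i, B i < 2 ^ 40) {V : List ℕ} (hV : VL V)
    (h : vts A (pkr B) V = true) {l : Fin 6 → ℝ} (hl : ∀ i, 0 ≤ l i)
    (hp : 0 < rad (∑ i, l i • wv (gt V i))) :
    dot B (∑ i, l i • wv (gt V i)) / rad (∑ i, l i • wv (gt V i)) ≤ A := by
  rw [div_le_iff₀ hp, dot_sum]
  have hg : ∑ i : Fin 6, l i * (gw (gt V i) : ℝ) ≤ rad (∑ i, l i • wv (gt V i)) := by
    refine le_trans ?_ (rad_sum Finset.univ l (fun i : Fin 6 => wv (gt V i)) hl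
      fun i => wv_nonneg _)
    refine Finset.sum_le_sum fun i _ => mul_le_mul_of_nonneg_left (rad_wv ?_) (hl i)
    exact hV.2 _ ((gt_eq V i (by rw [hV.1]; exact i.2)).1)
  calc ∑ i : Fin 6, l i * dot B (wv (gt V i)) ≤ ∑ i : Fin 6, l i * (A * (gw (gt V i) : ℝ)) := by
        refine Finset.sum_le_sum fun i _ => mul_le_mul_of_nonneg_left ?_ (hl i)
        have hm := (gt_eq V i (by rw [hV.1]; exact i.2)).1
        exact vt_spec hB (hV.2 _ hm) (vts_spec h _ hm)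
    _ = A * ∑ i : Fin 6, l i * (gw (gt V i) : ℝ) := by
        rw [Finset.mul_sum]
        exact Finset.sum_congr rfl fun i _ => by ring
    _ ≤ A * rad (∑ i, l i • wv (gt V i)) := mul_le_mul_of_nonneg_left hg (Nat.cast_nonneg _)

lemma pd_nonneg_sum {V : List ℕ} {l : Fin 6 → ℝ} (hl : ∀ i, 0 ≤ l i) (k : Fin 6) :
    0 ≤ (∑ i : Fin 6, l i • wv (gt V i)) k := by
  simp only [Finset.sum_apply, Pi.smul_apply, smul_eq_mul]
  exact Finset.sum_nonneg fun i _ => mul_nonneg (hl i) (wv_nonneg _ k)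

lemma CL_le : ∀ c ∈ CL, ∀ i, c i ≤ 4 := by
  unfold CL
  decide

lemma tst_spec {T0 T1 c0 c1 : ℕ} {V : List ℕ} {t : ℕ} (hV : VL V)
    (h : tst T0 T1 c0 c1 V t = true) {l : Fin 6 → ℝ} (hl : ∀ i, 0 ≤ l i)
    (hp : PD (∑ i : Fin 6, l i • wv (gt V i))) {u w : ℝ} (hu : 0 ≤ u) (hw : 0 ≤ w) {Φ : ℝ → ℝ}
    (hΦ : ∀ (i0 i1 : ℕ) (v : ℝ), (i1 = 511 → i0 = 511) → 0 ≤ v →
        u * (lA T0 i0 - lB T0 i0 * v) + w * (lA T1 i1 - lB T1 i1 * v - 2 ^ 21) ≤ Φ v) :
    u * c0 + w * c1 ≤ (CL.map fun c => Φ (dot c (∑ i : Fin 6, l i • wv (gt V i)) /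
      rad (∑ i : Fin 6, l i • wv (gt V i)))).sum + w * 13 * 2 ^ 21 := by
  have hr : 0 < rad (∑ i : Fin 6, l i • wv (gt V i)) := rad_pos (dt_pos hp)
  unfold tst at h
  rw [KL_eq] at h
  have z : (0 : ℕ) = pkr (fun _ => 0) := by decide +kernel
  have h' : acc T0 T1 (fun A0 P0 A1 P1 => frc A0 fun A0 => frc P0 fun P0 => frc A1 fun A1 =>
      frc P1 fun P1 => bif Nat.ble c0 A0 then bif Nat.ble c1 A1 then
      frc (Nat.sub A0 c0) fun a0 => frc (Nat.sub A1 c1) fun a1 =>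
        bif vts a0 P0 V then vts a1 P1 V else false
      else false else false) (CL.map pkr) t 0 (pkr fun _ => 0) 0 (pkr fun _ => 0) = true := by
    rw [← z]
    exact h
  obtain ⟨A0, A1, B0, B1, hk, b0, b1, hin⟩ := acc_spec T0 T1 _ CL CL_le t 0 0 _ _ h'
  simp only [frc_eq] at hk
  have hlen : CL.length = 13 := rfl
  rw [hlen] at b0 b1 hin
  have b0' : ∀ i, B0 i < 2 ^ 40 := fun i => by have := b0 i; omega
  have b1' : ∀ i, B1 i < 2 ^ 40 := fun i => by have := b1 i; omega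
  cases h1 : Nat.ble c0 A0 with
  | false => rw [h1] at hk; exact absurd hk (by simp)
  | true =>
    rw [h1] at hk
    cases h2 : Nat.ble c1 A1 with
    | false => rw [h2] at hk; exact absurd hk (by simp)
    | true =>
      rw [h2] at hk
      change (bif vts (Nat.sub A0 c0) (pkr B0) V then vts (Nat.sub A1 c1) (pkr B1) V
        else false) = true at hk
      cases h3 : vts (Nat.sub A0 c0) (pkr B0) V with
      | false => rw [h3] at hk; exact absurd hk (by simp)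
      | true =>
        rw [h3] at hk
        change vts (Nat.sub A1 c1) (pkr B1) V = true at hk
        have e1 := vts_dot b0' hV h3 hl hr
        have e2 := vts_dot b1' hV hk hl hr
        have l1 := Nat.le_of_ble_eq_true h1
        have l2 := Nat.le_of_ble_eq_true h2
        have f1 : ((Nat.sub A0 c0 : ℕ) : ℝ) = A0 - c0 := Nat.cast_sub l1
        have f2 : ((Nat.sub A1 c1 : ℕ) : ℝ) = A1 - c1 := Nat.cast_sub l2
        rw [f1] at e1
        rw [f2] at e2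
        have h4 := hin u w Φ hΦ (fun i => (∑ i : Fin 6, l i • wv (gt V i)) i /
          rad (∑ i : Fin 6, l i • wv (gt V i)))
          (fun i => div_nonneg (pd_nonneg_sum hl i) hr.le)
        simp only [dot_div] at h4
        have z1 : dot (fun _ => 0) (∑ i : Fin 6, l i • wv (gt V i)) = 0 := by
          unfold dot
          simp
        rw [z1] at h4
        have m1 := mul_le_mul_of_nonneg_left e1 hu
        have m2 := mul_le_mul_of_nonneg_left e2 hw
        push_cast at h4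
        rw [zero_div, sub_zero, mul_zero, mul_zero] at h4
        generalize dot B0 (∑ i : Fin 6, l i • wv (gt V i)) / rad (∑ i : Fin 6, l i • wv (gt V i)) =
          q0 at *
        generalize dot B1 (∑ i : Fin 6, l i • wv (gt V i)) / rad (∑ i : Fin 6, l i • wv (gt V i)) =
          q1 at *
        nlinarith

lemma CL_sum (p : Fin 6 → ℝ) (F : ℝ → ℝ) :
    (CL.map fun c => F (dot c p)).sum = ∑ i, F (qf p (rv (X13 i))) := by
  have e : ∀ (i : Fin 13) (c : Fin 6 → ℕ), (∀ k, (c k : ℤ) = ![X13 i 0 ^ 2, X13 i 1 ^ 2,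
      X13 i 2 ^ 2, (X13 i 0 - X13 i 1) ^ 2, (X13 i 0 - X13 i 2) ^ 2,
      (X13 i 1 - X13 i 2) ^ 2] k) → dot c p = qf p (rv (X13 i)) := by
    intro i c hc
    unfold dot qf rv
    rw [Fin.sum_univ_six]
    have r : ∀ k, (c k : ℝ) = ((![X13 i 0 ^ 2, X13 i 1 ^ 2,
      X13 i 2 ^ 2, (X13 i 0 - X13 i 1) ^ 2, (X13 i 0 - X13 i 2) ^ 2,
      (X13 i 1 - X13 i 2) ^ 2] k : ℤ) : ℝ) := by
      intro k
      rw [← hc k]
      push_cast
      rfl
    rw [r 0, r 1, r 2, r 3, r 4, r 5]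
    simp only [Matrix.cons_val]
    push_cast
    ring
  have hall : ∀ i : Fin 13, ∀ k, ((CL.get (i.cast rfl) k : ℕ) : ℤ) = ![X13 i 0 ^ 2, X13 i 1 ^ 2,
      X13 i 2 ^ 2, (X13 i 0 - X13 i 1) ^ 2, (X13 i 0 - X13 i 2) ^ 2,
      (X13 i 1 - X13 i 2) ^ 2] k := by decide +kernel
  have h2 : (CL.map fun c => F (dot c p)) = List.ofFn (fun i : Fin 13 => F (qf p (rv (X13 i)))) := by
    have h3 : CL.map (fun c => F (dot c p)) =
        List.ofFn (fun i : Fin 13 => F (dot (CL.get (i.cast rfl)) p)) := by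
      rfl
    rw [h3]
    congr 1
    funext i
    rw [e i _ (hall i)]
  rw [h2, List.sum_ofFn]

/-- validity of a table for `exp (c x)` -/
def OK0 (T : ℕ) (c : ℝ) : Prop :=
  (∀ (i : ℕ) (v : ℝ), 0 ≤ v → lA T i - lB T i * v ≤ 2 ^ 24 * Real.exp (c * (mm - v))) ∧
    lA T 511 = 0 ∧ lB T 511 = 0

/-- validity of a table for `exp (c x) (s + x)` -/
def OK1 (T : ℕ) (c s : ℝ) : Prop :=
  (∀ (i : ℕ) (v : ℝ), i ≠ 511 → 0 ≤ v → lA T i - lB T i * v ≤
    2 ^ 24 * (Real.exp (c * (mm - v)) * (s + (mm - v)) + 1 / 8)) ∧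
    lA T 511 = 2 ^ 21 ∧ lB T 511 = 0

lemma pair_ok {T0 T1 : ℕ} {c s : ℝ} (h0 : OK0 T0 c) (h1 : OK1 T1 c s) {w : ℝ} (hw : 0 ≤ w)
    (hu : 0 ≤ 1 - w * s) (i0 i1 : ℕ) (v : ℝ) (hd : i1 = 511 → i0 = 511) (hv : 0 ≤ v) :
    (1 - w * s) * (lA T0 i0 - lB T0 i0 * v) + w * (lA T1 i1 - lB T1 i1 * v - 2 ^ 21) ≤
      2 ^ 24 * Real.exp ((c + w) * (mm - v)) := by
  by_cases h : i1 = 511
  · have h' := hd h
    rw [h, h', h0.2.1, h0.2.2, h1.2.1, h1.2.2]
    push_cast
    have := Real.exp_pos ((c + w) * (mm - v))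
    nlinarith
  · have a0 := mul_le_mul_of_nonneg_left (h0.1 i0 v hv) hu
    have a1 := mul_le_mul_of_nonneg_left (h1.1 i1 v h hv) hw
    have e : Real.exp ((c + w) * (mm - v)) = Real.exp (c * (mm - v)) * Real.exp (w * (mm - v)) := by
      rw [← Real.exp_add]
      congr 1
      ring
    have b := Real.add_one_le_exp (w * (mm - v))
    have b' := mul_le_mul_of_nonneg_left b (Real.exp_pos (c * (mm - v))).le
    rw [e]
    nlinarith

/-- **the double test** -/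
theorem tst_main {T0 T1 c0 c1 : ℕ} {V : List ℕ} {t : ℕ} {b s r : ℝ} (hb : 0 < b)
    (h0 : OK0 T0 (Real.pi * b)) (h1 : OK1 T1 (Real.pi * b) s) (hV : VL V)
    (h : tst T0 T1 c0 c1 V t = true) {l : Fin 6 → ℝ} (hl : ∀ i, 0 ≤ l i)
    (hp : PD (∑ i : Fin 6, l i • wv (gt V i))) (hr : 0 ≤ r) (hu : 0 ≤ 1 - Real.pi * r * s) :
    (1 - Real.pi * r * s) * c0 + Real.pi * r * (c1 - 13 * 2 ^ 21) <
      2 ^ 23 * (Real.exp (Real.pi * (b + r) * mm) * Th (b + r) (∑ i : Fin 6, l i • wv (gt V i))) := by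
  have hw : 0 ≤ Real.pi * r := mul_nonneg Real.pi_pos.le hr
  have h2 := tst_spec hV h hl hp hu hw (Φ := fun v => 2 ^ 24 * Real.exp ((Real.pi * b +
    Real.pi * r) * (mm - v))) (fun i0 i1 v hd hv => pair_ok h0 h1 hw hu i0 i1 v hd hv)
  have h3 := th_gt hp (β := b + r) (by linarith)
  set p := ∑ i : Fin 6, l i • wv (gt V i) with hpdef
  have e1 := CL_sum p (fun x => 2 ^ 24 * Real.exp ((Real.pi * b + Real.pi * r) *
    (mm - x / rad p)))
  rw [e1] at h2
  have e2 : ∑ i, 2 ^ 24 * Real.exp ((Real.pi * b + Real.pi * r) *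
      (mm - qf p (rv (X13 i)) / rad p)) = 2 ^ 23 * (Real.exp (Real.pi * (b + r) * mm) *
      (2 * ∑ i, Real.exp (-(Real.pi * (b + r) * (qf p (rv (X13 i)) / rad p))))) := by
    rw [Finset.mul_sum, Finset.mul_sum, Finset.mul_sum]
    refine Finset.sum_congr rfl fun i _ => ?_
    have : Real.exp ((Real.pi * b + Real.pi * r) * (mm - qf p (rv (X13 i)) / rad p)) =
        Real.exp (Real.pi * (b + r) * mm) *
          Real.exp (-(Real.pi * (b + r) * (qf p (rv (X13 i)) / rad p))) := by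
      rw [← Real.exp_add]
      congr 1
      ring
    rw [this]
    ring
  rw [e2] at h2
  have h4 := mul_lt_mul_of_pos_left h3 (Real.exp_pos (Real.pi * (b + r) * mm))
  linarith

end Pool.Agent.U316.Th
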