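import Pool.Agent.K1H99.FCC.Fsum
import Pool.Agent.U316.Th.Tst

/-!
# The theta function of the face-centred cubic lattice
-/

set_option autoImplicit false

open Matrix Pool.Agent.K1H99.FCC

namespace Pool.Agent.U316.Th

lemma mm_pos : 0 < mm := Real.rpow_pos_of_pos (by norm_num) _

lemma mm_cube : mm ^ 3 = 2 := by
  unfold mm
  rw [← Real.rpow_natCast, ← Real.rpow_mul (by norm_num)]
  norm_num

lemma mm_bounds : 1385297844439 / 2 ^ 40 ≤ mm ∧ mm ≤ 1385297844440 / 2 ^ 40 := by
  have h := mm_cube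
  have h0 := mm_pos
  constructor
  · by_contra hc
    push Not at hc
    have := pow_lt_pow_left₀ hc h0.le three_ne_zero
    rw [h] at this
    norm_num at this
  · by_contra hc
    push Not at hc
    have := pow_lt_pow_left₀ hc (by norm_num) three_ne_zero
    rw [h] at this
    norm_num at this

lemma rad_Fp_sq : rad Fp = mm ^ 2 := by
  refine (pow_left_inj₀ rad_Fp_pos.le (by have := mm_pos; positivity) (three_ne_zero)).1 ?_
  rw [rad_Fp]
  have : (mm ^ 2) ^ 3 = (mm ^ 3) ^ 2 := by ring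
  rw [this, mm_cube]
  norm_num

lemma mm_eq : mm = 2 / rad Fp := by
  rw [rad_Fp_sq, eq_div_iff (by have := mm_pos; positivity)]
  have : mm * mm ^ 2 = mm ^ 3 := by ring
  rw [this, mm_cube]

lemma pi_mm : Real.pi * mm = 2 * al := by
  rw [mm_eq]
  unfold al
  ring

/-- the normalised theta function of the face-centred cubic lattice -/
noncomputable def RF (β : ℝ) : ℝ := Real.exp (Real.pi * β * mm) * Th β Fp

lemma nz_ge (n : N0) : 2 ≤ nz (JG n) := by
  have h0 := nz_JG_ne n
  have h1 : nz (JG n) ≠ 1 := by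
    intro h
    have h2 : ((nz (JG n) : ℕ) : ℤ) = (JG n).1 ^ 2 + ((JG n).2.1 ^ 2 + (JG n).2.2 ^ 2) :=
      Int.toNat_of_nonneg (by positivity)
    rw [h] at h2
    have h3 : ((JG n).1 ^ 2 + ((JG n).2.1 ^ 2 + (JG n).2.2 ^ 2)) % 2 = 0 := by
      unfold JG
      simp only
      have : (n.1 0 + n.1 1 - n.1 2) ^ 2 + ((n.1 0 - n.1 1) ^ 2 + (n.1 2) ^ 2) =
          2 * (n.1 0 ^ 2 + n.1 1 ^ 2 + n.1 2 ^ 2 - n.1 0 * n.1 2 - n.1 1 * n.1 2) := by ring
      rw [this]
      omega
    rw [← h2] at h3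
    norm_num at h3
  omega

/-- the terms of the normalised theta function -/
lemma rf_term (β : ℝ) (n : N0) : Real.exp (Real.pi * β * mm) *
    Real.exp (-(Real.pi * β * (qf Fp (rv n.1) / rad Fp))) =
    Real.exp (-(al * β * ((nz (JG n) : ℝ) - 2))) := by
  rw [← Real.exp_add, nz_JG, ← qf_Fp]
  congr 1
  have h := pi_mm
  have e : Real.pi * β * mm = β * (2 * al) := by rw [← h]; ring
  rw [e]
  unfold al
  ring

lemma rf_eq (β : ℝ) : RF β = ∑' n : N0, Real.exp (-(al * β * ((nz (JG n) : ℝ) - 2))) := by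
  unfold RF Th
  rw [← tsum_mul_left]
  exact tsum_congr fun n => rf_term β n

lemma rf_summable {β : ℝ} (hβ : 0 < β) :
    Summable fun n : N0 => Real.exp (-(al * β * ((nz (JG n) : ℝ) - 2))) := by
  refine ((th_summable PD_Fp hβ).mul_left (Real.exp (Real.pi * β * mm))).congr fun n => ?_
  exact rf_term β n

lemma rf_anti {a b : ℝ} (ha : 0 < a) (hab : a ≤ b) : RF b ≤ RF a := by
  rw [rf_eq, rf_eq]
  refine (rf_summable (ha.trans_le hab)).tsum_le_tsum (fun n => ?_) (rf_summable ha)
  rw [Real.exp_le_exp]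
  have h : (2:ℝ) ≤ nz (JG n) := by exact_mod_cast nz_ge n
  have := al_pos
  have h2 : al * a * ((nz (JG n) : ℝ) - 2) ≤ al * b * ((nz (JG n) : ℝ) - 2) := by
    apply mul_le_mul_of_nonneg_right _ (by linarith)
    exact mul_le_mul_of_nonneg_left hab this.le
  linarith

lemma rf_conv {a b t : ℝ} (ha : 0 < a) (hb : 0 < b) (h0 : 0 ≤ t) (h1 : t ≤ 1) :
    RF ((1 - t) * a + t * b) ≤ (1 - t) * RF a + t * RF b := by
  have hc : 0 < (1 - t) * a + t * b := by
    rcases h0.eq_or_lt with h | h
    · rw [← h]; simpa using ha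
    · have := mul_pos h hb
      have := mul_nonneg (sub_nonneg.2 h1) ha.le
      linarith
  rw [rf_eq, rf_eq, rf_eq, ← tsum_mul_left, ← tsum_mul_left,
    ← ((rf_summable ha).mul_left _).tsum_add ((rf_summable hb).mul_left _)]
  refine (rf_summable hc).tsum_le_tsum (fun n => ?_)
    (((rf_summable ha).mul_left _).add ((rf_summable hb).mul_left _))
  have h := convexOn_exp.2 (Set.mem_univ (-(al * a * ((nz (JG n) : ℝ) - 2))))
    (Set.mem_univ (-(al * b * ((nz (JG n) : ℝ) - 2)))) (sub_nonneg.2 h1) h0 (by ring)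
  simp only [smul_eq_mul] at h
  refine le_trans (le_of_eq ?_) h
  congr 1
  ring

/-- upper bounds for the normalised theta function -/
lemma rf_le {β y K : ℝ} (hβ : 1 ≤ β) (hy : Real.exp (-(2 * al * β)) ≤ y)
    (hK : Real.exp (-(8 * al * β - 5 / 2)) ≤ K) :
    RF β ≤ 12 + 6 * y + 24 * y ^ 2 + 12 * y ^ 3 + K * 122 := by
  have hal := al_bounds.1
  have hal0 := al_pos
  have hab : 19790793 / 10000000 ≤ al * β := by nlinarith
  rw [rf_eq]
  have hK0 : 0 ≤ K := (Real.exp_pos _).le.trans hK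
  have h := shell JG JG_inj SG 10 JG_mem (fun m : ℕ => Real.exp (-(al * β * ((m : ℝ) - 2))))
    (fun m => (Real.exp_pos _).le) (rf_summable (by linarith)) (K := K) (μ := 1 / 4)
    (by norm_num) hK0 (by
      intro m hm
      have hm' : (10:ℝ) ≤ m := by exact_mod_cast hm
      have e : Real.exp (-(al * β * ((m:ℝ) - 2))) =
          Real.exp (-(8 * al * β - 5 / 2) - (al * β - 1 / 4) * (m - 10)) *
            Real.exp (-(1 / 4) * (m:ℝ)) := by
        rw [← Real.exp_add]
        congr 1
        ring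
      rw [e]
      refine mul_le_mul_of_nonneg_right ?_ (Real.exp_pos _).le
      refine le_trans (Real.exp_le_exp.2 ?_) hK
      nlinarith)
  refine h.trans ?_
  rw [sum_SG (fun m : ℕ => Real.exp (-(al * β * ((m : ℝ) - 2))))]
  have t := th2
  have hy0 := (Real.exp_pos (-(2 * al * β))).le
  have e2 : Real.exp (-(al * β * (((2:ℕ):ℝ) - 2))) = 1 := by
    push_cast
    rw [sub_self, mul_zero, neg_zero, Real.exp_zero]
  have e4 : Real.exp (-(al * β * (((4:ℕ):ℝ) - 2))) = Real.exp (-(2 * al * β)) := by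
    congr 1
    push_cast
    ring
  have e6 : Real.exp (-(al * β * (((6:ℕ):ℝ) - 2))) = Real.exp (-(2 * al * β)) ^ 2 := by
    rw [← Real.exp_nat_mul]
    congr 1
    push_cast
    ring
  have e8 : Real.exp (-(al * β * (((8:ℕ):ℝ) - 2))) = Real.exp (-(2 * al * β)) ^ 3 := by
    rw [← Real.exp_nat_mul]
    congr 1
    push_cast
    ring
  rw [e2, e4, e6, e8]
  have p2 := pow_le_pow_left₀ hy0 hy 2
  have p3 := pow_le_pow_left₀ hy0 hy 3
  have p4 := mul_le_mul_of_nonneg_left t hK0
  linarith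

lemma rf0 : RF 1 ≤ 12124 / 1000 := by
  have hal := al_bounds.1
  have hy : Real.exp (-(2 * al * 1)) ≤ 1909826 / 100000000 :=
    (Real.exp_le_exp.2 (by linarith)).trans E2
  have hK : Real.exp (-(8 * al * 1 - 5 / 2)) ≤ 17 / 10000000 := by
    refine (Real.exp_le_exp.2 (show -(8 * al * 1 - 5 / 2) ≤ -(133326 / 10000) by linarith)).trans ?_
    exact expneg_le (s := 230 / 100) (by norm_num) (by norm_num) (by norm_num) (by norm_num)
  refine (rf_le le_rfl hy hK).trans ?_
  norm_num

lemma rf1 : RF (21 / 20) ≤ 121005 / 10000 := by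
  have hal := al_bounds.1
  have hy : Real.exp (-(2 * al * (21 / 20))) ≤ 15672 / 1000000 := by
    refine (Real.exp_le_exp.2 (show -(2 * al * (21 / 20)) ≤ -(41560 / 10000) by linarith)).trans ?_
    exact expneg_le (s := 12966 / 10000) (by norm_num) (by norm_num) (by norm_num) (by norm_num)
  have hK : Real.exp (-(8 * al * (21 / 20) - 5 / 2)) ≤ 17 / 10000000 := by
    refine (Real.exp_le_exp.2 (show -(8 * al * (21 / 20) - 5 / 2) ≤ -(133326 / 10000) by
      linarith)).trans ?_
    exact expneg_le (s := 230 / 100) (by norm_num) (by norm_num) (by norm_num) (by norm_num)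
  refine (rf_le (by norm_num) hy hK).trans ?_
  norm_num

lemma rf2 : RF (6 / 5) ≤ 120543 / 10000 := by
  have hal := al_bounds.1
  have hy : Real.exp (-(2 * al * (6 / 5))) ≤ 8655 / 1000000 := by
    refine (Real.exp_le_exp.2 (show -(2 * al * (6 / 5)) ≤ -(47497 / 10000) by linarith)).trans ?_
    exact expneg_le (s := 134562 / 100000) (by norm_num) (by norm_num) (by norm_num) (by norm_num)
  have hK : Real.exp (-(8 * al * (6 / 5) - 5 / 2)) ≤ 17 / 10000000 := by
    refine (Real.exp_le_exp.2 (show -(8 * al * (6 / 5) - 5 / 2) ≤ -(133326 / 10000) by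
      linarith)).trans ?_
    exact expneg_le (s := 230 / 100) (by norm_num) (by norm_num) (by norm_num) (by norm_num)
  refine (rf_le (by norm_num) hy hK).trans ?_
  norm_num

lemma rf3 : RF (7 / 5) ≤ 120245 / 10000 := by
  have hal := al_bounds.1
  have hy : Real.exp (-(2 * al * (7 / 5))) ≤ 3922 / 1000000 := by
    refine (Real.exp_le_exp.2 (show -(2 * al * (7 / 5)) ≤ -(55413 / 10000) by linarith)).trans ?_
    exact expneg_le (s := 141387 / 100000) (by norm_num) (by norm_num) (by norm_num) (by norm_num)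
  have hK : Real.exp (-(8 * al * (7 / 5) - 5 / 2)) ≤ 17 / 10000000 := by
    refine (Real.exp_le_exp.2 (show -(8 * al * (7 / 5) - 5 / 2) ≤ -(133326 / 10000) by
      linarith)).trans ?_
    exact expneg_le (s := 230 / 100) (by norm_num) (by norm_num) (by norm_num) (by norm_num)
  refine (rf_le (by norm_num) hy hK).trans ?_
  norm_num

end Pool.Agent.U316.Th
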