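import Pool.Agent.U316.Th.Cert.Top
import Pool.Agent.K1H99.FCC.Sel

/-!
# The theta inequality on the reduced cone
-/

set_option autoImplicit false
set_option maxRecDepth 100000

open Matrix Pool.Agent.K1H99.FCC

namespace Pool.Agent.U316.Th

lemma wv_of (W a b c d e f : ℕ) (h : (Nat.beq (Nat.div W 79228162514264337593543950336)
    (pk a b c d e f) && (Nat.ble a 1099511627775 && (Nat.ble b 1099511627775 &&
    (Nat.ble c 1099511627775 && (Nat.ble d 1099511627775 && Nat.ble e 1099511627775))))) = true) :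
    wv W = ![(a:ℝ), b, c, d, e, f] := by
  simp only [Bool.and_eq_true] at h
  obtain ⟨h0, h1, h2, h3, h4, h5⟩ := h
  have h0 := Nat.eq_of_beq_eq_true h0
  have h1 := Nat.le_of_ble_eq_true h1
  have h2 := Nat.le_of_ble_eq_true h2
  have h3 := Nat.le_of_ble_eq_true h3
  have h4 := Nat.le_of_ble_eq_true h4
  have h5 := Nat.le_of_ble_eq_true h5
  have e : cw W = ![a, b, c, d, e, f] := by
    unfold cw
    change dg (Nat.div W 79228162514264337593543950336) = _
    rw [h0]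
    exact dg_pk (lt40 (by omega)) (lt40 (by omega)) (lt40 (by omega)) (lt40 (by omega))
      (lt40 (by omega))
  funext i
  unfold wv
  rw [e]
  fin_cases i <;> rfl

lemma wv_v24 : wv v24 = ![1610612736, 0, 0, 0, 0, 1610612736] := by
  have h := wv_of v24 1610612736 0 0 0 0 1610612736 (by decide +kernel)
  push_cast at h
  exact h

lemma wv_v8 : wv v8 = ![805306368, 805306368, 0, 0, 805306368, 805306368] := by
  have h := wv_of v8 805306368 805306368 0 0 805306368 805306368 (by decide +kernel)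
  push_cast at h
  exact h

lemma wv_v2 : wv v2 = ![536870912, 536870912, 536870912, 536870912, 536870912, 536870912] := by
  have h := wv_of v2 536870912 536870912 536870912 536870912 536870912 536870912 (by decide +kernel)
  push_cast at h
  exact h

lemma wv_v3 : wv v3 = ![1073741824, 536870912, 536870912, 536870912, 536870912, 0] := by
  have h := wv_of v3 1073741824 536870912 536870912 536870912 536870912 0 (by decide +kernel)
  push_cast at h
  exact h

lemma wv_v4 : wv v4 = ![1073741824, 1073741824, 536870912, 536870912, 0, 0] := by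
  have h := wv_of v4 1073741824 1073741824 536870912 536870912 0 0 (by decide +kernel)
  push_cast at h
  exact h

lemma wv_v5 : wv v5 = ![1073741824, 1073741824, 1073741824, 0, 0, 0] := by
  have h := wv_of v5 1073741824 1073741824 1073741824 0 0 0 (by decide +kernel)
  push_cast at h
  exact h

lemma wv_v26 : wv v26 = ![1073741824, 1073741824, 0, 1073741824, 0, 0] := by
  have h := wv_of v26 1073741824 1073741824 0 1073741824 0 0 (by decide +kernel)
  push_cast at h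
  exact h

lemma wv_v33 : wv v33 = ![1073741824, 536870912, 1073741824, 0, 536870912, 0] := by
  have h := wv_of v33 1073741824 536870912 1073741824 0 536870912 0 (by decide +kernel)
  push_cast at h
  exact h

lemma wv_v38 : wv v38 = ![1073741824, 536870912, 0, 1073741824, 536870912, 0] := by
  have h := wv_of v38 1073741824 536870912 0 1073741824 536870912 0 (by decide +kernel)
  push_cast at h
  exact h

lemma wv_v47 : wv v47 = ![536870912, 1073741824, 536870912, 536870912, 0, 536870912] := by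
  have h := wv_of v47 536870912 1073741824 536870912 536870912 0 536870912 (by decide +kernel)
  push_cast at h
  exact h

lemma wv_v56 : wv v56 = ![536870912, 1073741824, 1073741824, 0, 0, 536870912] := by
  have h := wv_of v56 536870912 1073741824 1073741824 0 0 536870912 (by decide +kernel)
  push_cast at h
  exact h

lemma wv_v60 : wv v60 = ![536870912, 1073741824, 0, 1073741824, 0, 536870912] := by
  have h := wv_of v60 536870912 1073741824 0 1073741824 0 536870912 (by decide +kernel)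
  push_cast at h
  exact h

lemma wv_v66 : wv v66 = ![536870912, 536870912, 1073741824, 0, 536870912, 536870912] := by
  have h := wv_of v66 536870912 536870912 1073741824 0 536870912 536870912 (by decide +kernel)
  push_cast at h
  exact h

lemma wv_v80 : wv v80 = ![536870912, 536870912, 0, 1073741824, 536870912, 536870912] := by
  have h := wv_of v80 536870912 536870912 0 1073741824 536870912 536870912 (by decide +kernel)
  push_cast at h
  exact h

lemma wv_v96 : wv v96 = ![1610612736, 805306368, 0, 0, 805306368, 0] := by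
  have h := wv_of v96 1610612736 805306368 0 0 805306368 0 (by decide +kernel)
  push_cast at h
  exact h

lemma wv_v97 : wv v97 = ![1610612736, 1610612736, 0, 0, 0, 0] := by
  have h := wv_of v97 1610612736 1610612736 0 0 0 0 (by decide +kernel)
  push_cast at h
  exact h

lemma wv_v98 : wv v98 = ![805306368, 1610612736, 0, 0, 0, 805306368] := by
  have h := wv_of v98 805306368 1610612736 0 0 0 805306368 (by decide +kernel)
  push_cast at h
  exact h

lemma wv_v99 : wv v99 = ![3221225472, 0, 0, 0, 0, 0] := by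
  have h := wv_of v99 3221225472 0 0 0 0 0 (by decide +kernel)
  push_cast at h
  exact h

lemma root14 {s1 s2 s3 e d1 d2 : ℝ}
    (h0 : s2 ≤ s1) (h1 : s3 ≤ s2) (h2 : d1 ≤ s3) (h3 : d2 ≤ d1) (h4 : e ≤ d2) (h5 : 0 ≤ e)
    (hp : PD ![s1 + d1, s2 + d2, s3 + e, s3 - e, s2 - d2, s1 - d1]) :
    Q 0 ![s1 + d1, s2 + d2, s3 + e, s3 - e, s2 - d2, s1 - d1] := by
  have hg := tp22
  have hl : ∀ i, 0 ≤ (![(s1 - s2) / 1610612736, (s2 - s3) / 805306368, (s3 - d1) / 536870912, (d1 - d2) / 536870912, (d2 - e) / 536870912, e / 536870912] : Fin 6 → ℝ) i := by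
    intro i
    fin_cases i <;> simp only [Fin.zero_eta, Fin.mk_one, Fin.reduceFinMk, Matrix.cons_val] <;>
      first | exact div_nonneg (sub_nonneg.2 ‹_›) (by norm_num) | exact div_nonneg ‹_› (by norm_num)
  have he : ∑ i : Fin 6, (![(s1 - s2) / 1610612736, (s2 - s3) / 805306368, (s3 - d1) / 536870912, (d1 - d2) / 536870912, (d2 - e) / 536870912, e / 536870912] : Fin 6 → ℝ) i •
      wv (gt [v24, v8, v2, v3, v4, v5] i) = ![s1 + d1, s2 + d2, s3 + e, s3 - e, s2 - d2, s1 - d1] := by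
    rw [Fin.sum_univ_six]
    have g0 : wv (gt [v24, v8, v2, v3, v4, v5] (((0 : Fin 6)) : ℕ)) = ![1610612736, 0, 0, 0, 0, 1610612736] := wv_v24
    have g1 : wv (gt [v24, v8, v2, v3, v4, v5] (((1 : Fin 6)) : ℕ)) = ![805306368, 805306368, 0, 0, 805306368, 805306368] := wv_v8
    have g2 : wv (gt [v24, v8, v2, v3, v4, v5] (((2 : Fin 6)) : ℕ)) = ![536870912, 536870912, 536870912, 536870912, 536870912, 536870912] := wv_v2
    have g3 : wv (gt [v24, v8, v2, v3, v4, v5] (((3 : Fin 6)) : ℕ)) = ![1073741824, 536870912, 536870912, 536870912, 536870912, 0] := wv_v3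
    have g4 : wv (gt [v24, v8, v2, v3, v4, v5] (((4 : Fin 6)) : ℕ)) = ![1073741824, 1073741824, 536870912, 536870912, 0, 0] := wv_v4
    have g5 : wv (gt [v24, v8, v2, v3, v4, v5] (((5 : Fin 6)) : ℕ)) = ![1073741824, 1073741824, 1073741824, 0, 0, 0] := wv_v5
    rw [g0, g1, g2, g3, g4, g5]
    funext k
    fin_cases k <;> simp <;> ring
  have h := hg _ hl
  rw [he] at h
  exact h hp

lemma root15 {s1 s2 s3 e d1 d2 : ℝ}
    (h0 : s2 ≤ s1) (h1 : s3 ≤ s2) (h2 : d1 ≤ s3) (h3 : d2 ≤ d1) (h4 : e ≤ d2) (h5 : 0 ≤ e)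
    (hp : PD ![s1 + d1, s2 + d2, s3 - e, s3 + e, s2 - d2, s1 - d1]) :
    Q 0 ![s1 + d1, s2 + d2, s3 - e, s3 + e, s2 - d2, s1 - d1] := by
  have hg := tp40
  have hl : ∀ i, 0 ≤ (![(s1 - s2) / 1610612736, (s2 - s3) / 805306368, (s3 - d1) / 536870912, (d1 - d2) / 536870912, (d2 - e) / 536870912, e / 536870912] : Fin 6 → ℝ) i := by
    intro i
    fin_cases i <;> simp only [Fin.zero_eta, Fin.mk_one, Fin.reduceFinMk, Matrix.cons_val] <;>
      first | exact div_nonneg (sub_nonneg.2 ‹_›) (by norm_num) | exact div_nonneg ‹_› (by norm_num)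
  have he : ∑ i : Fin 6, (![(s1 - s2) / 1610612736, (s2 - s3) / 805306368, (s3 - d1) / 536870912, (d1 - d2) / 536870912, (d2 - e) / 536870912, e / 536870912] : Fin 6 → ℝ) i •
      wv (gt [v24, v8, v2, v3, v4, v26] i) = ![s1 + d1, s2 + d2, s3 - e, s3 + e, s2 - d2, s1 - d1] := by
    rw [Fin.sum_univ_six]
    have g0 : wv (gt [v24, v8, v2, v3, v4, v26] (((0 : Fin 6)) : ℕ)) = ![1610612736, 0, 0, 0, 0, 1610612736] := wv_v24
    have g1 : wv (gt [v24, v8, v2, v3, v4, v26] (((1 : Fin 6)) : ℕ)) = ![805306368, 805306368, 0, 0, 805306368, 805306368] := wv_v8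
    have g2 : wv (gt [v24, v8, v2, v3, v4, v26] (((2 : Fin 6)) : ℕ)) = ![536870912, 536870912, 536870912, 536870912, 536870912, 536870912] := wv_v2
    have g3 : wv (gt [v24, v8, v2, v3, v4, v26] (((3 : Fin 6)) : ℕ)) = ![1073741824, 536870912, 536870912, 536870912, 536870912, 0] := wv_v3
    have g4 : wv (gt [v24, v8, v2, v3, v4, v26] (((4 : Fin 6)) : ℕ)) = ![1073741824, 1073741824, 536870912, 536870912, 0, 0] := wv_v4
    have g5 : wv (gt [v24, v8, v2, v3, v4, v26] (((5 : Fin 6)) : ℕ)) = ![1073741824, 1073741824, 0, 1073741824, 0, 0] := wv_v26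
    rw [g0, g1, g2, g3, g4, g5]
    funext k
    fin_cases k <;> simp <;> ring
  have h := hg _ hl
  rw [he] at h
  exact h hp

lemma root24 {s1 s2 s3 e d1 d2 : ℝ}
    (h0 : s2 ≤ s1) (h1 : s3 ≤ s2) (h2 : d1 ≤ s3) (h3 : e ≤ d1) (h4 : d2 ≤ e) (h5 : 0 ≤ d2)
    (hp : PD ![s1 + d1, s2 + d2, s3 + e, s3 - e, s2 - d2, s1 - d1]) :
    Q 0 ![s1 + d1, s2 + d2, s3 + e, s3 - e, s2 - d2, s1 - d1] := by
  have hg := tp61
  have hl : ∀ i, 0 ≤ (![(s1 - s2) / 1610612736, (s2 - s3) / 805306368, (s3 - d1) / 536870912, (d1 - e) / 536870912, (e - d2) / 536870912, d2 / 536870912] : Fin 6 → ℝ) i := by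
    intro i
    fin_cases i <;> simp only [Fin.zero_eta, Fin.mk_one, Fin.reduceFinMk, Matrix.cons_val] <;>
      first | exact div_nonneg (sub_nonneg.2 ‹_›) (by norm_num) | exact div_nonneg ‹_› (by norm_num)
  have he : ∑ i : Fin 6, (![(s1 - s2) / 1610612736, (s2 - s3) / 805306368, (s3 - d1) / 536870912, (d1 - e) / 536870912, (e - d2) / 536870912, d2 / 536870912] : Fin 6 → ℝ) i •
      wv (gt [v24, v8, v2, v3, v33, v5] i) = ![s1 + d1, s2 + d2, s3 + e, s3 - e, s2 - d2, s1 - d1] := by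
    rw [Fin.sum_univ_six]
    have g0 : wv (gt [v24, v8, v2, v3, v33, v5] (((0 : Fin 6)) : ℕ)) = ![1610612736, 0, 0, 0, 0, 1610612736] := wv_v24
    have g1 : wv (gt [v24, v8, v2, v3, v33, v5] (((1 : Fin 6)) : ℕ)) = ![805306368, 805306368, 0, 0, 805306368, 805306368] := wv_v8
    have g2 : wv (gt [v24, v8, v2, v3, v33, v5] (((2 : Fin 6)) : ℕ)) = ![536870912, 536870912, 536870912, 536870912, 536870912, 536870912] := wv_v2
    have g3 : wv (gt [v24, v8, v2, v3, v33, v5] (((3 : Fin 6)) : ℕ)) = ![1073741824, 536870912, 536870912, 536870912, 536870912, 0] := wv_v3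
    have g4 : wv (gt [v24, v8, v2, v3, v33, v5] (((4 : Fin 6)) : ℕ)) = ![1073741824, 536870912, 1073741824, 0, 536870912, 0] := wv_v33
    have g5 : wv (gt [v24, v8, v2, v3, v33, v5] (((5 : Fin 6)) : ℕ)) = ![1073741824, 1073741824, 1073741824, 0, 0, 0] := wv_v5
    rw [g0, g1, g2, g3, g4, g5]
    funext k
    fin_cases k <;> simp <;> ring
  have h := hg _ hl
  rw [he] at h
  exact h hp

lemma root25 {s1 s2 s3 e d1 d2 : ℝ}
    (h0 : s2 ≤ s1) (h1 : s3 ≤ s2) (h2 : d1 ≤ s3) (h3 : e ≤ d1) (h4 : d2 ≤ e) (h5 : 0 ≤ d2)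
    (hp : PD ![s1 + d1, s2 + d2, s3 - e, s3 + e, s2 - d2, s1 - d1]) :
    Q 0 ![s1 + d1, s2 + d2, s3 - e, s3 + e, s2 - d2, s1 - d1] := by
  have hg := tp83
  have hl : ∀ i, 0 ≤ (![(s1 - s2) / 1610612736, (s2 - s3) / 805306368, (s3 - d1) / 536870912, (d1 - e) / 536870912, (e - d2) / 536870912, d2 / 536870912] : Fin 6 → ℝ) i := by
    intro i
    fin_cases i <;> simp only [Fin.zero_eta, Fin.mk_one, Fin.reduceFinMk, Matrix.cons_val] <;>
      first | exact div_nonneg (sub_nonneg.2 ‹_›) (by norm_num) | exact div_nonneg ‹_› (by norm_num)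
  have he : ∑ i : Fin 6, (![(s1 - s2) / 1610612736, (s2 - s3) / 805306368, (s3 - d1) / 536870912, (d1 - e) / 536870912, (e - d2) / 536870912, d2 / 536870912] : Fin 6 → ℝ) i •
      wv (gt [v24, v8, v2, v3, v38, v26] i) = ![s1 + d1, s2 + d2, s3 - e, s3 + e, s2 - d2, s1 - d1] := by
    rw [Fin.sum_univ_six]
    have g0 : wv (gt [v24, v8, v2, v3, v38, v26] (((0 : Fin 6)) : ℕ)) = ![1610612736, 0, 0, 0, 0, 1610612736] := wv_v24
    have g1 : wv (gt [v24, v8, v2, v3, v38, v26] (((1 : Fin 6)) : ℕ)) = ![805306368, 805306368, 0, 0, 805306368, 805306368] := wv_v8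
    have g2 : wv (gt [v24, v8, v2, v3, v38, v26] (((2 : Fin 6)) : ℕ)) = ![536870912, 536870912, 536870912, 536870912, 536870912, 536870912] := wv_v2
    have g3 : wv (gt [v24, v8, v2, v3, v38, v26] (((3 : Fin 6)) : ℕ)) = ![1073741824, 536870912, 536870912, 536870912, 536870912, 0] := wv_v3
    have g4 : wv (gt [v24, v8, v2, v3, v38, v26] (((4 : Fin 6)) : ℕ)) = ![1073741824, 536870912, 0, 1073741824, 536870912, 0] := wv_v38
    have g5 : wv (gt [v24, v8, v2, v3, v38, v26] (((5 : Fin 6)) : ℕ)) = ![1073741824, 1073741824, 0, 1073741824, 0, 0] := wv_v26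
    rw [g0, g1, g2, g3, g4, g5]
    funext k
    fin_cases k <;> simp <;> ring
  have h := hg _ hl
  rw [he] at h
  exact h hp

lemma root16 {s1 s2 s3 e d1 d2 : ℝ}
    (h0 : s2 ≤ s1) (h1 : s3 ≤ s2) (h2 : d2 ≤ s3) (h3 : d1 ≤ d2) (h4 : e ≤ d1) (h5 : 0 ≤ e)
    (hp : PD ![s1 + d1, s2 + d2, s3 + e, s3 - e, s2 - d2, s1 - d1]) :
    Q 0 ![s1 + d1, s2 + d2, s3 + e, s3 - e, s2 - d2, s1 - d1] := by
  have hg := tp105
  have hl : ∀ i, 0 ≤ (![(s1 - s2) / 1610612736, (s2 - s3) / 805306368, (s3 - d2) / 536870912, (d2 - d1) / 536870912, (d1 - e) / 536870912, e / 536870912] : Fin 6 → ℝ) i := by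
    intro i
    fin_cases i <;> simp only [Fin.zero_eta, Fin.mk_one, Fin.reduceFinMk, Matrix.cons_val] <;>
      first | exact div_nonneg (sub_nonneg.2 ‹_›) (by norm_num) | exact div_nonneg ‹_› (by norm_num)
  have he : ∑ i : Fin 6, (![(s1 - s2) / 1610612736, (s2 - s3) / 805306368, (s3 - d2) / 536870912, (d2 - d1) / 536870912, (d1 - e) / 536870912, e / 536870912] : Fin 6 → ℝ) i •
      wv (gt [v24, v8, v2, v47, v4, v5] i) = ![s1 + d1, s2 + d2, s3 + e, s3 - e, s2 - d2, s1 - d1] := by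
    rw [Fin.sum_univ_six]
    have g0 : wv (gt [v24, v8, v2, v47, v4, v5] (((0 : Fin 6)) : ℕ)) = ![1610612736, 0, 0, 0, 0, 1610612736] := wv_v24
    have g1 : wv (gt [v24, v8, v2, v47, v4, v5] (((1 : Fin 6)) : ℕ)) = ![805306368, 805306368, 0, 0, 805306368, 805306368] := wv_v8
    have g2 : wv (gt [v24, v8, v2, v47, v4, v5] (((2 : Fin 6)) : ℕ)) = ![536870912, 536870912, 536870912, 536870912, 536870912, 536870912] := wv_v2
    have g3 : wv (gt [v24, v8, v2, v47, v4, v5] (((3 : Fin 6)) : ℕ)) = ![536870912, 1073741824, 536870912, 536870912, 0, 536870912] := wv_v47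
    have g4 : wv (gt [v24, v8, v2, v47, v4, v5] (((4 : Fin 6)) : ℕ)) = ![1073741824, 1073741824, 536870912, 536870912, 0, 0] := wv_v4
    have g5 : wv (gt [v24, v8, v2, v47, v4, v5] (((5 : Fin 6)) : ℕ)) = ![1073741824, 1073741824, 1073741824, 0, 0, 0] := wv_v5
    rw [g0, g1, g2, g3, g4, g5]
    funext k
    fin_cases k <;> simp <;> ring
  have h := hg _ hl
  rw [he] at h
  exact h hp

lemma root17 {s1 s2 s3 e d1 d2 : ℝ}
    (h0 : s2 ≤ s1) (h1 : s3 ≤ s2) (h2 : d2 ≤ s3) (h3 : d1 ≤ d2) (h4 : e ≤ d1) (h5 : 0 ≤ e)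
    (hp : PD ![s1 + d1, s2 + d2, s3 - e, s3 + e, s2 - d2, s1 - d1]) :
    Q 0 ![s1 + d1, s2 + d2, s3 - e, s3 + e, s2 - d2, s1 - d1] := by
  have hg := tp128
  have hl : ∀ i, 0 ≤ (![(s1 - s2) / 1610612736, (s2 - s3) / 805306368, (s3 - d2) / 536870912, (d2 - d1) / 536870912, (d1 - e) / 536870912, e / 536870912] : Fin 6 → ℝ) i := by
    intro i
    fin_cases i <;> simp only [Fin.zero_eta, Fin.mk_one, Fin.reduceFinMk, Matrix.cons_val] <;>
      first | exact div_nonneg (sub_nonneg.2 ‹_›) (by norm_num) | exact div_nonneg ‹_› (by norm_num)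
  have he : ∑ i : Fin 6, (![(s1 - s2) / 1610612736, (s2 - s3) / 805306368, (s3 - d2) / 536870912, (d2 - d1) / 536870912, (d1 - e) / 536870912, e / 536870912] : Fin 6 → ℝ) i •
      wv (gt [v24, v8, v2, v47, v4, v26] i) = ![s1 + d1, s2 + d2, s3 - e, s3 + e, s2 - d2, s1 - d1] := by
    rw [Fin.sum_univ_six]
    have g0 : wv (gt [v24, v8, v2, v47, v4, v26] (((0 : Fin 6)) : ℕ)) = ![1610612736, 0, 0, 0, 0, 1610612736] := wv_v24
    have g1 : wv (gt [v24, v8, v2, v47, v4, v26] (((1 : Fin 6)) : ℕ)) = ![805306368, 805306368, 0, 0, 805306368, 805306368] := wv_v8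
    have g2 : wv (gt [v24, v8, v2, v47, v4, v26] (((2 : Fin 6)) : ℕ)) = ![536870912, 536870912, 536870912, 536870912, 536870912, 536870912] := wv_v2
    have g3 : wv (gt [v24, v8, v2, v47, v4, v26] (((3 : Fin 6)) : ℕ)) = ![536870912, 1073741824, 536870912, 536870912, 0, 536870912] := wv_v47
    have g4 : wv (gt [v24, v8, v2, v47, v4, v26] (((4 : Fin 6)) : ℕ)) = ![1073741824, 1073741824, 536870912, 536870912, 0, 0] := wv_v4
    have g5 : wv (gt [v24, v8, v2, v47, v4, v26] (((5 : Fin 6)) : ℕ)) = ![1073741824, 1073741824, 0, 1073741824, 0, 0] := wv_v26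
    rw [g0, g1, g2, g3, g4, g5]
    funext k
    fin_cases k <;> simp <;> ring
  have h := hg _ hl
  rw [he] at h
  exact h hp

lemma root18 {s1 s2 s3 e d1 d2 : ℝ}
    (h0 : s2 ≤ s1) (h1 : s3 ≤ s2) (h2 : d2 ≤ s3) (h3 : e ≤ d2) (h4 : d1 ≤ e) (h5 : 0 ≤ d1)
    (hp : PD ![s1 + d1, s2 + d2, s3 + e, s3 - e, s2 - d2, s1 - d1]) :
    Q 0 ![s1 + d1, s2 + d2, s3 + e, s3 - e, s2 - d2, s1 - d1] := by
  have hg := tp150
  have hl : ∀ i, 0 ≤ (![(s1 - s2) / 1610612736, (s2 - s3) / 805306368, (s3 - d2) / 536870912, (d2 - e) / 536870912, (e - d1) / 536870912, d1 / 536870912] : Fin 6 → ℝ) i := by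
    intro i
    fin_cases i <;> simp only [Fin.zero_eta, Fin.mk_one, Fin.reduceFinMk, Matrix.cons_val] <;>
      first | exact div_nonneg (sub_nonneg.2 ‹_›) (by norm_num) | exact div_nonneg ‹_› (by norm_num)
  have he : ∑ i : Fin 6, (![(s1 - s2) / 1610612736, (s2 - s3) / 805306368, (s3 - d2) / 536870912, (d2 - e) / 536870912, (e - d1) / 536870912, d1 / 536870912] : Fin 6 → ℝ) i •
      wv (gt [v24, v8, v2, v47, v56, v5] i) = ![s1 + d1, s2 + d2, s3 + e, s3 - e, s2 - d2, s1 - d1] := by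
    rw [Fin.sum_univ_six]
    have g0 : wv (gt [v24, v8, v2, v47, v56, v5] (((0 : Fin 6)) : ℕ)) = ![1610612736, 0, 0, 0, 0, 1610612736] := wv_v24
    have g1 : wv (gt [v24, v8, v2, v47, v56, v5] (((1 : Fin 6)) : ℕ)) = ![805306368, 805306368, 0, 0, 805306368, 805306368] := wv_v8
    have g2 : wv (gt [v24, v8, v2, v47, v56, v5] (((2 : Fin 6)) : ℕ)) = ![536870912, 536870912, 536870912, 536870912, 536870912, 536870912] := wv_v2
    have g3 : wv (gt [v24, v8, v2, v47, v56, v5] (((3 : Fin 6)) : ℕ)) = ![536870912, 1073741824, 536870912, 536870912, 0, 536870912] := wv_v47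
    have g4 : wv (gt [v24, v8, v2, v47, v56, v5] (((4 : Fin 6)) : ℕ)) = ![536870912, 1073741824, 1073741824, 0, 0, 536870912] := wv_v56
    have g5 : wv (gt [v24, v8, v2, v47, v56, v5] (((5 : Fin 6)) : ℕ)) = ![1073741824, 1073741824, 1073741824, 0, 0, 0] := wv_v5
    rw [g0, g1, g2, g3, g4, g5]
    funext k
    fin_cases k <;> simp <;> ring
  have h := hg _ hl
  rw [he] at h
  exact h hp

lemma root19 {s1 s2 s3 e d1 d2 : ℝ}
    (h0 : s2 ≤ s1) (h1 : s3 ≤ s2) (h2 : d2 ≤ s3) (h3 : e ≤ d2) (h4 : d1 ≤ e) (h5 : 0 ≤ d1)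
    (hp : PD ![s1 + d1, s2 + d2, s3 - e, s3 + e, s2 - d2, s1 - d1]) :
    Q 0 ![s1 + d1, s2 + d2, s3 - e, s3 + e, s2 - d2, s1 - d1] := by
  have hg := tp175
  have hl : ∀ i, 0 ≤ (![(s1 - s2) / 1610612736, (s2 - s3) / 805306368, (s3 - d2) / 536870912, (d2 - e) / 536870912, (e - d1) / 536870912, d1 / 536870912] : Fin 6 → ℝ) i := by
    intro i
    fin_cases i <;> simp only [Fin.zero_eta, Fin.mk_one, Fin.reduceFinMk, Matrix.cons_val] <;>
      first | exact div_nonneg (sub_nonneg.2 ‹_›) (by norm_num) | exact div_nonneg ‹_› (by norm_num)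
  have he : ∑ i : Fin 6, (![(s1 - s2) / 1610612736, (s2 - s3) / 805306368, (s3 - d2) / 536870912, (d2 - e) / 536870912, (e - d1) / 536870912, d1 / 536870912] : Fin 6 → ℝ) i •
      wv (gt [v24, v8, v2, v47, v60, v26] i) = ![s1 + d1, s2 + d2, s3 - e, s3 + e, s2 - d2, s1 - d1] := by
    rw [Fin.sum_univ_six]
    have g0 : wv (gt [v24, v8, v2, v47, v60, v26] (((0 : Fin 6)) : ℕ)) = ![1610612736, 0, 0, 0, 0, 1610612736] := wv_v24
    have g1 : wv (gt [v24, v8, v2, v47, v60, v26] (((1 : Fin 6)) : ℕ)) = ![805306368, 805306368, 0, 0, 805306368, 805306368] := wv_v8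
    have g2 : wv (gt [v24, v8, v2, v47, v60, v26] (((2 : Fin 6)) : ℕ)) = ![536870912, 536870912, 536870912, 536870912, 536870912, 536870912] := wv_v2
    have g3 : wv (gt [v24, v8, v2, v47, v60, v26] (((3 : Fin 6)) : ℕ)) = ![536870912, 1073741824, 536870912, 536870912, 0, 536870912] := wv_v47
    have g4 : wv (gt [v24, v8, v2, v47, v60, v26] (((4 : Fin 6)) : ℕ)) = ![536870912, 1073741824, 0, 1073741824, 0, 536870912] := wv_v60
    have g5 : wv (gt [v24, v8, v2, v47, v60, v26] (((5 : Fin 6)) : ℕ)) = ![1073741824, 1073741824, 0, 1073741824, 0, 0] := wv_v26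
    rw [g0, g1, g2, g3, g4, g5]
    funext k
    fin_cases k <;> simp <;> ring
  have h := hg _ hl
  rw [he] at h
  exact h hp

lemma root26 {s1 s2 s3 e d1 d2 : ℝ}
    (h0 : s2 ≤ s1) (h1 : s3 ≤ s2) (h2 : e ≤ s3) (h3 : d1 ≤ e) (h4 : d2 ≤ d1) (h5 : 0 ≤ d2)
    (hp : PD ![s1 + d1, s2 + d2, s3 + e, s3 - e, s2 - d2, s1 - d1]) :
    Q 0 ![s1 + d1, s2 + d2, s3 + e, s3 - e, s2 - d2, s1 - d1] := by
  have hg := tp213
  have hl : ∀ i, 0 ≤ (![(s1 - s2) / 1610612736, (s2 - s3) / 805306368, (s3 - e) / 536870912, (e - d1) / 536870912, (d1 - d2) / 536870912, d2 / 536870912] : Fin 6 → ℝ) i := by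
    intro i
    fin_cases i <;> simp only [Fin.zero_eta, Fin.mk_one, Fin.reduceFinMk, Matrix.cons_val] <;>
      first | exact div_nonneg (sub_nonneg.2 ‹_›) (by norm_num) | exact div_nonneg ‹_› (by norm_num)
  have he : ∑ i : Fin 6, (![(s1 - s2) / 1610612736, (s2 - s3) / 805306368, (s3 - e) / 536870912, (e - d1) / 536870912, (d1 - d2) / 536870912, d2 / 536870912] : Fin 6 → ℝ) i •
      wv (gt [v24, v8, v2, v66, v33, v5] i) = ![s1 + d1, s2 + d2, s3 + e, s3 - e, s2 - d2, s1 - d1] := by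
    rw [Fin.sum_univ_six]
    have g0 : wv (gt [v24, v8, v2, v66, v33, v5] (((0 : Fin 6)) : ℕ)) = ![1610612736, 0, 0, 0, 0, 1610612736] := wv_v24
    have g1 : wv (gt [v24, v8, v2, v66, v33, v5] (((1 : Fin 6)) : ℕ)) = ![805306368, 805306368, 0, 0, 805306368, 805306368] := wv_v8
    have g2 : wv (gt [v24, v8, v2, v66, v33, v5] (((2 : Fin 6)) : ℕ)) = ![536870912, 536870912, 536870912, 536870912, 536870912, 536870912] := wv_v2
    have g3 : wv (gt [v24, v8, v2, v66, v33, v5] (((3 : Fin 6)) : ℕ)) = ![536870912, 536870912, 1073741824, 0, 536870912, 536870912] := wv_v66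
    have g4 : wv (gt [v24, v8, v2, v66, v33, v5] (((4 : Fin 6)) : ℕ)) = ![1073741824, 536870912, 1073741824, 0, 536870912, 0] := wv_v33
    have g5 : wv (gt [v24, v8, v2, v66, v33, v5] (((5 : Fin 6)) : ℕ)) = ![1073741824, 1073741824, 1073741824, 0, 0, 0] := wv_v5
    rw [g0, g1, g2, g3, g4, g5]
    funext k
    fin_cases k <;> simp <;> ring
  have h := hg _ hl
  rw [he] at h
  exact h hp

lemma root27 {s1 s2 s3 e d1 d2 : ℝ}
    (h0 : s2 ≤ s1) (h1 : s3 ≤ s2) (h2 : e ≤ s3) (h3 : d1 ≤ e) (h4 : d2 ≤ d1) (h5 : 0 ≤ d2)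
    (hp : PD ![s1 + d1, s2 + d2, s3 - e, s3 + e, s2 - d2, s1 - d1]) :
    Q 0 ![s1 + d1, s2 + d2, s3 - e, s3 + e, s2 - d2, s1 - d1] := by
  have hg := tp246
  have hl : ∀ i, 0 ≤ (![(s1 - s2) / 1610612736, (s2 - s3) / 805306368, (s3 - e) / 536870912, (e - d1) / 536870912, (d1 - d2) / 536870912, d2 / 536870912] : Fin 6 → ℝ) i := by
    intro i
    fin_cases i <;> simp only [Fin.zero_eta, Fin.mk_one, Fin.reduceFinMk, Matrix.cons_val] <;>
      first | exact div_nonneg (sub_nonneg.2 ‹_›) (by norm_num) | exact div_nonneg ‹_› (by norm_num)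
  have he : ∑ i : Fin 6, (![(s1 - s2) / 1610612736, (s2 - s3) / 805306368, (s3 - e) / 536870912, (e - d1) / 536870912, (d1 - d2) / 536870912, d2 / 536870912] : Fin 6 → ℝ) i •
      wv (gt [v24, v8, v2, v80, v38, v26] i) = ![s1 + d1, s2 + d2, s3 - e, s3 + e, s2 - d2, s1 - d1] := by
    rw [Fin.sum_univ_six]
    have g0 : wv (gt [v24, v8, v2, v80, v38, v26] (((0 : Fin 6)) : ℕ)) = ![1610612736, 0, 0, 0, 0, 1610612736] := wv_v24
    have g1 : wv (gt [v24, v8, v2, v80, v38, v26] (((1 : Fin 6)) : ℕ)) = ![805306368, 805306368, 0, 0, 805306368, 805306368] := wv_v8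
    have g2 : wv (gt [v24, v8, v2, v80, v38, v26] (((2 : Fin 6)) : ℕ)) = ![536870912, 536870912, 536870912, 536870912, 536870912, 536870912] := wv_v2
    have g3 : wv (gt [v24, v8, v2, v80, v38, v26] (((3 : Fin 6)) : ℕ)) = ![536870912, 536870912, 0, 1073741824, 536870912, 536870912] := wv_v80
    have g4 : wv (gt [v24, v8, v2, v80, v38, v26] (((4 : Fin 6)) : ℕ)) = ![1073741824, 536870912, 0, 1073741824, 536870912, 0] := wv_v38
    have g5 : wv (gt [v24, v8, v2, v80, v38, v26] (((5 : Fin 6)) : ℕ)) = ![1073741824, 1073741824, 0, 1073741824, 0, 0] := wv_v26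
    rw [g0, g1, g2, g3, g4, g5]
    funext k
    fin_cases k <;> simp <;> ring
  have h := hg _ hl
  rw [he] at h
  exact h hp

lemma root28 {s1 s2 s3 e d1 d2 : ℝ}
    (h0 : s2 ≤ s1) (h1 : s3 ≤ s2) (h2 : e ≤ s3) (h3 : d2 ≤ e) (h4 : d1 ≤ d2) (h5 : 0 ≤ d1)
    (hp : PD ![s1 + d1, s2 + d2, s3 + e, s3 - e, s2 - d2, s1 - d1]) :
    Q 0 ![s1 + d1, s2 + d2, s3 + e, s3 - e, s2 - d2, s1 - d1] := by
  have hg := tp288
  have hl : ∀ i, 0 ≤ (![(s1 - s2) / 1610612736, (s2 - s3) / 805306368, (s3 - e) / 536870912, (e - d2) / 536870912, (d2 - d1) / 536870912, d1 / 536870912] : Fin 6 → ℝ) i := by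
    intro i
    fin_cases i <;> simp only [Fin.zero_eta, Fin.mk_one, Fin.reduceFinMk, Matrix.cons_val] <;>
      first | exact div_nonneg (sub_nonneg.2 ‹_›) (by norm_num) | exact div_nonneg ‹_› (by norm_num)
  have he : ∑ i : Fin 6, (![(s1 - s2) / 1610612736, (s2 - s3) / 805306368, (s3 - e) / 536870912, (e - d2) / 536870912, (d2 - d1) / 536870912, d1 / 536870912] : Fin 6 → ℝ) i •
      wv (gt [v24, v8, v2, v66, v56, v5] i) = ![s1 + d1, s2 + d2, s3 + e, s3 - e, s2 - d2, s1 - d1] := by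
    rw [Fin.sum_univ_six]
    have g0 : wv (gt [v24, v8, v2, v66, v56, v5] (((0 : Fin 6)) : ℕ)) = ![1610612736, 0, 0, 0, 0, 1610612736] := wv_v24
    have g1 : wv (gt [v24, v8, v2, v66, v56, v5] (((1 : Fin 6)) : ℕ)) = ![805306368, 805306368, 0, 0, 805306368, 805306368] := wv_v8
    have g2 : wv (gt [v24, v8, v2, v66, v56, v5] (((2 : Fin 6)) : ℕ)) = ![536870912, 536870912, 536870912, 536870912, 536870912, 536870912] := wv_v2
    have g3 : wv (gt [v24, v8, v2, v66, v56, v5] (((3 : Fin 6)) : ℕ)) = ![536870912, 536870912, 1073741824, 0, 536870912, 536870912] := wv_v66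
    have g4 : wv (gt [v24, v8, v2, v66, v56, v5] (((4 : Fin 6)) : ℕ)) = ![536870912, 1073741824, 1073741824, 0, 0, 536870912] := wv_v56
    have g5 : wv (gt [v24, v8, v2, v66, v56, v5] (((5 : Fin 6)) : ℕ)) = ![1073741824, 1073741824, 1073741824, 0, 0, 0] := wv_v5
    rw [g0, g1, g2, g3, g4, g5]
    funext k
    fin_cases k <;> simp <;> ring
  have h := hg _ hl
  rw [he] at h
  exact h hp

lemma root29 {s1 s2 s3 e d1 d2 : ℝ}
    (h0 : s2 ≤ s1) (h1 : s3 ≤ s2) (h2 : e ≤ s3) (h3 : d2 ≤ e) (h4 : d1 ≤ d2) (h5 : 0 ≤ d1)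
    (hp : PD ![s1 + d1, s2 + d2, s3 - e, s3 + e, s2 - d2, s1 - d1]) :
    Q 0 ![s1 + d1, s2 + d2, s3 - e, s3 + e, s2 - d2, s1 - d1] := by
  have hg := tp322
  have hl : ∀ i, 0 ≤ (![(s1 - s2) / 1610612736, (s2 - s3) / 805306368, (s3 - e) / 536870912, (e - d2) / 536870912, (d2 - d1) / 536870912, d1 / 536870912] : Fin 6 → ℝ) i := by
    intro i
    fin_cases i <;> simp only [Fin.zero_eta, Fin.mk_one, Fin.reduceFinMk, Matrix.cons_val] <;>
      first | exact div_nonneg (sub_nonneg.2 ‹_›) (by norm_num) | exact div_nonneg ‹_› (by norm_num)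
  have he : ∑ i : Fin 6, (![(s1 - s2) / 1610612736, (s2 - s3) / 805306368, (s3 - e) / 536870912, (e - d2) / 536870912, (d2 - d1) / 536870912, d1 / 536870912] : Fin 6 → ℝ) i •
      wv (gt [v24, v8, v2, v80, v60, v26] i) = ![s1 + d1, s2 + d2, s3 - e, s3 + e, s2 - d2, s1 - d1] := by
    rw [Fin.sum_univ_six]
    have g0 : wv (gt [v24, v8, v2, v80, v60, v26] (((0 : Fin 6)) : ℕ)) = ![1610612736, 0, 0, 0, 0, 1610612736] := wv_v24
    have g1 : wv (gt [v24, v8, v2, v80, v60, v26] (((1 : Fin 6)) : ℕ)) = ![805306368, 805306368, 0, 0, 805306368, 805306368] := wv_v8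
    have g2 : wv (gt [v24, v8, v2, v80, v60, v26] (((2 : Fin 6)) : ℕ)) = ![536870912, 536870912, 536870912, 536870912, 536870912, 536870912] := wv_v2
    have g3 : wv (gt [v24, v8, v2, v80, v60, v26] (((3 : Fin 6)) : ℕ)) = ![536870912, 536870912, 0, 1073741824, 536870912, 536870912] := wv_v80
    have g4 : wv (gt [v24, v8, v2, v80, v60, v26] (((4 : Fin 6)) : ℕ)) = ![536870912, 1073741824, 0, 1073741824, 0, 536870912] := wv_v60
    have g5 : wv (gt [v24, v8, v2, v80, v60, v26] (((5 : Fin 6)) : ℕ)) = ![1073741824, 1073741824, 0, 1073741824, 0, 0] := wv_v26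
    rw [g0, g1, g2, g3, g4, g5]
    funext k
    fin_cases k <;> simp <;> ring
  have h := hg _ hl
  rw [he] at h
  exact h hp

lemma root12 {s1 s2 s3 e d1 d2 : ℝ}
    (h0 : s2 ≤ s1) (h1 : d1 ≤ s2) (h2 : s3 ≤ d1) (h3 : d2 ≤ s3) (h4 : e ≤ d2) (h5 : 0 ≤ e)
    (hp : PD ![s1 + d1, s2 + d2, s3 + e, s3 - e, s2 - d2, s1 - d1]) :
    Q 0 ![s1 + d1, s2 + d2, s3 + e, s3 - e, s2 - d2, s1 - d1] := by
  have hg := ch335
  have hl : ∀ i, 0 ≤ (![(s1 - s2) / 1610612736, (s2 - d1) / 805306368, (d1 - s3) / 805306368, (s3 - d2) / 536870912, (d2 - e) / 536870912, e / 536870912] : Fin 6 → ℝ) i := by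
    intro i
    fin_cases i <;> simp only [Fin.zero_eta, Fin.mk_one, Fin.reduceFinMk, Matrix.cons_val] <;>
      first | exact div_nonneg (sub_nonneg.2 ‹_›) (by norm_num) | exact div_nonneg ‹_› (by norm_num)
  have he : ∑ i : Fin 6, (![(s1 - s2) / 1610612736, (s2 - d1) / 805306368, (d1 - s3) / 805306368, (s3 - d2) / 536870912, (d2 - e) / 536870912, e / 536870912] : Fin 6 → ℝ) i •
      wv (gt [v24, v8, v96, v3, v4, v5] i) = ![s1 + d1, s2 + d2, s3 + e, s3 - e, s2 - d2, s1 - d1] := by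
    rw [Fin.sum_univ_six]
    have g0 : wv (gt [v24, v8, v96, v3, v4, v5] (((0 : Fin 6)) : ℕ)) = ![1610612736, 0, 0, 0, 0, 1610612736] := wv_v24
    have g1 : wv (gt [v24, v8, v96, v3, v4, v5] (((1 : Fin 6)) : ℕ)) = ![805306368, 805306368, 0, 0, 805306368, 805306368] := wv_v8
    have g2 : wv (gt [v24, v8, v96, v3, v4, v5] (((2 : Fin 6)) : ℕ)) = ![1610612736, 805306368, 0, 0, 805306368, 0] := wv_v96
    have g3 : wv (gt [v24, v8, v96, v3, v4, v5] (((3 : Fin 6)) : ℕ)) = ![1073741824, 536870912, 536870912, 536870912, 536870912, 0] := wv_v3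
    have g4 : wv (gt [v24, v8, v96, v3, v4, v5] (((4 : Fin 6)) : ℕ)) = ![1073741824, 1073741824, 536870912, 536870912, 0, 0] := wv_v4
    have g5 : wv (gt [v24, v8, v96, v3, v4, v5] (((5 : Fin 6)) : ℕ)) = ![1073741824, 1073741824, 1073741824, 0, 0, 0] := wv_v5
    rw [g0, g1, g2, g3, g4, g5]
    funext k
    fin_cases k <;> simp <;> ring
  have h := hg _ hl
  rw [he] at h
  exact h hp

lemma root13 {s1 s2 s3 e d1 d2 : ℝ}
    (h0 : s2 ≤ s1) (h1 : d1 ≤ s2) (h2 : s3 ≤ d1) (h3 : d2 ≤ s3) (h4 : e ≤ d2) (h5 : 0 ≤ e)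
    (hp : PD ![s1 + d1, s2 + d2, s3 - e, s3 + e, s2 - d2, s1 - d1]) :
    Q 0 ![s1 + d1, s2 + d2, s3 - e, s3 + e, s2 - d2, s1 - d1] := by
  have hg := ch336
  have hl : ∀ i, 0 ≤ (![(s1 - s2) / 1610612736, (s2 - d1) / 805306368, (d1 - s3) / 805306368, (s3 - d2) / 536870912, (d2 - e) / 536870912, e / 536870912] : Fin 6 → ℝ) i := by
    intro i
    fin_cases i <;> simp only [Fin.zero_eta, Fin.mk_one, Fin.reduceFinMk, Matrix.cons_val] <;>
      first | exact div_nonneg (sub_nonneg.2 ‹_›) (by norm_num) | exact div_nonneg ‹_› (by norm_num)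
  have he : ∑ i : Fin 6, (![(s1 - s2) / 1610612736, (s2 - d1) / 805306368, (d1 - s3) / 805306368, (s3 - d2) / 536870912, (d2 - e) / 536870912, e / 536870912] : Fin 6 → ℝ) i •
      wv (gt [v24, v8, v96, v3, v4, v26] i) = ![s1 + d1, s2 + d2, s3 - e, s3 + e, s2 - d2, s1 - d1] := by
    rw [Fin.sum_univ_six]
    have g0 : wv (gt [v24, v8, v96, v3, v4, v26] (((0 : Fin 6)) : ℕ)) = ![1610612736, 0, 0, 0, 0, 1610612736] := wv_v24
    have g1 : wv (gt [v24, v8, v96, v3, v4, v26] (((1 : Fin 6)) : ℕ)) = ![805306368, 805306368, 0, 0, 805306368, 805306368] := wv_v8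
    have g2 : wv (gt [v24, v8, v96, v3, v4, v26] (((2 : Fin 6)) : ℕ)) = ![1610612736, 805306368, 0, 0, 805306368, 0] := wv_v96
    have g3 : wv (gt [v24, v8, v96, v3, v4, v26] (((3 : Fin 6)) : ℕ)) = ![1073741824, 536870912, 536870912, 536870912, 536870912, 0] := wv_v3
    have g4 : wv (gt [v24, v8, v96, v3, v4, v26] (((4 : Fin 6)) : ℕ)) = ![1073741824, 1073741824, 536870912, 536870912, 0, 0] := wv_v4
    have g5 : wv (gt [v24, v8, v96, v3, v4, v26] (((5 : Fin 6)) : ℕ)) = ![1073741824, 1073741824, 0, 1073741824, 0, 0] := wv_v26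
    rw [g0, g1, g2, g3, g4, g5]
    funext k
    fin_cases k <;> simp <;> ring
  have h := hg _ hl
  rw [he] at h
  exact h hp

lemma root22 {s1 s2 s3 e d1 d2 : ℝ}
    (h0 : s2 ≤ s1) (h1 : d1 ≤ s2) (h2 : s3 ≤ d1) (h3 : e ≤ s3) (h4 : d2 ≤ e) (h5 : 0 ≤ d2)
    (hp : PD ![s1 + d1, s2 + d2, s3 + e, s3 - e, s2 - d2, s1 - d1]) :
    Q 0 ![s1 + d1, s2 + d2, s3 + e, s3 - e, s2 - d2, s1 - d1] := by
  have hg := ch337
  have hl : ∀ i, 0 ≤ (![(s1 - s2) / 1610612736, (s2 - d1) / 805306368, (d1 - s3) / 805306368, (s3 - e) / 536870912, (e - d2) / 536870912, d2 / 536870912] : Fin 6 → ℝ) i := by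
    intro i
    fin_cases i <;> simp only [Fin.zero_eta, Fin.mk_one, Fin.reduceFinMk, Matrix.cons_val] <;>
      first | exact div_nonneg (sub_nonneg.2 ‹_›) (by norm_num) | exact div_nonneg ‹_› (by norm_num)
  have he : ∑ i : Fin 6, (![(s1 - s2) / 1610612736, (s2 - d1) / 805306368, (d1 - s3) / 805306368, (s3 - e) / 536870912, (e - d2) / 536870912, d2 / 536870912] : Fin 6 → ℝ) i •
      wv (gt [v24, v8, v96, v3, v33, v5] i) = ![s1 + d1, s2 + d2, s3 + e, s3 - e, s2 - d2, s1 - d1] := by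
    rw [Fin.sum_univ_six]
    have g0 : wv (gt [v24, v8, v96, v3, v33, v5] (((0 : Fin 6)) : ℕ)) = ![1610612736, 0, 0, 0, 0, 1610612736] := wv_v24
    have g1 : wv (gt [v24, v8, v96, v3, v33, v5] (((1 : Fin 6)) : ℕ)) = ![805306368, 805306368, 0, 0, 805306368, 805306368] := wv_v8
    have g2 : wv (gt [v24, v8, v96, v3, v33, v5] (((2 : Fin 6)) : ℕ)) = ![1610612736, 805306368, 0, 0, 805306368, 0] := wv_v96
    have g3 : wv (gt [v24, v8, v96, v3, v33, v5] (((3 : Fin 6)) : ℕ)) = ![1073741824, 536870912, 536870912, 536870912, 536870912, 0] := wv_v3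
    have g4 : wv (gt [v24, v8, v96, v3, v33, v5] (((4 : Fin 6)) : ℕ)) = ![1073741824, 536870912, 1073741824, 0, 536870912, 0] := wv_v33
    have g5 : wv (gt [v24, v8, v96, v3, v33, v5] (((5 : Fin 6)) : ℕ)) = ![1073741824, 1073741824, 1073741824, 0, 0, 0] := wv_v5
    rw [g0, g1, g2, g3, g4, g5]
    funext k
    fin_cases k <;> simp <;> ring
  have h := hg _ hl
  rw [he] at h
  exact h hp

lemma root23 {s1 s2 s3 e d1 d2 : ℝ}
    (h0 : s2 ≤ s1) (h1 : d1 ≤ s2) (h2 : s3 ≤ d1) (h3 : e ≤ s3) (h4 : d2 ≤ e) (h5 : 0 ≤ d2)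
    (hp : PD ![s1 + d1, s2 + d2, s3 - e, s3 + e, s2 - d2, s1 - d1]) :
    Q 0 ![s1 + d1, s2 + d2, s3 - e, s3 + e, s2 - d2, s1 - d1] := by
  have hg := ch338
  have hl : ∀ i, 0 ≤ (![(s1 - s2) / 1610612736, (s2 - d1) / 805306368, (d1 - s3) / 805306368, (s3 - e) / 536870912, (e - d2) / 536870912, d2 / 536870912] : Fin 6 → ℝ) i := by
    intro i
    fin_cases i <;> simp only [Fin.zero_eta, Fin.mk_one, Fin.reduceFinMk, Matrix.cons_val] <;>
      first | exact div_nonneg (sub_nonneg.2 ‹_›) (by norm_num) | exact div_nonneg ‹_› (by norm_num)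
  have he : ∑ i : Fin 6, (![(s1 - s2) / 1610612736, (s2 - d1) / 805306368, (d1 - s3) / 805306368, (s3 - e) / 536870912, (e - d2) / 536870912, d2 / 536870912] : Fin 6 → ℝ) i •
      wv (gt [v24, v8, v96, v3, v38, v26] i) = ![s1 + d1, s2 + d2, s3 - e, s3 + e, s2 - d2, s1 - d1] := by
    rw [Fin.sum_univ_six]
    have g0 : wv (gt [v24, v8, v96, v3, v38, v26] (((0 : Fin 6)) : ℕ)) = ![1610612736, 0, 0, 0, 0, 1610612736] := wv_v24
    have g1 : wv (gt [v24, v8, v96, v3, v38, v26] (((1 : Fin 6)) : ℕ)) = ![805306368, 805306368, 0, 0, 805306368, 805306368] := wv_v8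
    have g2 : wv (gt [v24, v8, v96, v3, v38, v26] (((2 : Fin 6)) : ℕ)) = ![1610612736, 805306368, 0, 0, 805306368, 0] := wv_v96
    have g3 : wv (gt [v24, v8, v96, v3, v38, v26] (((3 : Fin 6)) : ℕ)) = ![1073741824, 536870912, 536870912, 536870912, 536870912, 0] := wv_v3
    have g4 : wv (gt [v24, v8, v96, v3, v38, v26] (((4 : Fin 6)) : ℕ)) = ![1073741824, 536870912, 0, 1073741824, 536870912, 0] := wv_v38
    have g5 : wv (gt [v24, v8, v96, v3, v38, v26] (((5 : Fin 6)) : ℕ)) = ![1073741824, 1073741824, 0, 1073741824, 0, 0] := wv_v26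
    rw [g0, g1, g2, g3, g4, g5]
    funext k
    fin_cases k <;> simp <;> ring
  have h := hg _ hl
  rw [he] at h
  exact h hp

lemma root2 {s1 s2 s3 e d1 d2 : ℝ}
    (h0 : s2 ≤ s1) (h1 : d1 ≤ s2) (h2 : d2 ≤ d1) (h3 : s3 ≤ d2) (h4 : e ≤ s3) (h5 : 0 ≤ e)
    (hp : PD ![s1 + d1, s2 + d2, s3 + e, s3 - e, s2 - d2, s1 - d1]) :
    Q 0 ![s1 + d1, s2 + d2, s3 + e, s3 - e, s2 - d2, s1 - d1] := by
  have hg := ch339
  have hl : ∀ i, 0 ≤ (![(s1 - s2) / 1610612736, (s2 - d1) / 805306368, (d1 - d2) / 805306368, (d2 - s3) / 805306368, (s3 - e) / 536870912, e / 536870912] : Fin 6 → ℝ) i := by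
    intro i
    fin_cases i <;> simp only [Fin.zero_eta, Fin.mk_one, Fin.reduceFinMk, Matrix.cons_val] <;>
      first | exact div_nonneg (sub_nonneg.2 ‹_›) (by norm_num) | exact div_nonneg ‹_› (by norm_num)
  have he : ∑ i : Fin 6, (![(s1 - s2) / 1610612736, (s2 - d1) / 805306368, (d1 - d2) / 805306368, (d2 - s3) / 805306368, (s3 - e) / 536870912, e / 536870912] : Fin 6 → ℝ) i •
      wv (gt [v24, v8, v96, v97, v4, v5] i) = ![s1 + d1, s2 + d2, s3 + e, s3 - e, s2 - d2, s1 - d1] := by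
    rw [Fin.sum_univ_six]
    have g0 : wv (gt [v24, v8, v96, v97, v4, v5] (((0 : Fin 6)) : ℕ)) = ![1610612736, 0, 0, 0, 0, 1610612736] := wv_v24
    have g1 : wv (gt [v24, v8, v96, v97, v4, v5] (((1 : Fin 6)) : ℕ)) = ![805306368, 805306368, 0, 0, 805306368, 805306368] := wv_v8
    have g2 : wv (gt [v24, v8, v96, v97, v4, v5] (((2 : Fin 6)) : ℕ)) = ![1610612736, 805306368, 0, 0, 805306368, 0] := wv_v96
    have g3 : wv (gt [v24, v8, v96, v97, v4, v5] (((3 : Fin 6)) : ℕ)) = ![1610612736, 1610612736, 0, 0, 0, 0] := wv_v97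
    have g4 : wv (gt [v24, v8, v96, v97, v4, v5] (((4 : Fin 6)) : ℕ)) = ![1073741824, 1073741824, 536870912, 536870912, 0, 0] := wv_v4
    have g5 : wv (gt [v24, v8, v96, v97, v4, v5] (((5 : Fin 6)) : ℕ)) = ![1073741824, 1073741824, 1073741824, 0, 0, 0] := wv_v5
    rw [g0, g1, g2, g3, g4, g5]
    funext k
    fin_cases k <;> simp <;> ring
  have h := hg _ hl
  rw [he] at h
  exact h hp

lemma root3 {s1 s2 s3 e d1 d2 : ℝ}
    (h0 : s2 ≤ s1) (h1 : d1 ≤ s2) (h2 : d2 ≤ d1) (h3 : s3 ≤ d2) (h4 : e ≤ s3) (h5 : 0 ≤ e)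
    (hp : PD ![s1 + d1, s2 + d2, s3 - e, s3 + e, s2 - d2, s1 - d1]) :
    Q 0 ![s1 + d1, s2 + d2, s3 - e, s3 + e, s2 - d2, s1 - d1] := by
  have hg := ch340
  have hl : ∀ i, 0 ≤ (![(s1 - s2) / 1610612736, (s2 - d1) / 805306368, (d1 - d2) / 805306368, (d2 - s3) / 805306368, (s3 - e) / 536870912, e / 536870912] : Fin 6 → ℝ) i := by
    intro i
    fin_cases i <;> simp only [Fin.zero_eta, Fin.mk_one, Fin.reduceFinMk, Matrix.cons_val] <;>
      first | exact div_nonneg (sub_nonneg.2 ‹_›) (by norm_num) | exact div_nonneg ‹_› (by norm_num)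
  have he : ∑ i : Fin 6, (![(s1 - s2) / 1610612736, (s2 - d1) / 805306368, (d1 - d2) / 805306368, (d2 - s3) / 805306368, (s3 - e) / 536870912, e / 536870912] : Fin 6 → ℝ) i •
      wv (gt [v24, v8, v96, v97, v4, v26] i) = ![s1 + d1, s2 + d2, s3 - e, s3 + e, s2 - d2, s1 - d1] := by
    rw [Fin.sum_univ_six]
    have g0 : wv (gt [v24, v8, v96, v97, v4, v26] (((0 : Fin 6)) : ℕ)) = ![1610612736, 0, 0, 0, 0, 1610612736] := wv_v24
    have g1 : wv (gt [v24, v8, v96, v97, v4, v26] (((1 : Fin 6)) : ℕ)) = ![805306368, 805306368, 0, 0, 805306368, 805306368] := wv_v8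
    have g2 : wv (gt [v24, v8, v96, v97, v4, v26] (((2 : Fin 6)) : ℕ)) = ![1610612736, 805306368, 0, 0, 805306368, 0] := wv_v96
    have g3 : wv (gt [v24, v8, v96, v97, v4, v26] (((3 : Fin 6)) : ℕ)) = ![1610612736, 1610612736, 0, 0, 0, 0] := wv_v97
    have g4 : wv (gt [v24, v8, v96, v97, v4, v26] (((4 : Fin 6)) : ℕ)) = ![1073741824, 1073741824, 536870912, 536870912, 0, 0] := wv_v4
    have g5 : wv (gt [v24, v8, v96, v97, v4, v26] (((5 : Fin 6)) : ℕ)) = ![1073741824, 1073741824, 0, 1073741824, 0, 0] := wv_v26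
    rw [g0, g1, g2, g3, g4, g5]
    funext k
    fin_cases k <;> simp <;> ring
  have h := hg _ hl
  rw [he] at h
  exact h hp

lemma root6 {s1 s2 s3 e d1 d2 : ℝ}
    (h0 : s2 ≤ s1) (h1 : d2 ≤ s2) (h2 : s3 ≤ d2) (h3 : d1 ≤ s3) (h4 : e ≤ d1) (h5 : 0 ≤ e)
    (hp : PD ![s1 + d1, s2 + d2, s3 + e, s3 - e, s2 - d2, s1 - d1]) :
    Q 0 ![s1 + d1, s2 + d2, s3 + e, s3 - e, s2 - d2, s1 - d1] := by
  have hg := ch341
  have hl : ∀ i, 0 ≤ (![(s1 - s2) / 1610612736, (s2 - d2) / 805306368, (d2 - s3) / 805306368, (s3 - d1) / 536870912, (d1 - e) / 536870912, e / 536870912] : Fin 6 → ℝ) i := by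
    intro i
    fin_cases i <;> simp only [Fin.zero_eta, Fin.mk_one, Fin.reduceFinMk, Matrix.cons_val] <;>
      first | exact div_nonneg (sub_nonneg.2 ‹_›) (by norm_num) | exact div_nonneg ‹_› (by norm_num)
  have he : ∑ i : Fin 6, (![(s1 - s2) / 1610612736, (s2 - d2) / 805306368, (d2 - s3) / 805306368, (s3 - d1) / 536870912, (d1 - e) / 536870912, e / 536870912] : Fin 6 → ℝ) i •
      wv (gt [v24, v8, v98, v47, v4, v5] i) = ![s1 + d1, s2 + d2, s3 + e, s3 - e, s2 - d2, s1 - d1] := by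
    rw [Fin.sum_univ_six]
    have g0 : wv (gt [v24, v8, v98, v47, v4, v5] (((0 : Fin 6)) : ℕ)) = ![1610612736, 0, 0, 0, 0, 1610612736] := wv_v24
    have g1 : wv (gt [v24, v8, v98, v47, v4, v5] (((1 : Fin 6)) : ℕ)) = ![805306368, 805306368, 0, 0, 805306368, 805306368] := wv_v8
    have g2 : wv (gt [v24, v8, v98, v47, v4, v5] (((2 : Fin 6)) : ℕ)) = ![805306368, 1610612736, 0, 0, 0, 805306368] := wv_v98
    have g3 : wv (gt [v24, v8, v98, v47, v4, v5] (((3 : Fin 6)) : ℕ)) = ![536870912, 1073741824, 536870912, 536870912, 0, 536870912] := wv_v47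
    have g4 : wv (gt [v24, v8, v98, v47, v4, v5] (((4 : Fin 6)) : ℕ)) = ![1073741824, 1073741824, 536870912, 536870912, 0, 0] := wv_v4
    have g5 : wv (gt [v24, v8, v98, v47, v4, v5] (((5 : Fin 6)) : ℕ)) = ![1073741824, 1073741824, 1073741824, 0, 0, 0] := wv_v5
    rw [g0, g1, g2, g3, g4, g5]
    funext k
    fin_cases k <;> simp <;> ring
  have h := hg _ hl
  rw [he] at h
  exact h hp

lemma root7 {s1 s2 s3 e d1 d2 : ℝ}
    (h0 : s2 ≤ s1) (h1 : d2 ≤ s2) (h2 : s3 ≤ d2) (h3 : d1 ≤ s3) (h4 : e ≤ d1) (h5 : 0 ≤ e)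
    (hp : PD ![s1 + d1, s2 + d2, s3 - e, s3 + e, s2 - d2, s1 - d1]) :
    Q 0 ![s1 + d1, s2 + d2, s3 - e, s3 + e, s2 - d2, s1 - d1] := by
  have hg := ch342
  have hl : ∀ i, 0 ≤ (![(s1 - s2) / 1610612736, (s2 - d2) / 805306368, (d2 - s3) / 805306368, (s3 - d1) / 536870912, (d1 - e) / 536870912, e / 536870912] : Fin 6 → ℝ) i := by
    intro i
    fin_cases i <;> simp only [Fin.zero_eta, Fin.mk_one, Fin.reduceFinMk, Matrix.cons_val] <;>
      first | exact div_nonneg (sub_nonneg.2 ‹_›) (by norm_num) | exact div_nonneg ‹_› (by norm_num)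
  have he : ∑ i : Fin 6, (![(s1 - s2) / 1610612736, (s2 - d2) / 805306368, (d2 - s3) / 805306368, (s3 - d1) / 536870912, (d1 - e) / 536870912, e / 536870912] : Fin 6 → ℝ) i •
      wv (gt [v24, v8, v98, v47, v4, v26] i) = ![s1 + d1, s2 + d2, s3 - e, s3 + e, s2 - d2, s1 - d1] := by
    rw [Fin.sum_univ_six]
    have g0 : wv (gt [v24, v8, v98, v47, v4, v26] (((0 : Fin 6)) : ℕ)) = ![1610612736, 0, 0, 0, 0, 1610612736] := wv_v24
    have g1 : wv (gt [v24, v8, v98, v47, v4, v26] (((1 : Fin 6)) : ℕ)) = ![805306368, 805306368, 0, 0, 805306368, 805306368] := wv_v8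
    have g2 : wv (gt [v24, v8, v98, v47, v4, v26] (((2 : Fin 6)) : ℕ)) = ![805306368, 1610612736, 0, 0, 0, 805306368] := wv_v98
    have g3 : wv (gt [v24, v8, v98, v47, v4, v26] (((3 : Fin 6)) : ℕ)) = ![536870912, 1073741824, 536870912, 536870912, 0, 536870912] := wv_v47
    have g4 : wv (gt [v24, v8, v98, v47, v4, v26] (((4 : Fin 6)) : ℕ)) = ![1073741824, 1073741824, 536870912, 536870912, 0, 0] := wv_v4
    have g5 : wv (gt [v24, v8, v98, v47, v4, v26] (((5 : Fin 6)) : ℕ)) = ![1073741824, 1073741824, 0, 1073741824, 0, 0] := wv_v26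
    rw [g0, g1, g2, g3, g4, g5]
    funext k
    fin_cases k <;> simp <;> ring
  have h := hg _ hl
  rw [he] at h
  exact h hp

lemma root8 {s1 s2 s3 e d1 d2 : ℝ}
    (h0 : s2 ≤ s1) (h1 : d2 ≤ s2) (h2 : s3 ≤ d2) (h3 : e ≤ s3) (h4 : d1 ≤ e) (h5 : 0 ≤ d1)
    (hp : PD ![s1 + d1, s2 + d2, s3 + e, s3 - e, s2 - d2, s1 - d1]) :
    Q 0 ![s1 + d1, s2 + d2, s3 + e, s3 - e, s2 - d2, s1 - d1] := by
  have hg := ch343
  have hl : ∀ i, 0 ≤ (![(s1 - s2) / 1610612736, (s2 - d2) / 805306368, (d2 - s3) / 805306368, (s3 - e) / 536870912, (e - d1) / 536870912, d1 / 536870912] : Fin 6 → ℝ) i := by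
    intro i
    fin_cases i <;> simp only [Fin.zero_eta, Fin.mk_one, Fin.reduceFinMk, Matrix.cons_val] <;>
      first | exact div_nonneg (sub_nonneg.2 ‹_›) (by norm_num) | exact div_nonneg ‹_› (by norm_num)
  have he : ∑ i : Fin 6, (![(s1 - s2) / 1610612736, (s2 - d2) / 805306368, (d2 - s3) / 805306368, (s3 - e) / 536870912, (e - d1) / 536870912, d1 / 536870912] : Fin 6 → ℝ) i •
      wv (gt [v24, v8, v98, v47, v56, v5] i) = ![s1 + d1, s2 + d2, s3 + e, s3 - e, s2 - d2, s1 - d1] := by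
    rw [Fin.sum_univ_six]
    have g0 : wv (gt [v24, v8, v98, v47, v56, v5] (((0 : Fin 6)) : ℕ)) = ![1610612736, 0, 0, 0, 0, 1610612736] := wv_v24
    have g1 : wv (gt [v24, v8, v98, v47, v56, v5] (((1 : Fin 6)) : ℕ)) = ![805306368, 805306368, 0, 0, 805306368, 805306368] := wv_v8
    have g2 : wv (gt [v24, v8, v98, v47, v56, v5] (((2 : Fin 6)) : ℕ)) = ![805306368, 1610612736, 0, 0, 0, 805306368] := wv_v98
    have g3 : wv (gt [v24, v8, v98, v47, v56, v5] (((3 : Fin 6)) : ℕ)) = ![536870912, 1073741824, 536870912, 536870912, 0, 536870912] := wv_v47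
    have g4 : wv (gt [v24, v8, v98, v47, v56, v5] (((4 : Fin 6)) : ℕ)) = ![536870912, 1073741824, 1073741824, 0, 0, 536870912] := wv_v56
    have g5 : wv (gt [v24, v8, v98, v47, v56, v5] (((5 : Fin 6)) : ℕ)) = ![1073741824, 1073741824, 1073741824, 0, 0, 0] := wv_v5
    rw [g0, g1, g2, g3, g4, g5]
    funext k
    fin_cases k <;> simp <;> ring
  have h := hg _ hl
  rw [he] at h
  exact h hp

lemma root9 {s1 s2 s3 e d1 d2 : ℝ}
    (h0 : s2 ≤ s1) (h1 : d2 ≤ s2) (h2 : s3 ≤ d2) (h3 : e ≤ s3) (h4 : d1 ≤ e) (h5 : 0 ≤ d1)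
    (hp : PD ![s1 + d1, s2 + d2, s3 - e, s3 + e, s2 - d2, s1 - d1]) :
    Q 0 ![s1 + d1, s2 + d2, s3 - e, s3 + e, s2 - d2, s1 - d1] := by
  have hg := ch344
  have hl : ∀ i, 0 ≤ (![(s1 - s2) / 1610612736, (s2 - d2) / 805306368, (d2 - s3) / 805306368, (s3 - e) / 536870912, (e - d1) / 536870912, d1 / 536870912] : Fin 6 → ℝ) i := by
    intro i
    fin_cases i <;> simp only [Fin.zero_eta, Fin.mk_one, Fin.reduceFinMk, Matrix.cons_val] <;>
      first | exact div_nonneg (sub_nonneg.2 ‹_›) (by norm_num) | exact div_nonneg ‹_› (by norm_num)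
  have he : ∑ i : Fin 6, (![(s1 - s2) / 1610612736, (s2 - d2) / 805306368, (d2 - s3) / 805306368, (s3 - e) / 536870912, (e - d1) / 536870912, d1 / 536870912] : Fin 6 → ℝ) i •
      wv (gt [v24, v8, v98, v47, v60, v26] i) = ![s1 + d1, s2 + d2, s3 - e, s3 + e, s2 - d2, s1 - d1] := by
    rw [Fin.sum_univ_six]
    have g0 : wv (gt [v24, v8, v98, v47, v60, v26] (((0 : Fin 6)) : ℕ)) = ![1610612736, 0, 0, 0, 0, 1610612736] := wv_v24
    have g1 : wv (gt [v24, v8, v98, v47, v60, v26] (((1 : Fin 6)) : ℕ)) = ![805306368, 805306368, 0, 0, 805306368, 805306368] := wv_v8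
    have g2 : wv (gt [v24, v8, v98, v47, v60, v26] (((2 : Fin 6)) : ℕ)) = ![805306368, 1610612736, 0, 0, 0, 805306368] := wv_v98
    have g3 : wv (gt [v24, v8, v98, v47, v60, v26] (((3 : Fin 6)) : ℕ)) = ![536870912, 1073741824, 536870912, 536870912, 0, 536870912] := wv_v47
    have g4 : wv (gt [v24, v8, v98, v47, v60, v26] (((4 : Fin 6)) : ℕ)) = ![536870912, 1073741824, 0, 1073741824, 0, 536870912] := wv_v60
    have g5 : wv (gt [v24, v8, v98, v47, v60, v26] (((5 : Fin 6)) : ℕ)) = ![1073741824, 1073741824, 0, 1073741824, 0, 0] := wv_v26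
    rw [g0, g1, g2, g3, g4, g5]
    funext k
    fin_cases k <;> simp <;> ring
  have h := hg _ hl
  rw [he] at h
  exact h hp

lemma root4 {s1 s2 s3 e d1 d2 : ℝ}
    (h0 : s2 ≤ s1) (h1 : d2 ≤ s2) (h2 : d1 ≤ d2) (h3 : s3 ≤ d1) (h4 : e ≤ s3) (h5 : 0 ≤ e)
    (hp : PD ![s1 + d1, s2 + d2, s3 + e, s3 - e, s2 - d2, s1 - d1]) :
    Q 0 ![s1 + d1, s2 + d2, s3 + e, s3 - e, s2 - d2, s1 - d1] := by
  have hg := ch345
  have hl : ∀ i, 0 ≤ (![(s1 - s2) / 1610612736, (s2 - d2) / 805306368, (d2 - d1) / 805306368, (d1 - s3) / 805306368, (s3 - e) / 536870912, e / 536870912] : Fin 6 → ℝ) i := by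
    intro i
    fin_cases i <;> simp only [Fin.zero_eta, Fin.mk_one, Fin.reduceFinMk, Matrix.cons_val] <;>
      first | exact div_nonneg (sub_nonneg.2 ‹_›) (by norm_num) | exact div_nonneg ‹_› (by norm_num)
  have he : ∑ i : Fin 6, (![(s1 - s2) / 1610612736, (s2 - d2) / 805306368, (d2 - d1) / 805306368, (d1 - s3) / 805306368, (s3 - e) / 536870912, e / 536870912] : Fin 6 → ℝ) i •
      wv (gt [v24, v8, v98, v97, v4, v5] i) = ![s1 + d1, s2 + d2, s3 + e, s3 - e, s2 - d2, s1 - d1] := by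
    rw [Fin.sum_univ_six]
    have g0 : wv (gt [v24, v8, v98, v97, v4, v5] (((0 : Fin 6)) : ℕ)) = ![1610612736, 0, 0, 0, 0, 1610612736] := wv_v24
    have g1 : wv (gt [v24, v8, v98, v97, v4, v5] (((1 : Fin 6)) : ℕ)) = ![805306368, 805306368, 0, 0, 805306368, 805306368] := wv_v8
    have g2 : wv (gt [v24, v8, v98, v97, v4, v5] (((2 : Fin 6)) : ℕ)) = ![805306368, 1610612736, 0, 0, 0, 805306368] := wv_v98
    have g3 : wv (gt [v24, v8, v98, v97, v4, v5] (((3 : Fin 6)) : ℕ)) = ![1610612736, 1610612736, 0, 0, 0, 0] := wv_v97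
    have g4 : wv (gt [v24, v8, v98, v97, v4, v5] (((4 : Fin 6)) : ℕ)) = ![1073741824, 1073741824, 536870912, 536870912, 0, 0] := wv_v4
    have g5 : wv (gt [v24, v8, v98, v97, v4, v5] (((5 : Fin 6)) : ℕ)) = ![1073741824, 1073741824, 1073741824, 0, 0, 0] := wv_v5
    rw [g0, g1, g2, g3, g4, g5]
    funext k
    fin_cases k <;> simp <;> ring
  have h := hg _ hl
  rw [he] at h
  exact h hp

lemma root5 {s1 s2 s3 e d1 d2 : ℝ}
    (h0 : s2 ≤ s1) (h1 : d2 ≤ s2) (h2 : d1 ≤ d2) (h3 : s3 ≤ d1) (h4 : e ≤ s3) (h5 : 0 ≤ e)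
    (hp : PD ![s1 + d1, s2 + d2, s3 - e, s3 + e, s2 - d2, s1 - d1]) :
    Q 0 ![s1 + d1, s2 + d2, s3 - e, s3 + e, s2 - d2, s1 - d1] := by
  have hg := ch346
  have hl : ∀ i, 0 ≤ (![(s1 - s2) / 1610612736, (s2 - d2) / 805306368, (d2 - d1) / 805306368, (d1 - s3) / 805306368, (s3 - e) / 536870912, e / 536870912] : Fin 6 → ℝ) i := by
    intro i
    fin_cases i <;> simp only [Fin.zero_eta, Fin.mk_one, Fin.reduceFinMk, Matrix.cons_val] <;>
      first | exact div_nonneg (sub_nonneg.2 ‹_›) (by norm_num) | exact div_nonneg ‹_› (by norm_num)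
  have he : ∑ i : Fin 6, (![(s1 - s2) / 1610612736, (s2 - d2) / 805306368, (d2 - d1) / 805306368, (d1 - s3) / 805306368, (s3 - e) / 536870912, e / 536870912] : Fin 6 → ℝ) i •
      wv (gt [v24, v8, v98, v97, v4, v26] i) = ![s1 + d1, s2 + d2, s3 - e, s3 + e, s2 - d2, s1 - d1] := by
    rw [Fin.sum_univ_six]
    have g0 : wv (gt [v24, v8, v98, v97, v4, v26] (((0 : Fin 6)) : ℕ)) = ![1610612736, 0, 0, 0, 0, 1610612736] := wv_v24
    have g1 : wv (gt [v24, v8, v98, v97, v4, v26] (((1 : Fin 6)) : ℕ)) = ![805306368, 805306368, 0, 0, 805306368, 805306368] := wv_v8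
    have g2 : wv (gt [v24, v8, v98, v97, v4, v26] (((2 : Fin 6)) : ℕ)) = ![805306368, 1610612736, 0, 0, 0, 805306368] := wv_v98
    have g3 : wv (gt [v24, v8, v98, v97, v4, v26] (((3 : Fin 6)) : ℕ)) = ![1610612736, 1610612736, 0, 0, 0, 0] := wv_v97
    have g4 : wv (gt [v24, v8, v98, v97, v4, v26] (((4 : Fin 6)) : ℕ)) = ![1073741824, 1073741824, 536870912, 536870912, 0, 0] := wv_v4
    have g5 : wv (gt [v24, v8, v98, v97, v4, v26] (((5 : Fin 6)) : ℕ)) = ![1073741824, 1073741824, 0, 1073741824, 0, 0] := wv_v26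
    rw [g0, g1, g2, g3, g4, g5]
    funext k
    fin_cases k <;> simp <;> ring
  have h := hg _ hl
  rw [he] at h
  exact h hp

lemma root10 {s1 s2 s3 e d1 d2 : ℝ}
    (h0 : d1 ≤ s1) (h1 : s2 ≤ d1) (h2 : s3 ≤ s2) (h3 : d2 ≤ s3) (h4 : e ≤ d2) (h5 : 0 ≤ e)
    (hp : PD ![s1 + d1, s2 + d2, s3 + e, s3 - e, s2 - d2, s1 - d1]) :
    Q 0 ![s1 + d1, s2 + d2, s3 + e, s3 - e, s2 - d2, s1 - d1] := by
  have hg := ch347
  have hl : ∀ i, 0 ≤ (![(s1 - d1) / 1610612736, (d1 - s2) / 1610612736, (s2 - s3) / 805306368, (s3 - d2) / 536870912, (d2 - e) / 536870912, e / 536870912] : Fin 6 → ℝ) i := by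
    intro i
    fin_cases i <;> simp only [Fin.zero_eta, Fin.mk_one, Fin.reduceFinMk, Matrix.cons_val] <;>
      first | exact div_nonneg (sub_nonneg.2 ‹_›) (by norm_num) | exact div_nonneg ‹_› (by norm_num)
  have he : ∑ i : Fin 6, (![(s1 - d1) / 1610612736, (d1 - s2) / 1610612736, (s2 - s3) / 805306368, (s3 - d2) / 536870912, (d2 - e) / 536870912, e / 536870912] : Fin 6 → ℝ) i •
      wv (gt [v24, v99, v96, v3, v4, v5] i) = ![s1 + d1, s2 + d2, s3 + e, s3 - e, s2 - d2, s1 - d1] := by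
    rw [Fin.sum_univ_six]
    have g0 : wv (gt [v24, v99, v96, v3, v4, v5] (((0 : Fin 6)) : ℕ)) = ![1610612736, 0, 0, 0, 0, 1610612736] := wv_v24
    have g1 : wv (gt [v24, v99, v96, v3, v4, v5] (((1 : Fin 6)) : ℕ)) = ![3221225472, 0, 0, 0, 0, 0] := wv_v99
    have g2 : wv (gt [v24, v99, v96, v3, v4, v5] (((2 : Fin 6)) : ℕ)) = ![1610612736, 805306368, 0, 0, 805306368, 0] := wv_v96
    have g3 : wv (gt [v24, v99, v96, v3, v4, v5] (((3 : Fin 6)) : ℕ)) = ![1073741824, 536870912, 536870912, 536870912, 536870912, 0] := wv_v3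
    have g4 : wv (gt [v24, v99, v96, v3, v4, v5] (((4 : Fin 6)) : ℕ)) = ![1073741824, 1073741824, 536870912, 536870912, 0, 0] := wv_v4
    have g5 : wv (gt [v24, v99, v96, v3, v4, v5] (((5 : Fin 6)) : ℕ)) = ![1073741824, 1073741824, 1073741824, 0, 0, 0] := wv_v5
    rw [g0, g1, g2, g3, g4, g5]
    funext k
    fin_cases k <;> simp <;> ring
  have h := hg _ hl
  rw [he] at h
  exact h hp

lemma root11 {s1 s2 s3 e d1 d2 : ℝ}
    (h0 : d1 ≤ s1) (h1 : s2 ≤ d1) (h2 : s3 ≤ s2) (h3 : d2 ≤ s3) (h4 : e ≤ d2) (h5 : 0 ≤ e)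
    (hp : PD ![s1 + d1, s2 + d2, s3 - e, s3 + e, s2 - d2, s1 - d1]) :
    Q 0 ![s1 + d1, s2 + d2, s3 - e, s3 + e, s2 - d2, s1 - d1] := by
  have hg := ch348
  have hl : ∀ i, 0 ≤ (![(s1 - d1) / 1610612736, (d1 - s2) / 1610612736, (s2 - s3) / 805306368, (s3 - d2) / 536870912, (d2 - e) / 536870912, e / 536870912] : Fin 6 → ℝ) i := by
    intro i
    fin_cases i <;> simp only [Fin.zero_eta, Fin.mk_one, Fin.reduceFinMk, Matrix.cons_val] <;>
      first | exact div_nonneg (sub_nonneg.2 ‹_›) (by norm_num) | exact div_nonneg ‹_› (by norm_num)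
  have he : ∑ i : Fin 6, (![(s1 - d1) / 1610612736, (d1 - s2) / 1610612736, (s2 - s3) / 805306368, (s3 - d2) / 536870912, (d2 - e) / 536870912, e / 536870912] : Fin 6 → ℝ) i •
      wv (gt [v24, v99, v96, v3, v4, v26] i) = ![s1 + d1, s2 + d2, s3 - e, s3 + e, s2 - d2, s1 - d1] := by
    rw [Fin.sum_univ_six]
    have g0 : wv (gt [v24, v99, v96, v3, v4, v26] (((0 : Fin 6)) : ℕ)) = ![1610612736, 0, 0, 0, 0, 1610612736] := wv_v24
    have g1 : wv (gt [v24, v99, v96, v3, v4, v26] (((1 : Fin 6)) : ℕ)) = ![3221225472, 0, 0, 0, 0, 0] := wv_v99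
    have g2 : wv (gt [v24, v99, v96, v3, v4, v26] (((2 : Fin 6)) : ℕ)) = ![1610612736, 805306368, 0, 0, 805306368, 0] := wv_v96
    have g3 : wv (gt [v24, v99, v96, v3, v4, v26] (((3 : Fin 6)) : ℕ)) = ![1073741824, 536870912, 536870912, 536870912, 536870912, 0] := wv_v3
    have g4 : wv (gt [v24, v99, v96, v3, v4, v26] (((4 : Fin 6)) : ℕ)) = ![1073741824, 1073741824, 536870912, 536870912, 0, 0] := wv_v4
    have g5 : wv (gt [v24, v99, v96, v3, v4, v26] (((5 : Fin 6)) : ℕ)) = ![1073741824, 1073741824, 0, 1073741824, 0, 0] := wv_v26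
    rw [g0, g1, g2, g3, g4, g5]
    funext k
    fin_cases k <;> simp <;> ring
  have h := hg _ hl
  rw [he] at h
  exact h hp

lemma root20 {s1 s2 s3 e d1 d2 : ℝ}
    (h0 : d1 ≤ s1) (h1 : s2 ≤ d1) (h2 : s3 ≤ s2) (h3 : e ≤ s3) (h4 : d2 ≤ e) (h5 : 0 ≤ d2)
    (hp : PD ![s1 + d1, s2 + d2, s3 + e, s3 - e, s2 - d2, s1 - d1]) :
    Q 0 ![s1 + d1, s2 + d2, s3 + e, s3 - e, s2 - d2, s1 - d1] := by
  have hg := ch349
  have hl : ∀ i, 0 ≤ (![(s1 - d1) / 1610612736, (d1 - s2) / 1610612736, (s2 - s3) / 805306368, (s3 - e) / 536870912, (e - d2) / 536870912, d2 / 536870912] : Fin 6 → ℝ) i := by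
    intro i
    fin_cases i <;> simp only [Fin.zero_eta, Fin.mk_one, Fin.reduceFinMk, Matrix.cons_val] <;>
      first | exact div_nonneg (sub_nonneg.2 ‹_›) (by norm_num) | exact div_nonneg ‹_› (by norm_num)
  have he : ∑ i : Fin 6, (![(s1 - d1) / 1610612736, (d1 - s2) / 1610612736, (s2 - s3) / 805306368, (s3 - e) / 536870912, (e - d2) / 536870912, d2 / 536870912] : Fin 6 → ℝ) i •
      wv (gt [v24, v99, v96, v3, v33, v5] i) = ![s1 + d1, s2 + d2, s3 + e, s3 - e, s2 - d2, s1 - d1] := by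
    rw [Fin.sum_univ_six]
    have g0 : wv (gt [v24, v99, v96, v3, v33, v5] (((0 : Fin 6)) : ℕ)) = ![1610612736, 0, 0, 0, 0, 1610612736] := wv_v24
    have g1 : wv (gt [v24, v99, v96, v3, v33, v5] (((1 : Fin 6)) : ℕ)) = ![3221225472, 0, 0, 0, 0, 0] := wv_v99
    have g2 : wv (gt [v24, v99, v96, v3, v33, v5] (((2 : Fin 6)) : ℕ)) = ![1610612736, 805306368, 0, 0, 805306368, 0] := wv_v96
    have g3 : wv (gt [v24, v99, v96, v3, v33, v5] (((3 : Fin 6)) : ℕ)) = ![1073741824, 536870912, 536870912, 536870912, 536870912, 0] := wv_v3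
    have g4 : wv (gt [v24, v99, v96, v3, v33, v5] (((4 : Fin 6)) : ℕ)) = ![1073741824, 536870912, 1073741824, 0, 536870912, 0] := wv_v33
    have g5 : wv (gt [v24, v99, v96, v3, v33, v5] (((5 : Fin 6)) : ℕ)) = ![1073741824, 1073741824, 1073741824, 0, 0, 0] := wv_v5
    rw [g0, g1, g2, g3, g4, g5]
    funext k
    fin_cases k <;> simp <;> ring
  have h := hg _ hl
  rw [he] at h
  exact h hp

lemma root21 {s1 s2 s3 e d1 d2 : ℝ}
    (h0 : d1 ≤ s1) (h1 : s2 ≤ d1) (h2 : s3 ≤ s2) (h3 : e ≤ s3) (h4 : d2 ≤ e) (h5 : 0 ≤ d2)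
    (hp : PD ![s1 + d1, s2 + d2, s3 - e, s3 + e, s2 - d2, s1 - d1]) :
    Q 0 ![s1 + d1, s2 + d2, s3 - e, s3 + e, s2 - d2, s1 - d1] := by
  have hg := ch350
  have hl : ∀ i, 0 ≤ (![(s1 - d1) / 1610612736, (d1 - s2) / 1610612736, (s2 - s3) / 805306368, (s3 - e) / 536870912, (e - d2) / 536870912, d2 / 536870912] : Fin 6 → ℝ) i := by
    intro i
    fin_cases i <;> simp only [Fin.zero_eta, Fin.mk_one, Fin.reduceFinMk, Matrix.cons_val] <;>
      first | exact div_nonneg (sub_nonneg.2 ‹_›) (by norm_num) | exact div_nonneg ‹_› (by norm_num)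
  have he : ∑ i : Fin 6, (![(s1 - d1) / 1610612736, (d1 - s2) / 1610612736, (s2 - s3) / 805306368, (s3 - e) / 536870912, (e - d2) / 536870912, d2 / 536870912] : Fin 6 → ℝ) i •
      wv (gt [v24, v99, v96, v3, v38, v26] i) = ![s1 + d1, s2 + d2, s3 - e, s3 + e, s2 - d2, s1 - d1] := by
    rw [Fin.sum_univ_six]
    have g0 : wv (gt [v24, v99, v96, v3, v38, v26] (((0 : Fin 6)) : ℕ)) = ![1610612736, 0, 0, 0, 0, 1610612736] := wv_v24
    have g1 : wv (gt [v24, v99, v96, v3, v38, v26] (((1 : Fin 6)) : ℕ)) = ![3221225472, 0, 0, 0, 0, 0] := wv_v99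
    have g2 : wv (gt [v24, v99, v96, v3, v38, v26] (((2 : Fin 6)) : ℕ)) = ![1610612736, 805306368, 0, 0, 805306368, 0] := wv_v96
    have g3 : wv (gt [v24, v99, v96, v3, v38, v26] (((3 : Fin 6)) : ℕ)) = ![1073741824, 536870912, 536870912, 536870912, 536870912, 0] := wv_v3
    have g4 : wv (gt [v24, v99, v96, v3, v38, v26] (((4 : Fin 6)) : ℕ)) = ![1073741824, 536870912, 0, 1073741824, 536870912, 0] := wv_v38
    have g5 : wv (gt [v24, v99, v96, v3, v38, v26] (((5 : Fin 6)) : ℕ)) = ![1073741824, 1073741824, 0, 1073741824, 0, 0] := wv_v26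
    rw [g0, g1, g2, g3, g4, g5]
    funext k
    fin_cases k <;> simp <;> ring
  have h := hg _ hl
  rw [he] at h
  exact h hp

lemma root0 {s1 s2 s3 e d1 d2 : ℝ}
    (h0 : d1 ≤ s1) (h1 : s2 ≤ d1) (h2 : d2 ≤ s2) (h3 : s3 ≤ d2) (h4 : e ≤ s3) (h5 : 0 ≤ e)
    (hp : PD ![s1 + d1, s2 + d2, s3 + e, s3 - e, s2 - d2, s1 - d1]) :
    Q 0 ![s1 + d1, s2 + d2, s3 + e, s3 - e, s2 - d2, s1 - d1] := by
  have hg := ch351
  have hl : ∀ i, 0 ≤ (![(s1 - d1) / 1610612736, (d1 - s2) / 1610612736, (s2 - d2) / 805306368, (d2 - s3) / 805306368, (s3 - e) / 536870912, e / 536870912] : Fin 6 → ℝ) i := by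
    intro i
    fin_cases i <;> simp only [Fin.zero_eta, Fin.mk_one, Fin.reduceFinMk, Matrix.cons_val] <;>
      first | exact div_nonneg (sub_nonneg.2 ‹_›) (by norm_num) | exact div_nonneg ‹_› (by norm_num)
  have he : ∑ i : Fin 6, (![(s1 - d1) / 1610612736, (d1 - s2) / 1610612736, (s2 - d2) / 805306368, (d2 - s3) / 805306368, (s3 - e) / 536870912, e / 536870912] : Fin 6 → ℝ) i •
      wv (gt [v24, v99, v96, v97, v4, v5] i) = ![s1 + d1, s2 + d2, s3 + e, s3 - e, s2 - d2, s1 - d1] := by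
    rw [Fin.sum_univ_six]
    have g0 : wv (gt [v24, v99, v96, v97, v4, v5] (((0 : Fin 6)) : ℕ)) = ![1610612736, 0, 0, 0, 0, 1610612736] := wv_v24
    have g1 : wv (gt [v24, v99, v96, v97, v4, v5] (((1 : Fin 6)) : ℕ)) = ![3221225472, 0, 0, 0, 0, 0] := wv_v99
    have g2 : wv (gt [v24, v99, v96, v97, v4, v5] (((2 : Fin 6)) : ℕ)) = ![1610612736, 805306368, 0, 0, 805306368, 0] := wv_v96
    have g3 : wv (gt [v24, v99, v96, v97, v4, v5] (((3 : Fin 6)) : ℕ)) = ![1610612736, 1610612736, 0, 0, 0, 0] := wv_v97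
    have g4 : wv (gt [v24, v99, v96, v97, v4, v5] (((4 : Fin 6)) : ℕ)) = ![1073741824, 1073741824, 536870912, 536870912, 0, 0] := wv_v4
    have g5 : wv (gt [v24, v99, v96, v97, v4, v5] (((5 : Fin 6)) : ℕ)) = ![1073741824, 1073741824, 1073741824, 0, 0, 0] := wv_v5
    rw [g0, g1, g2, g3, g4, g5]
    funext k
    fin_cases k <;> simp <;> ring
  have h := hg _ hl
  rw [he] at h
  exact h hp

lemma root1 {s1 s2 s3 e d1 d2 : ℝ}
    (h0 : d1 ≤ s1) (h1 : s2 ≤ d1) (h2 : d2 ≤ s2) (h3 : s3 ≤ d2) (h4 : e ≤ s3) (h5 : 0 ≤ e)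
    (hp : PD ![s1 + d1, s2 + d2, s3 - e, s3 + e, s2 - d2, s1 - d1]) :
    Q 0 ![s1 + d1, s2 + d2, s3 - e, s3 + e, s2 - d2, s1 - d1] := by
  have hg := ch352
  have hl : ∀ i, 0 ≤ (![(s1 - d1) / 1610612736, (d1 - s2) / 1610612736, (s2 - d2) / 805306368, (d2 - s3) / 805306368, (s3 - e) / 536870912, e / 536870912] : Fin 6 → ℝ) i := by
    intro i
    fin_cases i <;> simp only [Fin.zero_eta, Fin.mk_one, Fin.reduceFinMk, Matrix.cons_val] <;>
      first | exact div_nonneg (sub_nonneg.2 ‹_›) (by norm_num) | exact div_nonneg ‹_› (by norm_num)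
  have he : ∑ i : Fin 6, (![(s1 - d1) / 1610612736, (d1 - s2) / 1610612736, (s2 - d2) / 805306368, (d2 - s3) / 805306368, (s3 - e) / 536870912, e / 536870912] : Fin 6 → ℝ) i •
      wv (gt [v24, v99, v96, v97, v4, v26] i) = ![s1 + d1, s2 + d2, s3 - e, s3 + e, s2 - d2, s1 - d1] := by
    rw [Fin.sum_univ_six]
    have g0 : wv (gt [v24, v99, v96, v97, v4, v26] (((0 : Fin 6)) : ℕ)) = ![1610612736, 0, 0, 0, 0, 1610612736] := wv_v24
    have g1 : wv (gt [v24, v99, v96, v97, v4, v26] (((1 : Fin 6)) : ℕ)) = ![3221225472, 0, 0, 0, 0, 0] := wv_v99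
    have g2 : wv (gt [v24, v99, v96, v97, v4, v26] (((2 : Fin 6)) : ℕ)) = ![1610612736, 805306368, 0, 0, 805306368, 0] := wv_v96
    have g3 : wv (gt [v24, v99, v96, v97, v4, v26] (((3 : Fin 6)) : ℕ)) = ![1610612736, 1610612736, 0, 0, 0, 0] := wv_v97
    have g4 : wv (gt [v24, v99, v96, v97, v4, v26] (((4 : Fin 6)) : ℕ)) = ![1073741824, 1073741824, 536870912, 536870912, 0, 0] := wv_v4
    have g5 : wv (gt [v24, v99, v96, v97, v4, v26] (((5 : Fin 6)) : ℕ)) = ![1073741824, 1073741824, 0, 1073741824, 0, 0] := wv_v26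
    rw [g0, g1, g2, g3, g4, g5]
    funext k
    fin_cases k <;> simp <;> ring
  have h := hg _ hl
  rw [he] at h
  exact h hp

/-- the theta inequality on the reduced cone -/
theorem cone_all {s1 s2 s3 d3 d1 d2 : ℝ} (h12 : s2 ≤ s1) (h23 : s3 ≤ s2)
    (h3 : d3 ≤ s3) (h3' : -d3 ≤ s3) (p1 : 0 ≤ d1) (h1 : d1 ≤ s1) (p2 : 0 ≤ d2) (h2 : d2 ≤ s2)
    (hp : PD ![s1 + d1, s2 + d2, s3 + d3, s3 - d3, s2 - d2, s1 - d1]) :
    Q 0 ![s1 + d1, s2 + d2, s3 + d3, s3 - d3, s2 - d2, s1 - d1] := by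
  rcases le_total 0 d3 with p3 | p3
  · have pe := p3
    have h3e := h3
    rcases le_total s3 d2 with t1 | t1
    ·
      rcases le_total s2 d1 with q1 | q1
      ·
        exact root0 h1 q1 h2 t1 h3e pe hp
      ·
        rcases le_total d2 d1 with q2 | q2
        ·
          exact root2 h12 q1 q2 t1 h3e pe hp
        ·
          rcases le_total s3 d1 with q3 | q3
          ·
            exact root4 h12 h2 q2 q3 h3e pe hp
          ·
            rcases le_total d3 d1 with q4 | q4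
            ·
              exact root6 h12 h2 t1 q3 q4 pe hp
            ·
              exact root8 h12 h2 t1 h3e q4 p1 hp
    · rcases le_total d3 d2 with t2 | t2
      ·
        rcases le_total s2 d1 with q1 | q1
        ·
          exact root10 h1 q1 h23 t1 t2 pe hp
        ·
          rcases le_total s3 d1 with q2 | q2
          ·
            exact root12 h12 q1 q2 t1 t2 pe hp
          ·
            rcases le_total d2 d1 with q3 | q3
            ·
              exact root14 h12 h23 q2 q3 t2 pe hp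
            ·
              rcases le_total d3 d1 with q4 | q4
              ·
                exact root16 h12 h23 t1 q3 q4 pe hp
              ·
                exact root18 h12 h23 t1 t2 q4 p1 hp
      ·
        rcases le_total s2 d1 with q1 | q1
        ·
          exact root20 h1 q1 h23 h3e t2 p2 hp
        ·
          rcases le_total s3 d1 with q2 | q2
          ·
            exact root22 h12 q1 q2 h3e t2 p2 hp
          ·
            rcases le_total d3 d1 with q3 | q3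
            ·
              exact root24 h12 h23 q2 q3 t2 p2 hp
            ·
              rcases le_total d2 d1 with q4 | q4
              ·
                exact root26 h12 h23 h3e q3 q4 p2 hp
              ·
                exact root28 h12 h23 h3e t2 q4 p1 hp
  · obtain ⟨e, he⟩ : ∃ e, e = -d3 := ⟨_, rfl⟩
    have hd : d3 = -e := by rw [he, neg_neg]
    rw [hd] at hp ⊢
    have pe : 0 ≤ e := by rw [he]; linarith
    have h3e : e ≤ s3 := by rw [he]; exact h3'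
    rw [← sub_eq_add_neg, sub_neg_eq_add] at hp ⊢
    rcases le_total s3 d2 with t1 | t1
    ·
      rcases le_total s2 d1 with q1 | q1
      ·
        exact root1 h1 q1 h2 t1 h3e pe hp
      ·
        rcases le_total d2 d1 with q2 | q2
        ·
          exact root3 h12 q1 q2 t1 h3e pe hp
        ·
          rcases le_total s3 d1 with q3 | q3
          ·
            exact root5 h12 h2 q2 q3 h3e pe hp
          ·
            rcases le_total e d1 with q4 | q4
            ·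
              exact root7 h12 h2 t1 q3 q4 pe hp
            ·
              exact root9 h12 h2 t1 h3e q4 p1 hp
    · rcases le_total e d2 with t2 | t2
      ·
        rcases le_total s2 d1 with q1 | q1
        ·
          exact root11 h1 q1 h23 t1 t2 pe hp
        ·
          rcases le_total s3 d1 with q2 | q2
          ·
            exact root13 h12 q1 q2 t1 t2 pe hp
          ·
            rcases le_total d2 d1 with q3 | q3
            ·
              exact root15 h12 h23 q2 q3 t2 pe hp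
            ·
              rcases le_total e d1 with q4 | q4
              ·
                exact root17 h12 h23 t1 q3 q4 pe hp
              ·
                exact root19 h12 h23 t1 t2 q4 p1 hp
      ·
        rcases le_total s2 d1 with q1 | q1
        ·
          exact root21 h1 q1 h23 h3e t2 p2 hp
        ·
          rcases le_total s3 d1 with q2 | q2
          ·
            exact root23 h12 q1 q2 h3e t2 p2 hp
          ·
            rcases le_total e d1 with q3 | q3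
            ·
              exact root25 h12 h23 q2 q3 t2 p2 hp
            ·
              rcases le_total d2 d1 with q4 | q4
              ·
                exact root27 h12 h23 h3e q3 q4 p2 hp
              ·
                exact root29 h12 h23 h3e t2 q4 p1 hp

end Pool.Agent.U316.Th
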