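import Pool.Agent.K1H99.FCC.Snd
import Pool.Agent.U316.Th.Chk

/-!
# Soundness of the checker: packing and splitting
-/

set_option autoImplicit false

open Matrix Pool.Agent.K1H99.FCC

namespace Pool.Agent.U316.Th

/-- the base of the packing -/
def XX : ℕ := 79228162514264337593543950336

/-- the digits of a packed vector -/
def dg (S : ℕ) : Fin 6 → ℕ := upk S (fun a b c d e f => ![a, b, c, d, e, f])

/-- the parameters of a vertex -/
def cw (W : ℕ) : Fin 6 → ℕ := dg (W / XX)

/-- the root bound of a vertex -/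
def gw (W : ℕ) : ℕ := W % XX

/-- the real parameters of a vertex -/
def wv (W : ℕ) : Fin 6 → ℝ := fun i => (cw W i : ℝ)

/-- validity of a vertex -/
def Vd (W : ℕ) : Prop := (∀ i, cw W i < 2 ^ 40) ∧ gw W < 2 ^ 40 ∧
  gw W * gw W * gw W ≤ detN (cw W 0) (cw W 1) (cw W 2) (cw W 3) (cw W 4) (cw W 5)

lemma upk_eq {α : Type} (S : ℕ) (k : ℕ → ℕ → ℕ → ℕ → ℕ → ℕ → α) :
    upk S k = k (dg S 0) (dg S 1) (dg S 2) (dg S 3) (dg S 4) (dg S 5) := by
  unfold dg upk
  simp only [frc_eq]
  rfl

lemma pk_eq (a b c d e f : ℕ) : pk a b c d e f =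
    a + XX * (b + XX * (c + XX * (d + XX * (e + XX * f)))) := rfl

lemma pk_dg (S : ℕ) : pk (dg S 0) (dg S 1) (dg S 2) (dg S 3) (dg S 4) (dg S 5) = S := by
  have h : ∀ S : ℕ, S % XX + XX * (S / XX) = S := fun S => Nat.mod_add_div S XX
  rw [pk_eq]
  have e0 : dg S 0 = S % XX := by unfold dg upk; simp only [frc_eq]; rfl
  have e1 : dg S 1 = S / XX % XX := by unfold dg upk; simp only [frc_eq]; rfl
  have e2 : dg S 2 = S / XX / XX % XX := by unfold dg upk; simp only [frc_eq]; rfl
  have e3 : dg S 3 = S / XX / XX / XX % XX := by unfold dg upk; simp only [frc_eq]; rfl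
  have e4 : dg S 4 = S / XX / XX / XX / XX % XX := by unfold dg upk; simp only [frc_eq]; rfl
  have e5 : dg S 5 = S / XX / XX / XX / XX / XX := by unfold dg upk; simp only [frc_eq]; rfl
  rw [e0, e1, e2, e3, e4, e5, h, h, h, h, h]

lemma dg_pk {a b c d e f : ℕ} (ha : a < XX) (hb : b < XX) (hc : c < XX) (hd : d < XX)
    (he : e < XX) : dg (pk a b c d e f) = ![a, b, c, d, e, f] := by
  have hX : 0 < XX := by unfold XX; norm_num
  have m : ∀ x r : ℕ, x < XX → (x + XX * r) % XX = x := by
    intro x r hx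
    rw [Nat.add_mul_mod_self_left, Nat.mod_eq_of_lt hx]
  have q : ∀ x r : ℕ, x < XX → (x + XX * r) / XX = r := by
    intro x r hx
    rw [Nat.add_mul_div_left _ _ hX, Nat.div_eq_of_lt hx, zero_add]
  rw [pk_eq]
  unfold dg upk
  simp only [frc_eq]
  change ![_ % XX, _ / XX % XX, _ / XX / XX % XX, _ / XX / XX / XX % XX,
    _ / XX / XX / XX / XX % XX, _ / XX / XX / XX / XX / XX] = _
  rw [q _ _ ha, q _ _ hb, q _ _ hc, q _ _ hd, q _ _ he, m _ _ ha, m _ _ hb, m _ _ hc, m _ _ hd,
    m _ _ he]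

lemma lt40 {x : ℕ} (h : x < 2 ^ 41) : x < XX := by
  unfold XX
  omega

lemma mid2_spec {v w g : ℕ} {k : ℕ → ℕ} (hv : Vd v) (hw : Vd w) (hg : g < 2 ^ 40)
    (h : mid2 v w g k ≠ 0) :
    ∃ m, Vd m ∧ (2:ℝ) • wv m = wv v + wv w ∧ mid2 v w g k = k m := by
  obtain ⟨hv1, hv2, hv3⟩ := hv
  obtain ⟨hw1, hw2, hw3⟩ := hw
  have hX : 0 < XX := by unfold XX; norm_num
  have hS : v / XX + w / XX = pk (cw v 0 + cw w 0) (cw v 1 + cw w 1) (cw v 2 + cw w 2)
      (cw v 3 + cw w 3) (cw v 4 + cw w 4) (cw v 5 + cw w 5) := by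
    have e1 := pk_dg (v / XX)
    have e2 := pk_dg (w / XX)
    rw [pk_eq] at e1 e2 ⊢
    rw [← e1, ← e2]
    unfold cw
    rw [← pk_eq, ← pk_eq, pk_dg, pk_dg]
    rw [← pk_dg (v / XX), ← pk_dg (w / XX), pk_dg, pk_dg]
    conv_lhs => rw [← pk_dg (v / XX), ← pk_dg (w / XX)]
    rw [pk_eq, pk_eq]
    ring
  have hd : dg (v / XX + w / XX) = ![cw v 0 + cw w 0, cw v 1 + cw w 1, cw v 2 + cw w 2,
      cw v 3 + cw w 3, cw v 4 + cw w 4, cw v 5 + cw w 5] := by
    rw [hS]
    have a0 := hv1 0; have a1 := hv1 1; have a2 := hv1 2; have a3 := hv1 3; have a4 := hv1 4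
    have b0 := hw1 0; have b1 := hw1 1; have b2 := hw1 2; have b3 := hw1 3; have b4 := hw1 4
    exact dg_pk (lt40 (by omega)) (lt40 (by omega)) (lt40 (by omega)) (lt40 (by omega))
      (lt40 (by omega))
  have hk : mid2 v w g k =
      bif Nat.beq (Nat.mul 2 (pk ((cw v 0 + cw w 0) / 2) ((cw v 1 + cw w 1) / 2)
        ((cw v 2 + cw w 2) / 2) ((cw v 3 + cw w 3) / 2) ((cw v 4 + cw w 4) / 2)
        ((cw v 5 + cw w 5) / 2))) (v / XX + w / XX) then
      bif Nat.ble (Nat.mul (Nat.mul g g) g) (detN ((cw v 0 + cw w 0) / 2) ((cw v 1 + cw w 1) / 2)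
        ((cw v 2 + cw w 2) / 2) ((cw v 3 + cw w 3) / 2) ((cw v 4 + cw w 4) / 2)
        ((cw v 5 + cw w 5) / 2)) then
        k (g + XX * pk ((cw v 0 + cw w 0) / 2) ((cw v 1 + cw w 1) / 2)
        ((cw v 2 + cw w 2) / 2) ((cw v 3 + cw w 3) / 2) ((cw v 4 + cw w 4) / 2)
        ((cw v 5 + cw w 5) / 2)) else 0 else 0 := by
    unfold mid2
    simp only [frc_eq, upk_eq]
    change (bif Nat.beq (Nat.mul 2 (pk (dg (v / XX + w / XX) 0 / 2) (dg (v / XX + w / XX) 1 / 2)
      (dg (v / XX + w / XX) 2 / 2) (dg (v / XX + w / XX) 3 / 2) (dg (v / XX + w / XX) 4 / 2)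
      (dg (v / XX + w / XX) 5 / 2))) (v / XX + w / XX) then
      bif Nat.ble (Nat.mul (Nat.mul g g) g) (detN (dg (v / XX + w / XX) 0 / 2)
      (dg (v / XX + w / XX) 1 / 2)
      (dg (v / XX + w / XX) 2 / 2) (dg (v / XX + w / XX) 3 / 2) (dg (v / XX + w / XX) 4 / 2)
      (dg (v / XX + w / XX) 5 / 2)) then
      k (g + XX * pk (dg (v / XX + w / XX) 0 / 2) (dg (v / XX + w / XX) 1 / 2)
      (dg (v / XX + w / XX) 2 / 2) (dg (v / XX + w / XX) 3 / 2) (dg (v / XX + w / XX) 4 / 2)
      (dg (v / XX + w / XX) 5 / 2)) else 0 else 0) = _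
    rw [hd]
    rfl
  rw [hk] at h ⊢
  have a0 := hv1 0; have a1 := hv1 1; have a2 := hv1 2; have a3 := hv1 3; have a4 := hv1 4
  have a5 := hv1 5
  have b0 := hw1 0; have b1 := hw1 1; have b2 := hw1 2; have b3 := hw1 3; have b4 := hw1 4
  have b5 := hw1 5
  clear hk
  generalize x0 : cw v 0 + cw w 0 = s0 at *
  generalize x1 : cw v 1 + cw w 1 = s1 at *
  generalize x2 : cw v 2 + cw w 2 = s2 at *
  generalize x3 : cw v 3 + cw w 3 = s3 at *
  generalize x4 : cw v 4 + cw w 4 = s4 at *
  generalize x5 : cw v 5 + cw w 5 = s5 at *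
  cases h1 : Nat.beq (Nat.mul 2 (pk (s0 / 2) (s1 / 2) (s2 / 2) (s3 / 2) (s4 / 2) (s5 / 2)))
    (v / XX + w / XX) with
  | false => rw [h1] at h; exact absurd rfl h
  | true =>
    rw [h1] at h
    cases h2 : Nat.ble (Nat.mul (Nat.mul g g) g) (detN (s0 / 2) (s1 / 2) (s2 / 2) (s3 / 2)
      (s4 / 2) (s5 / 2)) with
    | false => rw [h2] at h; exact absurd rfl h
    | true =>
      have h1' := Nat.eq_of_beq_eq_true h1
      have h2' := Nat.le_of_ble_eq_true h2
      have h3 : pk (2 * (s0 / 2)) (2 * (s1 / 2)) (2 * (s2 / 2)) (2 * (s3 / 2)) (2 * (s4 / 2))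
          (2 * (s5 / 2)) = v / XX + w / XX := by
        rw [← h1']
        show _ = 2 * pk _ _ _ _ _ _
        rw [pk_eq, pk_eq]
        ring
      have h4 := congrArg dg h3
      rw [hd, dg_pk (lt40 (by omega)) (lt40 (by omega)) (lt40 (by omega)) (lt40 (by omega))
        (lt40 (by omega))] at h4
      have q0 := congrFun h4 0
      have q1 := congrFun h4 1
      have q2 := congrFun h4 2
      have q3 := congrFun h4 3
      have q4 := congrFun h4 4
      have q5 := congrFun h4 5
      simp only [Matrix.cons_val] at q0 q1 q2 q3 q4 q5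
      set M := pk (s0 / 2) (s1 / 2) (s2 / 2) (s3 / 2) (s4 / 2) (s5 / 2) with hM
      have g1 : g < XX := lt40 (by omega)
      have e1 : (g + XX * M) / XX = M := by
        rw [Nat.add_mul_div_left _ _ hX, Nat.div_eq_of_lt g1, zero_add]
      have e2 : (g + XX * M) % XX = g := by
        rw [Nat.add_mul_mod_self_left, Nat.mod_eq_of_lt g1]
      have e3 : cw (g + XX * M) = ![s0 / 2, s1 / 2, s2 / 2, s3 / 2, s4 / 2, s5 / 2] := by
        unfold cw
        rw [e1, hM]
        exact dg_pk (lt40 (by omega)) (lt40 (by omega)) (lt40 (by omega)) (lt40 (by omega))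
          (lt40 (by omega))
      refine ⟨g + XX * M, ⟨fun i => ?_, ?_, ?_⟩, ?_, rfl⟩
      · rw [e3]
        fin_cases i <;> simp <;> omega
      · unfold gw
        rw [e2]
        exact hg
      · rw [e3]
        unfold gw
        rw [e2]
        exact h2'
      · funext i
        simp only [Pi.smul_apply, smul_eq_mul, Pi.add_apply, wv]
        rw [e3]
        have r0 : (2:ℝ) * ((s0 / 2 : ℕ) : ℝ) = cw v 0 + cw w 0 := by
          rw [← x0] at q0 ⊢; exact_mod_cast q0
        have r1 : (2:ℝ) * ((s1 / 2 : ℕ) : ℝ) = cw v 1 + cw w 1 := by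
          rw [← x1] at q1 ⊢; exact_mod_cast q1
        have r2 : (2:ℝ) * ((s2 / 2 : ℕ) : ℝ) = cw v 2 + cw w 2 := by
          rw [← x2] at q2 ⊢; exact_mod_cast q2
        have r3 : (2:ℝ) * ((s3 / 2 : ℕ) : ℝ) = cw v 3 + cw w 3 := by
          rw [← x3] at q3 ⊢; exact_mod_cast q3
        have r4 : (2:ℝ) * ((s4 / 2 : ℕ) : ℝ) = cw v 4 + cw w 4 := by
          rw [← x4] at q4 ⊢; exact_mod_cast q4
        have r5 : (2:ℝ) * ((s5 / 2 : ℕ) : ℝ) = cw v 5 + cw w 5 := by
          rw [← x5] at q5 ⊢; exact_mod_cast q5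
        fin_cases i
        · exact r0
        · exact r1
        · exact r2
        · exact r3
        · exact r4
        · exact r5

/-- a property holds on the cone over six vectors -/
def GoodX (Q : (Fin 6 → ℝ) → Prop) (x : Fin 6 → Fin 6 → ℝ) : Prop :=
  ∀ l : Fin 6 → ℝ, (∀ i, 0 ≤ l i) → PD (∑ i, l i • x i) → Q (∑ i, l i • x i)

lemma goodX_split {Q : (Fin 6 → ℝ) → Prop} (x : Fin 6 → Fin 6 → ℝ) (i j : Fin 6) (hij : i ≠ j)
    (m : Fin 6 → ℝ) (hm : (2:ℝ) • m = x i + x j) (h1 : GoodX Q (Function.update x i m))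
    (h2 : GoodX Q (Function.update x j m)) : GoodX Q x := by
  have key : ∀ (i j : Fin 6) (_ : i ≠ j) (_ : (2:ℝ) • m = x i + x j)
      (l : Fin 6 → ℝ), (∀ k, 0 ≤ l k) → l i ≤ l j → ∃ l' : Fin 6 → ℝ, (∀ k, 0 ≤ l' k) ∧
      ∑ k, l' k • (Function.update x i m k) = ∑ k, l k • x k := by
    intro i j hij hm l hl hle
    refine ⟨Function.update (Function.update l i (2 * l i)) j (l j - l i), fun k => ?_, ?_⟩
    · by_cases hkj : k = j
      · subst hkj
        rw [Function.update_self]
        linarith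
      · rw [Function.update_of_ne hkj]
        by_cases hki : k = i
        · subst hki
          rw [Function.update_self]
          linarith [hl k]
        · rw [Function.update_of_ne hki]
          exact hl k
    · have hji : j ∈ Finset.univ.erase i := Finset.mem_erase.2 ⟨hij.symm, Finset.mem_univ j⟩
      rw [← Finset.add_sum_erase _ _ (Finset.mem_univ i), ← Finset.add_sum_erase _ _ hji,
        ← Finset.add_sum_erase (a := i) _ (fun k => l k • x k) (Finset.mem_univ i),
        ← Finset.add_sum_erase _ (fun k => l k • x k) hji]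
      rw [Function.update_self, Function.update_self, Function.update_of_ne hij.symm,
        Function.update_of_ne hij, Function.update_self]
      have e1 : ∑ y ∈ (Finset.univ.erase i).erase j,
          Function.update (Function.update l i (2 * l i)) j (l j - l i) y •
            (Function.update x i m y) = ∑ y ∈ (Finset.univ.erase i).erase j, l y • x y := by
        refine Finset.sum_congr rfl fun y hy => ?_
        have hxj : y ≠ j := (Finset.mem_erase.1 hy).1
        have hxi : y ≠ i := (Finset.mem_erase.1 (Finset.mem_erase.1 hy).2).1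
        rw [Function.update_of_ne hxj, Function.update_of_ne hxi, Function.update_of_ne hxi]
      rw [e1, ← add_assoc, ← add_assoc]
      congr 1
      rw [mul_comm 2 (l i), mul_smul, hm, smul_add, sub_smul]
      abel
  intro l hl hp
  rcases le_total (l i) (l j) with h | h
  · obtain ⟨l', hl', e⟩ := key i j hij hm l hl h
    rw [← e] at hp ⊢
    exact h1 l' hl' hp
  · obtain ⟨l', hl', e⟩ := key j i hij.symm (by rw [hm, add_comm]) l hl h
    rw [← e] at hp ⊢
    exact h2 l' hl' hp

/-- the property on the cone over a list of vertices -/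
def Good (Q : (Fin 6 → ℝ) → Prop) (V : List ℕ) : Prop := GoodX Q (fun i => wv (gt V i))

/-- validity of a list of vertices -/
def VL (V : List ℕ) : Prop := V.length = 6 ∧ ∀ W ∈ V, Vd W

lemma gt_eq (V : List ℕ) : ∀ i, i < V.length → gt V i ∈ V ∧ ∀ m, gt (V.set i m) i = m := by
  induction V with
  | nil => intro i h; exact absurd h (Nat.not_lt_zero _)
  | cons w L ih =>
    intro i h
    cases i with
    | zero => exact ⟨List.mem_cons_self, fun _ => rfl⟩
    | succ i =>
      obtain ⟨h1, h2⟩ := ih i (by simpa using h)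
      exact ⟨List.mem_cons_of_mem _ h1, fun m => h2 m⟩

lemma gt_set_ne (V : List ℕ) : ∀ i j m, j ≠ i → gt (V.set i m) j = gt V j := by
  induction V with
  | nil => intro i j m _; rfl
  | cons w L ih =>
    intro i j m h
    cases i with
    | zero =>
      cases j with
      | zero => exact absurd rfl h
      | succ j => rfl
    | succ i =>
      cases j with
      | zero => rfl
      | succ j => exact ih i j m (fun e => h (by rw [e]))

lemma upd_eq (m : ℕ) (V : List ℕ) : ∀ i k, i < V.length → upd m V i k = k (V.set i m) := by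
  induction V with
  | nil => intro i k h; exact absurd h (Nat.not_lt_zero _)
  | cons w L ih =>
    intro i k h
    cases i with
    | zero => rfl
    | succ i => exact ih i (fun L' => k (w :: L')) (by simpa using h)

lemma good_split' {Q : (Fin 6 → ℝ) → Prop} {V : List ℕ} (hV : V.length = 6) {i j m : ℕ}
    (hij : i < j) (hj : j < 6) (hm : (2:ℝ) • wv m = wv (gt V i) + wv (gt V j))
    (h1 : Good Q (V.set i m)) (h2 : Good Q (V.set j m)) : Good Q V := by
  have hi : i < 6 := hij.trans hj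
  have key : ∀ a (ha : a < 6), (fun t : Fin 6 => wv (gt (V.set a m) t)) =
      Function.update (fun t : Fin 6 => wv (gt V t)) ⟨a, ha⟩ (wv m) := by
    intro a ha
    funext t
    by_cases h : t = ⟨a, ha⟩
    · subst h
      rw [Function.update_self]
      show wv (gt (V.set a m) a) = wv m
      rw [(gt_eq V a (by omega)).2 m]
    · rw [Function.update_of_ne h, gt_set_ne]
      intro e
      exact h (Fin.ext e)
  unfold Good at h1 h2 ⊢
  rw [key i hi] at h1
  rw [key j hj] at h2
  refine goodX_split _ ⟨i, hi⟩ ⟨j, hj⟩ (fun e => ?_) (wv m) hm h1 h2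
  have := congrArg Fin.val e
  simp only at this
  omega

end Pool.Agent.U316.Th
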